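import Pool.Agent.H581R3.GPR.Rot
import Mathlib

/-!
Bounds for the archimedean factors.
-/

set_option autoImplicit false

open Complex MeasureTheory Set

namespace Run7.h343.NF

lemma norm_cpow_one_add (σ : ℝ) (z : ℂ) : ‖(1 + σ * I : ℂ) ^ z‖ =
    (Real.sqrt (1 + σ ^ 2)) ^ z.re * Real.exp (-(Real.arctan σ * z.im)) := by
  have hre : (1 + σ * I : ℂ).re = 1 := by simp
  have him : (1 + σ * I : ℂ).im = σ := by simp
  have h0 : (1 + σ * I : ℂ) ≠ 0 := by
    intro h
    have := congrArg Complex.re h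
    rw [hre] at this
    simp at this
  have hn : ‖(1 + σ * I : ℂ)‖ = Real.sqrt (1 + σ ^ 2) := by
    rw [Complex.norm_def, Complex.normSq_apply, hre, him]
    congr 1
    ring
  have harg : (1 + σ * I : ℂ).arg = Real.arctan σ := by
    rw [Complex.arg_of_re_nonneg (by rw [hre]; norm_num), him, hn, Real.arctan_eq_arcsin]
  rw [Complex.norm_cpow_of_ne_zero h0, hn, harg, Real.exp_neg, div_eq_mul_inv]

/-- upper bound for the gamma function along a ray -/
lemma Gamma_le (σ : ℝ) {z : ℂ} (hz : 0 < z.re) :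
    ‖Gamma z‖ ≤ Real.Gamma z.re * ((Real.sqrt (1 + σ ^ 2)) ^ z.re * Real.exp (-(Real.arctan σ * z.im))) := by
  have hre : (1 + σ * I : ℂ).re = 1 := by simp
  have h0 : (1 + σ * I : ℂ) ≠ 0 := by
    intro h
    have := congrArg Complex.re h
    rw [hre] at this
    simp at this
  have h1 := Pool.Agent.H581R3.GPR.Rot.rot_formula hz (r := 1 + σ * I) (by rw [hre]; norm_num)
  have harg : (1 + σ * I : ℂ).arg ≠ Real.pi := by
    intro h
    have := (Complex.arg_eq_pi_iff.1 h).1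
    rw [hre] at this
    linarith
  have h2 : Gamma z = (1 + σ * I : ℂ) ^ z * ∫ t : ℝ in Ioi 0, (t : ℂ) ^ (z - 1) * cexp (-((1 + σ * I) * t)) := by
    rw [h1, one_div, Complex.inv_cpow _ _ harg, mul_inv_cancel_left₀]
    rw [Ne, Complex.cpow_eq_zero_iff]
    exact fun h => h0 h.1
  rw [h2, norm_mul, norm_cpow_one_add, mul_comm]
  refine mul_le_mul_of_nonneg_right ?_ (by positivity)
  have h3 := Real.Gamma_eq_integral hz
  rw [h3]
  refine norm_integral_le_of_norm_le (Real.GammaIntegral_convergent hz) ?_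
  refine (ae_restrict_iff' measurableSet_Ioi).2 (Filter.Eventually.of_forall fun t ht => ?_)
  have ht0 : (0 : ℝ) < t := ht
  rw [norm_mul, Complex.norm_cpow_eq_rpow_re_of_pos ht0, Complex.norm_exp]
  have e1 : (-((1 + σ * I) * t) : ℂ).re = -t := by simp
  rw [e1, sub_re, one_re, mul_comm]

lemma norm_sin_le (z : ℂ) : ‖Complex.sin z‖ ≤ Real.exp |z.im| := by
  unfold Complex.sin
  have h1 : ‖cexp (-z * I)‖ ≤ Real.exp |z.im| := by
    rw [Complex.norm_exp]
    apply Real.exp_le_exp.2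
    have : (-z * I).re = z.im := by simp
    rw [this]
    exact le_abs_self _
  have h2 : ‖cexp (z * I)‖ ≤ Real.exp |z.im| := by
    rw [Complex.norm_exp]
    apply Real.exp_le_exp.2
    have : (z * I).re = -z.im := by simp
    rw [this]
    exact neg_le_abs _
  rw [norm_div, norm_mul, Complex.norm_I, mul_one]
  have h3 := norm_sub_le (cexp (-z * I)) (cexp (z * I))
  have h4 : ‖(2 : ℂ)‖ = 2 := by simp
  rw [h4]
  linarith

lemma arctan_lower {x : ℝ} (hx : 0 < x) : Real.pi / 2 - 1 / x ≤ Real.arctan x := by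
  have h1 := Real.arctan_inv_of_pos hx
  have h2 : Real.arctan x⁻¹ ≤ x⁻¹ := by
    have h3 : 0 < x⁻¹ := inv_pos.2 hx
    have h4 := Real.lt_tan (x := Real.arctan x⁻¹) (by
      rw [← Real.arctan_zero]; exact Real.arctan_strictMono h3) (Real.arctan_lt_pi_div_two _)
    rw [Real.tan_arctan] at h4
    exact h4.le
  rw [one_div]
  linarith

/-- **the archimedean factor** on the central line, after the choice of the weight -/
theorem arch {a : ℝ} (ha0 : 0 < a) (ha1 : a < 1) (v : ℝ) : ∃ σ : ℝ, Real.sqrt (1 + σ ^ 2) ≤ 2 + 2 * |v| ∧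
    ‖(1 + σ * I : ℂ) ^ (a + v * I : ℂ)‖ * ‖Gamma (a + v * I)‖⁻¹ ≤
      Real.Gamma (1 - a) * Real.exp 1 / Real.pi * Real.sqrt (1 + σ ^ 2) := by
  obtain ⟨σ, hσ1, hσ2⟩ : ∃ σ : ℝ, |σ| = 1 + 2 * |v| ∧ Real.pi * |v| - 1 ≤ 2 * (v * Real.arctan σ) := by
    have hx : 0 < 1 + 2 * |v| := by positivity
    have h1 := arctan_lower hx
    have h2 : |v| * (1 / (1 + 2 * |v|)) ≤ 1 / 2 := by
      rw [mul_one_div, div_le_iff₀ hx]
      linarith
    have h3 : |v| * (Real.pi / 2 - 1 / (1 + 2 * |v|)) ≤ |v| * Real.arctan (1 + 2 * |v|) :=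
      mul_le_mul_of_nonneg_left h1 (abs_nonneg _)
    rcases le_total 0 v with hv | hv
    · refine ⟨1 + 2 * |v|, abs_of_pos hx, ?_⟩
      rw [abs_of_nonneg hv] at *
      nlinarith
    · refine ⟨-(1 + 2 * |v|), by rw [abs_neg, abs_of_pos hx], ?_⟩
      rw [Real.arctan_neg]
      rw [abs_of_nonpos hv] at *
      nlinarith
  refine ⟨σ, ?_, ?_⟩
  · rw [Real.sqrt_le_left (by positivity), ← sq_abs σ, hσ1]
    nlinarith [abs_nonneg v]
  obtain ⟨z, hz⟩ : ∃ z : ℂ, z = a + v * I := ⟨_, rfl⟩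
  have hzre : z.re = a := by rw [hz]; simp
  have hzim : z.im = v := by rw [hz]; simp
  have hz1re : (1 - z).re = 1 - a := by rw [sub_re, hzre, one_re]
  have hz1im : (1 - z).im = -v := by rw [sub_im, hzim, one_im, zero_sub]
  rw [← hz]
  have hG0 : 0 < ‖Gamma z‖ := by
    rw [norm_pos_iff]
    exact Gamma_ne_zero_of_re_pos (by rw [hzre]; exact ha0)
  have hG1 : 0 < ‖Gamma (1 - z)‖ := by
    rw [norm_pos_iff]
    exact Gamma_ne_zero_of_re_pos (by rw [hz1re]; linarith)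
  have hrefl := Complex.Gamma_mul_Gamma_one_sub z
  have hsin : Complex.sin (Real.pi * z) ≠ 0 := by
    intro h0
    rw [h0, div_zero] at hrefl
    rcases mul_eq_zero.1 hrefl with h | h
    · rw [h, norm_zero] at hG0; exact lt_irrefl _ hG0
    · rw [h, norm_zero] at hG1; exact lt_irrefl _ hG1
  have hsin0 : 0 < ‖Complex.sin (Real.pi * z)‖ := norm_pos_iff.2 hsin
  have h2 : ‖Gamma z‖⁻¹ = ‖Gamma (1 - z)‖ * ‖Complex.sin (Real.pi * z)‖ / Real.pi := by
    have h3 := congrArg norm hrefl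
    rw [norm_mul, norm_div, Complex.norm_real, Real.norm_of_nonneg Real.pi_pos.le] at h3
    have hπ := Real.pi_pos
    rw [eq_div_iff hsin0.ne'] at h3
    obtain ⟨S, hS⟩ : ∃ S, S = ‖Complex.sin (Real.pi * z)‖ := ⟨_, rfl⟩
    rw [← hS] at h3 ⊢
    rw [eq_div_iff hπ.ne']
    nth_rewrite 1 [← h3]
    field_simp
  have h3 := Gamma_le (-σ) (z := 1 - z) (by rw [hz1re]; linarith)
  rw [hz1re, hz1im, Real.arctan_neg, neg_sq] at h3
  have h4 : ‖Complex.sin (Real.pi * z)‖ ≤ Real.exp (Real.pi * |v|) := by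
    refine (norm_sin_le _).trans (le_of_eq ?_)
    rw [im_ofReal_mul, hzim, abs_mul, abs_of_pos Real.pi_pos]
  rw [h2, norm_cpow_one_add, hzre, hzim]
  have hΓ : 0 < Real.Gamma (1 - a) := Real.Gamma_pos_of_pos (by linarith)
  have hs0 : 0 < Real.sqrt (1 + σ ^ 2) := Real.sqrt_pos.2 (by positivity)
  have hπ := Real.pi_pos
  obtain ⟨r, hr⟩ : ∃ r, r = Real.sqrt (1 + σ ^ 2) := ⟨_, rfl⟩
  rw [← hr] at h3 hs0 ⊢
  calc r ^ a * Real.exp (-(Real.arctan σ * v)) * (‖Gamma (1 - z)‖ * ‖Complex.sin (Real.pi * z)‖ / Real.pi)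
      ≤ r ^ a * Real.exp (-(Real.arctan σ * v)) * ((Real.Gamma (1 - a) * (r ^ (1 - a) *
        Real.exp (-(-Real.arctan σ * -v)))) * Real.exp (Real.pi * |v|) / Real.pi) := by gcongr
    _ = Real.Gamma (1 - a) / Real.pi * (r ^ a * r ^ (1 - a)) * (Real.exp (-(Real.arctan σ * v)) *
        Real.exp (-(-Real.arctan σ * -v)) * Real.exp (Real.pi * |v|)) := by ring
    _ ≤ Real.Gamma (1 - a) / Real.pi * r * Real.exp 1 := by
        have e1 : r ^ a * r ^ (1 - a) = r := by
          rw [← Real.rpow_add hs0]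
          simp
        have e2 : Real.exp (-(Real.arctan σ * v)) * Real.exp (-(-Real.arctan σ * -v)) *
            Real.exp (Real.pi * |v|) ≤ Real.exp 1 := by
          rw [← Real.exp_add, ← Real.exp_add]
          apply Real.exp_le_exp.2
          linarith
        rw [e1]
        gcongr
    _ = _ := by ring

end Run7.h343.NF
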