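import Pool.Agent.Run7.h343.NF.Nf4

/-!
Hecke characters of conductor a power of an unramified prime ideal of degree one.
-/

set_option autoImplicit false
set_option linter.unusedSectionVars false

open NumberField Finset Complex

namespace Run7.h343.NF

attribute [local instance] decEm

variable {K : Type} [Field K] [NumberField K]

/-- the archimedean factor -/
noncomputable def kp (τ : InfinitePlace K → ℝ) (x : K) : ℂ := ∏ w : InfinitePlace K, ((w x : ℝ) : ℂ) ^ (τ w * I)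

/-- a spherical unitary Hecke character of conductor `𝔭 ^ ν` and type `τ` -/
structure HC (𝔭 : Ideal (𝓞 K)) (ν : ℕ) (τ : InfinitePlace K → ℝ) (ψ : Ideal (𝓞 K) →*₀ ℂ) : Prop where
  norm_one : ∀ 𝔞 : Ideal (𝓞 K), ¬ 𝔞 ≤ 𝔭 → ‖ψ 𝔞‖ = 1
  zero : ∀ 𝔞 : Ideal (𝓞 K), 𝔞 ≤ 𝔭 → ψ 𝔞 = 0
  prin : ∀ x : 𝓞 K, x ≠ 0 → x - 1 ∈ 𝔭 ^ ν → ψ (Ideal.span {x}) = kp τ (x : K)
  exact : ∃ x : 𝓞 K, x ∉ 𝔭 ∧ x - 1 ∈ 𝔭 ^ (ν - 1) ∧ ψ (Ideal.span {x}) ≠ kp τ (x : K)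

lemma kp_mul (τ : InfinitePlace K → ℝ) (x y : K) : kp τ (x * y) = kp τ x * kp τ y := by
  unfold kp
  rw [← prod_mul_distrib]
  refine prod_congr rfl fun w _ => ?_
  rw [map_mul, ofReal_mul, mul_cpow_ofReal_nonneg (apply_nonneg _ _) (apply_nonneg _ _)]

lemma kp_ne (τ : InfinitePlace K → ℝ) {x : K} (hx : x ≠ 0) : kp τ x ≠ 0 := by
  unfold kp
  refine prod_ne_zero_iff.2 fun w _ => ?_
  have h1 : (0 : ℝ) < w x := by rw [InfinitePlace.pos_iff]; exact hx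
  rw [Ne, cpow_eq_zero_iff, not_and_or]
  left
  exact_mod_cast h1.ne'

lemma kp_norm (τ : InfinitePlace K → ℝ) {x : K} (hx : x ≠ 0) : ‖kp τ x‖ = 1 := by
  unfold kp
  rw [norm_prod]
  refine prod_eq_one fun w _ => ?_
  have h1 : (0 : ℝ) < w x := by rw [InfinitePlace.pos_iff]; exact hx
  rw [norm_cpow_eq_rpow_re_of_pos h1]
  simp

/-- the finite part -/
noncomputable def Xf (τ : InfinitePlace K → ℝ) (ψ : Ideal (𝓞 K) →*₀ ℂ) (x : 𝓞 K) : ℂ :=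
  ψ (Ideal.span {x}) * (kp τ (x : K))⁻¹

variable {p : ℕ} {𝔭 : Ideal (𝓞 K)} {ν : ℕ} {τ : InfinitePlace K → ℝ} {ψ : Ideal (𝓞 K) →*₀ ℂ}

lemma Xf_mul (x y : 𝓞 K) : Xf τ ψ (x * y) = Xf τ ψ x * Xf τ ψ y := by
  unfold Xf
  have e1 : (((x * y : 𝓞 K)) : K) = (x : K) * (y : K) := map_mul _ _ _
  rw [← Ideal.span_singleton_mul_span_singleton, map_mul, e1, kp_mul, mul_inv]
  ring

lemma HC.Xf_zero (h : HC 𝔭 ν τ ψ) {x : 𝓞 K} (hx : x ∈ 𝔭) : Xf τ ψ x = 0 := by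
  unfold Xf
  rw [h.zero _ ((Ideal.span_singleton_le_iff_mem _).2 hx), zero_mul]

lemma HC.Xf_norm (h : HC 𝔭 ν τ ψ) {x : 𝓞 K} (hx : x ∉ 𝔭) : ‖Xf τ ψ x‖ = 1 := by
  have hx0 : (x : K) ≠ 0 := by
    intro h0
    have : x = 0 := by exact_mod_cast h0
    rw [this] at hx
    exact hx 𝔭.zero_mem
  unfold Xf
  rw [norm_mul, norm_inv, kp_norm τ hx0, h.norm_one _ (fun h1 => hx ((Ideal.span_singleton_le_iff_mem _).1 h1))]
  norm_num

lemma HC.Xf_one (h : HC 𝔭 ν τ ψ) {x : 𝓞 K} (hx0 : x ≠ 0) (hx : x - 1 ∈ 𝔭 ^ ν) : Xf τ ψ x = 1 := by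
  unfold Xf
  rw [h.prin x hx0 hx]
  exact mul_inv_cancel₀ (kp_ne τ (by exact_mod_cast hx0))

/-- the finite part depends on the residue only -/
lemma HC.Xf_congr (h : HC 𝔭 ν τ ψ) (hP : P1 p 𝔭) (hν : 1 ≤ ν) {x y : 𝓞 K} (hxy : x - y ∈ 𝔭 ^ ν) :
    Xf τ ψ x = Xf τ ψ y := by
  have hle : 𝔭 ^ ν ≤ 𝔭 := Ideal.pow_le_self (by omega)
  by_cases hx : x ∈ 𝔭
  · have hy : y ∈ 𝔭 := by
      have := 𝔭.sub_mem hx (hle hxy)
      rwa [sub_sub_cancel] at this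
    rw [h.Xf_zero hx, h.Xf_zero hy]
  have hy : y ∉ 𝔭 := by
    intro hy
    apply hx
    have := 𝔭.add_mem (hle hxy) hy
    rwa [sub_add_cancel] at this
  -- an inverse of `x`
  obtain ⟨u, hu⟩ := hP.exists_int ν x
  have hup : ¬ (p : ℤ) ∣ u := by
    rw [← hP.int_mem]
    intro h1
    apply hx
    have h2 := 𝔭.add_mem (hle hu) h1
    rwa [sub_add_cancel] at h2
  obtain ⟨v, w, hvw⟩ : IsCoprime u ((p : ℤ) ^ ν) := by
    apply IsCoprime.pow_right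
    rw [isCoprime_comm]
    exact (Nat.prime_iff_prime_int.1 hP.hp).coprime_iff_not_dvd.2 hup
  have hpν : ((p : 𝓞 K) ^ ν) ∈ 𝔭 ^ ν := Ideal.pow_mem_pow hP.mem ν
  have h2 : (v : 𝓞 K) * (u : 𝓞 K) + (w : 𝓞 K) * (p : 𝓞 K) ^ ν = 1 := by
    exact_mod_cast congrArg (fun z : ℤ => (z : 𝓞 K)) hvw
  have h1x : (v : 𝓞 K) * x - 1 ∈ 𝔭 ^ ν := by
    have e1 : (v : 𝓞 K) * x - 1 = (v : 𝓞 K) * (x - u) - (w : 𝓞 K) * (p : 𝓞 K) ^ ν := by
      linear_combination h2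
    rw [e1]
    exact Ideal.sub_mem _ (Ideal.mul_mem_left _ _ hu) (Ideal.mul_mem_left _ _ hpν)
  have h1y : (v : 𝓞 K) * y - 1 ∈ 𝔭 ^ ν := by
    have e1 : (v : 𝓞 K) * y - 1 = ((v : 𝓞 K) * x - 1) - (v : 𝓞 K) * (x - y) := by ring
    rw [e1]
    exact Ideal.sub_mem _ h1x (Ideal.mul_mem_left _ _ hxy)
  have hne : ∀ z : 𝓞 K, z - 1 ∈ 𝔭 ^ ν → z ≠ 0 := by
    intro z hz h0
    rw [h0, zero_sub] at hz
    apply hP.isPrime.ne_top
    rw [Ideal.eq_top_iff_one]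
    have := hle hz
    rwa [neg_mem_iff] at this
  have ex := h.Xf_one (hne _ h1x) h1x
  have ey := h.Xf_one (hne _ h1y) h1y
  rw [Xf_mul] at ex ey
  have hv0 : Xf τ ψ (v : 𝓞 K) ≠ 0 := by
    intro h0
    rw [h0, zero_mul] at ex
    exact zero_ne_one ex
  exact mul_left_cancel₀ hv0 (ex.trans ey.symm)

lemma int_sub (m n : ℤ) : ((m : 𝓞 K)) - (n : 𝓞 K) = ((m - n : ℤ) : 𝓞 K) := by push_cast; rfl

lemma HC.Xf_int (h : HC 𝔭 ν τ ψ) (hP : P1 p 𝔭) (hν : 1 ≤ ν) {m n : ℤ} (hmn : (p : ℤ) ^ ν ∣ m - n) :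
    Xf τ ψ (m : 𝓞 K) = Xf τ ψ (n : 𝓞 K) := by
  refine h.Xf_congr hP hν ?_
  rw [int_sub, hP.int_mem_pow]
  exact hmn

/-- **the Dirichlet character** -/
theorem HC.exists_chi (h : HC 𝔭 ν τ ψ) (hP : P1 p 𝔭) (hν : 1 ≤ ν) :
    ∃ χ : DirichletCharacter ℂ (p ^ ν), χ.IsPrimitive ∧ ∀ n : ℤ, χ (n : ZMod (p ^ ν)) = Xf τ ψ (n : 𝓞 K) := by
  haveI : NeZero (p ^ ν) := ⟨pow_ne_zero _ hP.hp.ne_zero⟩
  have hval : ∀ a : ZMod (p ^ ν), ∀ n : ℤ, (n : ZMod (p ^ ν)) = a → Xf τ ψ (n : 𝓞 K) = Xf τ ψ ((a.val : ℤ) : 𝓞 K) := by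
    intro a n hn
    refine h.Xf_int hP hν ?_
    have h1 : (((a.val : ℤ)) : ZMod (p ^ ν)) = (n : ZMod (p ^ ν)) := by rw [hn]; simp
    rw [ZMod.intCast_eq_intCast_iff] at h1
    have h2 := Int.modEq_iff_dvd.1 h1
    exact_mod_cast h2
  have hone : Xf τ ψ (1 : 𝓞 K) = 1 := h.Xf_one one_ne_zero (by simp)
  obtain ⟨χ, hχ⟩ : ∃ χ : DirichletCharacter ℂ (p ^ ν), ∀ a, χ a = Xf τ ψ ((a.val : ℤ) : 𝓞 K) := by
    refine ⟨{ toFun := fun a => Xf τ ψ ((a.val : ℤ) : 𝓞 K), map_one' := ?_, map_mul' := ?_, map_nonunit' := ?_ },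
      fun a => rfl⟩
    · rw [← hval 1 1 (by simp)]
      simpa using hone
    · intro a b
      rw [← Xf_mul, ← hval (a * b) ((a.val : ℤ) * (b.val : ℤ)) (by simp)]
      congr 1
      push_cast
      rfl
    · intro a ha
      refine h.Xf_zero ?_
      rw [hP.int_mem]
      by_contra hd
      apply ha
      have h1 : Nat.Coprime a.val (p ^ ν) := by
        apply Nat.Coprime.pow_right
        rw [Nat.coprime_comm, Nat.Prime.coprime_iff_not_dvd hP.hp]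
        exact_mod_cast hd
      have h2 := (ZMod.isUnit_iff_coprime a.val (p ^ ν)).2 h1
      simpa using h2
  have hχn : ∀ n : ℤ, χ (n : ZMod (p ^ ν)) = Xf τ ψ (n : 𝓞 K) := fun n => by
    rw [hχ, hval _ n rfl]
  refine ⟨χ, ?_, hχn⟩
  obtain ⟨x, hxp, hx1, hxψ⟩ := h.exact
  obtain ⟨n, hn⟩ := hP.exists_int ν x
  have hXn : Xf τ ψ (n : 𝓞 K) ≠ 1 := by
    rw [← h.Xf_congr hP hν hn]
    intro h1
    apply hxψ
    unfold Xf at h1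
    have hx0 : (x : K) ≠ 0 := by
      intro h0
      have : x = 0 := by exact_mod_cast h0
      rw [this] at hxp
      exact hxp 𝔭.zero_mem
    exact (mul_inv_eq_one₀ (kp_ne τ hx0)).1 h1
  have hle : 𝔭 ^ ν ≤ 𝔭 := Ideal.pow_le_self (by omega)
  have hle' : 𝔭 ^ ν ≤ 𝔭 ^ (ν - 1) := Ideal.pow_le_pow_right (Nat.sub_le _ _)
  have hnp : ¬ (p : ℤ) ∣ n := by
    rw [← hP.int_mem]
    intro h1
    apply hxp
    have h2 := 𝔭.add_mem (hle hn) h1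
    rwa [sub_add_cancel] at h2
  have hn1 : (p : ℤ) ^ (ν - 1) ∣ n - 1 := by
    rw [← hP.int_mem_pow]
    have e1 : ((n - 1 : ℤ) : 𝓞 K) = (x - 1) - (x - (n : 𝓞 K)) := by push_cast; ring
    rw [e1]
    exact Ideal.sub_mem _ hx1 (hle' hn)
  -- primitivity
  by_contra hcon
  unfold DirichletCharacter.IsPrimitive at hcon
  obtain ⟨j, hj, hcj⟩ := (Nat.dvd_prime_pow hP.hp).1 (DirichletCharacter.conductor_dvd_level χ)
  have hjν : j ≤ ν - 1 := by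
    rcases Nat.lt_or_ge j ν with h1 | h1
    · omega
    · exfalso
      apply hcon
      rw [hcj, le_antisymm hj h1]
  have hf := DirichletCharacter.factorsThrough_conductor χ
  obtain ⟨hd, χ', hχ'⟩ := hf
  apply hXn
  rw [← hχn]
  have hunit : IsUnit ((n : ZMod (p ^ ν))) := by
    have h1 : IsCoprime n ((p ^ ν : ℕ) : ℤ) := by
      push_cast
      apply IsCoprime.pow_right
      rw [isCoprime_comm]
      exact (Nat.prime_iff_prime_int.1 hP.hp).coprime_iff_not_dvd.2 hnp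
    exact (ZMod.coe_int_isUnit_iff_isCoprime n (p ^ ν)).2 h1.symm
  have e0 : χ (n : ZMod (p ^ ν)) = χ' ((n : ZMod (p ^ ν)).cast : ZMod χ.conductor) := by
    have := DirichletCharacter.changeLevel_eq_cast_of_dvd χ' hd hunit.unit
    rw [← hχ', IsUnit.unit_spec] at this
    exact this
  rw [e0]
  have e1 : ((n : ZMod (p ^ ν)).cast : ZMod χ.conductor) = 1 := by
    rw [ZMod.cast_intCast hd]
    have h1 : ((1 : ℤ) : ZMod χ.conductor) = (n : ZMod χ.conductor) := by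
      rw [ZMod.intCast_eq_intCast_iff]
      refine Int.modEq_iff_dvd.2 ?_
      rw [hcj]
      refine dvd_trans ?_ hn1
      exact_mod_cast pow_dvd_pow p hjν
    rw [← h1, Int.cast_one]
  rw [e1, map_one]

/-- the values on an adapted basis -/
theorem HC.Xf_el (h : HC 𝔭 ν τ ψ) (hP : P1 p 𝔭) (hν : 1 ≤ ν) {χ : DirichletCharacter ℂ (p ^ ν)}
    (hχ : ∀ n : ℤ, χ (n : ZMod (p ^ ν)) = Xf τ ψ (n : 𝓞 K)) {o : K →+* ℂ} {C : Matrix (K →+* ℂ) (K →+* ℂ) ℤ}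
    (hC : ∀ i, i ≠ o → cl C i ∈ 𝔭 ^ ν) (x : (K →+* ℂ) → ℤ) :
    Xf τ ψ (el0 (C.mulVec x)) = χ ((x o : ℤ) : ZMod (p ^ ν)) * Xf τ ψ (cl C o) := by
  rw [hχ, ← Xf_mul]
  refine h.Xf_congr hP hν ?_
  rw [el0_mulVec, ← add_sum_erase _ _ (mem_univ o), add_sub_cancel_left]
  exact Ideal.sum_mem _ fun i hi => Ideal.mul_mem_left _ _ (hC i (ne_of_mem_erase hi))

end Run7.h343.NF
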