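import Pool.Agent.Run7.h343.NF.Un3

/-!
Decay of the theta function at both ends, and the entire continuation.
-/

set_option autoImplicit false
set_option linter.unusedSectionVars false

open NumberField Complex Filter Topology MeasureTheory Set Asymptotics
open NumberField.Units NumberField.Units.dirichletUnitTheorem

namespace Run7.h343.NF

open Pool.Agent.Y773 (Idx el PP cube)
open Pool.Agent.Y773.G (sum_el)

attribute [local instance] decEm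

section gen

variable {ι : Type} [Fintype ι] [DecidableEq ι]

/-- polynomial decay -/
theorem nz_pow [Nonempty ι] {κ : ℝ} (hκ : 0 < κ) (N : ℕ) : ∃ D : ℝ, 0 < D ∧ ∀ B : Matrix ι ι ℝ, B.det ≠ 0 →
    (∀ x : ι → ℤ, x ≠ 0 → κ * |B.det| ≤ ‖em B x‖ ^ Fintype.card ι) → nz B * |B.det| ^ (2 * N + 1) ≤ D := by
  obtain ⟨n, hn⟩ : ∃ n, n = Fintype.card ι := ⟨_, rfl⟩
  have hC := Cp_pos ι
  refine ⟨((n * N).factorial : ℝ) * (Cp ι * 2 ^ n) / κ ^ (2 * N + 1), by positivity, fun B hB h => ?_⟩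
  have hd : 0 < |B.det| := abs_pos.2 hB
  obtain ⟨μ, hμ, hμn⟩ := exists_root (n := Fintype.card ι) Fintype.card_ne_zero (mul_pos hκ hd)
  have h1 := nz_exp hB hκ h hμ.le hμn.le
  rw [← hn] at h1 hμn
  have h2 : Real.exp (-(Real.pi * μ ^ 2 / 2)) ≤ ((n * N).factorial : ℝ) / (κ * |B.det|) ^ (2 * N) := by
    have h3 := Real.pow_div_factorial_le_exp (μ ^ 2) (by positivity) (n * N)
    have h4 : (μ ^ 2) ^ (n * N) = (κ * |B.det|) ^ (2 * N) := by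
      rw [← hμn, ← pow_mul, ← pow_mul]
      congr 1
      ring
    rw [h4] at h3
    have h5 : Real.exp (-(Real.pi * μ ^ 2 / 2)) ≤ (Real.exp (μ ^ 2))⁻¹ := by
      rw [← Real.exp_neg]
      apply Real.exp_le_exp.2
      have := Real.pi_gt_three
      nlinarith [sq_nonneg μ]
    refine h5.trans ?_
    have hf : (0 : ℝ) < (n * N).factorial := by exact_mod_cast Nat.factorial_pos _
    rw [inv_le_comm₀ (Real.exp_pos _) (by positivity), inv_div]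
    exact h3
  calc nz B * |B.det| ^ (2 * N + 1) ≤ (((n * N).factorial : ℝ) / (κ * |B.det|) ^ (2 * N) *
        (Cp ι * 2 ^ n / (κ * |B.det|))) * |B.det| ^ (2 * N + 1) := by
        refine mul_le_mul_of_nonneg_right (h1.trans ?_) (by positivity)
        exact mul_le_mul_of_nonneg_right h2 (by positivity)
    _ = _ := by
        rw [mul_pow, pow_succ, pow_succ]
        field_simp

end gen

variable {K : Type} [Field K] [NumberField K]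

variable (K) in
/-- the constant of the minimal vectors -/
noncomputable def κK : ℝ := Classical.choose (min_nf K)

lemma κK_pos : 0 < κK K := (Classical.choose_spec (min_nf K)).1

lemma min_nf1 {𝔠 : Ideal (𝓞 K)} {C : Matrix (K →+* ℂ) (K →+* ℂ) ℤ} (h : IsL C 𝔠) (y : InfinitePlace K → ℝ) :
    ∀ x : (K →+* ℂ) → ℤ, x ≠ 0 → κK K * |(sc y * LC C).det| ≤ ‖em (sc y * LC C) x‖ ^ Fintype.card (K →+* ℂ) :=
  ((Classical.choose_spec (min_nf K)).2 𝔠 C h y).1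

lemma min_nf2 {𝔠 : Ideal (𝓞 K)} {C : Matrix (K →+* ℂ) (K →+* ℂ) ℤ} (h : IsL C 𝔠) (y : InfinitePlace K → ℝ) :
    ∀ x : (K →+* ℂ) → ℤ, x ≠ 0 → κK K * |(dl (sc y * LC C)).det| ≤
      ‖em (dl (sc y * LC C)) x‖ ^ Fintype.card (K →+* ℂ) :=
  ((Classical.choose_spec (min_nf K)).2 𝔠 C h y).2

variable {p : ℕ} {𝔭 𝔟 : Ideal (𝓞 K)} {ν : ℕ} {τ : InfinitePlace K → ℝ} {ψ : Ideal (𝓞 K) →*₀ ℂ}
  {χ : DirichletCharacter ℂ (p ^ ν)} {o : K →+* ℂ} {C : Matrix (K →+* ℂ) (K →+* ℂ) ℤ}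

lemma Dat.chi0 (h : Dat p 𝔭 ν τ ψ 𝔟 χ o C) : χ 0 = 0 := by
  have h1 := h.hχ 0
  rw [Int.cast_zero, Int.cast_zero, h.hC.Xf_zero (𝔭.zero_mem)] at h1
  exact h1

lemma Dat.chi0' (h : Dat p 𝔭 ν τ ψ 𝔟 χ o C) : χ⁻¹ 0 = 0 := by
  rw [MulChar.inv_apply, Ring.inverse_zero]
  exact h.chi0

/-- the size of the weights -/
noncomputable def Rσ (σ : InfinitePlace K → ℝ) : ℝ := ∏ φ : K →+* ℂ, Real.sqrt (1 + wσ σ φ ^ 2)

lemma Rσ_one_le (σ : InfinitePlace K → ℝ) : 1 ≤ Rσ σ := by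
  unfold Rσ
  have h : ∀ φ ∈ (Finset.univ : Finset (K →+* ℂ)), 1 ≤ Real.sqrt (1 + wσ σ φ ^ 2) := by
    intro φ _
    rw [Real.one_le_sqrt]
    nlinarith [sq_nonneg (wσ σ φ)]
  calc (1 : ℝ) = ∏ _φ : K →+* ℂ, (1 : ℝ) := by simp
    _ ≤ _ := Finset.prod_le_prod (fun _ _ => zero_le_one) h

lemma Rσ_le {σ : InfinitePlace K → ℝ} {S : ℝ} (hS : ∀ w, Real.sqrt (1 + σ w ^ 2) ≤ S) :
    Rσ σ ≤ S ^ Fintype.card (K →+* ℂ) := by
  unfold Rσ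
  calc ∏ φ : K →+* ℂ, Real.sqrt (1 + wσ σ φ ^ 2) ≤ ∏ _φ : K →+* ℂ, S :=
        Finset.prod_le_prod (fun φ _ => Real.sqrt_nonneg _) fun φ _ => hS _
    _ = _ := by rw [Finset.prod_const, Finset.card_univ]

lemma Aq_det_inv {A : Matrix (K →+* ℂ) (K →+* ℂ) ℝ} (σ : InfinitePlace K → ℝ) (o : K →+* ℂ) {q : ℝ} (hq : 0 < q) :
    |(Aq A (wσ σ) o q).det|⁻¹ = Rσ σ * q * |A.det| := by
  rw [Aq_det A (wσ σ) o hq]
  unfold Rσ
  rw [Finset.prod_inv_distrib, mul_inv, inv_inv, inv_inv]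
  ring

/-- decay for large arguments -/
theorem Dat.dec_top (N : ℕ) : ∃ D : ℝ, 0 < D ∧ ∀ (p : ℕ) (𝔭 𝔟 : Ideal (𝓞 K)) (ν : ℕ) (τ : InfinitePlace K → ℝ)
    (ψ : Ideal (𝓞 K) →*₀ ℂ) (χ : DirichletCharacter ℂ (p ^ ν)) (o : K →+* ℂ) (C : Matrix (K →+* ℂ) (K →+* ℂ) ℤ),
    Dat p 𝔭 ν τ ψ 𝔟 χ o C → ∀ (σ y : InfinitePlace K → ℝ),
      ‖Th χ o (sc y * LC C) (wσ σ)‖ * |(sc y * LC C).det| ^ (2 * N + 1) ≤ D ∧
      ‖Th χ o (sc y * LC C) (wσ σ)‖ ^ 2 ≤ D ^ 2 * (Rσ σ * (p : ℝ) ^ ν) ^ (4 * N + 1) *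
        |(sc y * LC C).det| ^ (4 * N) := by
  obtain ⟨D, hD, h0⟩ := nz_pow (ι := K →+* ℂ) (κK_pos (K := K)) N
  refine ⟨D, hD, fun p 𝔭 𝔟 ν τ ψ χ o C h σ y => ?_⟩
  have hp0 : (0 : ℝ) < p := by exact_mod_cast h.hP.hp.pos
  have hL := h.chn.isL
  have hne := B_ne hL y
  constructor
  · have h1 := h0 _ hne (min_nf1 hL y)
    exact (mul_le_mul_of_nonneg_right (Th_triv χ o hne _ h.chi0) (by positivity)).trans h1
  · obtain ⟨A, hA⟩ : ∃ A, A = Aq (sc y * LC C) (wσ σ) o ((p : ℝ) ^ ν) := ⟨_, rfl⟩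
    have hAne : A.det ≠ 0 := by
      rw [hA]
      exact Aq_det_ne hne _ _ (pow_ne_zero _ hp0.ne')
    have hmin : ∀ x : (K →+* ℂ) → ℤ, x ≠ 0 → κK K * |A.det| ≤ ‖em A x‖ ^ Fintype.card (K →+* ℂ) := by
      have h1 := Aq_eq h.hP.hp.pos y σ C o (Nat.zero_le ν)
      rw [pow_zero, Dm_one, mul_one, Nat.sub_zero] at h1
      rw [hA, h1]
      exact min_nf2 (h.chn ν le_rfl) _
    have h2 := h0 _ hAne hmin
    have h3 := Th_triv χ⁻¹ o hAne (-(wσ σ)) h.chi0'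
    have h4 := Th_fe h.hP.hp h.prim o hne (wσ σ)
    rw [← hA] at h4
    obtain ⟨u, hu⟩ : ∃ u, u = |(sc y * LC C).det| := ⟨_, rfl⟩
    obtain ⟨u', hu'⟩ : ∃ u', u' = |A.det| := ⟨_, rfl⟩
    have hu0 : 0 < u := by rw [hu]; exact abs_pos.2 hne
    have hu0' : 0 < u' := by rw [hu']; exact abs_pos.2 hAne
    have huu : u'⁻¹ = Rσ σ * (p : ℝ) ^ ν * u := by
      rw [hu', hu, hA]
      exact Aq_det_inv σ o (by positivity)
    rw [← hu] at h4 ⊢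
    rw [← hu'] at h4 h2
    have h5 : ‖Th χ⁻¹ o A (-(wσ σ))‖ ≤ D * u'⁻¹ ^ (2 * N + 1) := by
      refine h3.trans ?_
      rw [inv_pow, ← div_eq_mul_inv, le_div_iff₀ (by positivity)]
      exact h2
    have h6 : ‖Th χ o (sc y * LC C) (wσ σ)‖ ^ 2 * u ≤ (D * u'⁻¹ ^ (2 * N + 1)) ^ 2 * u' := by
      rw [h4]
      exact mul_le_mul_of_nonneg_right (pow_le_pow_left₀ (norm_nonneg _) h5 2) hu0'.le
    have h7 : (D * u'⁻¹ ^ (2 * N + 1)) ^ 2 * u' = D ^ 2 * (Rσ σ * (p : ℝ) ^ ν) ^ (4 * N + 1) * u ^ (4 * N) * u := by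
      have e1 : (D * u'⁻¹ ^ (2 * N + 1)) ^ 2 * u' = D ^ 2 * u'⁻¹ ^ (4 * N + 1) := by
        have e2 : (u'⁻¹ ^ (2 * N + 1)) ^ 2 = u'⁻¹ ^ (4 * N + 1) * u'⁻¹ := by
          rw [← pow_mul, ← pow_succ]
          congr 1
          ring
        rw [mul_pow, e2, mul_assoc, mul_assoc, inv_mul_cancel₀ hu0'.ne', mul_one]
      rw [e1, huu]
      ring
    rw [h7] at h6
    exact le_of_mul_le_mul_right h6 hu0

/-! ### the function `hz` -/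

lemma cube_eq : cube K = Set.pi univ fun _ : Fin (rank K) => Ico (0 : ℝ) 1 := by
  ext θ
  simp only [cube, mem_ofPred_eq, Set.mem_pi, mem_univ, true_imp_iff]
  refine forall_congr' fun i => ?_
  rw [Int.floor_eq_zero_iff]

lemma vol_cube : volume (cube K) = 1 := by
  rw [cube_eq, Real.volume_pi_Ico]
  simp

lemma hz_le {M : ℝ} (σ : InfinitePlace K → ℝ) {t : ℝ}
    (h : ∀ θ, ‖Th χ o (sc (el K ((2 / Module.finrank ℚ K) * Real.log t, θ)) * LC C) (wσ σ)‖ ≤ M) :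
    ‖hz χ o C σ τ t‖ ≤ M := by
  unfold hz
  have h1 := norm_setIntegral_le_of_norm_le_const (μ := volume) (s := cube K) (C := M)
    (f := fun θ => Th χ o (sc (el K ((2 / Module.finrank ℚ K) * Real.log t, θ)) * LC C) (wσ σ) *
      phz τ (el K ((2 / Module.finrank ℚ K) * Real.log t, θ))) (by rw [vol_cube]; exact ENNReal.one_lt_top)
    (fun θ _ => by rw [norm_mul, norm_phz, mul_one]; exact h θ)
  refine h1.trans (le_of_eq ?_)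
  rw [Measure.real, vol_cube, ENNReal.toReal_one, mul_one]

/-- the covolume of the ideal -/
noncomputable def Vb (𝔟 : Ideal (𝓞 K)) : ℝ := VK K * (Ideal.absNorm 𝔟 : ℝ)

lemma Vb_pos (h𝔟 : 𝔟 ≠ ⊥) : 0 < Vb 𝔟 := by
  unfold Vb
  have h1 : 0 < (Ideal.absNorm 𝔟 : ℝ) := by
    have : Ideal.absNorm 𝔟 ≠ 0 := by rw [Ne, Ideal.absNorm_eq_zero_iff]; exact h𝔟
    exact_mod_cast Nat.pos_of_ne_zero this
  exact mul_pos VK_pos h1

lemma det_t (h : IsL C 𝔟) {t : ℝ} (ht : 0 < t) (θ : Fin (rank K) → ℝ) :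
    |(sc (el K ((2 / Module.finrank ℚ K) * Real.log t, θ)) * LC C).det| = t * Vb 𝔟 := by
  rw [B_det h]
  unfold sy Vb
  rw [sum_el]
  have hn : (0 : ℝ) < Module.finrank ℚ K := by exact_mod_cast Module.finrank_pos
  have e1 : (Module.finrank ℚ K : ℝ) * (2 / (Module.finrank ℚ K : ℝ) * Real.log t) / 2 = Real.log t := by
    field_simp
  rw [e1, Real.exp_log ht]

/-- decay of `hz` -/
theorem Dat.hz_dec (h : Dat p 𝔭 ν τ ψ 𝔟 χ o C) (σ : InfinitePlace K → ℝ) (N : ℕ) : ∃ D : ℝ, 0 < D ∧ ∀ t : ℝ, 0 < t →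
    ‖hz χ o C σ τ t‖ ≤ D * t ^ (-((2 * N + 1 : ℕ) : ℝ)) ∧ ‖hz χ o C σ τ t‖ ≤ D * t ^ ((2 * N : ℕ) : ℝ) := by
  obtain ⟨D, hD, h0⟩ := Dat.dec_top (K := K) N
  have hp0 : (0 : ℝ) < p := by exact_mod_cast h.hP.hp.pos
  have hL := h.chn.isL
  have hV := Vb_pos hL.ne_bot
  have hR := Rσ_one_le σ
  obtain ⟨E, hE⟩ : ∃ E : ℝ, E = D * Real.sqrt ((Rσ σ * (p : ℝ) ^ ν) ^ (4 * N + 1)) * (Vb 𝔟) ^ (2 * N) := ⟨_, rfl⟩
  obtain ⟨F, hF⟩ : ∃ F : ℝ, F = D * ((Vb 𝔟) ^ (2 * N + 1))⁻¹ := ⟨_, rfl⟩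
  have hE0 : 0 < E := by
    rw [hE]
    have : 0 < (Rσ σ * (p : ℝ) ^ ν) ^ (4 * N + 1) := by positivity
    have := Real.sqrt_pos.2 this
    positivity
  have hF0 : 0 < F := by rw [hF]; positivity
  refine ⟨E + F, by positivity, fun t ht => ⟨?_, ?_⟩⟩
  · have h1 : ‖hz χ o C σ τ t‖ ≤ F * t ^ (-((2 * N + 1 : ℕ) : ℝ)) := by
      refine hz_le σ fun θ => ?_
      have h2 := (h0 p 𝔭 𝔟 ν τ ψ χ o C h σ (el K ((2 / Module.finrank ℚ K) * Real.log t, θ))).1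
      rw [det_t hL ht] at h2
      rw [hF, Real.rpow_neg ht.le, Real.rpow_natCast, mul_assoc, ← mul_inv, ← mul_pow, ← div_eq_mul_inv,
        le_div_iff₀ (by positivity), mul_comm (Vb 𝔟) t]
      exact h2
    refine h1.trans ?_
    have : 0 < t ^ (-((2 * N + 1 : ℕ) : ℝ)) := Real.rpow_pos_of_pos ht _
    nlinarith
  · have h1 : ‖hz χ o C σ τ t‖ ≤ E * t ^ ((2 * N : ℕ) : ℝ) := by
      refine hz_le σ fun θ => ?_
      have h2 := (h0 p 𝔭 𝔟 ν τ ψ χ o C h σ (el K ((2 / Module.finrank ℚ K) * Real.log t, θ))).2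
      rw [det_t hL ht] at h2
      rw [Real.rpow_natCast]
      refine le_of_pow_le_pow_left₀ (n := 2) (by norm_num) (by positivity) (h2.trans (le_of_eq ?_))
      obtain ⟨W, hW⟩ : ∃ W, W = (Rσ σ * (p : ℝ) ^ ν) ^ (4 * N + 1) := ⟨_, rfl⟩
      have hW0 : 0 ≤ W := by rw [hW]; positivity
      rw [hE, ← hW]
      linear_combination (-(D ^ 2 * Vb 𝔟 ^ (4 * N) * t ^ (4 * N))) * Real.sq_sqrt hW0
    refine h1.trans ?_
    have : 0 < t ^ ((2 * N : ℕ) : ℝ) := Real.rpow_pos_of_pos ht _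
    nlinarith

lemma Dat.hz_loc (h : Dat p 𝔭 ν τ ψ 𝔟 χ o C) (σ : InfinitePlace K → ℝ) :
    LocallyIntegrableOn (hz χ o C σ τ) (Ioi 0) := by
  obtain ⟨C0, -, h0⟩ := mellin_hz K
  have h1 := (h0 p 𝔭 ν τ ψ 𝔟 χ o C h σ 2 (by simp)).1
  unfold MellinConvergent at h1
  have h2 : LocallyIntegrableOn (fun t : ℝ => ((t : ℂ))⁻¹ • (((t : ℂ) ^ ((2 : ℂ) - 1)) • hz χ o C σ τ t)) (Ioi 0) := by
    refine h1.locallyIntegrableOn.continuousOn_smul (isOpen_Ioi.isLocallyClosed) ?_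
    refine ContinuousOn.inv₀ (by fun_prop) fun t ht => ?_
    exact_mod_cast (ne_of_gt (mem_Ioi.1 ht))
  refine h2.congr ?_
  refine (ae_restrict_iff' measurableSet_Ioi).2 (Eventually.of_forall fun t ht => ?_)
  have ht0 : (t : ℂ) ≠ 0 := by exact_mod_cast (ne_of_gt (mem_Ioi.1 ht))
  have e1 : (2 : ℂ) - 1 = 1 := by norm_num
  simp only
  rw [e1, Complex.cpow_one, smul_eq_mul, smul_eq_mul, inv_mul_cancel_left₀ ht0]

lemma Dat.hz_top (h : Dat p 𝔭 ν τ ψ 𝔟 χ o C) (σ : InfinitePlace K → ℝ) (N : ℕ) :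
    hz χ o C σ τ =O[atTop] fun t : ℝ => t ^ (-((2 * N + 1 : ℕ) : ℝ)) := by
  obtain ⟨D, hD, h0⟩ := h.hz_dec σ N
  refine IsBigO.of_bound D ?_
  filter_upwards [eventually_gt_atTop 0] with t ht
  rw [Real.norm_of_nonneg (Real.rpow_nonneg ht.le _)]
  exact (h0 t ht).1

lemma Dat.hz_bot (h : Dat p 𝔭 ν τ ψ 𝔟 χ o C) (σ : InfinitePlace K → ℝ) (N : ℕ) :
    hz χ o C σ τ =O[𝓝[>] 0] fun t : ℝ => t ^ (-(-((2 * N : ℕ) : ℝ))) := by
  obtain ⟨D, hD, h0⟩ := h.hz_dec σ N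
  refine IsBigO.of_bound D ?_
  filter_upwards [self_mem_nhdsWithin] with t ht
  have ht0 : (0 : ℝ) < t := ht
  rw [Real.norm_of_nonneg (Real.rpow_nonneg ht0.le _), neg_neg]
  exact (h0 t ht0).2

/-- the Mellin transform is entire -/
theorem Dat.mel_diff (h : Dat p 𝔭 ν τ ψ 𝔟 χ o C) (σ : InfinitePlace K → ℝ) :
    Differentiable ℂ (mellin (hz χ o C σ τ)) := by
  intro s
  obtain ⟨N, hN⟩ := exists_nat_gt |s.re|
  have h1 := (abs_lt.1 hN)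
  refine mellin_differentiableAt_of_isBigO_rpow (h.hz_loc σ) (h.hz_top σ N) ?_ (h.hz_bot σ N) ?_
  · push_cast
    have : (0 : ℝ) ≤ N := Nat.cast_nonneg N
    linarith [h1.2]
  · push_cast
    have : (0 : ℝ) ≤ N := Nat.cast_nonneg N
    linarith [h1.1]

end Run7.h343.NF
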