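import Pool.Agent.Run7.h343.NF.Cos
import Pool.Agent.Helper112.MultLS

/-!
The functional equation of the theta series.
-/

set_option autoImplicit false
set_option linter.unusedSectionVars false

namespace Run7.h343.NF

open Complex Finset
open Pool.Agent.H442R2
open Pool.Agent.Y766.R7
open Pool.Agent.Y766.R3 (eu FF FH)

variable {ι : Type} [Fintype ι] [DecidableEq ι]

/-- the row scaling -/
noncomputable def rs (σ : ι → ℝ) : Matrix ι ι ℝ := Matrix.diagonal fun i => (Real.sqrt (1 + σ i ^ 2))⁻¹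

lemma rs_pos (σ : ι → ℝ) (i : ι) : 0 < Real.sqrt (1 + σ i ^ 2) := Real.sqrt_pos.2 (by positivity)

lemma rs_det (σ : ι → ℝ) : (rs σ).det = ∏ i, (Real.sqrt (1 + σ i ^ 2))⁻¹ := by
  unfold rs
  rw [Matrix.det_diagonal]

/-- the dual matrix -/
noncomputable def Aq (A : Matrix ι ι ℝ) (σ : ι → ℝ) (o : ι) (P : ℝ) : Matrix ι ι ℝ := rs σ * dl (A * Dm o P)

lemma Aq_det_ne {A : Matrix ι ι ℝ} (hA : A.det ≠ 0) (σ : ι → ℝ) (o : ι) {P : ℝ} (hP : P ≠ 0) :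
    (Aq A σ o P).det ≠ 0 := by
  unfold Aq
  rw [Matrix.det_mul, rs_det, dl_det, Matrix.det_mul, Dm_det]
  refine mul_ne_zero (prod_ne_zero_iff.2 fun i _ => inv_ne_zero (rs_pos σ i).ne') (inv_ne_zero (mul_ne_zero hA hP))

lemma Aq_det (A : Matrix ι ι ℝ) (σ : ι → ℝ) (o : ι) {P : ℝ} (hP : 0 < P) :
    |(Aq A σ o P).det| = (∏ i, (Real.sqrt (1 + σ i ^ 2))⁻¹) * (|A.det| * P)⁻¹ := by
  unfold Aq
  rw [Matrix.det_mul, rs_det, dl_det, Matrix.det_mul, Dm_det, abs_mul, abs_inv, abs_mul, abs_of_pos hP,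
    abs_of_pos (prod_pos fun i _ => inv_pos.2 (rs_pos σ i))]

lemma em_Aq (A : Matrix ι ι ℝ) (σ : ι → ℝ) (o : ι) (P : ℝ) (h : ι → ℤ) (i : ι) :
    em (Aq A σ o P) h i = (Real.sqrt (1 + σ i ^ 2))⁻¹ * (dl (A * Dm o P)).mulVec (cst h) i := by
  rw [em_apply]
  unfold Aq rs
  rw [← Matrix.mulVec_mulVec, Matrix.mulVec_diagonal]

theorem poisZ {A : Matrix ι ι ℝ} (hA : A.det ≠ 0) (o : ι) {P : ℕ} (hP : 0 < P) {F : ℤ → ℂ}
    (hF : ∀ n k : ℤ, F (n + P * k) = F n) (hF1 : ∀ n, ‖F n‖ ≤ 1) (σ : ι → ℝ) :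
    ∑' β, F (β o) * gz A σ β = ((((|A.det| * P)⁻¹ : ℝ) : ℂ) * ∏ i, (1 / (1 + σ i * I)) ^ (1 / 2 : ℂ)) *
      ∑' h, FH P F (h o) * gz (Aq A σ o P) (-σ) h := by
  have hP0 : (0 : ℝ) < P := by exact_mod_cast hP
  have hsum : Summable fun β : ι → ℤ => F (β o) * gz A σ β := by
    refine Summable.of_norm_bounded (ga_summable hA 0) fun β => ?_
    rw [norm_mul, gz_norm]
    exact mul_le_of_le_one_left (ga_nonneg _ _ _) (hF1 _)
  rw [tsum_dec o hP hsum]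
  obtain ⟨B, hB⟩ : ∃ B, B = A * Dm o (P : ℝ) := ⟨_, rfl⟩
  have hBd : B.det ≠ 0 := by
    rw [hB, Matrix.det_mul, Dm_det]
    exact mul_ne_zero hA hP0.ne'
  have hBabs : |B.det|⁻¹ = (|A.det| * P)⁻¹ := by
    rw [hB, Matrix.det_mul, Dm_det, abs_mul, abs_of_pos hP0]
  have hper : ∀ (a : ℕ) (x : ι → ℤ), F (cls o (a : ℕ) P x o) = F a := by
    intro a x
    rw [cls_o]
    exact hF a (x o)
  have hc : ∀ i, 0 < (1 + σ i * I : ℂ).re := by intro i; simp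
  have hc2 : ∀ i, (1 + σ i * I : ℂ) ≠ 0 := by
    intro i h; have := hc i; rw [h] at this; simp at this
  obtain ⟨T, hT⟩ : ∃ T : ℂ, T = ((((|A.det| * P)⁻¹ : ℝ) : ℂ) * ∏ i, (1 / (1 + σ i * I)) ^ (1 / 2 : ℂ)) := ⟨_, rfl⟩
  have hcls : ∀ a : ℕ, ∑' x, gz A σ (cls o (a : ℕ) P x) =
      T * ∑' h, KF.e (((h o : ℤ) : ℝ) * ((a : ℝ) / P)) * gz (Aq A σ o P) (-σ) h := by
    intro a
    have e1 : ∀ x : ι → ℤ, gz A σ (cls o (a : ℕ) P x) =
        gc (fun i => 1 + σ i * I) (fun _ => 0) (B.mulVec ((fun i => if i = o then (a : ℝ) / P else 0) + cst x)) := by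
      intro x
      rw [hB, ← cls_cst A o hP]
      unfold gz gc
      congr 1
      refine sum_congr rfl fun i _ => ?_
      rw [em_apply]
      ring
    simp_rw [e1]
    rw [pois' hBd hc, ← tsum_mul_left, ← tsum_mul_left]
    refine tsum_congr fun h => ?_
    rw [ph_sum, hT, hBabs]
    have e6 : KF.e (((h o : ℤ) : ℝ) * ((a : ℝ) / P)) = cexp (2 * Real.pi * I * (((h o : ℝ) * ((a : ℝ) / P) : ℝ) : ℂ)) := by
      unfold KF.e
      congr 1
      push_cast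
      ring
    have e7 : gh (fun i => 1 + σ i * I) (fun _ => 0) ((dl B).mulVec (cst h)) =
        (∏ i, (1 / (1 + σ i * I)) ^ (1 / 2 : ℂ)) * gz (Aq A σ o P) (-σ) h := by
      unfold gh gz
      congr 2
      refine sum_congr rfl fun i _ => ?_
      rw [em_Aq, ← hB]
      have h1 : ((Real.sqrt (1 + σ i ^ 2) : ℝ) : ℂ) ^ 2 = 1 + (σ i : ℂ) ^ 2 := by
        have := Real.sq_sqrt (by positivity : (0 : ℝ) ≤ 1 + σ i ^ 2)
        rw [← ofReal_pow, this]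
        push_cast
        rfl
      have h2 : ((Real.sqrt (1 + σ i ^ 2) : ℝ) : ℂ) ≠ 0 := by exact_mod_cast (rs_pos σ i).ne'
      have h3 := hc2 i
      have hI : I ^ 2 = -1 := I_sq
      have h4 : (1 + (σ i : ℂ) ^ 2) ≠ 0 := by rw [← h1]; exact pow_ne_zero 2 h2
      rw [ofReal_mul, ofReal_inv, mul_pow, inv_pow, h1, Pi.neg_apply, ofReal_neg]
      have h6 : (1 + -(σ i : ℂ) * I) * (1 + (σ i : ℂ) ^ 2)⁻¹ = 1 / (1 + σ i * I) := by
        rw [← div_eq_mul_inv, div_eq_div_iff h4 h3]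
        linear_combination (-(σ i : ℂ) ^ 2) * hI
      linear_combination (Real.pi * (((dl B).mulVec (cst h) i : ℝ) : ℂ) ^ 2) * h6 +
        (Real.pi * (((dl B).mulVec (cst h) i : ℝ) : ℂ) ^ 2 / (1 + σ i * I)) * hI
    rw [e6, e7]
    ring
  have e5 : ∀ a ∈ range P, ∑' x, F (cls o (a : ℕ) P x o) * gz A σ (cls o (a : ℕ) P x) =
      ∑' h, T * ((F a * KF.e (((h o : ℤ) : ℝ) * ((a : ℝ) / P))) * gz (Aq A σ o P) (-σ) h) := by
    intro a _
    simp_rw [hper]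
    rw [tsum_mul_left, hcls, ← tsum_mul_left, ← tsum_mul_left]
    refine tsum_congr fun h => ?_
    ring
  rw [sum_congr rfl e5]
  have hAq := Aq_det_ne hA σ o hP0.ne'
  have hs : ∀ a ∈ range P, Summable fun h : ι → ℤ =>
      T * ((F a * KF.e (((h o : ℤ) : ℝ) * ((a : ℝ) / P))) * gz (Aq A σ o P) (-σ) h) := by
    intro a _
    refine Summable.mul_left _ ?_
    refine Summable.of_norm_bounded (ga_summable hAq 0) fun h => ?_
    rw [norm_mul, norm_mul, ← Pool.Agent.Y766.R3.eu_eq, eu_norm, mul_one, gz_norm]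
    exact mul_le_of_le_one_left (ga_nonneg _ _ _) (hF1 _)
  rw [← Summable.tsum_finsetSum hs, ← hT, ← tsum_mul_left]
  refine tsum_congr fun h => ?_
  rw [← mul_sum, ← sum_mul]
  unfold FH
  ring

/-- sums over `range q` and over `ZMod q` -/
lemma sum_zmod (q : ℕ) [NeZero q] (f : ZMod q → ℂ) : ∑ a ∈ range q, f (a : ZMod q) = ∑ a : ZMod q, f a := by
  refine sum_bij' (fun a _ => (a : ZMod q)) (fun x _ => x.val) ?_ ?_ ?_ ?_ ?_
  · intro a _; exact mem_univ _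
  · intro x _; exact mem_range.2 (ZMod.val_lt x)
  · intro a ha
    exact ZMod.val_cast_of_lt (mem_range.1 ha)
  · intro x _
    exact ZMod.natCast_zmod_val x
  · intro a _; rfl

lemma FH_char {q : ℕ} [NeZero q] {χ : DirichletCharacter ℂ q} (hχ : χ.IsPrimitive) (j : ℤ) :
    FH q (fun n => χ (n : ZMod q)) j = χ⁻¹ (j : ZMod q) * gaussSum χ (ZMod.stdAddChar : AddChar (ZMod q) ℂ) := by
  rw [← gaussSum_mulShift_of_isPrimitive _ hχ]
  unfold FH gaussSum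
  rw [← sum_zmod]
  refine sum_congr rfl fun a _ => ?_
  rw [AddChar.mulShift_apply]
  have e1 : ((j : ZMod q) * (a : ZMod q)) = (((j * a : ℤ)) : ZMod q) := by push_cast; rfl
  rw [e1, ZMod.stdAddChar_coe]
  unfold KF.e
  congr 1
  · simp
  · congr 1
    push_cast
    ring

lemma norm_root (s : ℝ) : ‖((1 / (1 + s * I) : ℂ)) ^ (1 / 2 : ℂ)‖ ^ 2 = (Real.sqrt (1 + s ^ 2))⁻¹ := by
  have h1 : ((1 / 2 : ℂ)) = ((1 / 2 : ℝ) : ℂ) := by push_cast; rfl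
  rw [h1, Complex.norm_cpow_real]
  have h2 : ‖(1 / (1 + s * I) : ℂ)‖ = (Real.sqrt (1 + s ^ 2))⁻¹ := by
    rw [norm_div, norm_one, one_div]
    congr 1
    rw [Complex.norm_def, Complex.normSq_apply]
    simp
    congr 1
    ring
  rw [h2, ← Real.rpow_natCast, ← Real.rpow_mul (by positivity)]
  norm_num

/-- **functional equation**, in absolute value -/
theorem Th_fe {p ν : ℕ} (hp : p.Prime) {χ : DirichletCharacter ℂ (p ^ ν)} (hχ : χ.IsPrimitive) (o : ι)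
    {A : Matrix ι ι ℝ} (hA : A.det ≠ 0) (σ : ι → ℝ) :
    ‖Th χ o A σ‖ ^ 2 * |A.det| =
      ‖Th χ⁻¹ o (Aq A σ o ((p : ℝ) ^ ν)) (-σ)‖ ^ 2 * |(Aq A σ o ((p : ℝ) ^ ν)).det| := by
  haveI : NeZero (p ^ ν) := ⟨pow_ne_zero _ hp.ne_zero⟩
  have hp0 : (0 : ℝ) < p := by exact_mod_cast hp.pos
  have hdA : 0 < |A.det| := abs_pos.2 hA
  obtain ⟨τ, hτ⟩ : ∃ τ, τ = gaussSum χ (ZMod.stdAddChar : AddChar (ZMod (p ^ ν)) ℂ) := ⟨_, rfl⟩
  have hτn : ‖τ‖ ^ 2 = (p : ℝ) ^ ν := by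
    have h1 := Pool.Agent.Helper112.MLS.norm_gauss (p ^ ν) hχ
    rw [← hτ] at h1
    rw [h1]
    push_cast
    rfl
  have hpois := poisZ hA o (P := p ^ ν) (pow_pos hp.pos ν) (F := fun n => χ (n : ZMod (p ^ ν))) (fun n k => by
    congr 1
    rw [Int.cast_add, Int.cast_mul]
    have h0 : (((p ^ ν : ℕ) : ℤ) : ZMod (p ^ ν)) = 0 := by
      rw [Int.cast_natCast]; exact ZMod.natCast_self _
    rw [h0]; ring) (fun n => χ.norm_le_one _) σ
  have e1 : Th χ o A σ = ∑' β : ι → ℤ, (fun n : ℤ => χ (n : ZMod (p ^ ν))) (β o) * gz A σ β := rfl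
  have e2 : ∑' h : ι → ℤ, FH (p ^ ν) (fun n => χ (n : ZMod (p ^ ν))) (h o) * gz (Aq A σ o ((p ^ ν : ℕ) : ℝ)) (-σ) h =
      τ * Th χ⁻¹ o (Aq A σ o ((p ^ ν : ℕ) : ℝ)) (-σ) := by
    unfold Th
    rw [← tsum_mul_left]
    refine tsum_congr fun h => ?_
    rw [FH_char hχ, ← hτ]
    ring
  rw [e1, hpois, e2]
  have hpc : ((p ^ ν : ℕ) : ℝ) = (p : ℝ) ^ ν := by push_cast; rfl
  rw [hpc, norm_mul, norm_mul, norm_mul, Complex.norm_real, norm_prod, mul_pow, mul_pow, mul_pow, hτn,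
    Aq_det A σ o (by positivity), ← prod_pow]
  simp_rw [norm_root]
  rw [Real.norm_eq_abs, sq_abs]
  field_simp

end Run7.h343.NF
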