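import Pool.Agent.Run7.h343.NF.Lf

/-!
The final bound.
-/

set_option autoImplicit false
set_option linter.unusedSectionVars false

open NumberField Complex Filter Topology MeasureTheory Set Asymptotics

namespace Run7.h343.NF

open Pool.Agent.Y773 (PIdl gen qt Reps LI)
open Pool.Agent.Y773.G (sum_classes)

attribute [local instance] decEm

variable {K : Type} [Field K] [NumberField K]

/-- class representatives prime to `𝔣` (from `Pool.Agent.N172.HS.Sum`) -/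
theorem exists_reps {𝔣 : Ideal (𝓞 K)} (h𝔣 : 𝔣 ≠ ⊥) : ∃ 𝔟 : ClassGroup (𝓞 K) → Ideal (𝓞 K), Reps 𝔟 ∧
    ∀ c, IsCoprime (𝔟 c) 𝔣 := by
  have key : ∀ c : ClassGroup (𝓞 K), ∃ 𝔟 : Ideal (𝓞 K), ∃ h0 : 𝔟 ≠ ⊥,
      ClassGroup.mk0 ⟨𝔟, mem_nonZeroDivisors_of_ne_zero h0⟩ = c ∧ IsCoprime 𝔟 𝔣 := by
    intro c
    obtain ⟨I, hI⟩ := ClassGroup.mk0_surjective c⁻¹
    have hI0 : I.1 ≠ ⊥ := nonZeroDivisors.coe_ne_zero I
    have h1 : I.1 * 𝔣 ≤ I.1 := Ideal.mul_le_left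
    have h2 : I.1 * 𝔣 ≠ 0 := mul_ne_zero hI0 h𝔣
    obtain ⟨z, hz⟩ := IsDedekindDomain.exists_sup_span_eq h1 h2
    have h3 : Ideal.span {z} ≤ I.1 := by rw [← hz]; exact le_sup_right
    obtain ⟨C, hC⟩ := Ideal.dvd_iff_le.2 h3
    have h5 : IsCoprime C 𝔣 := by
      rw [Ideal.isCoprime_iff_sup_eq, sup_comm]
      rw [hC, ← Ideal.mul_sup] at hz
      have h4 : I.1 * (𝔣 ⊔ C) = I.1 * ⊤ := by rw [hz, Ideal.mul_top]
      exact mul_left_cancel₀ hI0 h4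
    by_cases hz0 : z = 0
    · -- then `𝔣` is the unit ideal
      have h6 : I.1 * 𝔣 = I.1 * ⊤ := by
        rw [Ideal.mul_top]
        rw [hz0, Ideal.span_singleton_eq_bot.2 rfl, sup_bot_eq] at hz
        exact hz
      have h7 : 𝔣 = ⊤ := mul_left_cancel₀ hI0 h6
      obtain ⟨J, hJ⟩ := ClassGroup.mk0_surjective c
      refine ⟨J.1, nonZeroDivisors.coe_ne_zero J, hJ, ?_⟩
      rw [h7, Ideal.isCoprime_iff_sup_eq, sup_top_eq]
    · have hC0 : C ≠ ⊥ := by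
        rintro rfl
        rw [Ideal.mul_bot, Ideal.span_singleton_eq_bot] at hC
        exact hz0 hC
      refine ⟨C, hC0, ?_, h5⟩
      have hne : I.1 * C ≠ 0 := mul_ne_zero hI0 hC0
      have h8 := (ClassGroup.mk0_eq_one_iff (mem_nonZeroDivisors_of_ne_zero hne)).2 (by
        rw [← hC]
        exact ⟨⟨z, rfl⟩⟩)
      have h9 : ClassGroup.mk0 ⟨I.1 * C, mem_nonZeroDivisors_of_ne_zero hne⟩ =
          ClassGroup.mk0 I * ClassGroup.mk0 ⟨C, mem_nonZeroDivisors_of_ne_zero hC0⟩ := by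
        rw [← map_mul]
        rfl
      rw [h9, hI] at h8
      exact (inv_mul_eq_one.1 h8).symm
  choose 𝔟 h0 h1 h2 using key
  refine ⟨𝔟, ⟨h0, ?_⟩, h2⟩
  simp only [h1]
  exact Function.bijective_id

lemma log_fac {ε : ℝ} (hε : 0 < ε) {p ν : ℕ} (hp7 : 7 ≤ p) :
    (1 + (ν : ℝ)) * (1 + Real.log ((p : ℝ) ^ ν)) ≤ (1 + 2 / ε) ^ 2 * ((p : ℝ) ^ ν) ^ ε := by
  have hp0 : (0 : ℝ) < p := by exact_mod_cast (by omega : 0 < p)
  have hp7' : (7 : ℝ) ≤ p := by exact_mod_cast hp7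
  have hp1 : (1 : ℝ) ≤ p := by linarith
  obtain ⟨Q, hQ⟩ : ∃ Q : ℝ, Q = (p : ℝ) ^ ν := ⟨_, rfl⟩
  have hQ1 : 1 ≤ Q := by rw [hQ]; exact one_le_pow₀ hp1
  have hlogp : 1 ≤ Real.log p := by
    rw [Real.le_log_iff_exp_le hp0]
    have := Real.exp_one_lt_three
    linarith
  have hνl : (ν : ℝ) ≤ Real.log Q := by
    rw [hQ, Real.log_pow]
    have : (0 : ℝ) ≤ ν := Nat.cast_nonneg ν
    nlinarith
  have hlog0 : 0 ≤ Real.log Q := Real.log_nonneg hQ1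
  have h1 : Real.log Q ≤ Q ^ (ε / 2) / (ε / 2) := Real.log_le_rpow_div (by linarith) (by positivity)
  have h2 : 1 ≤ Q ^ (ε / 2) := Real.one_le_rpow hQ1 (by positivity)
  have h3 : 1 + Real.log Q ≤ (1 + 2 / ε) * Q ^ (ε / 2) := by
    have e1 : Q ^ (ε / 2) / (ε / 2) = 2 / ε * Q ^ (ε / 2) := by field_simp
    rw [e1] at h1
    linarith
  rw [← hQ]
  calc (1 + (ν : ℝ)) * (1 + Real.log Q) ≤ (1 + Real.log Q) * (1 + Real.log Q) := by gcongr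
    _ = (1 + Real.log Q) ^ 2 := by ring
    _ ≤ ((1 + 2 / ε) * Q ^ (ε / 2)) ^ 2 := by gcongr
    _ = (1 + 2 / ε) ^ 2 * (Q ^ (ε / 2)) ^ 2 := by ring
    _ = (1 + 2 / ε) ^ 2 * Q ^ ε := by
        congr 1
        rw [← Real.rpow_natCast, ← Real.rpow_mul (by linarith)]
        congr 1
        push_cast
        ring

lemma card_places_le : Fintype.card (InfinitePlace K) ≤ Fintype.card (K →+* ℂ) := by
  rw [card_em]
  calc Fintype.card (InfinitePlace K) = ∑ _w : InfinitePlace K, 1 := by simp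
    _ ≤ _ := Finset.sum_le_sum fun w _ => w.mult_pos

/-- the numerical estimate -/
lemma num_est {ε Cθ V : ℝ} (hε : 0 < ε) (hCθ : 0 < Cθ) (hV : 0 < V) {p ν n : ℕ} (hp7 : 7 ≤ p) {S : ℝ} (hS : 1 ≤ S) :
    Real.sqrt (Cθ * (p : ℝ) ^ (n + 4) * (1 + ν) ^ 2 * S ^ n * ((p : ℝ) ^ ν) ^ (19 / 58 : ℝ) / V) *
      (4 + Real.log (S ^ n * (p : ℝ) ^ ν)) ≤
      Real.sqrt (Cθ / V) * (4 + n) * (1 + 2 / ε) ^ 2 * (p : ℝ) ^ (n + 4) * S ^ (n + 1) *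
        ((p : ℝ) ^ ν) ^ (19 / 116 + ε) := by
  have hp0 : (0 : ℝ) < p := by exact_mod_cast (by omega : 0 < p)
  have hp7' : (7 : ℝ) ≤ p := by exact_mod_cast hp7
  have hp1 : (1 : ℝ) ≤ p := by linarith
  obtain ⟨q, hq⟩ : ∃ q : ℝ, q = (p : ℝ) ^ ν := ⟨_, rfl⟩
  have hq1 : 1 ≤ q := by rw [hq]; exact one_le_pow₀ hp1
  have hq0 : 0 < q := by linarith
  have hlf := log_fac hε (ν := ν) hp7
  rw [← hq] at hlf ⊢
  have hS0 : 0 < S := by linarith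
  have hlogq : 0 ≤ Real.log q := Real.log_nonneg hq1
  have hP : 1 ≤ (p : ℝ) ^ (n + 4) := one_le_pow₀ hp1
  have hSn : 1 ≤ S ^ n := one_le_pow₀ hS
  have h1 : Real.sqrt (Cθ * (p : ℝ) ^ (n + 4) * (1 + ν) ^ 2 * S ^ n * q ^ (19 / 58 : ℝ) / V) ≤
      Real.sqrt (Cθ / V) * (p : ℝ) ^ (n + 4) * (1 + ν) * S ^ n * q ^ (19 / 116 : ℝ) := by
    rw [Real.sqrt_le_left (by positivity)]
    have e1 : (q ^ (19 / 116 : ℝ)) ^ 2 = q ^ (19 / 58 : ℝ) := by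
      rw [← Real.rpow_natCast, ← Real.rpow_mul hq0.le]
      norm_num
    have e2 : (Real.sqrt (Cθ / V)) ^ 2 = Cθ / V := Real.sq_sqrt (by positivity)
    calc Cθ * (p : ℝ) ^ (n + 4) * (1 + ν) ^ 2 * S ^ n * q ^ (19 / 58 : ℝ) / V =
          Cθ / V * ((p : ℝ) ^ (n + 4) * 1) * (1 + ν) ^ 2 * (S ^ n * 1) * q ^ (19 / 58 : ℝ) := by ring
      _ ≤ Cθ / V * ((p : ℝ) ^ (n + 4) * (p : ℝ) ^ (n + 4)) * (1 + ν) ^ 2 * (S ^ n * S ^ n) * q ^ (19 / 58 : ℝ) := by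
          gcongr
      _ = _ := by
          rw [mul_pow, mul_pow, mul_pow, mul_pow, e1, e2]
          ring
  have h2 : 4 + Real.log (S ^ n * q) ≤ (4 + n) * S * (1 + Real.log q) := by
    rw [Real.log_mul (by positivity) hq0.ne', Real.log_pow]
    have h3 : Real.log S ≤ S := (Real.log_le_sub_one_of_pos hS0).trans (by linarith)
    have h4 : (n : ℝ) * Real.log S ≤ n * S := mul_le_mul_of_nonneg_left h3 (Nat.cast_nonneg n)
    have h5 : Real.log q ≤ (4 + n) * S * Real.log q := by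
      refine le_mul_of_one_le_left hlogq ?_
      have : (0 : ℝ) ≤ n := Nat.cast_nonneg n
      nlinarith
    nlinarith
  have h0 : 0 ≤ 4 + Real.log (S ^ n * q) := by
    have : 0 ≤ Real.log (S ^ n * q) := Real.log_nonneg (by nlinarith)
    linarith
  have e3 : q ^ (19 / 116 + ε) = q ^ (19 / 116 : ℝ) * q ^ ε := Real.rpow_add hq0 _ _
  calc _ ≤ (Real.sqrt (Cθ / V) * (p : ℝ) ^ (n + 4) * (1 + ν) * S ^ n * q ^ (19 / 116 : ℝ)) *
        ((4 + n) * S * (1 + Real.log q)) := by gcongr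
    _ = Real.sqrt (Cθ / V) * (4 + n) * (p : ℝ) ^ (n + 4) * S ^ (n + 1) * q ^ (19 / 116 : ℝ) *
        ((1 + ν) * (1 + Real.log q)) := by ring
    _ ≤ Real.sqrt (Cθ / V) * (4 + n) * (p : ℝ) ^ (n + 4) * S ^ (n + 1) * q ^ (19 / 116 : ℝ) *
        ((1 + 2 / ε) ^ 2 * q ^ ε) := by gcongr
    _ = _ := by rw [e3]; ring

variable (K) in
/-- **the main theorem** -/
theorem main {ε : ℝ} (hε : 0 < ε) : ∃ Cm : ℝ, 0 < Cm ∧ ∀ (p : ℕ) (𝔭 : Ideal (𝓞 K)), P1 p 𝔭 → 7 ≤ p →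
    ∀ (ν : ℕ), 1 ≤ ν → ∀ (τ : InfinitePlace K → ℝ) (ψ : Ideal (𝓞 K) →*₀ ℂ), HC 𝔭 ν τ ψ →
    ∃ L : ℂ → ℂ, Differentiable ℂ L ∧ (∀ s : ℂ, 1 < s.re → L s = LI ψ s) ∧
      ∀ t : ℝ, ‖L (1 / 2 + t * I)‖ ≤ Cm * (p : ℝ) ^ (Fintype.card (K →+* ℂ) + 4) *
        (1 + |t| + ∑ w, |τ w|) ^ (2 * Fintype.card (K →+* ℂ) + 1) * ((p : ℝ) ^ ν) ^ (19 / 116 + ε) := by
  classical
  obtain ⟨C0, hC0, hpart⟩ := L_part K
  obtain ⟨Cθ, hCθ, hmel⟩ := mel_bound K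
  obtain ⟨n, hn⟩ : ∃ n, n = Fintype.card (K →+* ℂ) := ⟨_, rfl⟩
  obtain ⟨r, hr⟩ : ∃ r, r = Fintype.card (InfinitePlace K) := ⟨_, rfl⟩
  have hrn : r ≤ n := by rw [hr, hn]; exact card_places_le
  rw [← hn] at hmel ⊢
  have hVK := VK_pos (K := K)
  have hcA := cA_pos (K := K)
  have hcard : 0 < Fintype.card (ClassGroup (𝓞 K)) := Fintype.card_pos
  refine ⟨(Fintype.card (ClassGroup (𝓞 K)) : ℝ) * (C0⁻¹ * (cA K * 2 ^ (2 * n + 1) *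
    (Real.sqrt (Cθ / VK K) * (4 + n) * (1 + 2 / ε) ^ 2))), by positivity, ?_⟩
  intro p 𝔭 hP hp7 ν hν τ ψ hψ
  obtain ⟨𝔟, hreps, hco⟩ := exists_reps hP.ne_bot
  obtain ⟨χ, hprim, hχ⟩ := hψ.exists_chi hP hν
  choose o C hchn hcol hcols using fun c => exists_adapted hP (hreps.ne_bot c) (hco c) ν
  have hDat : ∀ c, Dat p 𝔭 ν τ ψ (𝔟 c) χ (o c) (C c) := fun c =>
    ⟨hP, hν, hψ, hprim, hχ, hchn c, hcol c, hcols c⟩
  have hNpos : ∀ c, (0 : ℝ) < (Ideal.absNorm (𝔟 c) : ℝ) := by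
    intro c
    have : Ideal.absNorm (𝔟 c) ≠ 0 := by rw [Ne, Ideal.absNorm_eq_zero_iff]; exact hreps.ne_bot c
    exact_mod_cast Nat.pos_of_ne_zero this
  refine ⟨fun s => ∑ c, ((Ideal.absNorm (𝔟 c) : ℕ) : ℂ) ^ s * Lq C0 χ (o c) (C c) τ ψ (𝔟 c) (fun _ => 0) s,
    ?_, fun s hs => ?_, fun t => ?_⟩
  · refine Differentiable.fun_sum fun c _ => ?_
    refine Differentiable.mul (Differentiable.const_cpow differentiable_id (Or.inl ?_)) (hpart _ _ _ _ _ _ _ _ _ (hDat c) _).1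
    exact_mod_cast (hNpos c).ne'
  · simp only
    rw [← sum_classes hreps hψ.norm_le hs]
    refine Finset.sum_congr rfl fun c _ => ?_
    rw [(hpart _ _ _ _ _ _ _ _ _ (hDat c) _).2 s hs]
  · obtain ⟨σ, hσ1, hσ2⟩ := exists_weights τ t
    obtain ⟨T, hT⟩ : ∃ T, T = 1 + |t| + ∑ w, |τ w| := ⟨_, rfl⟩
    have hT1 : 1 ≤ T := by
      rw [hT]
      have : 0 ≤ ∑ w, |τ w| := Finset.sum_nonneg fun w _ => abs_nonneg _
      linarith [abs_nonneg t]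
    rw [← hT] at hσ1 hσ2 ⊢
    rw [← hr] at hσ2
    have hp0 : (0 : ℝ) < p := by exact_mod_cast hP.hp.pos
    have hre : (1 / 2 + t * I : ℂ).re = 1 / 2 := by simp
    have hone : ∀ c, ‖((Ideal.absNorm (𝔟 c) : ℕ) : ℂ) ^ (1 / 2 + t * I : ℂ) *
        Lq C0 χ (o c) (C c) τ ψ (𝔟 c) (fun _ => 0) (1 / 2 + t * I)‖ ≤
        C0⁻¹ * (cA K * 2 ^ (2 * n + 1) * (Real.sqrt (Cθ / VK K) * (4 + n) * (1 + 2 / ε) ^ 2)) *
        (p : ℝ) ^ (n + 4) * T ^ (2 * n + 1) * ((p : ℝ) ^ ν) ^ (19 / 116 + ε) := by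
      intro c
      have hD := hDat c
      have e1 : Lq C0 χ (o c) (C c) τ ψ (𝔟 c) (fun _ => 0) = Lq C0 χ (o c) (C c) τ ψ (𝔟 c) σ := by
        refine entire_unique (hpart _ _ _ _ _ _ _ _ _ hD _).1 (hpart _ _ _ _ _ _ _ _ _ hD _).1 fun s hs => ?_
        rw [(hpart _ _ _ _ _ _ _ _ _ hD _).2 s hs, (hpart _ _ _ _ _ _ _ _ _ hD _).2 s hs]
      have h1 := hmel _ _ _ _ _ _ _ _ _ hD hp7 σ (2 * T) hσ1 (1 / 2 + t * I) hre
      obtain ⟨Nb, hNb⟩ : ∃ Nb : ℝ, Nb = (Ideal.absNorm (𝔟 c) : ℝ) := ⟨_, rfl⟩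
      have hNb0 : 0 < Nb := by rw [hNb]; exact hNpos c
      have e2 : ‖((Ideal.absNorm (𝔟 c) : ℕ) : ℂ) ^ (1 / 2 + t * I : ℂ)‖ = Real.sqrt Nb := by
        rw [← Complex.ofReal_natCast, Complex.norm_cpow_eq_rpow_re_of_pos (hNpos c), hre, ← hNb, Real.sqrt_eq_rpow]
      rw [norm_mul, e1, e2]
      unfold Lq
      rw [norm_mul, norm_mul, norm_mul, hD.norm_cu, one_mul, norm_inv, Complex.norm_real, Real.norm_of_nonneg hC0.le]
      have h2 := num_est hε hCθ hVK (n := n) (ν := ν) hp7 (S := 2 * T) (by linarith)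
      obtain ⟨M, hM⟩ : ∃ M, M = Cθ * (p : ℝ) ^ (n + 4) * (1 + (ν : ℝ)) ^ 2 * (2 * T) ^ n *
        ((p : ℝ) ^ ν) ^ (19 / 58 : ℝ) := ⟨_, rfl⟩
      rw [← hM] at h1 h2
      have hM0 : 0 ≤ M := by rw [hM]; positivity
      have e3 : Real.sqrt Nb * Real.sqrt (M / Vb (𝔟 c)) = Real.sqrt (M / VK K) := by
        rw [← Real.sqrt_mul hNb0.le]
        congr 1
        unfold Vb
        rw [← hNb]
        field_simp
      have h3 : (2 * T) ^ r ≤ (2 * T) ^ n := pow_le_pow_right₀ (by linarith) hrn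
      obtain ⟨l, hl⟩ : ∃ l, l = 4 + Real.log ((2 * T) ^ n * (p : ℝ) ^ ν) := ⟨_, rfl⟩
      rw [← hl] at h1 h2
      have hl0 : 0 ≤ l := by
        rw [hl]
        have hp1 : (1 : ℝ) ≤ p := by exact_mod_cast hP.hp.one_le
        have e7 : 1 ≤ (2 * T) ^ n * (p : ℝ) ^ ν := by
          have e8 : 1 ≤ (2 * T) ^ n := one_le_pow₀ (by linarith)
          have e9 : 1 ≤ (p : ℝ) ^ ν := one_le_pow₀ hp1
          nlinarith
        have := Real.log_nonneg e7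
        linarith
      calc Real.sqrt Nb * (C0⁻¹ * (‖Gi σ τ (1 / 2 + t * I)‖ * ‖mellin (hz χ (o c) (C c) σ τ) (1 / 2 + t * I)‖)) ≤
            Real.sqrt Nb * (C0⁻¹ * ((cA K * (2 * T) ^ r) * (Real.sqrt (M / Vb (𝔟 c)) * l))) := by
            gcongr
        _ = C0⁻¹ * (cA K * (2 * T) ^ r * ((Real.sqrt Nb * Real.sqrt (M / Vb (𝔟 c))) * l)) := by ring
        _ = C0⁻¹ * (cA K * (2 * T) ^ r * (Real.sqrt (M / VK K) * l)) := by rw [e3]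
        _ ≤ C0⁻¹ * (cA K * (2 * T) ^ n * (Real.sqrt (Cθ / VK K) * (4 + n) * (1 + 2 / ε) ^ 2 * (p : ℝ) ^ (n + 4) *
            (2 * T) ^ (n + 1) * ((p : ℝ) ^ ν) ^ (19 / 116 + ε))) := by
            gcongr
        _ = _ := by
            rw [mul_pow 2 T n, mul_pow 2 T (n + 1)]
            ring
    refine (norm_sum_le _ _).trans ((Finset.sum_le_sum fun c _ => hone c).trans (le_of_eq ?_))
    rw [Finset.sum_const, nsmul_eq_mul, Finset.card_univ]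
    ring

end Run7.h343.NF
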