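import Mathlib

/-!
An integral inequality for Mellin transforms on the central line.
-/

set_option autoImplicit false

open Complex MeasureTheory Set Filter

namespace Run7.h343.NF

theorem int_half {f : ℝ → ℂ} {s : ℂ} (hs : s.re = 1 / 2) (hf : MellinConvergent f s) {V Q M : ℝ}
    (hV : 0 < V) (hQ : 1 ≤ Q) (hM : 0 ≤ M)
    (h : ∀ t : ℝ, 0 < t → ‖f t‖ ^ 2 ≤ M * (t * V)⁻¹ * min (t * V)⁻¹ (min 1 (Q * (t * V)))) :
    ‖mellin f s‖ ≤ Real.sqrt (M / V) * (4 + Real.log Q) := by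
  obtain ⟨R, hR⟩ : ∃ R, R = Real.sqrt (M / V) := ⟨_, rfl⟩
  have hR0 : 0 ≤ R := by rw [hR]; exact Real.sqrt_nonneg _
  have hR2 : R ^ 2 = M / V := by rw [hR]; exact Real.sq_sqrt (by positivity)
  have hQ0 : 0 < Q := by linarith
  obtain ⟨b, hb⟩ : ∃ b, b = V⁻¹ := ⟨_, rfl⟩
  obtain ⟨a, ha⟩ : ∃ a, a = (Q * V)⁻¹ := ⟨_, rfl⟩
  have ha0 : 0 < a := by rw [ha]; positivity
  have hb0 : 0 < b := by rw [hb]; positivity
  have hab : a ≤ b := by
    rw [ha, hb]
    apply inv_anti₀ hV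
    nlinarith
  have hbV : b * V = 1 := by rw [hb]; exact inv_mul_cancel₀ hV.ne'
  have haV : a * (Q * V) = 1 := by rw [ha]; exact inv_mul_cancel₀ (by positivity)
  have hnorm : ∀ t : ℝ, 0 < t → ‖(t : ℂ) ^ (s - 1) • f t‖ = t ^ (-(1 / 2) : ℝ) * ‖f t‖ := by
    intro t ht
    rw [norm_smul, Complex.norm_cpow_eq_rpow_re_of_pos ht, sub_re, one_re, hs]
    norm_num
  -- the three bounds
  have hsqb : 0 < Real.sqrt b := Real.sqrt_pos.2 hb0
  have hsqa : 0 < Real.sqrt a := Real.sqrt_pos.2 ha0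
  have h1 : ∀ t ∈ Ioc (0 : ℝ) a, ‖(t : ℂ) ^ (s - 1) • f t‖ ≤ t ^ (-(1 / 2) : ℝ) * (R / Real.sqrt a) := by
    intro t ht
    rw [hnorm t ht.1]
    refine mul_le_mul_of_nonneg_left ?_ (by have := ht.1; positivity)
    refine le_of_pow_le_pow_left₀ (n := 2) (by norm_num) (by positivity) ((h t ht.1).trans ?_)
    have htV : 0 < t * V := mul_pos ht.1 hV
    rw [div_pow, hR2, Real.sq_sqrt ha0.le]
    calc M * (t * V)⁻¹ * min (t * V)⁻¹ (min 1 (Q * (t * V))) ≤ M * (t * V)⁻¹ * (Q * (t * V)) := by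
          gcongr
          exact (min_le_right _ _).trans (min_le_right _ _)
      _ = M * Q * ((t * V)⁻¹ * (t * V)) := by ring
      _ = M * Q := by rw [inv_mul_cancel₀ htV.ne', mul_one]
      _ = M / V / a := by rw [ha]; field_simp
  have h2 : ∀ t ∈ Ioc a b, ‖(t : ℂ) ^ (s - 1) • f t‖ ≤ R * t⁻¹ := by
    intro t ht
    have ht0 : 0 < t := ha0.trans ht.1
    rw [hnorm t ht0]
    have e1 : R * t⁻¹ = t ^ (-(1 / 2) : ℝ) * (R / Real.sqrt t) := by
      have : t⁻¹ = t ^ (-(1 / 2) : ℝ) * (Real.sqrt t)⁻¹ := by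
        rw [Real.sqrt_eq_rpow, ← Real.rpow_neg ht0.le, ← Real.rpow_add ht0, ← Real.rpow_neg_one]
        norm_num
      rw [this]
      ring
    rw [e1]
    refine mul_le_mul_of_nonneg_left ?_ (by positivity)
    have hst : 0 < Real.sqrt t := Real.sqrt_pos.2 ht0
    refine le_of_pow_le_pow_left₀ (n := 2) (by norm_num) (by positivity) ((h t ht0).trans ?_)
    have htV : 0 < t * V := mul_pos ht0 hV
    rw [div_pow, hR2, Real.sq_sqrt ht0.le]
    calc M * (t * V)⁻¹ * min (t * V)⁻¹ (min 1 (Q * (t * V))) ≤ M * (t * V)⁻¹ * 1 := by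
          gcongr
          exact (min_le_right _ _).trans (min_le_left _ _)
      _ = M / V / t := by field_simp
  have h3 : ∀ t ∈ Ioi b, ‖(t : ℂ) ^ (s - 1) • f t‖ ≤ (R * Real.sqrt b) * t ^ (-(3 / 2) : ℝ) := by
    intro t ht
    have ht0 : 0 < t := hb0.trans ht
    rw [hnorm t ht0]
    have e1 : (R * Real.sqrt b) * t ^ (-(3 / 2) : ℝ) = t ^ (-(1 / 2) : ℝ) * ((R * Real.sqrt b) / t) := by
      have : t ^ (-(3 / 2) : ℝ) = t ^ (-(1 / 2) : ℝ) * t⁻¹ := by
        rw [← Real.rpow_neg_one, ← Real.rpow_add ht0]; norm_num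
      rw [this]; ring
    rw [e1]
    refine mul_le_mul_of_nonneg_left ?_ (by positivity)
    refine le_of_pow_le_pow_left₀ (n := 2) (by norm_num) (by positivity) ((h t ht0).trans ?_)
    have htV : 0 < t * V := mul_pos ht0 hV
    rw [div_pow, mul_pow, hR2, Real.sq_sqrt hb0.le]
    calc M * (t * V)⁻¹ * min (t * V)⁻¹ (min 1 (Q * (t * V))) ≤ M * (t * V)⁻¹ * (t * V)⁻¹ := by
          gcongr
          exact min_le_left _ _
      _ = M / V * b / t ^ 2 := by rw [hb]; field_simp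
  -- splitting
  obtain ⟨F, hF⟩ : ∃ F : ℝ → ℂ, F = fun t : ℝ => (t : ℂ) ^ (s - 1) • f t := ⟨_, rfl⟩
  have hFi : IntegrableOn F (Ioi 0) := by rw [hF]; exact hf
  have hFi1 : IntegrableOn F (Ioc 0 a) := hFi.mono_set fun x hx => hx.1
  have hFi2 : IntegrableOn F (Ioc a b) := hFi.mono_set fun x hx => ha0.trans hx.1
  have hFi3 : IntegrableOn F (Ioi b) := hFi.mono_set fun x hx => hb0.trans hx
  have hsplit : ∫ t in Ioi (0 : ℝ), F t = (∫ t in Ioc 0 a, F t) + ((∫ t in Ioc a b, F t) + ∫ t in Ioi b, F t) := by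
    rw [← setIntegral_union Ioc_disjoint_Ioi_same measurableSet_Ioi hFi2 hFi3, Ioc_union_Ioi_eq_Ioi hab,
      ← setIntegral_union Ioc_disjoint_Ioi_same measurableSet_Ioi hFi1 ?_, Ioc_union_Ioi_eq_Ioi ha0.le]
    rw [← Ioc_union_Ioi_eq_Ioi hab]
    exact hFi2.union hFi3
  have hr1 : IntegrableOn (fun x : ℝ => x ^ (-(1 / 2) : ℝ) * (R / Real.sqrt a)) (Ioc 0 a) := by
    have := (intervalIntegral.intervalIntegrable_rpow' (a := 0) (b := a) (r := -(1 / 2)) (by norm_num)).mul_const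
      (R / Real.sqrt a)
    rwa [intervalIntegrable_iff_integrableOn_Ioc_of_le ha0.le] at this
  have hr2 : IntegrableOn (fun x : ℝ => R * x⁻¹) (Ioc a b) := by
    have hcx : IntervalIntegrable (fun x : ℝ => x⁻¹) volume a b := by
      refine ContinuousOn.intervalIntegrable ?_
      rw [uIcc_of_le hab]
      intro x hx
      exact (continuousAt_inv₀ (lt_of_lt_of_le ha0 hx.1).ne').continuousWithinAt
    have := hcx.const_mul R
    rwa [intervalIntegrable_iff_integrableOn_Ioc_of_le hab] at this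
  have hr3 : IntegrableOn (fun x : ℝ => (R * Real.sqrt b) * x ^ (-(3 / 2) : ℝ)) (Ioi b) :=
    (integrableOn_Ioi_rpow_of_lt (by norm_num) hb0).const_mul _
  have hI1 : ‖∫ t in Ioc 0 a, F t‖ ≤ 2 * R := by
    refine (norm_integral_le_of_norm_le hr1 ?_).trans (le_of_eq ?_)
    · refine (ae_restrict_iff' measurableSet_Ioc).2 (Eventually.of_forall fun t ht => ?_)
      rw [hF]
      exact h1 t ht
    · rw [integral_mul_const, ← intervalIntegral.integral_of_le ha0.le, integral_rpow (Or.inl (by norm_num))]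
      rw [show (-(1 / 2) + 1 : ℝ) = 1 / 2 by norm_num, Real.zero_rpow (by norm_num), sub_zero,
        ← Real.sqrt_eq_rpow]
      field_simp
  have hI2 : ‖∫ t in Ioc a b, F t‖ ≤ R * Real.log Q := by
    refine (norm_integral_le_of_norm_le hr2 ?_).trans (le_of_eq ?_)
    · refine (ae_restrict_iff' measurableSet_Ioc).2 (Eventually.of_forall fun t ht => ?_)
      rw [hF]
      exact h2 t ht
    · rw [integral_const_mul, ← intervalIntegral.integral_of_le hab, integral_inv_of_pos ha0 hb0]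
      congr 2
      rw [ha, hb]
      field_simp
  have hI3 : ‖∫ t in Ioi b, F t‖ ≤ 2 * R := by
    refine (norm_integral_le_of_norm_le hr3 ?_).trans (le_of_eq ?_)
    · refine (ae_restrict_iff' measurableSet_Ioi).2 (Eventually.of_forall fun t ht => ?_)
      rw [hF]
      exact h3 t ht
    · rw [integral_const_mul, integral_Ioi_rpow_of_lt (by norm_num) hb0]
      rw [show (-(3 / 2) + 1 : ℝ) = -(1 / 2) by norm_num, Real.rpow_neg hb0.le, ← Real.sqrt_eq_rpow]
      field_simp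
  unfold mellin
  rw [← hF, hsplit, ← hR]
  calc _ ≤ ‖∫ t in Ioc 0 a, F t‖ + (‖∫ t in Ioc a b, F t‖ + ‖∫ t in Ioi b, F t‖) :=
        (norm_add_le _ _).trans (add_le_add le_rfl (norm_add_le _ _))
    _ ≤ 2 * R + (R * Real.log Q + 2 * R) := by gcongr
    _ = _ := by ring

end Run7.h343.NF
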