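import Pool.Agent.Run7.h343.NF.Vdc
import Pool.Agent.Y773.Pois

/-!
Lattices given by a matrix, Gaussian weights and Poisson summation.
-/

set_option autoImplicit false

namespace Run7.h343.NF

open Complex Finset MeasureTheory Filter
open Pool.Agent.Y773 (lp GD ghat ech poisson norm_ech)

variable {ι : Type} [Fintype ι] [DecidableEq ι]

/-- the real vector with integral coordinates -/
def cst (x : ι → ℤ) : ι → ℝ := fun i => (x i : ℝ)

omit [Fintype ι] [DecidableEq ι] in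
lemma cst_add (x y : ι → ℤ) : cst (x + y) = cst x + cst y := by
  funext i; simp [cst]

/-- the embedding with matrix `A` -/
noncomputable def em (A : Matrix ι ι ℝ) : (ι → ℤ) →+ EuclideanSpace ℝ ι where
  toFun x := WithLp.toLp 2 (A.mulVec (cst x))
  map_zero' := by
    have : cst (0 : ι → ℤ) = 0 := by funext i; simp [cst]
    rw [this, Matrix.mulVec_zero]
    rfl
  map_add' x y := by
    rw [cst_add, Matrix.mulVec_add]
    rfl

lemma em_apply (A : Matrix ι ι ℝ) (x : ι → ℤ) (i : ι) : em A x i = A.mulVec (cst x) i := rfl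

lemma em_norm (A : Matrix ι ι ℝ) (x : ι → ℤ) (z : EuclideanSpace ℝ ι) :
    ‖em A x - z‖ ^ 2 = ∑ i, (A.mulVec (cst x) i - z i) ^ 2 := by
  rw [EuclideanSpace.norm_sq_eq]
  refine sum_congr rfl fun i _ => ?_
  rw [Real.norm_eq_abs, sq_abs]
  rfl

/-- the exponential of a diagonal quadratic polynomial -/
noncomputable def gc (c b : ι → ℂ) (y : ι → ℝ) : ℂ :=
  cexp (∑ i, (-Real.pi * c i * (y i : ℂ) ^ 2 + 2 * Real.pi * b i * y i))

/-- its Fourier transform -/
noncomputable def gh (c b : ι → ℂ) (ξ : ι → ℝ) : ℂ :=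
  (∏ i, (1 / c i) ^ (1 / 2 : ℂ)) * cexp (∑ i, Real.pi * (b i - I * ξ i) ^ 2 / c i)

omit [DecidableEq ι] in
lemma gc_ft {c : ι → ℂ} (hc : ∀ i, 0 < (c i).re) (b : ι → ℂ) (ξ : ι → ℝ) :
    ∫ y : ι → ℝ, cexp (-(2 * Real.pi * I * ((∑ i, ξ i * y i : ℝ) : ℂ))) * gc c b y = gh c b ξ := by
  have h1 : ∀ y : ι → ℝ, cexp (-(2 * Real.pi * I * ((∑ i, ξ i * y i : ℝ) : ℂ))) * gc c b y =
      ∏ i, cexp (-(Real.pi * c i) * (y i : ℂ) ^ 2 + (2 * Real.pi * (b i - I * ξ i)) * y i + 0) := by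
    intro y
    unfold gc
    rw [← Complex.exp_add, ← Complex.exp_sum]
    congr 1
    push_cast
    rw [mul_sum, ← sum_neg_distrib, ← sum_add_distrib]
    refine sum_congr rfl fun i _ => ?_
    ring
  simp_rw [h1]
  rw [MeasureTheory.integral_fintype_prod_volume_eq_prod (𝕜 := ℂ)
    (f := fun (i : ι) (x : ℝ) => cexp (-(Real.pi * c i) * (x : ℂ) ^ 2 + (2 * Real.pi * (b i - I * ξ i)) * x + 0))]
  unfold gh
  rw [Complex.exp_sum, ← prod_mul_distrib]
  refine prod_congr rfl fun i _ => ?_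
  have hre : (-(Real.pi * c i)).re < 0 := by
    rw [neg_re, re_ofReal_mul]
    have := mul_pos Real.pi_pos (hc i)
    linarith
  rw [integral_cexp_quadratic hre]
  have hci : c i ≠ 0 := by
    intro h; have := hc i; rw [h] at this; simp at this
  have hpi : (Real.pi : ℂ) ≠ 0 := by exact_mod_cast Real.pi_ne_zero
  have e1 : (Real.pi : ℂ) / -(-(Real.pi * c i)) = 1 / c i := by
    field_simp
  rw [e1]
  congr 2
  field_simp
  ring

lemma detne_norm {B : Matrix ι ι ℝ} (hB : B.det ≠ 0) : ∃ c : ℝ, 0 < c ∧ ∀ x : ι → ℝ,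
    c * ‖x‖ ≤ ‖B.mulVec x‖ := by
  have hinj : Function.Injective (Matrix.toLin' B) := by
    rw [← LinearMap.ker_eq_bot, Matrix.ker_toLin'_eq_bot_iff]
    intro v hv
    have hu : IsUnit B.det := isUnit_iff_ne_zero.2 hB
    have := congrArg (B⁻¹.mulVec) hv
    rwa [Matrix.mulVec_mulVec, Matrix.nonsing_inv_mul _ hu, Matrix.one_mulVec, Matrix.mulVec_zero] at this
  obtain ⟨K, hK, hK2⟩ := (Matrix.toLin' B).exists_antilipschitzWith (LinearMap.ker_eq_bot.2 hinj)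
  have hK0 : (0 : ℝ) < K := by exact_mod_cast hK
  refine ⟨1 / K, by positivity, fun x => ?_⟩
  have h1 := hK2.le_mul_dist x 0
  rw [dist_zero_right, map_zero, dist_zero_right, Matrix.toLin'_apply] at h1
  rw [div_mul_eq_mul_div, one_mul, div_le_iff₀ hK0]
  linarith

omit [DecidableEq ι] in
lemma gc_norm (c b : ι → ℂ) (y : ι → ℝ) : ‖gc c b y‖ =
    Real.exp (∑ i, (-Real.pi * (c i).re * y i ^ 2 + 2 * Real.pi * (b i).re * y i)) := by
  unfold gc
  rw [Complex.norm_exp]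
  congr 1
  rw [Complex.re_sum]
  refine sum_congr rfl fun i _ => ?_
  have e1 : (-Real.pi * c i * (y i : ℂ) ^ 2 + 2 * Real.pi * b i * y i : ℂ) =
      ((-Real.pi * y i ^ 2 : ℝ) : ℂ) * c i + ((2 * Real.pi * y i : ℝ) : ℂ) * b i := by
    push_cast; ring
  rw [e1, add_re, re_ofReal_mul, re_ofReal_mul]
  ring

omit [DecidableEq ι] in
lemma gc_GD {c : ι → ℂ} (hc : ∀ i, 0 < (c i).re) (b : ι → ℂ) : GD (gc c b) := by
  classical
  obtain ⟨d, hd, hda⟩ : ∃ d : ℝ, 0 < d ∧ ∀ w, d ≤ (c w).re := by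
    rcases isEmpty_or_nonempty ι with hι | hι
    · exact ⟨1, one_pos, fun w => (IsEmpty.false w).elim⟩
    · obtain ⟨i, hi⟩ := Finite.exists_min (fun w => (c w).re)
      exact ⟨(c i).re, hc i, hi⟩
  refine ⟨Real.exp (∑ i, 2 * Real.pi * (b i).re ^ 2 / d), Real.pi * d / 2, by positivity, fun z => ?_⟩
  rw [gc_norm, ← Real.exp_add]
  apply Real.exp_le_exp.2
  have h1 : ∀ i, -Real.pi * (c i).re * z i ^ 2 + 2 * Real.pi * (b i).re * z i ≤
      2 * Real.pi * (b i).re ^ 2 / d - Real.pi * d / 2 * z i ^ 2 := by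
    intro i
    have h2 : Real.pi * d * z i ^ 2 ≤ Real.pi * (c i).re * z i ^ 2 := by
      have := hda i
      have hp := Real.pi_pos
      gcongr
    have h3 : 2 * Real.pi * (b i).re * z i ≤ 2 * Real.pi * (b i).re ^ 2 / d + Real.pi * d / 2 * z i ^ 2 := by
      have h4 : 0 ≤ Real.pi / (2 * d) * (2 * (b i).re - d * z i) ^ 2 := by positivity
      have e : Real.pi / (2 * d) * (2 * (b i).re - d * z i) ^ 2 =
          2 * Real.pi * (b i).re ^ 2 / d + Real.pi * d / 2 * z i ^ 2 - 2 * Real.pi * (b i).re * z i := by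
        field_simp
        ring
      linarith
    linarith
  have h2 : ‖z‖ ^ 2 ≤ ∑ i, z i ^ 2 := by
    rcases isEmpty_or_nonempty ι with hι | hι
    · have : z = 0 := Subsingleton.elim _ _
      simp [this]
    · obtain ⟨i, hi⟩ : ∃ i, ‖z‖ = ‖z i‖ := by
        obtain ⟨i, -, hi⟩ := Finset.exists_mem_eq_sup' (Finset.univ_nonempty) (fun i => ‖z i‖₊)
        refine ⟨i, ?_⟩
        have : ‖z‖₊ = ‖z i‖₊ := by
          rw [Pi.nnnorm_def, ← hi, Finset.sup'_eq_sup]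
        exact congrArg NNReal.toReal this
      rw [hi, Real.norm_eq_abs, sq_abs]
      exact Finset.single_le_sum (f := fun i => z i ^ 2) (fun j _ => sq_nonneg _) (Finset.mem_univ i)
  calc _ ≤ ∑ i, (2 * Real.pi * (b i).re ^ 2 / d - Real.pi * d / 2 * z i ^ 2) := sum_le_sum fun i _ => h1 i
    _ = ∑ i, 2 * Real.pi * (b i).re ^ 2 / d - Real.pi * d / 2 * ∑ i, z i ^ 2 := by
        rw [sum_sub_distrib, mul_sum]
    _ ≤ _ := by
        have : Real.pi * d / 2 * ‖z‖ ^ 2 ≤ Real.pi * d / 2 * ∑ i, z i ^ 2 :=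
          mul_le_mul_of_nonneg_left h2 (by positivity)
        linarith

omit [DecidableEq ι] in
lemma gc_cont (c b : ι → ℂ) : Continuous (gc c b) := by
  unfold gc
  fun_prop

lemma GD_comp {g : (ι → ℝ) → ℂ} (hg : GD g) {B : Matrix ι ι ℝ} (hB : B.det ≠ 0) :
    GD fun x => g (B.mulVec x) := by
  obtain ⟨C, c, hc, h⟩ := hg
  obtain ⟨d, hd, hd2⟩ := detne_norm hB
  refine ⟨|C|, c * d ^ 2, by positivity, fun z => ?_⟩
  refine (h _).trans ?_
  refine mul_le_mul (le_abs_self C) (Real.exp_le_exp.2 ?_) (Real.exp_pos _).le (abs_nonneg C)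
  have h1 := hd2 z
  have h2 : (d * ‖z‖) ^ 2 ≤ ‖B.mulVec z‖ ^ 2 := pow_le_pow_left₀ (by positivity) h1 2
  nlinarith

/-- the dual matrix -/
noncomputable def dl (B : Matrix ι ι ℝ) : Matrix ι ι ℝ := (B.transpose)⁻¹

lemma dl_det (B : Matrix ι ι ℝ) : (dl B).det = (B.det)⁻¹ := by
  unfold dl
  rw [Matrix.det_nonsing_inv, Matrix.det_transpose, Ring.inverse_eq_inv']

lemma dl_dl {B : Matrix ι ι ℝ} (hB : B.det ≠ 0) : dl (dl B) = B := by
  unfold dl
  rw [Matrix.transpose_nonsing_inv, Matrix.transpose_transpose, Matrix.nonsing_inv_nonsing_inv _ (isUnit_iff_ne_zero.2 hB)]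

lemma dl_dot {B : Matrix ι ι ℝ} (hB : B.det ≠ 0) (k x : ι → ℝ) :
    ∑ i, (dl B).mulVec k i * B.mulVec x i = ∑ i, k i * x i := by
  have h1 : ∑ i, (dl B).mulVec k i * B.mulVec x i = dotProduct ((dl B).mulVec k) (B.mulVec x) := rfl
  have h2 : ∑ i, k i * x i = dotProduct k x := rfl
  rw [h1, h2, Matrix.dotProduct_mulVec, ← Matrix.mulVec_transpose]
  congr 1
  unfold dl
  rw [Matrix.mulVec_mulVec, Matrix.mul_nonsing_inv _ (by rw [Matrix.det_transpose]; exact isUnit_iff_ne_zero.2 hB),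
    Matrix.one_mulVec]

lemma ghat_comp {g : (ι → ℝ) → ℂ} {B : Matrix ι ι ℝ} (hB : B.det ≠ 0) (k : ι → ℤ) :
    ghat (fun x => g (B.mulVec x)) k = (|B.det|⁻¹ : ℝ) *
      ∫ y : ι → ℝ, cexp (-(2 * Real.pi * I * ((∑ i, (dl B).mulVec (cst k) i * y i : ℝ) : ℂ))) * g y := by
  obtain ⟨f, hf⟩ : ∃ f : (ι → ℝ) → ℂ, f = fun y =>
    cexp (-(2 * Real.pi * I * ((∑ i, (dl B).mulVec (cst k) i * y i : ℝ) : ℂ))) * g y := ⟨_, rfl⟩
  have h1 : ∀ x : ι → ℝ, ech (-k) x * g (B.mulVec x) = f (Matrix.toLin' B x) := by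
    intro x
    rw [hf, Matrix.toLin'_apply]
    simp only
    congr 1
    unfold ech
    rw [dl_dot hB]
    congr 1
    unfold cst
    push_cast
    simp only [Pi.neg_apply, Int.cast_neg, neg_mul, Finset.sum_neg_distrib]
    ring
  unfold ghat
  simp_rw [h1]
  rw [← hf]
  have hdet : LinearMap.det (Matrix.toLin' B) ≠ 0 := by rwa [LinearMap.det_toLin']
  obtain ⟨L, hL⟩ : ∃ L : (ι → ℝ) ≃L[ℝ] (ι → ℝ), (L : (ι → ℝ) → (ι → ℝ)) = Matrix.toLin' B := by
    refine ⟨(LinearEquiv.ofIsUnitDet (f := Matrix.toLin' B) (v := Pi.basisFun ℝ ι) (v' := Pi.basisFun ℝ ι) ?_).toContinuousLinearEquiv, ?_⟩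
    · rw [LinearMap.toMatrix_eq_toMatrix', LinearMap.toMatrix'_toLin']
      exact isUnit_iff_ne_zero.2 hB
    · rfl
  have h3 := MeasureTheory.Measure.map_linearMap_addHaar_eq_smul_addHaar (volume : Measure (ι → ℝ)) hdet
  have h4 : ∫ x, f (Matrix.toLin' B x) = ∫ y, f y ∂(Measure.map (Matrix.toLin' B) volume) := by
    rw [← hL]
    exact (L.toHomeomorph.measurableEmbedding.integral_map f).symm
  rw [h4, h3, integral_smul_measure, LinearMap.det_toLin', ENNReal.toReal_ofReal (abs_nonneg _), abs_inv,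
    Complex.real_smul]

/-- **Poisson summation** for complex Gaussians -/
theorem pois {B : Matrix ι ι ℝ} (hB : B.det ≠ 0) {c : ι → ℂ} (hc : ∀ i, 0 < (c i).re) (b : ι → ℂ)
    (v : ι → ℝ) (hs : Summable fun k : ι → ℤ => gh c b ((dl B).mulVec (cst k))) :
    ∑' m : ι → ℤ, gc c b (B.mulVec (v + cst m)) = (|B.det|⁻¹ : ℝ) *
      ∑' k : ι → ℤ, gh c b ((dl B).mulVec (cst k)) * cexp (2 * Real.pi * I * ((∑ i, (k i : ℝ) * v i : ℝ) : ℂ)) := by
  have hgd : GD fun x => gc c b (B.mulVec x) := GD_comp (gc_GD hc b) hB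
  have hcont : Continuous fun x => gc c b (B.mulVec x) := by
    refine (gc_cont c b).comp ?_
    exact (Matrix.mulVecLin B).continuous_of_finiteDimensional
  have hhat : ghat (fun x => gc c b (B.mulVec x)) = fun k => (|B.det|⁻¹ : ℝ) * gh c b ((dl B).mulVec (cst k)) := by
    funext k
    rw [ghat_comp hB, gc_ft hc]
  have h := poisson hgd hcont (by rw [hhat]; exact hs.mul_left _) v
  have e1 : ∀ m : ι → ℤ, lp m = cst m := fun m => rfl
  simp_rw [e1] at h
  rw [h, hhat, ← tsum_mul_left]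
  refine tsum_congr fun k => ?_
  unfold ech
  ring

end Run7.h343.NF
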