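import Pool.Agent.Run7.h343.NF.Lat

/-!
The Fourier transform of Gaussian weights on lattices.
-/

set_option autoImplicit false
set_option linter.unusedSectionVars false

namespace Run7.h343.NF

open Complex Finset MeasureTheory Filter
open Pool.Agent.Y773 (lp GD ghat ech poisson norm_ech summable_gd)

variable {ι : Type} [Fintype ι] [DecidableEq ι]

lemma gh_eq {c : ι → ℂ} (hc : ∀ i, 0 < (c i).re) (b : ι → ℂ) (ξ : ι → ℝ) :
    gh c b ξ = (∏ i, (1 / c i) ^ (1 / 2 : ℂ)) * cexp (∑ i, Real.pi * (b i) ^ 2 / c i) *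
      gc (fun i => 1 / c i) (fun i => -I * b i / c i) ξ := by
  unfold gh gc
  rw [mul_assoc, ← Complex.exp_add, ← sum_add_distrib]
  congr 2
  refine sum_congr rfl fun i _ => ?_
  have hci : c i ≠ 0 := by
    intro h; have := hc i; rw [h] at this; simp at this
  have hI : I ^ 2 = -1 := I_sq
  field_simp
  linear_combination (ξ i : ℂ) ^ 2 * hI

lemma re_inv_pos {a : ℂ} (ha : 0 < a.re) : 0 < (1 / a).re := by
  rw [one_div, inv_re]
  refine div_pos ha (normSq_pos.mpr ?_)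
  intro h; rw [h] at ha; simp at ha

lemma gh_summable {c : ι → ℂ} (hc : ∀ i, 0 < (c i).re) (b : ι → ℂ) {B : Matrix ι ι ℝ} (hB : B.det ≠ 0) :
    Summable fun k : ι → ℤ => gh c b (B.mulVec (cst k)) := by
  simp_rw [gh_eq hc b]
  refine Summable.mul_left _ ?_
  have h1 := summable_gd (GD_comp (gc_GD (c := fun i => 1 / c i) (fun i => re_inv_pos (hc i))
    (fun i => -I * b i / c i)) hB) 0
  refine Summable.of_norm (h1.congr fun k => ?_)
  rw [zero_add]
  rfl

lemma gc_summable {c : ι → ℂ} (hc : ∀ i, 0 < (c i).re) (b : ι → ℂ) {B : Matrix ι ι ℝ} (hB : B.det ≠ 0) (v : ι → ℝ) :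
    Summable fun k : ι → ℤ => ‖gc c b (B.mulVec (v + cst k))‖ :=
  summable_gd (GD_comp (gc_GD hc b) hB) v

/-- Poisson summation, with the summability included -/
theorem pois' {B : Matrix ι ι ℝ} (hB : B.det ≠ 0) {c : ι → ℂ} (hc : ∀ i, 0 < (c i).re) (b : ι → ℂ)
    (v : ι → ℝ) :
    ∑' m : ι → ℤ, gc c b (B.mulVec (v + cst m)) = (|B.det|⁻¹ : ℝ) *
      ∑' k : ι → ℤ, gh c b ((dl B).mulVec (cst k)) * cexp (2 * Real.pi * I * ((∑ i, (k i : ℝ) * v i : ℝ) : ℂ)) :=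
  pois hB hc b v (gh_summable hc b (by rw [dl_det]; exact inv_ne_zero hB))

lemma cst_zero : cst (0 : ι → ℤ) = 0 := by funext i; simp [cst]

/-- a Gaussian weight times a character -/
lemma ga_gc {B : Matrix ι ι ℝ} (hB : B.det ≠ 0) (z : EuclideanSpace ℝ ι) (η : ι → ℝ) (x : ι → ℤ) :
    (ga (em B) z x : ℂ) * cexp (2 * Real.pi * I * ((∑ i, η i * x i : ℝ) : ℂ)) =
      cexp (-(Real.pi * ∑ i, z i ^ 2 : ℝ)) *
        gc (fun _ => 1) (fun i => z i + I * (dl B).mulVec η i) (B.mulVec (cst x)) := by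
  unfold ga gc
  rw [ofReal_exp, ← Complex.exp_add, ← Complex.exp_add, em_norm]
  congr 1
  have h1 := dl_dot hB η (cst x)
  have h2 : (∑ i, η i * (x i : ℝ)) = ∑ i, (dl B).mulVec η i * B.mulVec (cst x) i := by
    rw [h1]; rfl
  rw [h2]
  push_cast
  rw [mul_sum, mul_sum, mul_sum, ← sum_neg_distrib, ← sum_add_distrib, ← sum_neg_distrib, ← sum_add_distrib]
  refine sum_congr rfl fun i _ => ?_
  ring

lemma ga_summable {B : Matrix ι ι ℝ} (hB : B.det ≠ 0) (z : EuclideanSpace ℝ ι) : Summable (ga (em B) z) := by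
  have h1 := gc_summable (c := fun _ : ι => (1 : ℂ)) (fun _ => by simp) (fun i => z i + I * (dl B).mulVec 0 i) hB 0
  have h2 := h1.mul_left (‖cexp (-(Real.pi * ∑ i, z i ^ 2 : ℝ))‖)
  refine h2.congr fun x => ?_
  rw [zero_add, ← norm_mul, ← ga_gc hB z 0 x]
  simp only [Pi.zero_apply, zero_mul, sum_const_zero, ofReal_zero, mul_zero, Complex.exp_zero, mul_one]
  rw [Complex.norm_real, Real.norm_of_nonneg (ga_nonneg _ _ _)]

lemma gh_one_norm (z w ξ : ι → ℝ) : ‖gh (fun _ => 1) (fun i => z i + I * w i) ξ‖ =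
    Real.exp (Real.pi * ∑ i, z i ^ 2) * Real.exp (-(Real.pi * ∑ i, (ξ i - w i) ^ 2)) := by
  unfold gh
  rw [norm_mul, Complex.norm_exp, ← Real.exp_add]
  have h1 : ‖∏ _i : ι, ((1 : ℂ) / 1) ^ (1 / 2 : ℂ)‖ = 1 := by simp
  rw [h1, one_mul]
  congr 1
  rw [Complex.re_sum, mul_sum, mul_sum, ← sum_neg_distrib, ← sum_add_distrib]
  refine sum_congr rfl fun i _ => ?_
  have e1 : (Real.pi * ((z i + I * w i : ℂ) - I * ξ i) ^ 2 / 1 : ℂ) =
      ((Real.pi * (z i ^ 2 - (ξ i - w i) ^ 2) : ℝ) : ℂ) + ((-(2 * Real.pi * z i * (ξ i - w i)) : ℝ) : ℂ) * I := by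
    have hI : I ^ 2 = -1 := I_sq
    push_cast
    linear_combination (Real.pi * (w i - ξ i : ℂ) ^ 2) * hI
  rw [e1, add_re, ofReal_re, re_ofReal_mul, I_re, mul_zero, add_zero]
  ring

/-- the Fourier transform of a Gaussian weight, upper bound -/
theorem ga_fourier {B : Matrix ι ι ℝ} (hB : B.det ≠ 0) (z : EuclideanSpace ℝ ι) (η : ι → ℝ) :
    ‖∑' x, (ga (em B) z x : ℂ) * cexp (2 * Real.pi * I * ((∑ i, η i * x i : ℝ) : ℂ))‖ ≤
      |B.det|⁻¹ * ∑' k, ga (em (dl B)) (WithLp.toLp 2 ((dl B).mulVec η)) k := by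
  have hd : (dl B).det ≠ 0 := by rw [dl_det]; exact inv_ne_zero hB
  simp_rw [ga_gc hB z η]
  rw [tsum_mul_left]
  have h1 := pois' hB (c := fun _ : ι => (1 : ℂ)) (fun _ => by simp) (fun i => z i + I * (dl B).mulVec η i) 0
  simp only [zero_add, Pi.zero_apply, mul_zero, sum_const_zero, ofReal_zero, Complex.exp_zero, mul_one] at h1
  rw [h1, norm_mul, norm_mul, Complex.norm_real, Real.norm_of_nonneg (by positivity), Complex.norm_exp, ← mul_assoc,
    mul_comm _ (|B.det|⁻¹), mul_assoc]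
  refine mul_le_mul_of_nonneg_left ?_ (by positivity)
  have h2 : ∀ k : ι → ℤ, ‖gh (fun _ => 1) (fun i => (z i : ℂ) + I * (dl B).mulVec η i) ((dl B).mulVec (cst k))‖ =
      Real.exp (Real.pi * ∑ i, z i ^ 2) * ga (em (dl B)) (WithLp.toLp 2 ((dl B).mulVec η)) k := by
    intro k
    rw [gh_one_norm (fun i => z i)]
    unfold ga
    rw [em_norm]
  have h3 : Summable fun k : ι → ℤ => ‖gh (fun _ => 1) (fun i => (z i : ℂ) + I * (dl B).mulVec η i) ((dl B).mulVec (cst k))‖ := by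
    simp_rw [h2]
    exact (ga_summable hd _).mul_left _
  have h4 := norm_tsum_le_tsum_norm h3
  simp_rw [h2] at h4
  rw [tsum_mul_left] at h4
  have e1 : Real.exp ((-(Real.pi * ∑ i, z i ^ 2 : ℝ) : ℂ)).re * Real.exp (Real.pi * ∑ i, z i ^ 2) = 1 := by
    rw [← ofReal_neg, ofReal_re, ← Real.exp_add, neg_add_cancel, Real.exp_zero]
  refine (mul_le_mul_of_nonneg_left h4 (Real.exp_pos _).le).trans (le_of_eq ?_)
  rw [← mul_assoc, e1, one_mul]

theorem GE_feq {B : Matrix ι ι ℝ} (hB : B.det ≠ 0) : GE (em B) = |B.det|⁻¹ * GE (em (dl B)) := by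
  have hd : (dl B).det ≠ 0 := by rw [dl_det]; exact inv_ne_zero hB
  have h0 : ∀ C : Matrix ι ι ℝ, C.det ≠ 0 → GE (em C) ≤ |C.det|⁻¹ * GE (em (dl C)) := by
    intro C hC
    have h1 := ga_fourier hC 0 0
    have e1 : ∑' x : ι → ℤ, (ga (em C) 0 x : ℂ) * cexp (2 * Real.pi * I * ((∑ i, (0 : ι → ℝ) i * x i : ℝ) : ℂ)) =
        ((GE (em C) : ℝ) : ℂ) := by
      unfold GE
      rw [ofReal_tsum]
      refine tsum_congr fun x => ?_
      simp
    rw [e1, Complex.norm_real, Real.norm_of_nonneg (show 0 ≤ GE (em C) from tsum_nonneg fun _ => ga_nonneg _ _ _), Matrix.mulVec_zero] at h1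
    exact h1
  refine le_antisymm (h0 B hB) ?_
  have h1 := h0 (dl B) hd
  rw [dl_dl hB, dl_det, abs_inv, inv_inv] at h1
  have hp : 0 < |B.det| := abs_pos.2 hB
  rw [inv_mul_le_iff₀ hp]
  exact h1

theorem em_GW {B : Matrix ι ι ℝ} (hB : B.det ≠ 0) : GW (em B) where
  summ := ga_summable hB
  le z := by
    have h1 := ga_fourier hB z 0
    have e1 : ∑' x : ι → ℤ, (ga (em B) z x : ℂ) * cexp (2 * Real.pi * I * ((∑ i, (0 : ι → ℝ) i * x i : ℝ) : ℂ)) =
        ((∑' x, ga (em B) z x : ℝ) : ℂ) := by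
      rw [ofReal_tsum]
      refine tsum_congr fun x => ?_
      simp
    rw [e1, Complex.norm_real, Real.norm_of_nonneg (tsum_nonneg fun _ => ga_nonneg _ _ _), Matrix.mulVec_zero] at h1
    rw [GE_feq hB]
    exact h1

lemma GE_ge {B : Matrix ι ι ℝ} (hB : B.det ≠ 0) : |B.det|⁻¹ ≤ GE (em B) := by
  rw [GE_feq hB]
  have hd : (dl B).det ≠ 0 := by rw [dl_det]; exact inv_ne_zero hB
  exact le_mul_of_one_le_right (by positivity) (GE_ge_one (em_GW hd))

/-- the mass outside the origin -/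
noncomputable def nz (B : Matrix ι ι ℝ) : ℝ := ∑' x : ι → ℤ, if x = 0 then 0 else ga (em B) 0 x

lemma nz_summable {B : Matrix ι ι ℝ} (hB : B.det ≠ 0) :
    Summable fun x : ι → ℤ => if x = 0 then 0 else ga (em B) 0 x := by
  refine Summable.of_nonneg_of_le (fun α => ?_) (fun α => ?_) (ga_summable hB 0)
  · split_ifs
    · exact le_rfl
    · exact ga_nonneg _ _ _
  · split_ifs
    · exact ga_nonneg _ _ _
    · exact le_rfl

lemma GE_nz {B : Matrix ι ι ℝ} (hB : B.det ≠ 0) : GE (em B) = 1 + nz B := by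
  have h3 : GE (em B) = ga (em B) 0 0 + nz B := (ga_summable hB 0).tsum_eq_add_tsum_ite 0
  have h4 : ga (em B) 0 0 = 1 := by unfold ga; simp
  rw [h3, h4]

lemma nz_nonneg (B : Matrix ι ι ℝ) : 0 ≤ nz B := by
  unfold nz
  refine tsum_nonneg fun x => ?_
  split_ifs
  · exact le_rfl
  · exact ga_nonneg _ _ _

/-- finite sums over nonzero elements -/
lemma nz_fin {B : Matrix ι ι ℝ} (hB : B.det ≠ 0) (s : Finset (ι → ℤ)) (hs : ∀ l ∈ s, l ≠ 0) :
    ∑ l ∈ s, ga (em B) 0 l ≤ nz B := by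
  unfold nz
  calc ∑ l ∈ s, ga (em B) 0 l = ∑ l ∈ s, (if l = 0 then 0 else ga (em B) 0 l) := by
        refine sum_congr rfl fun l hl => ?_
        rw [if_neg (hs l hl)]
    _ ≤ _ := (nz_summable hB).sum_le_tsum s fun l _ => by
        split_ifs
        · exact le_rfl
        · exact ga_nonneg _ _ _

end Run7.h343.NF
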