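import Pool.Agent.Run7.h343.NF.De
import Pool.Agent.Run7.h343.NF.Ar
import Pool.Agent.Run7.h343.NF.In

/-!
The partial `L`-functions: entire continuation and bound on the central line.
-/

set_option autoImplicit false
set_option linter.unusedSectionVars false

open NumberField Complex Filter Topology MeasureTheory Set Asymptotics

namespace Run7.h343.NF

open Pool.Agent.Y773 (PIdl gen qt)

attribute [local instance] decEm

variable {K : Type} [Field K] [NumberField K]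

/-- the inverse of the archimedean factor -/
noncomputable def Gi (σ τ : InfinitePlace K → ℝ) (s : ℂ) : ℂ :=
  ∏ w : InfinitePlace K, (((Real.sqrt (w.mult : ℝ) : ℝ) : ℂ) ^ ((w.mult : ℂ) * s) *
    ((1 + σ w * I) ^ (((w.mult : ℂ) * s - I * τ w) / 2) * (Complex.Gammaℝ ((w.mult : ℂ) * s - I * τ w))⁻¹))

lemma sqrt_mult_ne (w : InfinitePlace K) : ((Real.sqrt (w.mult : ℝ) : ℝ) : ℂ) ≠ 0 := by
  exact_mod_cast (Pool.Agent.Y773.G.sqrt_mult_pos w).ne'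

lemma one_add_ne (σ : ℝ) : (1 + σ * I : ℂ) ≠ 0 := by
  intro h
  have := congrArg Complex.re h
  simp at this

lemma Gi_diff (σ τ : InfinitePlace K → ℝ) : Differentiable ℂ (Gi σ τ) := by
  unfold Gi
  refine Differentiable.fun_finsetProd fun w _ => ?_
  refine Differentiable.mul ?_ (Differentiable.mul ?_ ?_)
  · exact Differentiable.const_cpow (by fun_prop) (Or.inl (sqrt_mult_ne w))
  · exact Differentiable.const_cpow (by fun_prop) (Or.inl (one_add_ne _))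
  · exact Complex.differentiable_Gammaℝ_inv.comp (by fun_prop : Differentiable ℂ fun s : ℂ =>
      (w.mult : ℂ) * s - I * τ w)

lemma Gz_Gi (σ τ : InfinitePlace K → ℝ) {s : ℂ} (hs : 0 < s.re) : Gi σ τ s * Gz σ τ s = 1 := by
  unfold Gi Gz
  rw [← Finset.prod_mul_distrib]
  refine Finset.prod_eq_one fun w _ => ?_
  have h1 : 0 < ((w.mult : ℂ) * s - I * τ w).re := by
    have : ((w.mult : ℂ) * s - I * τ w) = ((w.mult : ℝ) : ℂ) * s - (τ w : ℂ) * I := by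
      push_cast
      ring
    rw [this, sub_re, re_ofReal_mul, re_ofReal_mul, I_re, mul_zero, sub_zero]
    have : (0 : ℝ) < w.mult := by exact_mod_cast w.mult_pos
    positivity
  have h2 := Complex.Gammaℝ_ne_zero_of_re_pos h1
  have e1 : ((Real.sqrt (w.mult : ℝ) : ℝ) : ℂ) ^ ((w.mult : ℂ) * s) *
      ((Real.sqrt (w.mult : ℝ) : ℝ) : ℂ) ^ (-((w.mult : ℂ) * s)) = 1 := by
    rw [← Complex.cpow_add _ _ (sqrt_mult_ne w), add_neg_cancel, Complex.cpow_zero]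
  have e2 : (1 + σ w * I : ℂ) ^ (((w.mult : ℂ) * s - I * τ w) / 2) *
      (1 + σ w * I : ℂ) ^ (-(((w.mult : ℂ) * s - I * τ w) / 2)) = 1 := by
    rw [← Complex.cpow_add _ _ (one_add_ne _), add_neg_cancel, Complex.cpow_zero]
  have e3 : (Complex.Gammaℝ ((w.mult : ℂ) * s - I * τ w))⁻¹ * Complex.Gammaℝ ((w.mult : ℂ) * s - I * τ w) = 1 :=
    inv_mul_cancel₀ h2
  linear_combination ((1 + σ w * I : ℂ) ^ (((w.mult : ℂ) * s - I * τ w) / 2) *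
      (1 + σ w * I : ℂ) ^ (-(((w.mult : ℂ) * s - I * τ w) / 2)) *
      ((Complex.Gammaℝ ((w.mult : ℂ) * s - I * τ w))⁻¹ * Complex.Gammaℝ ((w.mult : ℂ) * s - I * τ w))) * e1 +
      ((Complex.Gammaℝ ((w.mult : ℂ) * s - I * τ w))⁻¹ * Complex.Gammaℝ ((w.mult : ℂ) * s - I * τ w)) * e2 + e3

variable (K) in
/-- the constants at the archimedean places -/
noncomputable def cA : ℝ := ∏ w : InfinitePlace K, (Real.sqrt (w.mult : ℝ) ^ ((w.mult : ℝ) / 2) *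
  (Real.pi ^ ((w.mult : ℝ) / 4) * (Real.Gamma (1 - (w.mult : ℝ) / 4) * Real.exp 1 / Real.pi)))

lemma mult_quarter (w : InfinitePlace K) : 0 < (w.mult : ℝ) / 4 ∧ (w.mult : ℝ) / 4 < 1 := by
  have h1 : (0 : ℝ) < w.mult := by exact_mod_cast w.mult_pos
  have h2 : w.mult ≤ 2 := by
    unfold InfinitePlace.mult
    split_ifs <;> norm_num
  have h3 : (w.mult : ℝ) ≤ 2 := by exact_mod_cast h2
  constructor <;> linarith

lemma cA_pos : 0 < cA K := by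
  unfold cA
  refine Finset.prod_pos fun w _ => ?_
  have h1 : 0 < Real.sqrt (w.mult : ℝ) := Pool.Agent.Y773.G.sqrt_mult_pos w
  have h2 : 0 < Real.Gamma (1 - (w.mult : ℝ) / 4) := Real.Gamma_pos_of_pos (by linarith [(mult_quarter w).2])
  have := Real.pi_pos
  positivity

/-- the choice of the weights -/
theorem exists_weights (τ : InfinitePlace K → ℝ) (t : ℝ) : ∃ σ : InfinitePlace K → ℝ,
    (∀ w, Real.sqrt (1 + σ w ^ 2) ≤ 2 * (1 + |t| + ∑ w, |τ w|)) ∧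
    ‖Gi σ τ (1 / 2 + t * I)‖ ≤ cA K * (2 * (1 + |t| + ∑ w, |τ w|)) ^ Fintype.card (InfinitePlace K) := by
  choose σ hσ1 hσ2 using fun w : InfinitePlace K => arch (mult_quarter w).1 (mult_quarter w).2
    (((w.mult : ℝ) * t - τ w) / 2)
  have hS : ∀ w, Real.sqrt (1 + σ w ^ 2) ≤ 2 * (1 + |t| + ∑ w, |τ w|) := by
    intro w
    refine (hσ1 w).trans ?_
    have h1 : |((w.mult : ℝ) * t - τ w) / 2| ≤ |t| + |τ w| / 2 := by
      rw [abs_div, abs_of_pos (by norm_num : (0 : ℝ) < 2)]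
      have h2 : |(w.mult : ℝ) * t - τ w| ≤ |(w.mult : ℝ) * t| + |τ w| := by
        have := abs_sub (w.mult * t) (τ w)
        exact this
      rw [abs_mul, Nat.abs_cast] at h2
      have h3 : w.mult ≤ 2 := by
        unfold InfinitePlace.mult
        split_ifs <;> norm_num
      have h4 : (w.mult : ℝ) ≤ 2 := by exact_mod_cast h3
      have h5 : (w.mult : ℝ) * |t| ≤ 2 * |t| := mul_le_mul_of_nonneg_right h4 (abs_nonneg _)
      linarith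
    have h2 : |τ w| ≤ ∑ w, |τ w| := Finset.single_le_sum (fun w _ => abs_nonneg (τ w)) (Finset.mem_univ w)
    have h3 := abs_nonneg (τ w)
    linarith
  refine ⟨σ, hS, ?_⟩
  obtain ⟨S, hSd⟩ : ∃ S, S = 2 * (1 + |t| + ∑ w, |τ w|) := ⟨_, rfl⟩
  rw [← hSd] at hS ⊢
  unfold Gi cA
  rw [norm_prod, ← Finset.card_univ, ← Finset.prod_const, ← Finset.prod_mul_distrib]
  refine Finset.prod_le_prod (fun w _ => norm_nonneg _) fun w _ => ?_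
  have hm : 0 < Real.sqrt (w.mult : ℝ) := Pool.Agent.Y773.G.sqrt_mult_pos w
  obtain ⟨v, hv⟩ : ∃ v : ℝ, v = ((w.mult : ℝ) * t - τ w) / 2 := ⟨_, rfl⟩
  have e1 : ((w.mult : ℂ) * (1 / 2 + t * I) - I * τ w) / 2 = (((w.mult : ℝ) / 4 : ℝ) : ℂ) + v * I := by
    rw [hv]
    push_cast
    ring
  have e2 : (w.mult : ℂ) * (1 / 2 + t * I) - I * τ w = 2 * ((((w.mult : ℝ) / 4 : ℝ) : ℂ) + v * I) := by
    rw [← e1]
    ring
  have h2 := hσ2 w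
  rw [← hv] at h2
  rw [norm_mul, norm_mul, e1, e2, norm_inv, Complex.Gammaℝ_def]
  have e3 : 2 * ((((w.mult : ℝ) / 4 : ℝ) : ℂ) + v * I) / 2 = (((w.mult : ℝ) / 4 : ℝ) : ℂ) + v * I := by ring
  have e4 : -(2 * ((((w.mult : ℝ) / 4 : ℝ) : ℂ) + v * I)) / 2 = ((-((w.mult : ℝ) / 4) : ℝ) : ℂ) + (-v : ℝ) * I := by
    push_cast
    ring
  have e5 : ‖((Real.sqrt (w.mult : ℝ) : ℝ) : ℂ) ^ ((w.mult : ℂ) * (1 / 2 + t * I))‖ =
      Real.sqrt (w.mult : ℝ) ^ ((w.mult : ℝ) / 2) := by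
    rw [Complex.norm_cpow_eq_rpow_re_of_pos hm]
    congr 1
    have : ((w.mult : ℂ) * (1 / 2 + t * I)) = (((w.mult : ℝ) / 2 : ℝ) : ℂ) + ((w.mult : ℝ) * t : ℝ) * I := by
      push_cast
      ring
    rw [this, add_re, ofReal_re, re_ofReal_mul, I_re, mul_zero, add_zero]
  have e6 : ‖(Real.pi : ℂ) ^ (((-((w.mult : ℝ) / 4) : ℝ) : ℂ) + (-v : ℝ) * I)‖ = (Real.pi ^ ((w.mult : ℝ) / 4))⁻¹ := by
    rw [Complex.norm_cpow_eq_rpow_re_of_pos Real.pi_pos, add_re, ofReal_re, re_ofReal_mul, I_re, mul_zero,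
      add_zero, Real.rpow_neg Real.pi_pos.le]
  rw [e3, e4, norm_mul, e5, e6, mul_inv, inv_inv]
  have hπ := Real.pi_pos
  calc Real.sqrt (w.mult : ℝ) ^ ((w.mult : ℝ) / 2) * (‖(1 + σ w * I : ℂ) ^ ((((w.mult : ℝ) / 4 : ℝ) : ℂ) + v * I)‖ *
        (Real.pi ^ ((w.mult : ℝ) / 4) * ‖Gamma ((((w.mult : ℝ) / 4 : ℝ) : ℂ) + v * I)‖⁻¹)) =
      Real.sqrt (w.mult : ℝ) ^ ((w.mult : ℝ) / 2) * (Real.pi ^ ((w.mult : ℝ) / 4) *
        (‖(1 + σ w * I : ℂ) ^ ((((w.mult : ℝ) / 4 : ℝ) : ℂ) + v * I)‖ *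
          ‖Gamma ((((w.mult : ℝ) / 4 : ℝ) : ℂ) + v * I)‖⁻¹)) := by ring
    _ ≤ Real.sqrt (w.mult : ℝ) ^ ((w.mult : ℝ) / 2) * (Real.pi ^ ((w.mult : ℝ) / 4) *
        (Real.Gamma (1 - (w.mult : ℝ) / 4) * Real.exp 1 / Real.pi * S)) := by
        have hΓ : 0 < Real.Gamma (1 - (w.mult : ℝ) / 4) := Real.Gamma_pos_of_pos (by linarith [(mult_quarter w).2])
        have h3 : Real.Gamma (1 - (w.mult : ℝ) / 4) * Real.exp 1 / Real.pi * Real.sqrt (1 + σ w ^ 2) ≤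
            Real.Gamma (1 - (w.mult : ℝ) / 4) * Real.exp 1 / Real.pi * S :=
          mul_le_mul_of_nonneg_left (hS w) (by positivity)
        have h4 := h2.trans h3
        gcongr
    _ = _ := by ring

/-! ### the partial `L`-functions -/

/-- the partial `L`-function -/
noncomputable def Lq {p : ℕ} {ν : ℕ} (C0 : ℝ) (χ : DirichletCharacter ℂ (p ^ ν)) (o : K →+* ℂ)
    (C : Matrix (K →+* ℂ) (K →+* ℂ) ℤ) (τ : InfinitePlace K → ℝ) (ψ : Ideal (𝓞 K) →*₀ ℂ) (𝔟 : Ideal (𝓞 K))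
    (σ : InfinitePlace K → ℝ) (s : ℂ) : ℂ :=
  (C0 : ℂ)⁻¹ * (Gi σ τ s * (cu τ ψ 𝔟 o C * mellin (hz χ o C σ τ) s))

lemma entire_unique {f g : ℂ → ℂ} (hf : Differentiable ℂ f) (hg : Differentiable ℂ g)
    (h : ∀ s : ℂ, 1 < s.re → f s = g s) : f = g := by
  have h1 : AnalyticOnNhd ℂ f Set.univ := (Complex.analyticOnNhd_univ_iff_differentiable).2 hf
  have h2 : AnalyticOnNhd ℂ g Set.univ := (Complex.analyticOnNhd_univ_iff_differentiable).2 hg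
  refine h1.eq_of_eventuallyEq h2 (z₀ := 2) ?_
  have hU : {z : ℂ | 1 < z.re} ∈ 𝓝 (2 : ℂ) :=
    (isOpen_lt continuous_const Complex.continuous_re).mem_nhds (by simp)
  filter_upwards [hU] with s hs
  exact h s hs

variable (K) in
theorem L_part : ∃ C0 : ℝ, 0 < C0 ∧
    ∀ (p : ℕ) (𝔭 : Ideal (𝓞 K)) (ν : ℕ) (τ : InfinitePlace K → ℝ) (ψ : Ideal (𝓞 K) →*₀ ℂ)
    (𝔟 : Ideal (𝓞 K)) (χ : DirichletCharacter ℂ (p ^ ν)) (o : K →+* ℂ) (C : Matrix (K →+* ℂ) (K →+* ℂ) ℤ),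
      Dat p 𝔭 ν τ ψ 𝔟 χ o C → ∀ (σ : InfinitePlace K → ℝ),
      Differentiable ℂ (Lq C0 χ o C τ ψ 𝔟 σ) ∧ ∀ s : ℂ, 1 < s.re →
        Lq C0 χ o C τ ψ 𝔟 σ s = ∑' J : PIdl K, ψ (qt 𝔟 (gen J)) * ((Ideal.absNorm J.1 : ℕ) : ℂ) ^ (-s) := by
  obtain ⟨C0, hC0, h0⟩ := mellin_hz K
  refine ⟨C0, hC0, fun p 𝔭 ν τ ψ 𝔟 χ o C h σ => ⟨?_, fun s hs => ?_⟩⟩
  · exact ((Gi_diff σ τ).mul ((h.mel_diff σ).const_mul _)).const_mul _
  · unfold Lq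
    have h1 := (h0 p 𝔭 ν τ ψ 𝔟 χ o C h σ s hs).2
    have h2 := Gz_Gi σ τ (s := s) (by linarith)
    have h3 : (C0 : ℂ) ≠ 0 := by exact_mod_cast hC0.ne'
    rw [h1]
    calc _ = ((C0 : ℂ)⁻¹ * C0) * (Gi σ τ s * Gz σ τ s) *
          ∑' J : PIdl K, ψ (qt 𝔟 (gen J)) * ((Ideal.absNorm J.1 : ℕ) : ℂ) ^ (-s) := by ring
      _ = _ := by rw [h2, inv_mul_cancel₀ h3]; ring

lemma Dat.mel_conv {p : ℕ} {𝔭 𝔟 : Ideal (𝓞 K)} {ν : ℕ} {τ : InfinitePlace K → ℝ} {ψ : Ideal (𝓞 K) →*₀ ℂ}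
    {χ : DirichletCharacter ℂ (p ^ ν)} {o : K →+* ℂ} {C : Matrix (K →+* ℂ) (K →+* ℂ) ℤ}
    (h : Dat p 𝔭 ν τ ψ 𝔟 χ o C) (σ : InfinitePlace K → ℝ) (s : ℂ) : MellinConvergent (hz χ o C σ τ) s := by
  obtain ⟨N, hN⟩ := exists_nat_gt |s.re|
  have h1 := (abs_lt.1 hN)
  refine mellinConvergent_of_isBigO_rpow (h.hz_loc σ) (h.hz_top σ N) ?_ (h.hz_bot σ N) ?_
  · push_cast
    have : (0 : ℝ) ≤ N := Nat.cast_nonneg N
    linarith [h1.2]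
  · push_cast
    have : (0 : ℝ) ≤ N := Nat.cast_nonneg N
    linarith [h1.1]

variable (K) in
/-- the bound for the Mellin transform -/
theorem mel_bound : ∃ Cθ : ℝ, 0 < Cθ ∧
    ∀ (p : ℕ) (𝔭 : Ideal (𝓞 K)) (ν : ℕ) (τ : InfinitePlace K → ℝ) (ψ : Ideal (𝓞 K) →*₀ ℂ)
    (𝔟 : Ideal (𝓞 K)) (χ : DirichletCharacter ℂ (p ^ ν)) (o : K →+* ℂ) (C : Matrix (K →+* ℂ) (K →+* ℂ) ℤ),
      Dat p 𝔭 ν τ ψ 𝔟 χ o C → 7 ≤ p → ∀ (σ : InfinitePlace K → ℝ) (S : ℝ), (∀ w, Real.sqrt (1 + σ w ^ 2) ≤ S) →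
      ∀ s : ℂ, s.re = 1 / 2 → ‖mellin (hz χ o C σ τ) s‖ ≤
        Real.sqrt (Cθ * (p : ℝ) ^ (Fintype.card (K →+* ℂ) + 4) * (1 + ν) ^ 2 *
          S ^ Fintype.card (K →+* ℂ) * ((p : ℝ) ^ ν) ^ (19 / 58 : ℝ) / Vb 𝔟) *
          (4 + Real.log (S ^ Fintype.card (K →+* ℂ) * (p : ℝ) ^ ν)) := by
  obtain ⟨Cθ, hCθ, h0⟩ := NT_K K
  refine ⟨Cθ, hCθ, fun p 𝔭 ν τ ψ 𝔟 χ o C h hp7 σ S hS s hs => ?_⟩
  obtain ⟨M, hM⟩ : ∃ M, M = Cθ * (p : ℝ) ^ (Fintype.card (K →+* ℂ) + 4) * (1 + ν) ^ 2 *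
          S ^ Fintype.card (K →+* ℂ) * ((p : ℝ) ^ ν) ^ (19 / 58 : ℝ) := ⟨_, rfl⟩
  have hp0 : (0 : ℝ) < p := by exact_mod_cast h.hP.hp.pos
  have hp1 : (1 : ℝ) ≤ p := by exact_mod_cast h.hP.hp.one_le
  have hS0 : 0 ≤ S := (Real.sqrt_nonneg _).trans (hS (Classical.arbitrary _))
  have hM0 : 0 ≤ M := by rw [hM]; positivity
  have hL := h.chn.isL
  have hV := Vb_pos hL.ne_bot
  have hR1 := Rσ_one_le σ
  have hRS := Rσ_le hS
  have hq1 : 1 ≤ (p : ℝ) ^ ν := one_le_pow₀ hp1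
  have hQ1 : 1 ≤ S ^ Fintype.card (K →+* ℂ) * (p : ℝ) ^ ν := by
    have := hR1.trans hRS
    nlinarith
  rw [← hM]
  refine int_half hs (h.mel_conv σ s) hV hQ1 hM0 fun t ht => ?_
  have htV : 0 < t * Vb 𝔟 := mul_pos ht hV
  have hmin0 : 0 ≤ min (t * Vb 𝔟)⁻¹ (min 1 (S ^ Fintype.card (K →+* ℂ) * (p : ℝ) ^ ν * (t * Vb 𝔟))) :=
    le_min (by positivity) (le_min zero_le_one (by positivity))
  have h1 : ‖hz χ o C σ τ t‖ ≤ Real.sqrt (M * (t * Vb 𝔟)⁻¹ *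
      min (t * Vb 𝔟)⁻¹ (min 1 (S ^ Fintype.card (K →+* ℂ) * (p : ℝ) ^ ν * (t * Vb 𝔟)))) := by
    refine hz_le σ fun θ => ?_
    apply Real.le_sqrt_of_sq_le
    have h2 := h0 p h.hP.hp hp7 ν h.hν χ h.prim o C 𝔟 𝔭 h.chn
      (Pool.Agent.Y773.el K ((2 / Module.finrank ℚ K) * Real.log t, θ)) σ S hS
    unfold NT at h2
    rw [Aq_det_inv σ o (by positivity), det_t hL ht, ← hM] at h2
    have h3 : min (t * Vb 𝔟)⁻¹ (min 1 (Rσ σ * (p : ℝ) ^ ν * (t * Vb 𝔟))) ≤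
        min (t * Vb 𝔟)⁻¹ (min 1 (S ^ Fintype.card (K →+* ℂ) * (p : ℝ) ^ ν * (t * Vb 𝔟))) := by
      refine min_le_min le_rfl (min_le_min le_rfl ?_)
      gcongr
    have h4 := h2.trans (mul_le_mul_of_nonneg_left h3 hM0)
    rw [← le_div_iff₀ htV] at h4
    refine h4.trans (le_of_eq ?_)
    rw [div_eq_mul_inv]
    ring
  calc _ ≤ (Real.sqrt (M * (t * Vb 𝔟)⁻¹ *
      min (t * Vb 𝔟)⁻¹ (min 1 (S ^ Fintype.card (K →+* ℂ) * (p : ℝ) ^ ν * (t * Vb 𝔟))))) ^ 2 :=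
        pow_le_pow_left₀ (norm_nonneg _) h1 2
    _ = _ := Real.sq_sqrt (by positivity)

end Run7.h343.NF
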