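import Pool.Agent.Run7.h343.NF.Lat2

/-!
Balanced lattices and their chains of sublattices.
-/

set_option autoImplicit false
set_option linter.unusedSectionVars false

namespace Run7.h343.NF

open Complex Finset MeasureTheory Filter

variable {ι : Type} [Fintype ι] [DecidableEq ι]

/-- scaling of the coordinate `o` -/
noncomputable def Dm (o : ι) (P : ℝ) : Matrix ι ι ℝ := Matrix.diagonal (fun i => if i = o then P else 1)

lemma Dm_det (o : ι) (P : ℝ) : (Dm o P).det = P := by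
  unfold Dm
  rw [Matrix.det_diagonal, Finset.prod_ite_eq' univ o (fun _ => P)]
  simp

lemma Dm_mul (o : ι) (P Q : ℝ) : Dm o P * Dm o Q = Dm o (P * Q) := by
  unfold Dm
  rw [Matrix.diagonal_mul_diagonal]
  congr 1
  funext i
  split_ifs <;> simp

lemma Dm_one (o : ι) : Dm o 1 = 1 := by
  unfold Dm
  rw [← Matrix.diagonal_one]
  congr 1
  funext i
  split_ifs <;> rfl

lemma Dm_mulVec (o : ι) (P : ℝ) (x : ι → ℝ) : (Dm o P).mulVec x = fun i => if i = o then P * x i else x i := by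
  funext i
  unfold Dm
  rw [Matrix.mulVec_diagonal]
  split_ifs <;> ring

lemma dl_mul_Dm (A : Matrix ι ι ℝ) (o : ι) {P : ℝ} (hP : P ≠ 0) : dl (A * Dm o P) = dl A * Dm o P⁻¹ := by
  unfold dl
  rw [Matrix.transpose_mul, Matrix.mul_inv_rev]
  congr 1
  have h1 : (Dm o P).transpose = Dm o P := by unfold Dm; exact Matrix.diagonal_transpose _
  rw [h1]
  apply Matrix.inv_eq_right_inv
  rw [Dm_mul, mul_inv_cancel₀ hP, Dm_one]

lemma dl_smul {B : Matrix ι ι ℝ} (hB : B.det ≠ 0) {t : ℝ} (ht : t ≠ 0) : dl (t • B) = t⁻¹ • dl B := by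
  unfold dl
  rw [Matrix.transpose_smul]
  apply Matrix.inv_eq_right_inv
  rw [Matrix.smul_mul, Matrix.mul_smul, smul_smul, mul_inv_cancel₀ ht, one_smul,
    Matrix.mul_nonsing_inv _ (by rw [Matrix.det_transpose]; exact isUnit_iff_ne_zero.2 hB)]

/-- a balanced lattice -/
structure Lb (CG : ℝ) (B : Matrix ι ι ℝ) : Prop where
  det : B.det ≠ 0
  prim : ∀ s : ℝ, 0 < s → nz (s • B) ≤ CG / (s ^ Fintype.card ι * |B.det|)
  dual : ∀ s : ℝ, 0 < s → nz (s • dl B) ≤ CG * |B.det| / s ^ Fintype.card ι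

lemma Lb.dl' {CG : ℝ} {B : Matrix ι ι ℝ} (h : Lb CG B) : Lb CG (dl B) where
  det := by rw [dl_det]; exact inv_ne_zero h.det
  prim s hs := by
    refine (h.dual s hs).trans (le_of_eq ?_)
    have := abs_pos.2 h.det
    rw [dl_det, abs_inv]
    field_simp
  dual s hs := by
    rw [dl_dl h.det]
    refine (h.prim s hs).trans (le_of_eq ?_)
    have := abs_pos.2 h.det
    rw [dl_det, abs_inv]
    field_simp

lemma Lb.smul {CG : ℝ} {B : Matrix ι ι ℝ} (h : Lb CG B) {t : ℝ} (ht : 0 < t) : Lb CG (t • B) where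
  det := by
    rw [Matrix.det_smul]
    exact mul_ne_zero (pow_ne_zero _ ht.ne') h.det
  prim s hs := by
    rw [smul_smul]
    refine (h.prim (s * t) (by positivity)).trans (le_of_eq ?_)
    rw [Matrix.det_smul, abs_mul, abs_of_pos (by positivity : 0 < t ^ Fintype.card ι), mul_pow]
    ring
  dual s hs := by
    rw [dl_smul h.det ht.ne', smul_smul]
    refine (h.dual (s * t⁻¹) (by positivity)).trans (le_of_eq ?_)
    rw [Matrix.det_smul, abs_mul, abs_of_pos (by positivity : 0 < t ^ Fintype.card ι), mul_pow, inv_pow]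
    field_simp

/-- a balanced chain of lattices of depth `N` -/
def WR (p : ℕ) (o : ι) (CG : ℝ) (N : ℕ) (A : Matrix ι ι ℝ) : Prop := ∀ c ≤ N, Lb CG (A * Dm o ((p : ℝ) ^ c))

variable {p : ℕ} {o : ι} {CG : ℝ} {N : ℕ} {A : Matrix ι ι ℝ}

lemma WR.lb (h : WR p o CG N A) : Lb CG A := by
  have := h 0 (Nat.zero_le _)
  rwa [pow_zero, Dm_one, mul_one] at this

lemma WR.det (h : WR p o CG N A) : A.det ≠ 0 := h.lb.det

lemma WR.mono (h : WR p o CG N A) {M : ℕ} (hM : M ≤ N) : WR p o CG M A := fun c hc => h c (hc.trans hM)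

lemma WR.smul (h : WR p o CG N A) {t : ℝ} (ht : 0 < t) : WR p o CG N (t • A) := by
  intro c hc
  rw [Matrix.smul_mul]
  exact (h c hc).smul ht

lemma WR.sub (h : WR p o CG N A) {m : ℕ} (hm : m ≤ N) : WR p o CG (N - m) (A * Dm o ((p : ℝ) ^ m)) := by
  intro c hc
  rw [Matrix.mul_assoc, Dm_mul, ← pow_add]
  exact h _ (by omega)

lemma WR.dual (hp : 0 < p) (h : WR p o CG N A) {r : ℕ} (hr : r ≤ N) :
    WR p o CG r (dl (A * Dm o ((p : ℝ) ^ r))) := by
  intro c hc
  have hp0 : (p : ℝ) ≠ 0 := by exact_mod_cast hp.ne'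
  have e : dl (A * Dm o ((p : ℝ) ^ r)) * Dm o ((p : ℝ) ^ c) = dl (A * Dm o ((p : ℝ) ^ (r - c))) := by
    rw [dl_mul_Dm _ _ (pow_ne_zero _ hp0), dl_mul_Dm _ _ (pow_ne_zero _ hp0), Matrix.mul_assoc, Dm_mul]
    congr 2
    have : (p : ℝ) ^ r = (p : ℝ) ^ (r - c) * (p : ℝ) ^ c := by rw [← pow_add]; congr 1; omega
    rw [this]
    have := pow_ne_zero c hp0
    have := pow_ne_zero (r - c) hp0
    field_simp
  rw [e]
  exact (h _ (by omega)).dl'

/-- one residue class -/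
def cls (o : ι) (a P : ℤ) (x : ι → ℤ) : ι → ℤ := fun i => if i = o then a + P * x i else x i

lemma cls_o (o : ι) (a P : ℤ) (x : ι → ℤ) : cls o a P x o = a + P * x o := by simp [cls]

lemma cls_inj (o : ι) (a : ℤ) {P : ℤ} (hP : P ≠ 0) : Function.Injective (cls o a P) := by
  intro x y h
  funext i
  have h1 := congrFun h i
  unfold cls at h1
  split_ifs at h1
  · exact mul_left_cancel₀ hP (by linarith)
  · exact h1

/-- every vector is in exactly one class -/
noncomputable def dec (o : ι) {P : ℕ} (hP : 0 < P) : range P × (ι → ℤ) ≃ (ι → ℤ) := by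
  refine Equiv.ofBijective (fun x => cls o (x.1 : ℕ) P x.2) ⟨?_, ?_⟩
  · rintro ⟨⟨a, ha⟩, x⟩ ⟨⟨b, hb⟩, y⟩ hab
    simp only at hab
    rw [mem_range] at ha hb
    have h1 := congrFun hab o
    rw [cls_o, cls_o] at h1
    have h2 : (a : ℤ) % P = (b : ℤ) % P := by
      have := congrArg (· % (P : ℤ)) h1
      simpa using this
    rw [Int.emod_eq_of_lt (by omega) (by omega), Int.emod_eq_of_lt (by omega) (by omega)] at h2
    have h3 : a = b := by omega
    subst h3
    have h4 := cls_inj o (a : ℤ) (P := (P : ℤ)) (by omega) hab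
    rw [h4]
  · intro m
    have hP' : (0 : ℤ) < P := by exact_mod_cast hP
    have h1 := Int.emod_nonneg (m o) hP'.ne'
    have h2 := Int.emod_lt_of_pos (m o) hP'
    refine ⟨(⟨(m o % P).toNat, by rw [mem_range]; omega⟩, fun i => if i = o then m o / P else m i), ?_⟩
    funext i
    simp only
    unfold cls
    by_cases hi : i = o
    · subst hi
      simp only [if_true]
      have h3 : (((m i % P).toNat : ℕ) : ℤ) = m i % P := Int.toNat_of_nonneg h1
      rw [h3]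
      exact Int.emod_add_mul_ediv _ _
    · simp only [if_neg hi]

lemma dec_apply (o : ι) {P : ℕ} (hP : 0 < P) (x : range P × (ι → ℤ)) :
    dec o hP x = cls o (x.1 : ℕ) P x.2 := rfl

/-- sums over residue classes -/
lemma tsum_dec (o : ι) {P : ℕ} (hP : 0 < P) {f : (ι → ℤ) → ℂ} (hf : Summable f) :
    ∑' α, f α = ∑ a ∈ range P, ∑' x, f (cls o (a : ℕ) P x) := by
  have h1 : Summable fun x : range P × (ι → ℤ) => f (dec o hP x) := (dec o hP).summable_iff.2 hf
  rw [← (dec o hP).tsum_eq, h1.tsum_prod, tsum_fintype]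
  exact Finset.sum_coe_sort (range P) (fun a : ℕ => ∑' x, f (cls o (a : ℕ) P x))

/-- the vector `a δ_o` -/
def dlt (o : ι) (a : ℤ) : ι → ℤ := fun i => if i = o then a else 0

lemma em_cls (A : Matrix ι ι ℝ) (o : ι) (a P : ℤ) (x : ι → ℤ) :
    em A (cls o a P x) = em (A * Dm o P) x + em A (dlt o a) := by
  have h1 : cst (cls o a P x) = (Dm o (P : ℝ)).mulVec (cst x) + cst (dlt o a) := by
    rw [Dm_mulVec]
    funext i
    simp only [Pi.add_apply]
    unfold cst cls dlt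
    split_ifs
    · push_cast; ring
    · push_cast; ring
  have h2 : A.mulVec (cst (cls o a P x)) = (A * Dm o P).mulVec (cst x) + A.mulVec (cst (dlt o a)) := by
    rw [h1, Matrix.mulVec_add, Matrix.mulVec_mulVec]
  ext i
  have := congrFun h2 i
  exact this

lemma ga_cls (A : Matrix ι ι ℝ) (o : ι) (z : EuclideanSpace ℝ ι) (a P : ℤ) (x : ι → ℤ) :
    ga (em A) z (cls o a P x) = ga (em (A * Dm o P)) (z - em A (dlt o a)) x := by
  unfold ga
  rw [em_cls]
  have : em (A * Dm o P) x + em A (dlt o a) - z = em (A * Dm o P) x - (z - em A (dlt o a)) := by abel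
  rw [this]

/-- the majorant of a sum against a character of conductor `Q` -/
noncomputable def Qs (A : Matrix ι ι ℝ) (o : ι) (P Q κ : ℤ) : ℝ :=
  (|A.det| * |(P : ℝ)|)⁻¹ * ∑' k, ga (em (dl (A * Dm o ((P : ℝ) * Q)))) 0 (cls o (-κ) Q k)

lemma Qs_nonneg (A : Matrix ι ι ℝ) (o : ι) (P Q κ : ℤ) : 0 ≤ Qs A o P Q κ := by
  unfold Qs
  exact mul_nonneg (by positivity) (tsum_nonneg fun y => ga_nonneg _ _ _)

theorem char_sum (hA : A.det ≠ 0) (o : ι) {P Q : ℤ} (hP : 0 < P) (hQ : 0 < Q) (z : EuclideanSpace ℝ ι)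
    (a κ : ℤ) :
    ‖∑' x, (ga (em A) z (cls o a P x) : ℂ) * cexp (2 * Real.pi * I * (κ * x o) / Q)‖ ≤ Qs A o P Q κ := by
  have hP0 : (P : ℝ) ≠ 0 := by exact_mod_cast hP.ne'
  have hQ0 : (Q : ℝ) ≠ 0 := by exact_mod_cast hQ.ne'
  have hB : (A * Dm o P).det ≠ 0 := by
    rw [Matrix.det_mul, Dm_det]
    exact mul_ne_zero hA hP0
  have h1 := ga_fourier hB (z - em A (dlt o a)) (fun i => if i = o then (κ : ℝ) / Q else 0)
  have e1 : ∀ x : ι → ℤ, (ga (em A) z (cls o a P x) : ℂ) * cexp (2 * Real.pi * I * (κ * x o) / Q) =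
      (ga (em (A * Dm o P)) (z - em A (dlt o a)) x : ℂ) *
        cexp (2 * Real.pi * I * ((∑ i, (if i = o then (κ : ℝ) / Q else 0) * x i : ℝ) : ℂ)) := by
    intro x
    rw [ga_cls]
    congr 2
    have : (∑ i, (if i = o then (κ : ℝ) / Q else 0) * (x i : ℝ)) = (κ : ℝ) / Q * x o := by
      simp only [ite_mul, zero_mul]
      rw [Finset.sum_ite_eq' univ o (fun i => (κ : ℝ) / Q * (x i : ℝ))]
      simp
    rw [this]
    push_cast
    ring
  simp_rw [e1]
  refine h1.trans (le_of_eq ?_)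
  unfold Qs
  rw [Matrix.det_mul, Dm_det, abs_mul]
  congr 1
  refine tsum_congr fun k => ?_
  unfold ga
  congr 3
  have e2 : dl (A * Dm o (P : ℝ)) = dl (A * Dm o ((P : ℝ) * Q)) * Dm o Q := by
    rw [dl_mul_Dm _ _ hP0, dl_mul_Dm _ _ (mul_ne_zero hP0 hQ0), Matrix.mul_assoc, Dm_mul]
    congr 2
    field_simp
  rw [sub_zero]
  have e3 : em (dl (A * Dm o (P : ℝ))) k - WithLp.toLp 2 ((dl (A * Dm o (P : ℝ))).mulVec
      (fun i => if i = o then (κ : ℝ) / Q else 0)) = em (dl (A * Dm o ((P : ℝ) * Q))) (cls o (-κ) Q k) := by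
    have e4 : (Dm o (Q : ℝ)).mulVec (cst k) - (Dm o (Q : ℝ)).mulVec (fun i => if i = o then (κ : ℝ) / Q else 0) =
        cst (cls o (-κ) Q k) := by
      rw [Dm_mulVec, Dm_mulVec]
      funext i
      simp only [Pi.sub_apply]
      unfold cst cls
      split_ifs
      · push_cast; field_simp; ring
      · simp
    have e5 : (dl (A * Dm o (P : ℝ))).mulVec (cst k) - (dl (A * Dm o (P : ℝ))).mulVec
        (fun i => if i = o then (κ : ℝ) / Q else 0) = (dl (A * Dm o ((P : ℝ) * Q))).mulVec (cst (cls o (-κ) Q k)) := by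
      rw [← e4, Matrix.mulVec_sub, Matrix.mulVec_mulVec, Matrix.mulVec_mulVec, ← e2]
    ext i
    exact congrFun e5 i
  rw [e3]

/-- the sum of the majorants over the unit residues -/
theorem Qs_sum (hp : p.Prime) (h : WR p o CG N A) {c c' : ℕ} (hc : c + c' ≤ N) (hc1 : 1 ≤ c') :
    ∑ k ∈ (range (p ^ c')).filter (fun k : ℕ => ¬ (p : ℤ) ∣ k), Qs A o ((p : ℤ) ^ c) ((p : ℤ) ^ c') k ≤
      CG * p ^ c' := by
  classical
  have hp0 : (0 : ℝ) < p := by exact_mod_cast hp.pos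
  obtain ⟨U, hU⟩ : ∃ U, U = (range (p ^ c')).filter (fun k : ℕ => ¬ (p : ℤ) ∣ k) := ⟨_, rfl⟩
  rw [← hU]
  obtain ⟨B, hB⟩ : ∃ B, B = A * Dm o ((p : ℝ) ^ (c + c')) := ⟨_, rfl⟩
  have hL : Lb CG B := by rw [hB]; exact h _ hc
  have hdB : (dl B).det ≠ 0 := hL.dl'.det
  obtain ⟨f, hf⟩ : ∃ f : ℕ × (ι → ℤ) → (ι → ℤ), f = fun t => cls o (-(t.1 : ℤ)) ((p : ℤ) ^ c') t.2 := ⟨_, rfl⟩
  have hpc : ((p : ℤ) ^ c') ≠ 0 := pow_ne_zero _ (by exact_mod_cast hp.ne_zero)
  have hinj : ∀ t t' : ℕ × (ι → ℤ), t.1 ∈ U → t'.1 ∈ U → f t = f t' → t = t' := by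
    intro t t' ht ht' hff
    rw [hf] at hff
    simp only at hff
    have h1 := congrFun hff o
    rw [cls_o, cls_o] at h1
    have b1 : (t.1 : ℤ) < (p : ℤ) ^ c' := by
      rw [hU] at ht
      have := (mem_filter.1 ht).1
      rw [mem_range] at this
      exact_mod_cast this
    have b2 : (t'.1 : ℤ) < (p : ℤ) ^ c' := by
      rw [hU] at ht'
      have := (mem_filter.1 ht').1
      rw [mem_range] at this
      exact_mod_cast this
    have e2 : (t.1 : ℤ) - t'.1 = 0 := by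
      have d3 : (p : ℤ) ^ c' ∣ (t.1 : ℤ) - t'.1 := ⟨t.2 o - t'.2 o, by linear_combination -h1⟩
      apply Int.eq_zero_of_abs_lt_dvd d3
      rw [abs_lt]
      constructor <;> omega
    have e3 : t.1 = t'.1 := by omega
    rw [e3] at hff
    exact Prod.ext e3 (cls_inj o _ hpc hff)
  have hne : ∀ t : ℕ × (ι → ℤ), t.1 ∈ U → f t ≠ 0 := by
    intro t ht h0
    rw [hf] at h0
    have h1 := congrFun h0 o
    simp only at h1
    rw [cls_o] at h1
    simp only [Pi.zero_apply] at h1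
    rw [hU] at ht
    apply (mem_filter.1 ht).2
    refine (dvd_pow_self (p : ℤ) (by omega : c' ≠ 0)).trans ⟨t.2 o, by linarith⟩
  have hnz := nz_summable hdB
  have key : ∑ k ∈ U, ∑' y, ga (em (dl B)) 0 (f (k, y)) ≤ nz (dl B) := by
    have hinj2 : Function.Injective fun t : U × (ι → ℤ) => f (t.1, t.2) := by
      rintro ⟨k, y⟩ ⟨k', y'⟩ hkk
      have := hinj (k, y) (k', y') k.2 k'.2 hkk
      rw [Prod.mk.injEq] at this
      exact Prod.ext (Subtype.ext this.1) this.2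
    have hs : Summable fun t : U × (ι → ℤ) => ga (em (dl B)) 0 (f (t.1, t.2)) :=
      (ga_summable hdB 0).comp_injective hinj2
    have e1 : ∑ k ∈ U, ∑' y, ga (em (dl B)) 0 (f (k, y)) =
        ∑' t : U × (ι → ℤ), ga (em (dl B)) 0 (f (t.1, t.2)) := by
      rw [hs.tsum_prod, tsum_fintype, ← Finset.sum_coe_sort]
    rw [e1]
    unfold nz
    refine hs.tsum_le_tsum_of_inj (fun t : U × (ι → ℤ) => f (t.1, t.2)) hinj2 ?_ ?_ hnz
    · intro α _
      split_ifs
      · exact le_rfl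
      · exact ga_nonneg _ _ _
    · intro t
      rw [if_neg (hne (t.1, t.2) t.1.2)]
  have hQe : ∀ k ∈ U, Qs A o ((p : ℤ) ^ c) ((p : ℤ) ^ c') k =
      (|A.det| * (p : ℝ) ^ c)⁻¹ * ∑' y, ga (em (dl B)) 0 (f (k, y)) := by
    intro k _
    unfold Qs
    have e1 : |(((p : ℤ) ^ c : ℤ) : ℝ)| = (p : ℝ) ^ c := by
      push_cast
      exact abs_of_pos (by positivity)
    have e2 : (((p : ℤ) ^ c : ℤ) : ℝ) * (((p : ℤ) ^ c' : ℤ) : ℝ) = (p : ℝ) ^ (c + c') := by
      push_cast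
      rw [pow_add]
    rw [e1, e2, ← hB, hf]
  rw [sum_congr rfl hQe, ← mul_sum]
  have hdA : 0 < |A.det| := abs_pos.2 h.det
  have h2 : nz (dl B) ≤ CG * |B.det| := by
    have := hL.dual 1 one_pos
    rw [one_smul, one_pow, div_one] at this
    exact this
  have h3 : |B.det| = |A.det| * (p : ℝ) ^ (c + c') := by
    rw [hB, Matrix.det_mul, Dm_det, abs_mul, abs_of_pos (by positivity : 0 < (p : ℝ) ^ (c + c'))]
  calc (|A.det| * (p : ℝ) ^ c)⁻¹ * ∑ k ∈ U, ∑' y, ga (em (dl B)) 0 (f (k, y))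
      ≤ (|A.det| * (p : ℝ) ^ c)⁻¹ * (CG * (|A.det| * (p : ℝ) ^ (c + c'))) := by
        refine mul_le_mul_of_nonneg_left (key.trans ?_) (by positivity)
        rw [← h3]
        exact h2
    _ = CG * p ^ c' := by
        rw [pow_add]
        field_simp

lemma Lb.GE_le {B : Matrix ι ι ℝ} (h : Lb CG B) : GE (em B) ≤ 1 + CG / |B.det| := by
  rw [GE_nz h.det]
  have := h.prim 1 one_pos
  rw [one_smul, one_pow, one_mul] at this
  linarith

lemma Lb.CG_nonneg {B : Matrix ι ι ℝ} (h : Lb CG B) : 0 ≤ CG := by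
  have h1 := (nz_nonneg _).trans (h.prim 1 one_pos)
  have hd : 0 < |B.det| := abs_pos.2 h.det
  rw [one_pow, one_mul] at h1
  by_contra h2
  push Not at h2
  have := div_neg_of_neg_of_pos h2 hd
  linarith

end Run7.h343.NF
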