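import Pool.Agent.Run7.h343.NF.Sep
import Pool.Agent.Run7.h343.NF.WR

/-!
Balanced lattices from lower bounds for the minimal vectors.
-/

set_option autoImplicit false
set_option linter.unusedSectionVars false

namespace Run7.h343.NF

open Complex Finset MeasureTheory Metric

variable {ι : Type} [Fintype ι] [DecidableEq ι]

/-- the volume of the unit ball -/
noncomputable def V1 (ι : Type) [Fintype ι] : ℝ := (volume (ball (0 : EuclideanSpace ℝ ι) 1)).toReal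

lemma V1_pos (ι : Type) [Fintype ι] : 0 < V1 ι := by
  unfold V1
  exact ENNReal.toReal_pos (measure_ball_pos _ _ one_pos).ne' measure_ball_lt_top.ne

/-- the packing constant -/
noncomputable def Cp (ι : Type) [Fintype ι] : ℝ := 3 ^ Fintype.card ι / V1 ι

lemma Cp_pos (ι : Type) [Fintype ι] : 0 < Cp ι := div_pos (by positivity) (V1_pos ι)

lemma vol_ball (c : EuclideanSpace ℝ ι) {r : ℝ} (hr : 0 < r) :
    (volume (ball c r)).toReal = r ^ Fintype.card ι * V1 ι := by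
  rw [Measure.addHaar_ball_of_pos _ _ hr, ENNReal.toReal_mul, ENNReal.toReal_ofReal (by positivity),
    finrank_euclideanSpace]
  rfl

theorem nz_pack {B : Matrix ι ι ℝ} (hB : B.det ≠ 0) {μ : ℝ} (hμ : 0 < μ)
    (hmin : ∀ x : ι → ℤ, x ≠ 0 → μ ≤ ‖em B x‖) : nz B ≤ Cp ι / μ ^ Fintype.card ι := by
  classical
  obtain ⟨n, hn⟩ : ∃ n, n = Fintype.card ι := ⟨_, rfl⟩
  have hV := V1_pos ι
  obtain ⟨g, hg⟩ : ∃ g : EuclideanSpace ℝ ι → ℝ, g = fun v => Real.exp (-(Real.pi * 4 / 9) * ‖v‖ ^ 2) := ⟨_, rfl⟩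
  have hb : 0 < Real.pi * 4 / 9 := by positivity
  have hg0 : ∀ v, 0 ≤ g v := fun v => by rw [hg]; positivity
  have hgi : Integrable g := by
    have h1 := GaussianFourier.integrable_cexp_neg_mul_sq_norm_add (b := ((Real.pi * 4 / 9 : ℝ) : ℂ))
      (by rw [ofReal_re]; exact hb) 0 (0 : EuclideanSpace ℝ ι)
    refine h1.norm.congr (Filter.Eventually.of_forall fun v => ?_)
    rw [hg]
    simp only [zero_mul, add_zero]
    rw [Complex.norm_exp]
    congr 1
    have : (-((Real.pi * 4 / 9 : ℝ) : ℂ) * (‖v‖ : ℂ) ^ 2) = ((-(Real.pi * 4 / 9) * ‖v‖ ^ 2 : ℝ) : ℂ) := by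
      push_cast; ring
    rw [this, ofReal_re]
  have hgI : ∫ v, g v = (3 / 2) ^ n := by
    rw [hg, GaussianFourier.integral_rexp_neg_mul_sq_norm hb, finrank_euclideanSpace]
    have e1 : Real.pi / (Real.pi * 4 / 9) = (3 / 2 : ℝ) ^ (2 : ℝ) := by
      rw [Real.rpow_two]
      field_simp
      norm_num
    rw [e1, ← Real.rpow_mul (by norm_num), ← hn]
    have e2 : (2 : ℝ) * ((n : ℝ) / 2) = (n : ℝ) := by ring
    rw [e2, Real.rpow_natCast]
  -- finite sums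
  have hfin : ∀ T : Finset (ι → ℤ), (∀ x ∈ T, x ≠ 0) →
      ∑ x ∈ T, ga (em B) 0 x ≤ Cp ι / μ ^ Fintype.card ι := by
    intro T hT
    have h1 : ∀ x ∈ T, (μ / 2) ^ n * V1 ι * ga (em B) 0 x ≤ ∫ v in ball (em B x) (μ / 2), g v := by
      intro x hx
      have h2 : ∫ _v in ball (em B x) (μ / 2), ga (em B) 0 x = (μ / 2) ^ n * V1 ι * ga (em B) 0 x := by
        rw [setIntegral_const, smul_eq_mul, hn, ← vol_ball (em B x) (by positivity)]
        rfl
      rw [← h2]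
      refine setIntegral_mono_on (integrableOn_const measure_ball_lt_top.ne) hgi.integrableOn
        measurableSet_ball fun v hv => ?_
      rw [hg]
      unfold ga
      rw [sub_zero]
      apply Real.exp_le_exp.2
      have h3 := hmin x (hT x hx)
      rw [mem_ball, dist_eq_norm] at hv
      have h4 : ‖v‖ ≤ 3 / 2 * ‖em B x‖ := by
        calc ‖v‖ = ‖(v - em B x) + em B x‖ := by rw [sub_add_cancel]
          _ ≤ ‖v - em B x‖ + ‖em B x‖ := norm_add_le _ _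
          _ ≤ _ := by linarith
      have h5 : ‖v‖ ^ 2 ≤ (3 / 2 * ‖em B x‖) ^ 2 := pow_le_pow_left₀ (norm_nonneg _) h4 2
      have := mul_le_mul_of_nonneg_left h5 hb.le
      nlinarith [Real.pi_pos]
    have hdisj : Set.PairwiseDisjoint (↑T : Set (ι → ℤ)) fun x => ball (em B x) (μ / 2) := by
      intro x _ y _ hxy
      apply ball_disjoint_ball
      have h3 := hmin (x - y) (sub_ne_zero.2 hxy)
      rw [dist_eq_norm, ← map_sub]
      linarith
    have h6 : ∑ x ∈ T, ∫ v in ball (em B x) (μ / 2), g v ≤ ∫ v, g v := by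
      rw [← integral_biUnion_finset T (fun x _ => measurableSet_ball) hdisj (fun x _ => hgi.integrableOn)]
      exact setIntegral_le_integral hgi (Filter.Eventually.of_forall hg0)
    have h7 : (μ / 2) ^ n * V1 ι * ∑ x ∈ T, ga (em B) 0 x ≤ (3 / 2) ^ n := by
      rw [mul_sum]
      refine (sum_le_sum h1).trans (h6.trans (le_of_eq hgI))
    unfold Cp
    rw [← hn, div_div, le_div_iff₀ (by positivity)]
    have e3 : (μ / 2) ^ n * V1 ι = V1 ι * μ ^ n / 2 ^ n := by rw [div_pow]; ring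
    have e4 : (3 / 2 : ℝ) ^ n = 3 ^ n / 2 ^ n := div_pow _ _ _
    rw [e3, e4] at h7
    have h2n : (0 : ℝ) < 2 ^ n := by positivity
    have h8 : V1 ι * μ ^ n / 2 ^ n * ∑ x ∈ T, ga (em B) 0 x = (V1 ι * μ ^ n * ∑ x ∈ T, ga (em B) 0 x) / 2 ^ n := by
      ring
    rw [h8, div_le_div_iff_of_pos_right h2n] at h7
    linarith
  unfold nz
  refine (nz_summable hB).tsum_le_of_sum_le fun T => ?_
  calc ∑ x ∈ T, (if x = 0 then 0 else ga (em B) 0 x) = ∑ x ∈ T.erase 0, ga (em B) 0 x := by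
        rw [Finset.sum_ite, sum_const_zero, zero_add]
        refine sum_congr ?_ fun _ _ => rfl
        ext x
        rw [mem_filter, mem_erase, and_comm]
    _ ≤ _ := hfin _ fun x hx => (mem_erase.1 hx).1

lemma exists_root {n : ℕ} (hn : n ≠ 0) {a : ℝ} (ha : 0 < a) : ∃ μ : ℝ, 0 < μ ∧ μ ^ n = a := by
  refine ⟨a ^ ((n : ℝ)⁻¹), by positivity, ?_⟩
  exact Real.rpow_inv_natCast_pow ha.le hn

/-- the bound for the mass outside the origin -/
theorem nz_min [Nonempty ι] {B : Matrix ι ι ℝ} (hB : B.det ≠ 0) {κ : ℝ} (hκ : 0 < κ)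
    (h : ∀ x : ι → ℤ, x ≠ 0 → κ * |B.det| ≤ ‖em B x‖ ^ Fintype.card ι) : nz B ≤ Cp ι / (κ * |B.det|) := by
  have hd : 0 < |B.det| := abs_pos.2 hB
  obtain ⟨μ, hμ, hμn⟩ := exists_root (n := Fintype.card ι) Fintype.card_ne_zero (mul_pos hκ hd)
  rw [← hμn] at h ⊢
  exact nz_pack hB hμ fun x hx => le_of_pow_le_pow_left₀ Fintype.card_ne_zero (norm_nonneg _) (h x hx)

lemma min_smul {B : Matrix ι ι ℝ} {κ : ℝ} {s : ℝ} (hs : 0 < s)
    (h : ∀ x : ι → ℤ, x ≠ 0 → κ * |B.det| ≤ ‖em B x‖ ^ Fintype.card ι) :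
    ∀ x : ι → ℤ, x ≠ 0 → κ * |(s • B).det| ≤ ‖em (s • B) x‖ ^ Fintype.card ι := by
  intro x hx
  rw [em_smul, norm_smul, mul_pow, Real.norm_of_nonneg hs.le, Matrix.det_smul, abs_mul,
    abs_of_pos (pow_pos hs _)]
  have := mul_le_mul_of_nonneg_left (h x hx) (pow_pos hs (Fintype.card ι)).le
  linarith

/-- balanced lattices -/
theorem Lb_of_min [Nonempty ι] {B : Matrix ι ι ℝ} (hB : B.det ≠ 0) {κ : ℝ} (hκ : 0 < κ)
    (h1 : ∀ x : ι → ℤ, x ≠ 0 → κ * |B.det| ≤ ‖em B x‖ ^ Fintype.card ι)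
    (h2 : ∀ x : ι → ℤ, x ≠ 0 → κ * |(dl B).det| ≤ ‖em (dl B) x‖ ^ Fintype.card ι) : Lb (Cp ι / κ) B := by
  have hd : 0 < |B.det| := abs_pos.2 hB
  have hdl : (dl B).det ≠ 0 := by rw [dl_det]; exact inv_ne_zero hB
  refine ⟨hB, fun s hs => ?_, fun s hs => ?_⟩
  · have hsB : (s • B).det ≠ 0 := by rw [Matrix.det_smul]; exact mul_ne_zero (pow_ne_zero _ hs.ne') hB
    refine (nz_min hsB hκ (min_smul hs h1)).trans (le_of_eq ?_)
    rw [Matrix.det_smul, abs_mul, abs_of_pos (pow_pos hs _), div_div]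
  · have hsB : (s • dl B).det ≠ 0 := by rw [Matrix.det_smul]; exact mul_ne_zero (pow_ne_zero _ hs.ne') hdl
    refine (nz_min hsB hκ (min_smul hs h2)).trans (le_of_eq ?_)
    rw [Matrix.det_smul, abs_mul, abs_of_pos (pow_pos hs _), dl_det, abs_inv]
    field_simp

/-- exponential decay -/
theorem nz_exp [Nonempty ι] {B : Matrix ι ι ℝ} (hB : B.det ≠ 0) {κ : ℝ} (hκ : 0 < κ)
    (h : ∀ x : ι → ℤ, x ≠ 0 → κ * |B.det| ≤ ‖em B x‖ ^ Fintype.card ι) {μ : ℝ} (hμ : 0 ≤ μ)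
    (hμn : μ ^ Fintype.card ι ≤ κ * |B.det|) :
    nz B ≤ Real.exp (-(Real.pi * μ ^ 2 / 2)) * (Cp ι * 2 ^ Fintype.card ι / (κ * |B.det|)) := by
  have hd : 0 < |B.det| := abs_pos.2 hB
  have hs2 : 0 < Real.sqrt 2 := Real.sqrt_pos.2 (by norm_num)
  have hsB : ((Real.sqrt 2)⁻¹ • B).det ≠ 0 := by
    rw [Matrix.det_smul]; exact mul_ne_zero (pow_ne_zero _ (inv_ne_zero hs2.ne')) hB
  have h1 := nz_min hsB hκ (min_smul (inv_pos.2 hs2) h)
  have h2 : nz B ≤ Real.exp (-(Real.pi * μ ^ 2 / 2)) * nz ((Real.sqrt 2)⁻¹ • B) := by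
    unfold nz
    rw [← tsum_mul_left]
    refine (nz_summable hB).tsum_le_tsum (fun x => ?_) ((nz_summable hsB).mul_left _)
    split_ifs with hx
    · rw [mul_zero]
    · unfold ga
      rw [em_smul, sub_zero, sub_zero, norm_smul, ← Real.exp_add]
      apply Real.exp_le_exp.2
      have h3 : μ ≤ ‖em B x‖ :=
        le_of_pow_le_pow_left₀ (n := Fintype.card ι) Fintype.card_ne_zero (norm_nonneg _) (hμn.trans (h x hx))
      have h4 : μ ^ 2 ≤ ‖em B x‖ ^ 2 := pow_le_pow_left₀ hμ h3 2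
      rw [mul_pow, norm_inv, inv_pow, Real.norm_of_nonneg hs2.le, Real.sq_sqrt (by norm_num)]
      have := mul_le_mul_of_nonneg_left h4 Real.pi_pos.le
      nlinarith
  refine h2.trans (mul_le_mul_of_nonneg_left (h1.trans ?_) (Real.exp_pos _).le)
  rw [Matrix.det_smul, abs_mul, abs_of_pos (pow_pos (inv_pos.2 hs2) _), inv_pow]
  have h5 : Real.sqrt 2 ^ Fintype.card ι ≤ 2 ^ Fintype.card ι := by
    apply pow_le_pow_left₀ hs2.le
    rw [Real.sqrt_le_left (by norm_num)]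
    norm_num
  have hC := Cp_pos ι
  calc Cp ι / (κ * ((Real.sqrt 2 ^ Fintype.card ι)⁻¹ * |B.det|)) =
        Cp ι * Real.sqrt 2 ^ Fintype.card ι / (κ * |B.det|) := by field_simp
    _ ≤ _ := by gcongr

end Run7.h343.NF
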