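import Pool.Agent.Run7.h343.NF.Nfl

/-!
The lattices of ideals are balanced.
-/

set_option autoImplicit false
set_option linter.unusedSectionVars false

open NumberField Finset

namespace Run7.h343.NF

open Pool.Agent.Y773 (Idx db)
open Pool.Agent.Y773.G (cj rr rr_add rr_sum rr_int_mul)

attribute [local instance] decEm

variable {K : Type} [Field K] [NumberField K]

/-- the lattice of an integer matrix -/
noncomputable def LC (C : Matrix (K →+* ℂ) (K →+* ℂ) ℤ) : Matrix (K →+* ℂ) (K →+* ℂ) ℝ :=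
  M0 K * C.map (Int.castRingHom ℝ)

/-- the matrix `C` describes the ideal `𝔠` -/
structure IsL (C : Matrix (K →+* ℂ) (K →+* ℂ) ℤ) (𝔠 : Ideal (𝓞 K)) : Prop where
  ne_bot : 𝔠 ≠ ⊥
  mem : ∀ x, el0 (C.mulVec x) ∈ 𝔠
  surj : ∀ z ∈ 𝔠, ∃ x, el0 (C.mulVec x) = z
  det : C.det.natAbs = Ideal.absNorm 𝔠

variable {C : Matrix (K →+* ℂ) (K →+* ℂ) ℤ} {𝔠 : Ideal (𝓞 K)}

lemma IsL.det_ne (h : IsL C 𝔠) : C.det ≠ 0 := by
  intro h0
  have h1 := h.det
  rw [h0, Int.natAbs_zero] at h1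
  exact h.ne_bot (Ideal.absNorm_eq_zero_iff.1 h1.symm)

lemma map_cst (C : Matrix (K →+* ℂ) (K →+* ℂ) ℤ) (x : (K →+* ℂ) → ℤ) :
    (C.map (Int.castRingHom ℝ)).mulVec (cst x) = cst (C.mulVec x) := by
  funext i
  simp only [Matrix.mulVec, dotProduct, cst, Matrix.map_apply, Int.coe_castRingHom]
  push_cast
  rfl

lemma em_LC (C : Matrix (K →+* ℂ) (K →+* ℂ) ℤ) (x : (K →+* ℂ) → ℤ) (φ : K →+* ℂ) :
    em (LC C) x φ = rr φ ((el0 (C.mulVec x) : 𝓞 K) : K) := by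
  rw [em_apply]
  unfold LC
  rw [← Matrix.mulVec_mulVec, map_cst, el0_coe, rr_sum]
  simp only [Matrix.mulVec, dotProduct, cst, M0]
  refine sum_congr rfl fun i _ => ?_
  rw [rr_int_mul, mul_comm]

lemma LC_det (C : Matrix (K →+* ℂ) (K →+* ℂ) ℤ) : |(LC C).det| = VK K * |(C.det : ℝ)| := by
  unfold LC VK
  rw [Matrix.det_mul, abs_mul]
  congr 2
  rw [← RingHom.mapMatrix_apply, ← RingHom.map_det]
  rfl

lemma IsL.det_abs (h : IsL C 𝔠) : |(C.det : ℝ)| = (Ideal.absNorm 𝔠 : ℝ) := by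
  rw [← h.det, Nat.cast_natAbs]
  push_cast
  rfl

lemma el0_ne {x : (K →+* ℂ) → ℤ} (hx : x ≠ 0) : el0 x ≠ 0 := by
  intro h
  apply hx
  have h1 := congrArg (b0 K).equivFun h
  unfold el0 at h1
  rwa [LinearEquiv.apply_symm_apply, map_zero] at h1

lemma el0_inj : Function.Injective (el0 (K := K)) := (b0 K).equivFun.symm.injective

lemma mulVec_ne (hC : C.det ≠ 0) {x : (K →+* ℂ) → ℤ} (hx : x ≠ 0) : C.mulVec x ≠ 0 := by
  intro h
  apply hx
  exact Matrix.eq_zero_of_mulVec_eq_zero hC h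

lemma trace_rat (q : ℚ) (x : K) : Algebra.trace ℚ K ((q : K) * x) = q * Algebra.trace ℚ K x := by
  rw [← Rat.smul_def, map_smul, smul_eq_mul]

/-- the elements of the dual lattice -/
lemma IsL.dual (h : IsL C 𝔠) (k : (K →+* ℂ) → ℤ) : ∃ y : K,
    (∀ φ, em (dl (LC C)) k φ = rr (cj φ) y) ∧
    (∀ z ∈ 𝔠, ∃ t : ℤ, Algebra.trace ℚ K (y * (z : 𝓞 K)) = t) ∧ (k ≠ 0 → y ≠ 0) := by
  have hC := h.det_ne
  obtain ⟨CQ, hCQ⟩ : ∃ CQ, CQ = C.map (Int.castRingHom ℚ) := ⟨_, rfl⟩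
  have hCQd : CQ.det ≠ 0 := by
    rw [hCQ, ← RingHom.mapMatrix_apply, ← RingHom.map_det]
    simpa using hC
  obtain ⟨q, hq⟩ : ∃ q : (K →+* ℂ) → ℚ, q = (CQ.transpose)⁻¹.mulVec (fun i => (k i : ℚ)) := ⟨_, rfl⟩
  have h1 : CQ.transpose.mulVec q = fun i => (k i : ℚ) := by
    rw [hq, Matrix.mulVec_mulVec, Matrix.mul_nonsing_inv _ (by
      rw [Matrix.det_transpose]; exact isUnit_iff_ne_zero.2 hCQd), Matrix.one_mulVec]
  have h2 : ∀ i, ∑ j, (C j i : ℚ) * q j = k i := by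
    intro i
    have := congrFun h1 i
    rw [hCQ] at this
    simpa only [Matrix.mulVec, dotProduct, Matrix.transpose_apply, Matrix.map_apply, Int.coe_castRingHom] using this
  have hCR : (C.map (Int.castRingHom ℝ)).det ≠ 0 := by
    rw [← RingHom.mapMatrix_apply, ← RingHom.map_det]
    simpa using hC
  have h3 : (dl (C.map (Int.castRingHom ℝ))).mulVec (cst k) = fun i => ((q i : ℚ) : ℝ) := by
    have h4 : (C.map (Int.castRingHom ℝ)).transpose.mulVec (fun i => ((q i : ℚ) : ℝ)) = cst k := by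
      funext i
      simp only [Matrix.mulVec, dotProduct, Matrix.transpose_apply, Matrix.map_apply, Int.coe_castRingHom, cst]
      exact_mod_cast h2 i
    rw [← h4]
    unfold dl
    rw [Matrix.mulVec_mulVec, Matrix.nonsing_inv_mul _ (by
      rw [Matrix.det_transpose]; exact isUnit_iff_ne_zero.2 hCR), Matrix.one_mulVec]
  obtain ⟨y, hy⟩ : ∃ y : K, y = ∑ i, (q i : K) * d0 K i := ⟨_, rfl⟩
  have htr : ∀ x : (K →+* ℂ) → ℤ, Algebra.trace ℚ K (y * (el0 (C.mulVec x) : 𝓞 K)) = ((∑ i, x i * k i : ℤ) : ℚ) := by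
    intro x
    rw [hy, el0_coe, sum_mul_sum, map_sum]
    have e1 : ∀ i, Algebra.trace ℚ K (∑ j, (q i : K) * d0 K i * (((C.mulVec x) j : K) * (b0 K j : 𝓞 K))) =
        q i * (C.mulVec x) i := by
      intro i
      rw [map_sum]
      have e2 : ∀ j, Algebra.trace ℚ K ((q i : K) * d0 K i * (((C.mulVec x) j : K) * (b0 K j : 𝓞 K))) =
          if i = j then q i * (C.mulVec x) j else 0 := by
        intro j
        have e3 : (q i : K) * d0 K i * (((C.mulVec x) j : K) * (b0 K j : 𝓞 K)) =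
            ((q i * ((C.mulVec x) j : ℚ) : ℚ) : K) * (d0 K i * (b0 K j : 𝓞 K)) := by
          push_cast
          ring
        rw [e3, trace_rat, d0_trace]
        split_ifs <;> simp
      simp_rw [e2]
      rw [sum_ite_eq univ i]
      simp
    simp_rw [e1]
    have e4 : ∀ i, ((C.mulVec x) i : ℚ) = ∑ j, (C i j : ℚ) * x j := by
      intro i
      simp only [Matrix.mulVec, dotProduct]
      push_cast
      rfl
    simp_rw [e4, mul_sum]
    rw [sum_comm]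
    push_cast
    refine sum_congr rfl fun j _ => ?_
    rw [← h2 j, mul_sum]
    refine sum_congr rfl fun i _ => ?_
    ring
  refine ⟨y, fun φ => ?_, fun z hz => ?_, fun hk hy0 => hk ?_⟩
  · rw [em_apply]
    unfold LC
    rw [dl_mul, ← Matrix.mulVec_mulVec, h3, dl_M0, hy, rr_sum]
    simp only [Matrix.mulVec, dotProduct, D0]
    refine sum_congr rfl fun i _ => ?_
    rw [rr_rat_mul, mul_comm]
  · obtain ⟨x, rfl⟩ := h.surj z hz
    exact ⟨_, htr x⟩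
  · funext i
    have h5 := htr (Pi.single i 1)
    rw [hy0, zero_mul, map_zero] at h5
    have h6 : (∑ j, (Pi.single i (1 : ℤ) : (K →+* ℂ) → ℤ) j * k j) = k i := by
      rw [Finset.sum_eq_single i]
      · simp
      · intro j _ hj
        rw [Pi.single_eq_of_ne hj, zero_mul]
      · intro hi
        exact absurd (mem_univ i) hi
    rw [h6] at h5
    exact_mod_cast h5.symm

lemma B_det (h : IsL C 𝔠) (y : InfinitePlace K → ℝ) :
    |(sc y * LC C).det| = Real.exp (sy y / 2) * (VK K * (Ideal.absNorm 𝔠 : ℝ)) := by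
  rw [Matrix.det_mul, abs_mul, LC_det, h.det_abs, sc_det, abs_of_pos (Real.exp_pos _)]

lemma B_ne (h : IsL C 𝔠) (y : InfinitePlace K → ℝ) : (sc y * LC C).det ≠ 0 := by
  rw [← abs_pos, B_det h]
  have h1 : 0 < (Ideal.absNorm 𝔠 : ℝ) := by
    have : Ideal.absNorm 𝔠 ≠ 0 := by rw [Ne, Ideal.absNorm_eq_zero_iff]; exact h.ne_bot
    exact_mod_cast Nat.pos_of_ne_zero this
  have := VK_pos (K := K)
  positivity

lemma sy_neg (y : InfinitePlace K → ℝ) : sy (fun w => -y w) = -sy y := by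
  unfold sy
  rw [← sum_neg_distrib]
  exact sum_congr rfl fun w _ => by ring

variable (K) in
/-- lower bounds for the minimal vectors -/
theorem min_nf : ∃ κ : ℝ, 0 < κ ∧ ∀ (𝔠 : Ideal (𝓞 K)) (C : Matrix (K →+* ℂ) (K →+* ℂ) ℤ), IsL C 𝔠 →
    ∀ y : InfinitePlace K → ℝ,
      (∀ x : (K →+* ℂ) → ℤ, x ≠ 0 → κ * |(sc y * LC C).det| ≤ ‖em (sc y * LC C) x‖ ^ Fintype.card (K →+* ℂ)) ∧
      (∀ x : (K →+* ℂ) → ℤ, x ≠ 0 → κ * |(dl (sc y * LC C)).det| ≤
        ‖em (dl (sc y * LC C)) x‖ ^ Fintype.card (K →+* ℂ)) := by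
  obtain ⟨a, ha, haK⟩ := exists_aK K
  have hV := VK_pos (K := K)
  obtain ⟨n, hn⟩ : ∃ n, n = Fintype.card (K →+* ℂ) := ⟨_, rfl⟩
  rw [← hn]
  have ha0 : (0 : ℝ) < (a : ℝ) ^ n := by positivity
  refine ⟨min (1 / VK K) (VK K / (a : ℝ) ^ n), by positivity, fun 𝔠 C h y => ⟨fun x hx => ?_, fun x hx => ?_⟩⟩
  · have h1 := nrm_em (y := y) (B := LC C) (m := x) (Or.inl fun φ => em_LC C x φ)
    rw [← hn] at h1
    refine le_trans ?_ h1
    have h2 := nK_ideal (h.mem x) (el0_ne (mulVec_ne h.det_ne hx))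
    rw [B_det h]
    calc min (1 / VK K) (VK K / (a : ℝ) ^ n) * (Real.exp (sy y / 2) * (VK K * (Ideal.absNorm 𝔠 : ℝ))) ≤
          (1 / VK K) * (Real.exp (sy y / 2) * (VK K * (Ideal.absNorm 𝔠 : ℝ))) := by
          gcongr
          exact min_le_left _ _
      _ = Real.exp (sy y / 2) * (Ideal.absNorm 𝔠 : ℝ) := by field_simp
      _ ≤ _ := mul_le_mul_of_nonneg_left h2 (Real.exp_pos _).le
  · obtain ⟨z, hz1, hz2, hz3⟩ := h.dual x
    have h1 := nrm_em (y := fun w => -y w) (B := dl (LC C)) (m := x) (Or.inr hz1)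
    rw [← hn] at h1
    rw [dl_mul, dl_sc]
    refine le_trans ?_ h1
    have h2 := nK_dual ha haK h.ne_bot (hz3 hx) hz2
    rw [← hn] at h2
    have h3 : 0 < (Ideal.absNorm 𝔠 : ℝ) := by
      have : Ideal.absNorm 𝔠 ≠ 0 := by rw [Ne, Ideal.absNorm_eq_zero_iff]; exact h.ne_bot
      exact_mod_cast Nat.pos_of_ne_zero this
    have h4 : |(sc (fun w => -y w) * dl (LC C)).det| = (Real.exp (sy y / 2) * (VK K * (Ideal.absNorm 𝔠 : ℝ)))⁻¹ := by
      rw [← dl_sc, ← dl_mul, dl_det, abs_inv, B_det h]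
    rw [h4, sy_neg, neg_div, Real.exp_neg]
    have h5 : ((a : ℝ) ^ n * (Ideal.absNorm 𝔠 : ℝ))⁻¹ ≤ nK z := by
      rw [inv_le_iff_one_le_mul₀ (by positivity)]
      linarith
    calc min (1 / VK K) (VK K / (a : ℝ) ^ n) * (Real.exp (sy y / 2) * (VK K * (Ideal.absNorm 𝔠 : ℝ)))⁻¹ ≤
          (VK K / (a : ℝ) ^ n) * (Real.exp (sy y / 2) * (VK K * (Ideal.absNorm 𝔠 : ℝ)))⁻¹ := by
          gcongr
          exact min_le_right _ _
      _ = (Real.exp (sy y / 2))⁻¹ * ((a : ℝ) ^ n * (Ideal.absNorm 𝔠 : ℝ))⁻¹ := by field_simp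
      _ ≤ _ := mul_le_mul_of_nonneg_left h5 (by positivity)

end Run7.h343.NF
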