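import Pool.Agent.Run7.h343.NF.Nf2
import Pool.Agent.Run7.h343.NF.Bd

/-!
Chains of ideals give balanced chains of lattices.
-/

set_option autoImplicit false
set_option linter.unusedSectionVars false

open NumberField Finset

namespace Run7.h343.NF

attribute [local instance] decEm

variable {K : Type} [Field K] [NumberField K]

/-- integral scaling of the coordinate `o` -/
def Dz {ι : Type} [DecidableEq ι] (o : ι) (P : ℤ) : Matrix ι ι ℤ := Matrix.diagonal (fun i => if i = o then P else 1)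

lemma Dz_map {ι : Type} [Fintype ι] [DecidableEq ι] (o : ι) (P : ℤ) : (Dz o P).map (Int.castRingHom ℝ) = Dm o (P : ℝ) := by
  unfold Dz Dm
  rw [Matrix.diagonal_map (by simp)]
  congr 1
  funext i
  split_ifs <;> simp

lemma LC_Dz (C : Matrix (K →+* ℂ) (K →+* ℂ) ℤ) (o : K →+* ℂ) (P : ℤ) : LC (C * Dz o P) = LC C * Dm o (P : ℝ) := by
  unfold LC
  rw [Matrix.map_mul, Dz_map, Matrix.mul_assoc]

/-- the chain of lattices of the ideals `𝔟𝔭^c` -/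
def Chn (p : ℕ) (o : K →+* ℂ) (ν : ℕ) (C : Matrix (K →+* ℂ) (K →+* ℂ) ℤ) (𝔟 𝔭 : Ideal (𝓞 K)) : Prop :=
  ∀ c ≤ ν, IsL (C * Dz o ((p : ℤ) ^ c)) (𝔟 * 𝔭 ^ c)

/-- the weights -/
noncomputable def wσ (σ : InfinitePlace K → ℝ) : (K →+* ℂ) → ℝ := fun φ => σ (InfinitePlace.mk φ)

/-- logarithms of the weights -/
noncomputable def lσ (σ : InfinitePlace K → ℝ) : InfinitePlace K → ℝ := fun w => -Real.log (1 + σ w ^ 2)

lemma rs_sc (σ : InfinitePlace K → ℝ) : rs (wσ σ) = sc (lσ σ) := by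
  unfold rs sc wσ lσ
  congr 1
  funext φ
  have h : 0 < 1 + σ (InfinitePlace.mk φ) ^ 2 := by positivity
  rw [neg_div, Real.exp_neg, ← Real.log_sqrt h.le, Real.exp_log (Real.sqrt_pos.2 h)]

lemma Aq_eq {p : ℕ} (hp : 0 < p) (y σ : InfinitePlace K → ℝ) (C : Matrix (K →+* ℂ) (K →+* ℂ) ℤ) (o : K →+* ℂ) {c ν : ℕ}
    (hc : c ≤ ν) : Aq (sc y * LC C) (wσ σ) o ((p : ℝ) ^ ν) * Dm o ((p : ℝ) ^ c) =
      dl (sc (fun w => y w - lσ σ w) * LC (C * Dz o ((p : ℤ) ^ (ν - c)))) := by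
  have hp0 : (p : ℝ) ≠ 0 := by exact_mod_cast hp.ne'
  have e1 : ((((p : ℤ) ^ (ν - c) : ℤ)) : ℝ) = (p : ℝ) ^ (ν - c) := by push_cast; rfl
  unfold Aq
  rw [LC_Dz, e1, rs_sc, ← Matrix.mul_assoc, dl_mul_Dm _ _ (pow_ne_zero ν hp0),
    dl_mul_Dm _ _ (pow_ne_zero (ν - c) hp0), dl_mul, dl_mul, dl_sc, dl_sc, ← Matrix.mul_assoc, ← Matrix.mul_assoc, sc_sc,
    Matrix.mul_assoc _ (Dm o ((p : ℝ) ^ ν)⁻¹), Dm_mul]
  congr 2
  · congr 2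
    funext w
    ring
  · congr 1
    rw [pow_sub₀ _ hp0 hc]
    field_simp

variable (K) in
/-- the constant -/
noncomputable def CGK : ℝ := Cp (K →+* ℂ) / Classical.choose (min_nf K)

lemma CGK_nonneg : 0 ≤ CGK K :=
  div_nonneg (Cp_pos _).le (Classical.choose_spec (min_nf K)).1.le

lemma IsL.Lb {C : Matrix (K →+* ℂ) (K →+* ℂ) ℤ} {𝔠 : Ideal (𝓞 K)} (h : IsL C 𝔠) (y : InfinitePlace K → ℝ) :
    Lb (CGK K) (sc y * LC C) := by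
  obtain ⟨h1, h2⟩ := Classical.choose_spec (min_nf K)
  obtain ⟨h3, h4⟩ := h2 𝔠 C h y
  exact Lb_of_min (B_ne h y) h1 h3 h4

/-- balanced chains -/
theorem Chn.WR {p : ℕ} {o : K →+* ℂ} {ν : ℕ} {C : Matrix (K →+* ℂ) (K →+* ℂ) ℤ} {𝔟 𝔭 : Ideal (𝓞 K)}
    (h : Chn p o ν C 𝔟 𝔭) (y : InfinitePlace K → ℝ) : WR p o (CGK K) ν (sc y * LC C) := by
  intro c hc
  have e1 : (p : ℝ) ^ c = (((p : ℤ) ^ c : ℤ) : ℝ) := by push_cast; rfl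
  rw [Matrix.mul_assoc, e1, ← LC_Dz]
  exact (h c hc).Lb y

theorem Chn.WR' {p : ℕ} (hp : 0 < p) {o : K →+* ℂ} {ν : ℕ} {C : Matrix (K →+* ℂ) (K →+* ℂ) ℤ} {𝔟 𝔭 : Ideal (𝓞 K)}
    (h : Chn p o ν C 𝔟 𝔭) (y σ : InfinitePlace K → ℝ) :
    NF.WR p o (CGK K) ν (Aq (sc y * LC C) (wσ σ) o ((p : ℝ) ^ ν)) := by
  intro c hc
  rw [Aq_eq hp y σ C o hc]
  exact ((h (ν - c) (Nat.sub_le _ _)).Lb _).dl'

lemma Chn.isL {p : ℕ} {o : K →+* ℂ} {ν : ℕ} {C : Matrix (K →+* ℂ) (K →+* ℂ) ℤ} {𝔟 𝔭 : Ideal (𝓞 K)}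
    (h : Chn p o ν C 𝔟 𝔭) : IsL C 𝔟 := by
  have h1 := h 0 (Nat.zero_le _)
  rw [pow_zero, pow_zero, mul_one] at h1
  have h2 : Dz o 1 = (1 : Matrix (K →+* ℂ) (K →+* ℂ) ℤ) := by
    unfold Dz
    simp
  rwa [h2, mul_one] at h1

variable (K) in
/-- the constant of the theta bound, for all choices of the coordinate -/
theorem NT_K : ∃ Cθ : ℝ, 0 < Cθ ∧ ∀ p : ℕ, p.Prime → 7 ≤ p →
    ∀ ν : ℕ, 1 ≤ ν → ∀ χ : DirichletCharacter ℂ (p ^ ν), χ.IsPrimitive →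
    ∀ (o : K →+* ℂ) (C : Matrix (K →+* ℂ) (K →+* ℂ) ℤ) (𝔟 𝔭 : Ideal (𝓞 K)), Chn p o ν C 𝔟 𝔭 →
    ∀ (y σ : InfinitePlace K → ℝ) (S : ℝ), (∀ w, Real.sqrt (1 + σ w ^ 2) ≤ S) →
      NT χ o (sc y * LC C) (wσ σ) ≤ Cθ * (p : ℝ) ^ (Fintype.card (K →+* ℂ) + 4) * (1 + ν) ^ 2 *
        S ^ Fintype.card (K →+* ℂ) * ((p : ℝ) ^ ν) ^ (19 / 58 : ℝ) *
        min |(sc y * LC C).det|⁻¹ (min 1 |(Aq (sc y * LC C) (wσ σ) o ((p : ℝ) ^ ν)).det|⁻¹) := by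
  choose f hf0 hf using fun o : K →+* ℂ => NT_all o (CGK_nonneg (K := K))
  refine ⟨∑ o, f o, sum_pos (fun o _ => hf0 o) univ_nonempty, ?_⟩
  intro p hp hp7 ν hν χ hχ o C 𝔟 𝔭 h y σ S hS
  have hS0 : 0 ≤ S := (Real.sqrt_nonneg _).trans (hS (Classical.arbitrary _))
  refine (hf o p hp hp7 ν hν χ hχ _ _ S (h.WR y) (h.WR' hp.pos y σ) fun φ => hS _).trans ?_
  have h1 : f o ≤ ∑ o, f o := single_le_sum (fun o _ => (hf0 o).le) (mem_univ o)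
  have h2 : 0 ≤ min |(sc y * LC C).det|⁻¹ (min 1 |(Aq (sc y * LC C) (wσ σ) o ((p : ℝ) ^ ν)).det|⁻¹) :=
    le_min (by positivity) (le_min zero_le_one (by positivity))
  gcongr

end Run7.h343.NF
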