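import Pool.Agent.Run7.h343.NF.Nf3

/-!
Unramified prime ideals of degree one and adapted bases.
-/

set_option autoImplicit false
set_option linter.unusedSectionVars false

open NumberField Finset

namespace Run7.h343.NF

attribute [local instance] decEm

variable {K : Type} [Field K] [NumberField K]

/-- unramified prime ideals of degree one -/
structure P1 (p : ℕ) (𝔭 : Ideal (𝓞 K)) : Prop where
  hp : p.Prime
  norm : Ideal.absNorm 𝔭 = p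
  unr : (p : 𝓞 K) ∉ 𝔭 ^ 2

variable {p : ℕ} {𝔭 : Ideal (𝓞 K)}

lemma P1.isPrime (h : P1 p 𝔭) : 𝔭.IsPrime :=
  Ideal.isPrime_of_irreducible_absNorm (by rw [h.norm]; exact h.hp)

lemma P1.ne_bot (h : P1 p 𝔭) : 𝔭 ≠ ⊥ := by
  intro h0
  have h1 := h.norm
  rw [h0, Ideal.absNorm_bot] at h1
  exact h.hp.ne_zero h1.symm

lemma P1.prime (h : P1 p 𝔭) : Prime 𝔭 := Ideal.prime_of_isPrime h.ne_bot h.isPrime

lemma P1.mem (h : P1 p 𝔭) : (p : 𝓞 K) ∈ 𝔭 := by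
  have := Ideal.absNorm_mem 𝔭
  rwa [h.norm] at this

lemma P1.isMax (h : P1 p 𝔭) : 𝔭.IsMaximal := h.isPrime.isMaximal h.ne_bot

lemma P1.int_mem (h : P1 p 𝔭) (m : ℤ) : (m : 𝓞 K) ∈ 𝔭 ↔ (p : ℤ) ∣ m := by
  constructor
  · intro hm
    by_contra hd
    have h1 : IsCoprime (p : ℤ) m := (Nat.prime_iff_prime_int.1 h.hp).coprime_iff_not_dvd.2 hd
    obtain ⟨a, b, hab⟩ := h1
    apply h.isPrime.ne_top
    rw [Ideal.eq_top_iff_one]
    have h2 : (1 : 𝓞 K) = (a : 𝓞 K) * (p : 𝓞 K) + (b : 𝓞 K) * (m : 𝓞 K) := by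
      exact_mod_cast congrArg (fun z : ℤ => (z : 𝓞 K)) hab.symm
    rw [h2]
    exact 𝔭.add_mem (𝔭.mul_mem_left _ h.mem) (𝔭.mul_mem_left _ hm)
  · rintro ⟨k, rfl⟩
    push_cast
    exact 𝔭.mul_mem_right _ h.mem

/-- the integers in the powers of `𝔭` -/
lemma P1.int_mem_pow (h : P1 p 𝔭) (c : ℕ) : ∀ m : ℤ, (m : 𝓞 K) ∈ 𝔭 ^ c ↔ (p : ℤ) ^ c ∣ m := by
  obtain ⟨𝔮, h𝔮⟩ : 𝔭 ∣ Ideal.span {(p : 𝓞 K)} := Ideal.dvd_span_singleton.2 h.mem
  have hnd : ¬ 𝔭 ∣ 𝔮 := by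
    rintro ⟨𝔯, h𝔯⟩
    apply h.unr
    rw [← Ideal.dvd_span_singleton, h𝔮, h𝔯, sq, ← mul_assoc]
    exact Dvd.intro _ rfl
  have hpow : ∀ c, ((p : 𝓞 K) ^ c) ∈ 𝔭 ^ c := fun c => Ideal.pow_mem_pow h.mem c
  induction c with
  | zero => intro m; simp
  | succ c ih =>
    intro m
    constructor
    · intro hm
      have h1 : (m : 𝓞 K) ∈ 𝔭 := Ideal.pow_le_self (Nat.succ_ne_zero c) hm
      obtain ⟨k, hk⟩ := (h.int_mem m).1 h1
      rw [hk, pow_succ']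
      refine mul_dvd_mul_left _ ((ih k).1 ?_)
      rw [← Ideal.dvd_span_singleton]
      have h2 : 𝔭 ^ (c + 1) ∣ Ideal.span {(m : 𝓞 K)} := Ideal.dvd_span_singleton.2 hm
      have h3 : Ideal.span {(m : 𝓞 K)} = 𝔭 * (𝔮 * Ideal.span {(k : 𝓞 K)}) := by
        rw [← mul_assoc, ← h𝔮, Ideal.span_singleton_mul_span_singleton, hk]
        push_cast
        rfl
      rw [h3, pow_succ'] at h2
      have h4 : 𝔭 ^ c ∣ 𝔮 * Ideal.span {(k : 𝓞 K)} := (mul_dvd_mul_iff_left h.prime.ne_zero).1 h2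
      exact h.prime.pow_dvd_of_dvd_mul_left c hnd h4
    · rintro ⟨k, rfl⟩
      push_cast
      exact Ideal.mul_mem_right _ _ (hpow (c + 1))

lemma P1.norm_pow (h : P1 p 𝔭) (c : ℕ) : Ideal.absNorm (𝔭 ^ c) = p ^ c := by
  rw [map_pow, h.norm]

/-- residues modulo powers of `𝔭` are represented by integers -/
lemma P1.exists_int (h : P1 p 𝔭) (c : ℕ) (x : 𝓞 K) : ∃ m : ℤ, x - (m : 𝓞 K) ∈ 𝔭 ^ c := by
  haveI : NeZero (p ^ c) := ⟨pow_ne_zero _ h.hp.ne_zero⟩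
  have hcard : Nat.card (𝓞 K ⧸ 𝔭 ^ c) = p ^ c := by
    rw [← h.norm_pow c, Ideal.absNorm_apply, Submodule.cardQuot_apply]
  haveI : Finite (𝓞 K ⧸ 𝔭 ^ c) := Nat.finite_of_card_ne_zero (by rw [hcard]; exact pow_ne_zero _ h.hp.ne_zero)
  let f : ZMod (p ^ c) → 𝓞 K ⧸ 𝔭 ^ c := fun a => Ideal.Quotient.mk (𝔭 ^ c) ((a.val : ℤ) : 𝓞 K)
  have hinj : Function.Injective f := by
    intro a b hab
    have h1 : (((a.val : ℤ) : 𝓞 K)) - ((b.val : ℤ) : 𝓞 K) ∈ 𝔭 ^ c := Ideal.Quotient.eq.1 hab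
    have h2 : (((a.val : ℤ) - (b.val : ℤ) : ℤ) : 𝓞 K) ∈ 𝔭 ^ c := by
      push_cast at h1 ⊢
      exact h1
    rw [h.int_mem_pow] at h2
    have h3 : ((a.val : ℤ) : ZMod (p ^ c)) = ((b.val : ℤ) : ZMod (p ^ c)) := by
      rw [ZMod.intCast_eq_intCast_iff]
      refine (Int.modEq_iff_dvd.2 ?_).symm
      exact_mod_cast h2
    simpa using h3
  have hsurj : Function.Surjective f := by
    have hb := (Nat.bijective_iff_injective_and_card f).2 ⟨hinj, by rw [hcard, Nat.card_zmod]⟩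
    exact hb.surjective
  obtain ⟨a, ha⟩ := hsurj (Ideal.Quotient.mk (𝔭 ^ c) x)
  exact ⟨(a.val : ℤ), Ideal.Quotient.eq.1 ha.symm⟩

/-- the first matrix of an ideal -/
lemma exists_base {𝔟 : Ideal (𝓞 K)} (h𝔟 : 𝔟 ≠ ⊥) : ∃ C : Matrix (K →+* ℂ) (K →+* ℂ) ℤ, IsL C 𝔟 := by
  obtain ⟨bI, hbI⟩ : ∃ bI, bI = Ideal.selfBasis (b0 K) 𝔟 h𝔟 := ⟨_, rfl⟩
  obtain ⟨C, hC⟩ : ∃ C : Matrix (K →+* ℂ) (K →+* ℂ) ℤ, C = (b0 K).toMatrix (fun i => ((bI i : 𝔟) : 𝓞 K)) := ⟨_, rfl⟩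
  have hel : ∀ x, el0 (C.mulVec x) = ∑ i, x i • ((bI i : 𝔟) : 𝓞 K) := by
    intro x
    rw [el0_eq]
    simp only [Matrix.mulVec, dotProduct]
    have e1 : ∀ i, ((bI i : 𝔟) : 𝓞 K) = ∑ j, C j i • b0 K j := by
      intro i
      rw [hC]
      exact ((b0 K).sum_toMatrix_smul_self (fun i => ((bI i : 𝔟) : 𝓞 K)) i).symm
    simp_rw [e1, sum_smul, smul_sum, smul_smul]
    rw [sum_comm]
    refine sum_congr rfl fun i _ => sum_congr rfl fun j _ => ?_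
    rw [mul_comm]
  refine ⟨C, h𝔟, fun x => ?_, fun z hz => ?_, ?_⟩
  · rw [hel]
    exact 𝔟.sum_mem fun i _ => by
      rw [zsmul_eq_mul]
      exact 𝔟.mul_mem_left _ (bI i).2
  · refine ⟨bI.equivFun ⟨z, hz⟩, ?_⟩
    rw [hel]
    have h1 := congrArg (fun w : 𝔟 => (w : 𝓞 K)) (bI.sum_equivFun ⟨z, hz⟩)
    simp only at h1
    refine Eq.trans ?_ h1
    push_cast
    rfl
  · rw [hC]
    exact Ideal.natAbs_det_basis_change (b0 K) 𝔟 bI

lemma el0_add (x y : (K →+* ℂ) → ℤ) : el0 (x + y) = el0 x + el0 y := map_add (b0 K).equivFun.symm x y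

lemma el0_smul (n : ℤ) (x : (K →+* ℂ) → ℤ) : el0 (n • x) = (n : 𝓞 K) * el0 x := by
  have := map_smul (b0 K).equivFun.symm n x
  unfold el0
  rw [this, zsmul_eq_mul]

lemma el0_sum {ι' : Type} (s : Finset ι') (f : ι' → (K →+* ℂ) → ℤ) : el0 (∑ i ∈ s, f i) = ∑ i ∈ s, el0 (f i) :=
  map_sum (b0 K).equivFun.symm f s

/-- the columns of a matrix as elements -/
noncomputable def cl (C : Matrix (K →+* ℂ) (K →+* ℂ) ℤ) (i : K →+* ℂ) : 𝓞 K := el0 (fun j => C j i)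

lemma el0_mulVec (C : Matrix (K →+* ℂ) (K →+* ℂ) ℤ) (x : (K →+* ℂ) → ℤ) :
    el0 (C.mulVec x) = ∑ i, (x i : 𝓞 K) * cl C i := by
  have h : C.mulVec x = ∑ i, x i • (fun j => C j i) := by
    funext j
    rw [Finset.sum_apply]
    simp only [Matrix.mulVec, dotProduct, Pi.smul_apply, smul_eq_mul]
    exact sum_congr rfl fun i _ => mul_comm _ _
  rw [h, el0_sum]
  refine sum_congr rfl fun i _ => ?_
  rw [el0_smul]
  rfl

lemma cl_mem {C : Matrix (K →+* ℂ) (K →+* ℂ) ℤ} {𝔟 : Ideal (𝓞 K)} (h : IsL C 𝔟) (i : K →+* ℂ) : cl C i ∈ 𝔟 := by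
  have h1 := h.mem (Pi.single i 1)
  rw [el0_mulVec, sum_eq_single i] at h1
  · simpa using h1
  · intro j _ hj
    rw [Pi.single_eq_of_ne hj]
    simp
  · intro hi
    exact absurd (mem_univ i) hi

/-- **adapted bases** -/
theorem exists_adapted (hP : P1 p 𝔭) {𝔟 : Ideal (𝓞 K)} (h𝔟 : 𝔟 ≠ ⊥) (hco : IsCoprime 𝔟 𝔭) (ν : ℕ) :
    ∃ (o : K →+* ℂ) (C : Matrix (K →+* ℂ) (K →+* ℂ) ℤ), Chn p o ν C 𝔟 𝔭 ∧ cl C o ∉ 𝔭 ∧
      ∀ i, i ≠ o → cl C i ∈ 𝔭 ^ ν := by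
  obtain ⟨C', hC'⟩ := exists_base h𝔟
  -- a column outside `𝔭`
  obtain ⟨o, ho⟩ : ∃ o, cl C' o ∉ 𝔭 := by
    by_contra hcon
    push Not at hcon
    have h1 : 𝔟 ≤ 𝔭 := by
      intro z hz
      obtain ⟨x, rfl⟩ := hC'.surj z hz
      rw [el0_mulVec]
      exact 𝔭.sum_mem fun i _ => 𝔭.mul_mem_left _ (hcon i)
    apply hP.isPrime.ne_top
    rw [← Ideal.isCoprime_iff_sup_eq.1 hco]
    exact (sup_eq_right.2 h1).symm
  -- its inverse modulo `𝔭^ν`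
  obtain ⟨u, hu⟩ := hP.exists_int (ν + 1) (cl C' o)
  have hup : ¬ (p : ℤ) ∣ u := by
    rw [← hP.int_mem]
    intro h1
    apply ho
    have h2 := 𝔭.add_mem (Ideal.pow_le_self (Nat.succ_ne_zero ν) hu) h1
    rwa [sub_add_cancel] at h2
  obtain ⟨v, w, hvw⟩ : IsCoprime u ((p : ℤ) ^ ν) := by
    apply IsCoprime.pow_right
    rw [isCoprime_comm]
    exact (Nat.prime_iff_prime_int.1 hP.hp).coprime_iff_not_dvd.2 hup
  choose g hg using fun i => hP.exists_int ν (cl C' i)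
  have hpν : ((p : 𝓞 K) ^ ν) ∈ 𝔭 ^ ν := Ideal.pow_mem_pow hP.mem ν
  have huν : cl C' o - (u : 𝓞 K) ∈ 𝔭 ^ ν := Ideal.pow_le_pow_right (Nat.le_succ ν) hu
  have hkey : ∀ i, cl C' i - ((g i * v : ℤ) : 𝓞 K) * cl C' o ∈ 𝔭 ^ ν := by
    intro i
    have e1 : cl C' i - ((g i * v : ℤ) : 𝓞 K) * cl C' o = (cl C' i - (g i : 𝓞 K)) -
        ((g i * v : ℤ) : 𝓞 K) * (cl C' o - (u : 𝓞 K)) + ((g i * w : ℤ) : 𝓞 K) * (p : 𝓞 K) ^ ν := by
      have h2 : (v : 𝓞 K) * (u : 𝓞 K) + (w : 𝓞 K) * (p : 𝓞 K) ^ ν = 1 := by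
        exact_mod_cast congrArg (fun z : ℤ => (z : 𝓞 K)) hvw
      push_cast
      linear_combination (-(g i : 𝓞 K)) * h2
    rw [e1]
    exact Ideal.add_mem _ (Ideal.sub_mem _ (hg i) (Ideal.mul_mem_left _ _ huν)) (Ideal.mul_mem_left _ _ hpν)
  -- the change of basis
  obtain ⟨k, hk⟩ : ∃ k : (K →+* ℂ) → ℤ, k = fun i => if i = o then 0 else g i * v := ⟨_, rfl⟩
  obtain ⟨T, hT⟩ : ∃ T : Matrix (K →+* ℂ) (K →+* ℂ) ℤ,
      T = 1 - Matrix.vecMulVec (Pi.single o 1) k := ⟨_, rfl⟩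
  obtain ⟨T', hT'⟩ : ∃ T' : Matrix (K →+* ℂ) (K →+* ℂ) ℤ,
      T' = 1 + Matrix.vecMulVec (Pi.single o 1) k := ⟨_, rfl⟩
  have hko : k ⬝ᵥ (Pi.single o 1) = 0 := by
    rw [dotProduct_single, mul_one, hk]
    simp
  have hVV : Matrix.vecMulVec (Pi.single o (1 : ℤ)) k * Matrix.vecMulVec (Pi.single o 1) k = 0 := by
    rw [Matrix.vecMulVec_mul_vecMulVec, hko]
    simp
  have hTT' : T * T' = 1 := by
    rw [hT, hT', sub_mul, mul_add, mul_add, one_mul, one_mul, mul_one, hVV]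
    abel
  have hdT : T.det.natAbs = 1 := by
    have h1 := congrArg Matrix.det hTT'
    rw [Matrix.det_mul, Matrix.det_one] at h1
    exact Int.isUnit_iff_natAbs_eq.1 (IsUnit.of_mul_eq_one _ h1)
  have hTv : ∀ x, T.mulVec x = x - (k ⬝ᵥ x) • (Pi.single o 1 : (K →+* ℂ) → ℤ) := by
    intro x
    rw [hT, Matrix.sub_mulVec, Matrix.one_mulVec, Matrix.vecMulVec_mulVec]
    congr 1
    funext i
    simp [mul_comm]
  obtain ⟨C, hC⟩ : ∃ C, C = C' * T := ⟨_, rfl⟩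
  have hclC : ∀ i, cl C i = cl C' i - (k i : 𝓞 K) * cl C' o := by
    intro i
    have e1 : cl C i = el0 (C.mulVec (Pi.single i 1)) := by
      unfold cl
      congr 1
      funext j
      simp [Matrix.mulVec, dotProduct_single]
    rw [e1, hC, ← Matrix.mulVec_mulVec, hTv, Matrix.mulVec_sub, Matrix.mulVec_smul, sub_eq_add_neg, ← neg_smul,
      el0_add, el0_smul]
    have e2 : ∀ j, el0 (C'.mulVec (Pi.single j 1)) = cl C' j := by
      intro j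
      unfold cl
      congr 1
      funext j
      simp [Matrix.mulVec, dotProduct_single]
    rw [e2, e2]
    have e3 : k ⬝ᵥ Pi.single i 1 = k i := by rw [dotProduct_single, mul_one]
    rw [e3]
    push_cast
    ring
  have hLC : IsL C 𝔟 := by
    refine ⟨h𝔟, fun x => ?_, fun z hz => ?_, ?_⟩
    · rw [hC, ← Matrix.mulVec_mulVec]
      exact hC'.mem _
    · obtain ⟨x, hx⟩ := hC'.surj z hz
      refine ⟨T'.mulVec x, ?_⟩
      rw [hC, Matrix.mulVec_mulVec, Matrix.mul_assoc, hTT', Matrix.mul_one, hx]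
    · rw [hC, Matrix.det_mul, Int.natAbs_mul, hdT, mul_one]
      exact hC'.det
  have hclo : cl C o = cl C' o := by
    rw [hclC, hk]
    simp
  have hcli : ∀ i, i ≠ o → cl C i ∈ 𝔭 ^ ν := by
    intro i hi
    rw [hclC, hk]
    simp only [if_neg hi]
    exact hkey i
  refine ⟨o, C, ?_, by rw [hclo]; exact ho, hcli⟩
  intro c hc
  have hcoc : IsCoprime 𝔟 (𝔭 ^ c) := hco.pow_right
  have hinf : 𝔟 ⊓ 𝔭 ^ c = 𝔟 * 𝔭 ^ c := (Ideal.mul_eq_inf_of_isCoprime hcoc).symm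
  have hDz : ∀ x : (K →+* ℂ) → ℤ, (Dz o ((p : ℤ) ^ c)).mulVec x = fun i => if i = o then (p : ℤ) ^ c * x i else x i := by
    intro x
    funext i
    unfold Dz
    rw [Matrix.mulVec_diagonal]
    split_ifs <;> ring
  refine ⟨mul_ne_zero h𝔟 (pow_ne_zero _ hP.ne_bot), fun x => ?_, fun z hz => ?_, ?_⟩
  · rw [← Matrix.mulVec_mulVec, hDz, ← hinf]
    refine ⟨hLC.mem _, ?_⟩
    rw [el0_mulVec]
    refine Ideal.sum_mem _ fun i _ => ?_
    split_ifs with hi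
    · push_cast
      rw [mul_assoc]
      exact Ideal.mul_mem_right _ _ (Ideal.pow_mem_pow hP.mem c)
    · exact Ideal.mul_mem_left _ _ (Ideal.pow_le_pow_right hc (hcli i hi))
  · rw [← hinf] at hz
    obtain ⟨hz1, hz2⟩ := hz
    obtain ⟨x, hx⟩ := hLC.surj z hz1
    have h1 : (x o : 𝓞 K) * cl C o ∈ 𝔭 ^ c := by
      have e1 : (x o : 𝓞 K) * cl C o = z - ∑ i ∈ univ.erase o, (x i : 𝓞 K) * cl C i := by
        rw [← hx, el0_mulVec, ← add_sum_erase _ _ (mem_univ o)]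
        ring
      rw [e1]
      refine Ideal.sub_mem _ hz2 (Ideal.sum_mem _ fun i hi => ?_)
      exact Ideal.mul_mem_left _ _ (Ideal.pow_le_pow_right hc (hcli i (ne_of_mem_erase hi)))
    have h2 : (x o : 𝓞 K) ∈ 𝔭 ^ c := by
      rw [← Ideal.dvd_span_singleton] at h1 ⊢
      rw [mul_comm, ← Ideal.span_singleton_mul_span_singleton] at h1
      refine hP.prime.pow_dvd_of_dvd_mul_left c ?_ h1
      rw [Ideal.dvd_span_singleton, hclo]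
      exact ho
    rw [hP.int_mem_pow] at h2
    obtain ⟨t, ht⟩ := h2
    refine ⟨fun i => if i = o then t else x i, ?_⟩
    rw [← Matrix.mulVec_mulVec, hDz, ← hx]
    congr 2
    funext i
    split_ifs with hi
    · rw [hi, ht]
    · rfl
  · rw [Matrix.det_mul, Int.natAbs_mul, hLC.det, map_mul, hP.norm_pow]
    congr 1
    unfold Dz
    rw [Matrix.det_diagonal, Finset.prod_ite_eq' univ o (fun _ => (p : ℤ) ^ c)]
    simp

end Run7.h343.NF
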