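import Pool.Agent.Run7.h343.NF.Min
import Pool.Agent.Y773.HG.Geo

/-!
Lattices of ideals of number fields.
-/

set_option autoImplicit false
set_option linter.unusedSectionVars false

open NumberField Finset

namespace Run7.h343.NF

open Pool.Agent.Y773 (Idx db)
open Pool.Agent.Y773.G (cj rr rr_add rr_sum rr_int_mul sum_rr_sq trace_mul_eq_sum card_Idx db_trace mk_cj cj_cj
  card_emb sum_cj)

/-- decidable equality of embeddings -/
noncomputable def decEm (K : Type) [Field K] : DecidableEq (K →+* ℂ) := Classical.decEq _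

attribute [local instance] decEm

variable {K : Type} [Field K] [NumberField K]

variable (K) in
/-- the numbering of the integral basis by the embeddings -/
noncomputable def eI : Idx K ≃ (K →+* ℂ) := Fintype.equivOfCardEq card_Idx

variable (K) in
/-- the integral basis -/
noncomputable def b0 : Module.Basis (K →+* ℂ) ℤ (𝓞 K) := (RingOfIntegers.basis K).reindex (eI K)

variable (K) in
/-- the dual basis -/
noncomputable def d0 (i : K →+* ℂ) : K := db K ((eI K).symm i)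

lemma b0_coe (i : K →+* ℂ) : ((b0 K i : 𝓞 K) : K) = integralBasis K ((eI K).symm i) := by
  unfold b0
  rw [Module.Basis.reindex_apply, integralBasis_apply]

lemma d0_trace (i j : K →+* ℂ) :
    Algebra.trace ℚ K (d0 K i * (b0 K j : 𝓞 K)) = if i = j then 1 else 0 := by
  rw [b0_coe]
  unfold d0
  rw [db_trace]
  simp [EmbeddingLike.apply_eq_iff_eq]

/-- the element with given coordinates -/
noncomputable def el0 (x : (K →+* ℂ) → ℤ) : 𝓞 K := (b0 K).equivFun.symm x

lemma el0_eq (x : (K →+* ℂ) → ℤ) : el0 x = ∑ i, x i • b0 K i := by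
  unfold el0
  rw [Module.Basis.equivFun_symm_apply]

lemma el0_coe (x : (K →+* ℂ) → ℤ) : ((el0 x : 𝓞 K) : K) = ∑ i, (x i : K) * (b0 K i : 𝓞 K) := by
  rw [el0_eq]
  simp [map_sum]

variable (K) in
/-- the matrix of the integral basis -/
noncomputable def M0 : Matrix (K →+* ℂ) (K →+* ℂ) ℝ := fun φ i => rr φ ((b0 K i : 𝓞 K) : K)

variable (K) in
/-- the matrix of the dual basis -/
noncomputable def D0 : Matrix (K →+* ℂ) (K →+* ℂ) ℝ := fun φ i => rr (cj φ) (d0 K i)

lemma M0_D0 : (M0 K).transpose * D0 K = 1 := by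
  ext i j
  rw [Matrix.mul_apply]
  simp only [Matrix.transpose_apply]
  have h : ∑ φ : K →+* ℂ, rr φ ((b0 K i : 𝓞 K) : K) * rr (cj φ) (d0 K j) =
      if i = j then 1 else 0 := by
    rw [← trace_mul_eq_sum, mul_comm, d0_trace]
    by_cases hij : i = j
    · subst hij; simp
    · rw [if_neg (Ne.symm hij), if_neg hij]; simp
  rw [Matrix.one_apply]
  exact h

lemma M0_det : (M0 K).det ≠ 0 := by
  intro h
  have h1 := congrArg Matrix.det (M0_D0 (K := K))
  rw [Matrix.det_mul, Matrix.det_transpose, h, zero_mul, Matrix.det_one] at h1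
  exact zero_ne_one h1

lemma dl_M0 : dl (M0 K) = D0 K := by
  unfold dl
  exact Matrix.inv_eq_right_inv M0_D0

variable (K) in
/-- the covolume -/
noncomputable def VK : ℝ := |(M0 K).det|

lemma VK_pos : 0 < VK K := abs_pos.2 M0_det

lemma rr_rat_mul (φ : K →+* ℂ) (q : ℚ) (x : K) : rr φ ((q : K) * x) = q * rr φ x := by
  unfold rr
  rw [map_mul, map_ratCast]
  simp
  ring

/-! ### the scaling -/

/-- scaling by a vector of positive numbers -/
noncomputable def sc (y : InfinitePlace K → ℝ) : Matrix (K →+* ℂ) (K →+* ℂ) ℝ :=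
  Matrix.diagonal fun φ => Real.exp (y (InfinitePlace.mk φ) / 2)

/-- the logarithm of the determinant -/
noncomputable def sy (y : InfinitePlace K → ℝ) : ℝ := ∑ w : InfinitePlace K, (w.mult : ℝ) * y w

lemma sc_det (y : InfinitePlace K → ℝ) : (sc y).det = Real.exp (sy y / 2) := by
  unfold sc sy
  rw [Matrix.det_diagonal, ← Real.exp_sum, ← Pool.Agent.Y773.G.sum_mk, sum_div]

lemma sc_sc (y z : InfinitePlace K → ℝ) : sc y * sc z = sc (fun w => y w + z w) := by
  unfold sc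
  rw [Matrix.diagonal_mul_diagonal]
  congr 1
  funext φ
  rw [← Real.exp_add]
  congr 1
  ring

lemma sc_zero : sc (fun _ => 0 : InfinitePlace K → ℝ) = 1 := by
  unfold sc
  simp

lemma dl_mul {ι : Type} [Fintype ι] [DecidableEq ι] (A B : Matrix ι ι ℝ) : dl (A * B) = dl A * dl B := by
  unfold dl
  rw [Matrix.transpose_mul, Matrix.mul_inv_rev]

lemma dl_sc (y : InfinitePlace K → ℝ) : dl (sc y) = sc (fun w => -y w) := by
  unfold dl
  have h1 : (sc y).transpose = sc y := by unfold sc; exact Matrix.diagonal_transpose _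
  rw [h1]
  apply Matrix.inv_eq_right_inv
  rw [sc_sc]
  simp only [add_neg_cancel]
  exact sc_zero

lemma em_sc (y : InfinitePlace K → ℝ) (B : Matrix (K →+* ℂ) (K →+* ℂ) ℝ) (x : (K →+* ℂ) → ℤ) (φ : K →+* ℂ) :
    em (sc y * B) x φ = Real.exp (y (InfinitePlace.mk φ) / 2) * em B x φ := by
  rw [em_apply, em_apply, ← Matrix.mulVec_mulVec]
  unfold sc
  rw [Matrix.mulVec_diagonal]

/-- the norm of an element -/
noncomputable def nK (x : K) : ℝ := ∏ w : InfinitePlace K, w x ^ w.mult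

lemma card_em : Fintype.card (K →+* ℂ) = ∑ w : InfinitePlace K, w.mult := by
  rw [card_emb, InfinitePlace.sum_mult_eq]

instance : Nonempty (K →+* ℂ) := by
  have h : 0 < Fintype.card (K →+* ℂ) := by rw [card_emb]; exact Module.finrank_pos
  exact Fintype.card_pos_iff.1 h

/-- the norm of a vector from its absolute values -/
lemma nrm_em {y : InfinitePlace K → ℝ} {B : Matrix (K →+* ℂ) (K →+* ℂ) ℝ} {m : (K →+* ℂ) → ℤ} {x : K}
    (h : (∀ φ, em B m φ = rr φ x) ∨ (∀ φ, em B m φ = rr (cj φ) x)) :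
    Real.exp (sy y / 2) * nK x ≤ ‖em (sc y * B) m‖ ^ Fintype.card (K →+* ℂ) := by
  have h1 : ‖em (sc y * B) m‖ ^ 2 = ∑ w : InfinitePlace K, (w.mult : ℝ) * (Real.exp (y w) * (w x) ^ 2) := by
    rw [EuclideanSpace.norm_sq_eq, ← sum_rr_sq (fun w => Real.exp (y w)) x]
    have e1 : ∀ (φ : K →+* ℂ) (t : ℝ), ‖Real.exp (y (InfinitePlace.mk φ) / 2) * t‖ ^ 2 =
        Real.exp (y (InfinitePlace.mk φ)) * t ^ 2 := by
      intro φ t
      rw [Real.norm_eq_abs, sq_abs, mul_pow, ← Real.exp_nat_mul]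
      congr 2
      push_cast
      ring
    rcases h with h | h
    · refine sum_congr rfl fun φ _ => ?_
      rw [em_sc, h, e1]
    · rw [← sum_cj]
      refine sum_congr rfl fun φ _ => ?_
      rw [em_sc, h, e1, cj_cj, mk_cj]
  have h2 : ∀ w : InfinitePlace K, Real.exp (y w / 2) * w x ≤ ‖em (sc y * B) m‖ := by
    intro w
    refine le_of_pow_le_pow_left₀ (n := 2) (by norm_num) (norm_nonneg _) ?_
    rw [h1, mul_pow, ← Real.exp_nat_mul]
    have h3 : Real.exp (((2 : ℕ) : ℝ) * (y w / 2)) = Real.exp (y w) := by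
      congr 1; push_cast; ring
    rw [h3]
    have h4 : ∀ v ∈ (univ : Finset (InfinitePlace K)), 0 ≤ (v.mult : ℝ) * (Real.exp (y v) * (v x) ^ 2) :=
      fun v _ => by positivity
    refine le_trans ?_ (single_le_sum h4 (mem_univ w))
    have h5 : (1 : ℝ) ≤ w.mult := by exact_mod_cast w.mult_pos
    exact le_mul_of_one_le_left (by positivity) h5
  rw [card_em, ← prod_pow_eq_pow_sum]
  have h6 : Real.exp (sy y / 2) * nK x = ∏ w : InfinitePlace K, (Real.exp (y w / 2) * w x) ^ w.mult := by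
    unfold sy nK
    simp_rw [mul_pow]
    rw [prod_mul_distrib, sum_div, Real.exp_sum]
    congr 1
    refine prod_congr rfl fun w _ => ?_
    rw [← Real.exp_nat_mul]
    congr 1
    ring
  rw [h6]
  exact prod_le_prod (fun w _ => by positivity) fun w _ => pow_le_pow_left₀ (by positivity) (h2 w) _

/-! ### norms -/

lemma nK_int {x : 𝓞 K} : nK (x : K) = (Ideal.absNorm (Ideal.span {x}) : ℝ) := by
  unfold nK
  rw [InfinitePlace.prod_eq_abs_norm, Ideal.absNorm_span_singleton, ← Algebra.coe_norm_int]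
  rw [Nat.cast_natAbs]
  push_cast
  rfl

lemma nK_mul (x y : K) : nK (x * y) = nK x * nK y := by
  unfold nK
  rw [← prod_mul_distrib]
  refine prod_congr rfl fun w _ => ?_
  rw [map_mul, mul_pow]

lemma nK_nat (n : ℕ) : nK (n : K) = (n : ℝ) ^ Fintype.card (K →+* ℂ) := by
  unfold nK
  rw [card_em, ← prod_pow_eq_pow_sum]
  refine prod_congr rfl fun w _ => ?_
  rw [InfinitePlace.map_natCast]

lemma nK_pos {x : K} (hx : x ≠ 0) : 0 < nK x := by
  unfold nK
  exact prod_pos fun w _ => pow_pos (by rw [InfinitePlace.pos_iff]; exact hx) _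

/-- the norm of an element of an ideal -/
lemma nK_ideal {𝔠 : Ideal (𝓞 K)} {x : 𝓞 K} (hx : x ∈ 𝔠) (hx0 : x ≠ 0) : (Ideal.absNorm 𝔠 : ℝ) ≤ nK (x : K) := by
  rw [nK_int]
  have h1 : 𝔠 ∣ Ideal.span {x} := Ideal.dvd_span_singleton.2 hx
  have h2 : Ideal.absNorm 𝔠 ∣ Ideal.absNorm (Ideal.span {x}) := map_dvd Ideal.absNorm h1
  have h3 : Ideal.absNorm (Ideal.span {x}) ≠ 0 := by
    rw [Ne, Ideal.absNorm_eq_zero_iff, Ideal.span_singleton_eq_bot]
    exact hx0
  exact_mod_cast Nat.le_of_dvd (Nat.pos_of_ne_zero h3) h2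

variable (K) in
/-- a common denominator of the dual of the ring of integers -/
lemma exists_aK : ∃ a : ℕ, 0 < a ∧ ∀ y : K, (∀ w : 𝓞 K, ∃ t : ℤ, Algebra.trace ℚ K (y * w) = t) →
    IsIntegral ℤ ((a : K) * y) := by
  classical
  obtain ⟨t, ht0, ht⟩ := exists_integral_multiples ℤ ℚ (L := K) (Finset.univ.image (d0 K))
  obtain ⟨a, ha⟩ : ∃ a, a = t.natAbs := ⟨_, rfl⟩
  refine ⟨a, by rw [ha]; exact Int.natAbs_pos.2 ht0, fun y hy => ?_⟩
  have h1 : ∀ i, IsIntegral ℤ ((a : K) * d0 K i) := by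
    intro i
    have h2 := ht (d0 K i) (mem_image_of_mem _ (mem_univ i))
    rw [zsmul_eq_mul] at h2
    rcases Int.natAbs_eq t with h | h
    · rw [h, ← ha, Int.cast_natCast] at h2
      exact h2
    · rw [h, ← ha, Int.cast_neg, Int.cast_natCast, neg_mul] at h2
      have := h2.neg
      rwa [neg_neg] at this
  choose s hs using fun i : K →+* ℂ => hy (b0 K i)
  have h3 : y = ∑ i, (s i : K) * d0 K i := by
    have h4 := (Module.Basis.sum_repr ((integralBasis K).traceDual) y).symm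
    rw [h4, ← (eI K).symm.sum_comp]
    refine sum_congr rfl fun i _ => ?_
    rw [Module.Basis.traceDual_repr_apply, Algebra.traceForm_apply, ← b0_coe, hs i]
    rw [Algebra.smul_def]
    simp [d0, db]
  rw [h3, mul_sum]
  refine IsIntegral.sum _ fun i _ => ?_
  have : (a : K) * ((s i : K) * d0 K i) = (s i : K) * ((a : K) * d0 K i) := by ring
  rw [this]
  exact (isIntegral_algebraMap (R := ℤ) (A := K) (x := s i)).mul (h1 i)

/-- the norm of an element of the dual of an ideal -/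
lemma nK_dual {a : ℕ} (ha : 0 < a) (haK : ∀ y : K, (∀ w : 𝓞 K, ∃ t : ℤ, Algebra.trace ℚ K (y * w) = t) →
    IsIntegral ℤ ((a : K) * y)) {𝔠 : Ideal (𝓞 K)} (h𝔠 : 𝔠 ≠ ⊥) {y : K} (hy0 : y ≠ 0)
    (hy : ∀ z ∈ 𝔠, ∃ t : ℤ, Algebra.trace ℚ K (y * (z : 𝓞 K)) = t) :
    1 ≤ (a : ℝ) ^ Fintype.card (K →+* ℂ) * (Ideal.absNorm 𝔠 : ℝ) * nK y := by
  -- `a y z` is integral for `z` in `𝔠`
  have h1 : ∀ z ∈ 𝔠, IsIntegral ℤ ((a : K) * (y * (z : 𝓞 K))) := by
    intro z hz
    refine haK _ fun w => ?_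
    obtain ⟨t, ht⟩ := hy (z * w) (𝔠.mul_mem_right w hz)
    refine ⟨t, ?_⟩
    rw [← ht]
    congr 1
    push_cast
    ring
  obtain ⟨k, hk0, hk⟩ := exists_integral_multiples ℤ ℚ (L := K) {(a : K) * y}
  have hk1 := hk _ (mem_singleton_self _)
  rw [zsmul_eq_mul] at hk1
  obtain ⟨g, hg⟩ : ∃ g : 𝓞 K, (g : K) = (k : K) * ((a : K) * y) := ⟨⟨_, hk1⟩, rfl⟩
  have haK0 : (a : K) ≠ 0 := by exact_mod_cast ha.ne'
  have hkK0 : (k : K) ≠ 0 := by exact_mod_cast hk0
  have hg0 : g ≠ 0 := by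
    intro h
    rw [h] at hg
    simp only [map_zero] at hg
    exact mul_ne_zero hkK0 (mul_ne_zero haK0 hy0) hg.symm
  have h2 : Ideal.span {g} * 𝔠 ≤ Ideal.span {(k : 𝓞 K)} := by
    rw [Ideal.span_singleton_mul_le_iff]
    intro z hz
    rw [Ideal.mem_span_singleton]
    obtain ⟨v, hv⟩ : ∃ v : 𝓞 K, (v : K) = (a : K) * (y * (z : 𝓞 K)) := ⟨⟨_, h1 z hz⟩, rfl⟩
    refine ⟨v, ?_⟩
    apply RingOfIntegers.coe_injective
    have e1 : ((g * z : 𝓞 K) : K) = (g : K) * (z : 𝓞 K) := map_mul _ _ _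
    have e2 : ((((k : ℤ) : 𝓞 K) * v : 𝓞 K) : K) = (((k : ℤ) : 𝓞 K) : K) * v := map_mul _ _ _
    have e3 : (((k : ℤ) : 𝓞 K) : K) = (k : K) := map_intCast _ _
    refine e1.trans (Eq.trans ?_ e2.symm)
    rw [e3, hg, hv]
    ring
  have h3 : Ideal.absNorm (Ideal.span {(k : 𝓞 K)}) ∣ Ideal.absNorm (Ideal.span {g} * 𝔠) :=
    map_dvd Ideal.absNorm (Ideal.dvd_iff_le.2 h2)
  have h4 : Ideal.absNorm (Ideal.span {g} * 𝔠) ≠ 0 := by
    rw [Ne, Ideal.absNorm_eq_zero_iff]
    refine mul_ne_zero ?_ h𝔠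
    rw [Ne, Ideal.zero_eq_bot, Ideal.span_singleton_eq_bot]
    exact hg0
  have h5 : ((Ideal.absNorm (Ideal.span {(k : 𝓞 K)}) : ℕ) : ℝ) ≤
      ((Ideal.absNorm (Ideal.span {g}) * Ideal.absNorm 𝔠 : ℕ) : ℝ) := by
    rw [map_mul] at h3 h4
    exact_mod_cast Nat.le_of_dvd (Nat.pos_of_ne_zero h4) h3
  push_cast at h5
  rw [← nK_int, ← nK_int, hg] at h5
  have h6 : (((k : ℤ) : 𝓞 K) : K) = (k : K) := map_intCast _ _
  rw [h6, nK_mul, nK_mul, nK_nat] at h5
  have h7 : 0 < nK (k : K) := nK_pos hkK0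
  have h8 : nK (k : K) * 1 ≤ nK (k : K) * ((a : ℝ) ^ Fintype.card (K →+* ℂ) * (Ideal.absNorm 𝔠 : ℝ) * nK y) := by
    calc nK (k : K) * 1 = nK (k : K) := mul_one _
      _ ≤ _ := h5
      _ = _ := by ring
  exact le_of_mul_le_mul_left h8 h7

end Run7.h343.NF
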