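import Pool.Agent.Run7.h343.NF.Lat2

/-!
Separation of the centre of a Gaussian weight.
-/

set_option autoImplicit false
set_option linter.unusedSectionVars false

namespace Run7.h343.NF

open Complex Finset MeasureTheory

variable {ι : Type} [Fintype ι] [DecidableEq ι]

/-- the density -/
noncomputable def gd (a : ℝ) (x : EuclideanSpace ℝ ι) : ℝ :=
  ((1 / a) ^ ((Fintype.card ι : ℝ) / 2)) * Real.exp (-(Real.pi / a * ‖x‖ ^ 2))

lemma gd_nonneg {a : ℝ} (ha : 0 < a) (x : EuclideanSpace ℝ ι) : 0 ≤ gd a x := by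
  unfold gd; positivity

/-- the character -/
noncomputable def ex (x y : EuclideanSpace ℝ ι) : ℂ := cexp (2 * Real.pi * I * (inner ℝ y x : ℝ))

lemma ex_norm (x y : EuclideanSpace ℝ ι) : ‖ex x y‖ = 1 := by
  unfold ex
  have e : (2 * Real.pi * I * (inner ℝ y x : ℝ) : ℂ) =
      ((2 * Real.pi * (inner ℝ y x : ℝ) : ℝ) : ℂ) * I := by
    push_cast; ring
  rw [e, Complex.norm_exp_ofReal_mul_I]

lemma ex_add (x y y' : EuclideanSpace ℝ ι) : ex x (y + y') = ex x y * ex x y' := by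
  unfold ex
  rw [← Complex.exp_add, inner_add_left]
  congr 1
  push_cast
  ring

lemma ex_zero (x : EuclideanSpace ℝ ι) : ex x 0 = 1 := by
  unfold ex
  rw [inner_zero_left]
  simp

lemma ex_cont (y : EuclideanSpace ℝ ι) : Continuous fun x => ex x y := by
  unfold ex
  fun_prop

lemma gd_aux (a : ℝ) (y x : EuclideanSpace ℝ ι) : (gd a x : ℂ) * ex x y =
    (((1 / a) ^ ((Fintype.card ι : ℝ) / 2) : ℝ) : ℂ) *
    cexp (-((Real.pi / a : ℝ) : ℂ) * ‖x‖ ^ 2 + 2 * Real.pi * I * (inner ℝ y x : ℝ)) := by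
  unfold gd ex
  rw [Complex.exp_add, ofReal_mul, ofReal_exp]
  have : ((-(Real.pi / a * ‖x‖ ^ 2) : ℝ) : ℂ) = -((Real.pi / a : ℝ) : ℂ) * ‖x‖ ^ 2 := by
    push_cast; ring
  rw [this]
  ring

lemma gd_int {a : ℝ} (ha : 0 < a) (y : EuclideanSpace ℝ ι) : Integrable fun x => (gd a x : ℂ) * ex x y := by
  simp_rw [gd_aux]
  refine Integrable.const_mul ?_ _
  refine GaussianFourier.integrable_cexp_neg_mul_sq_norm_add (b := ((Real.pi / a : ℝ) : ℂ)) ?_ _ _
  rw [ofReal_re]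
  positivity

lemma gd_ft {a : ℝ} (ha : 0 < a) (y : EuclideanSpace ℝ ι) : ∫ x, (gd a x : ℂ) * ex x y =
    (Real.exp (-(Real.pi * a * ‖y‖ ^ 2)) : ℂ) := by
  simp_rw [gd_aux]
  rw [integral_const_mul]
  have hb : 0 < (((Real.pi / a : ℝ) : ℂ)).re := by
    rw [ofReal_re]; positivity
  rw [GaussianFourier.integral_cexp_neg_mul_sq_norm_add hb]
  have hpi : (Real.pi : ℂ) ≠ 0 := by exact_mod_cast Real.pi_ne_zero
  have ha' : (a : ℂ) ≠ 0 := by exact_mod_cast ha.ne'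
  have e1 : ((Module.finrank ℝ (EuclideanSpace ℝ ι) : ℂ) / 2 : ℂ) = (((Fintype.card ι : ℝ) / 2 : ℝ) : ℂ) := by
    rw [finrank_euclideanSpace]
    push_cast
    ring
  have e0 : (Real.pi / ((Real.pi / a : ℝ) : ℂ) : ℂ) = (a : ℂ) := by
    push_cast
    field_simp
  rw [e1, e0, ← ofReal_cpow ha.le]
  have e2 : (((1 / a) ^ ((Fintype.card ι : ℝ) / 2) : ℝ) : ℂ) * ((a ^ ((Fintype.card ι : ℝ) / 2) : ℝ) : ℂ) = 1 := by
    rw [← ofReal_mul, ← Real.mul_rpow (by positivity) ha.le, one_div_mul_cancel ha.ne', Real.one_rpow, ofReal_one]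
  rw [← mul_assoc, e2, one_mul]
  rw [ofReal_exp]
  congr 1
  have hI : I ^ 2 = -1 := I_sq
  push_cast
  field_simp
  linear_combination (4 * (‖y‖ : ℂ) ^ 2) * hI

lemma gd_int' {a : ℝ} (ha : 0 < a) : Integrable (gd (ι := ι) a) := by
  have h := (gd_int ha (0 : EuclideanSpace ℝ ι)).norm
  refine h.congr (Filter.Eventually.of_forall fun x => ?_)
  simp only
  rw [norm_mul, ex_norm, mul_one, Complex.norm_real, Real.norm_of_nonneg (gd_nonneg ha x)]

lemma gd_one {a : ℝ} (ha : 0 < a) : ∫ x : EuclideanSpace ℝ ι, gd a x = 1 := by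
  have h := gd_ft ha (0 : EuclideanSpace ℝ ι)
  simp_rw [ex_zero, mul_one] at h
  rw [integral_complex_ofReal] at h
  rw [norm_zero] at h
  simp only [ne_eq, OfNat.ofNat_ne_zero, not_false_eq_true, zero_pow, mul_zero, neg_zero, Real.exp_zero, ofReal_one] at h
  exact_mod_cast h

lemma em_smul (t : ℝ) (M : Matrix ι ι ℝ) (x : ι → ℤ) : em (t • M) x = t • em M x := by
  ext i
  rw [em_apply, Matrix.smul_mulVec, Pi.smul_apply, PiLp.smul_apply, em_apply]

/-- the pointwise identity -/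
lemma ga_sep (M : Matrix ι ι ℝ) {t : ℝ} (ht : 0 < t) (ht1 : t < 1) (c : EuclideanSpace ℝ ι) (h : ι → ℤ) :
    Real.exp (-(Real.pi * ‖c‖ ^ 2 * (t ^ 2 / (1 - t ^ 2)))) * ga (em M) c h =
      ga (em (t • M)) 0 h * Real.exp (-(Real.pi * (1 - t ^ 2) * ‖em M h - (1 - t ^ 2)⁻¹ • c‖ ^ 2)) := by
  have ha : 0 < 1 - t ^ 2 := by nlinarith
  obtain ⟨y, hy⟩ : ∃ y, y = em M h := ⟨_, rfl⟩
  unfold ga
  rw [← Real.exp_add, ← Real.exp_add, em_smul, sub_zero, ← hy]
  congr 1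
  rw [norm_smul, mul_pow, Real.norm_of_nonneg ht.le, @norm_sub_sq_real _ _ _ y c,
    @norm_sub_sq_real _ _ _ y ((1 - t ^ 2)⁻¹ • c), inner_smul_right, norm_smul, Real.norm_of_nonneg (by positivity),
    mul_pow]
  field_simp
  ring

theorem sep {T : Type} {M : Matrix ι ι ℝ} (hM : M.det ≠ 0) {t B V : ℝ} (ht : 0 < t) (ht1 : t < 1)
    (G : T → (ι → ℤ) → ℂ)
    (hG : ∀ x h, ‖G x h‖ ≤ B) (c : T → EuclideanSpace ℝ ι) {ω : T → ℝ} (hω : ∀ x, 0 ≤ ω x) (s : Finset T)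
    (hV : ∀ x : EuclideanSpace ℝ ι, ∑ k ∈ s, ω k * ‖∑' h, G k h * ex x (em M h) * (ga (em (t • M)) 0 h : ℂ)‖ ≤ V) :
    ∑ k ∈ s, ω k * (Real.exp (-(Real.pi * ‖c k‖ ^ 2 * (t ^ 2 / (1 - t ^ 2)))) *
      ‖∑' h, G k h * (ga (em M) (c k) h : ℂ)‖) ≤ V := by
  obtain ⟨a, ha⟩ : ∃ a : ℝ, a = 1 - t ^ 2 := ⟨_, rfl⟩
  have ha0 : 0 < a := by
    rw [ha]
    nlinarith
  have htM : (t • M).det ≠ 0 := by
    rw [Matrix.det_smul]
    exact mul_ne_zero (pow_ne_zero _ ht.ne') hM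
  obtain ⟨Φ, hΦ⟩ : ∃ Φ : T → EuclideanSpace ℝ ι → ℂ, Φ = fun k x =>
    ∑' h, G k h * ex x (em M h) * (ga (em (t • M)) 0 h : ℂ) := ⟨_, rfl⟩
  have hsum := ga_summable htM 0
  have hB : ∀ k x h, ‖G k h * ex x (em M h) * (ga (em (t • M)) 0 h : ℂ)‖ ≤ B * ga (em (t • M)) 0 h := by
    intro k x h
    rw [norm_mul, norm_mul, ex_norm, mul_one, Complex.norm_real, Real.norm_of_nonneg (ga_nonneg _ _ _)]
    exact mul_le_mul_of_nonneg_right (hG k h) (ga_nonneg _ _ _)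
  have hΦc : ∀ k, Continuous (Φ k) := by
    intro k
    rw [hΦ]
    refine continuous_tsum (u := fun h => B * ga (em (t • M)) 0 h) (fun h => ?_) (hsum.mul_left B) (fun h x => hB k x h)
    exact (continuous_const.mul (ex_cont _)).mul continuous_const
  have hΦb : ∀ k x, ‖Φ k x‖ ≤ ∑' h, B * ga (em (t • M)) 0 h := by
    intro k x
    rw [hΦ]
    exact tsum_of_norm_bounded (hsum.mul_left B).hasSum (fun h => hB k x h)
  have hint : ∀ k, Integrable fun x => gd a x * ‖Φ k x‖ := by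
    intro k
    refine (gd_int' ha0).mul_bdd (c := ∑' h, B * ga (em (t • M)) 0 h) ((hΦc k).norm.aestronglyMeasurable) ?_
    refine Filter.Eventually.of_forall fun x => ?_
    rw [norm_norm]
    exact hΦb k x
  have hone : ∀ k, Real.exp (-(Real.pi * ‖c k‖ ^ 2 * (t ^ 2 / (1 - t ^ 2)))) *
      ‖∑' h, G k h * (ga (em M) (c k) h : ℂ)‖ ≤ ∫ x, gd a x * ‖Φ k x‖ := by
    intro k
    obtain ⟨b, hb⟩ : ∃ b : EuclideanSpace ℝ ι, b = a⁻¹ • c k := ⟨_, rfl⟩
    -- the functions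
    obtain ⟨Fh, hFh⟩ : ∃ Fh : (ι → ℤ) → EuclideanSpace ℝ ι → ℂ, Fh = fun h x =>
      (G k h * (ga (em (t • M)) 0 h : ℂ)) * ((gd a x : ℂ) * ex x (em M h - b)) := ⟨_, rfl⟩
    have hF1 : ∀ h, Integrable (Fh h) := by
      intro h
      rw [hFh]
      exact (gd_int ha0 _).const_mul _
    have hF2 : ∀ h, ∫ x, Fh h x = (Real.exp (-(Real.pi * ‖c k‖ ^ 2 * (t ^ 2 / (1 - t ^ 2)))) : ℂ) *
        (G k h * (ga (em M) (c k) h : ℂ)) := by
      intro h
      rw [hFh]
      simp only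
      rw [integral_const_mul, gd_ft ha0]
      have h1 := ga_sep M ht ht1 (c k) h
      rw [← ha, ← hb] at h1
      have h2 : (Real.exp (-(Real.pi * ‖c k‖ ^ 2 * (t ^ 2 / a))) : ℂ) * (ga (em M) (c k) h : ℂ) =
          (ga (em (t • M)) 0 h : ℂ) * (Real.exp (-(Real.pi * a * ‖em M h - b‖ ^ 2)) : ℂ) := by
        exact_mod_cast h1
      rw [← ha]
      linear_combination (-(G k h)) * h2
    have hF3 : ∀ h, ∫ x, ‖Fh h x‖ = ‖G k h‖ * ga (em (t • M)) 0 h := by
      intro h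
      rw [hFh]
      simp only
      have : ∀ x : EuclideanSpace ℝ ι, ‖(G k h * (ga (em (t • M)) 0 h : ℂ)) * ((gd a x : ℂ) * ex x (em M h - b))‖ =
          (‖G k h‖ * ga (em (t • M)) 0 h) * gd a x := by
        intro x
        rw [norm_mul, norm_mul, norm_mul, ex_norm, mul_one, Complex.norm_real, Complex.norm_real,
          Real.norm_of_nonneg (ga_nonneg _ _ _), Real.norm_of_nonneg (gd_nonneg ha0 x)]
      simp_rw [this]
      rw [integral_const_mul, gd_one ha0, mul_one]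
    have hF4 : Summable fun h => ∫ x, ‖Fh h x‖ := by
      simp_rw [hF3]
      refine Summable.of_nonneg_of_le (fun h => mul_nonneg (norm_nonneg _) (ga_nonneg _ _ _))
        (fun h => ?_) (hsum.mul_left B)
      exact mul_le_mul_of_nonneg_right (hG k h) (ga_nonneg _ _ _)
    have hHS := hasSum_integral_of_summable_integral_norm hF1 hF4
    have e1 : (Real.exp (-(Real.pi * ‖c k‖ ^ 2 * (t ^ 2 / (1 - t ^ 2)))) : ℂ) *
        ∑' h, G k h * (ga (em M) (c k) h : ℂ) = ∫ x, ∑' h, Fh h x := by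
      rw [← hHS.tsum_eq, ← tsum_mul_left]
      exact tsum_congr fun h => (hF2 h).symm
    have e2 : ∀ x : EuclideanSpace ℝ ι, ∑' h, Fh h x = (gd a x : ℂ) * (ex x (-b) * Φ k x) := by
      intro x
      rw [hΦ, hFh]
      simp only
      rw [← tsum_mul_left, ← tsum_mul_left]
      refine tsum_congr fun h => ?_
      rw [sub_eq_add_neg, ex_add]
      ring
    have e3 : Real.exp (-(Real.pi * ‖c k‖ ^ 2 * (t ^ 2 / (1 - t ^ 2)))) *
      ‖∑' h, G k h * (ga (em M) (c k) h : ℂ)‖ = ‖∫ x, ∑' h, Fh h x‖ := by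
      rw [← e1, norm_mul, Complex.norm_real, Real.norm_of_nonneg (Real.exp_pos _).le]
    rw [e3]
    refine (norm_integral_le_integral_norm _).trans (le_of_eq ?_)
    congr 1
    ext x
    rw [e2, norm_mul, norm_mul, ex_norm, one_mul, Complex.norm_real, Real.norm_of_nonneg (gd_nonneg ha0 x)]
  calc _ ≤ ∑ k ∈ s, ω k * ∫ x, gd a x * ‖Φ k x‖ :=
        sum_le_sum fun k _ => mul_le_mul_of_nonneg_left (hone k) (hω k)
    _ = ∫ x, gd a x * ∑ k ∈ s, ω k * ‖Φ k x‖ := by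
        simp_rw [← integral_const_mul]
        rw [← integral_finsetSum _ (fun k _ => (hint k).const_mul _)]
        congr 1
        ext x
        rw [mul_sum]
        refine sum_congr rfl fun k _ => ?_
        ring
    _ ≤ ∫ x, gd a x * V := by
        refine integral_mono ?_ ((gd_int' ha0).mul_const V) fun x => ?_
        · have : (fun x => gd a x * ∑ k ∈ s, ω k * ‖Φ k x‖) = fun x => ∑ k ∈ s, ω k * (gd a x * ‖Φ k x‖) := by
            ext x
            rw [mul_sum]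
            refine sum_congr rfl fun k _ => ?_
            ring
          rw [this]
          exact integrable_finsetSum _ fun k _ => (hint k).const_mul _
        · refine mul_le_mul_of_nonneg_left ?_ (gd_nonneg ha0 x)
          have := hV x
          rw [hΦ]
          exact this
    _ = V := by rw [integral_mul_const, gd_one ha0, one_mul]

end Run7.h343.NF
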