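import Pool.Agent.Run7.h343.NF.Mean
import Pool.Agent.Run7.h343.NF.Sep

/-!
Poisson summation for the correlations of the theta series.
-/

set_option autoImplicit false
set_option linter.unusedSectionVars false

namespace Run7.h343.NF

open Complex Finset
open Pool.Agent.Y766.R7
open Pool.Agent.H442R2
open Pool.Agent.Y766
open Pool.Agent.Y766.R3 (eu FF FH)

variable {ι : Type} [Fintype ι] [DecidableEq ι]

/-- the correlation weight -/
noncomputable def Wt (A : Matrix ι ι ℝ) (σ : ι → ℝ) (lam β : ι → ℤ) : ℂ :=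
  cexp (∑ i, -Real.pi * ((1 + σ i * I) * (em A (β + lam) i : ℂ) ^ 2 + (1 - σ i * I) * (em A β i : ℂ) ^ 2))

lemma Wt_norm (A : Matrix ι ι ℝ) (σ : ι → ℝ) (lam β : ι → ℤ) : ‖Wt A σ lam β‖ =
    Real.exp (-(Real.pi * (‖em A (β + lam)‖ ^ 2 + ‖em A β‖ ^ 2))) := by
  unfold Wt
  rw [Complex.norm_exp, EuclideanSpace.norm_sq_eq, EuclideanSpace.norm_sq_eq]
  congr 1
  rw [Complex.re_sum, ← sum_add_distrib, mul_sum, ← sum_neg_distrib]
  refine sum_congr rfl fun i _ => ?_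
  rw [Real.norm_eq_abs, Real.norm_eq_abs, sq_abs, sq_abs]
  have e : (-Real.pi * ((1 + σ i * I) * (em A (β + lam) i : ℂ) ^ 2 + (1 - σ i * I) * (em A β i : ℂ) ^ 2) : ℂ) =
    ((-(Real.pi * ((em A (β + lam) i) ^ 2 + (em A β i) ^ 2)) : ℝ) : ℂ) +
    ((-(Real.pi * σ i * ((em A (β + lam) i) ^ 2 - (em A β i) ^ 2)) : ℝ) : ℂ) * I := by
    push_cast
    ring
  rw [e, add_re, ofReal_re, re_ofReal_mul, I_re, mul_zero, add_zero]

lemma ga_smul_zero (t : ℝ) (M : Matrix ι ι ℝ) (x : ι → ℤ) :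
    ga (em (t • M)) 0 x = Real.exp (-(Real.pi * (t ^ 2 * ‖em M x‖ ^ 2))) := by
  unfold ga
  rw [em_smul, sub_zero, norm_smul, mul_pow, Real.norm_eq_abs, sq_abs]

lemma par_id {E : Type} [NormedAddCommGroup E] [InnerProductSpace ℝ E] (u v : E) :
    ‖u + v‖ ^ 2 + ‖u‖ ^ 2 = ‖Real.sqrt 2 • u - (-(Real.sqrt 2 / 2)) • v‖ ^ 2 + ‖v‖ ^ 2 / 2 := by
  have h2 : Real.sqrt 2 ^ 2 = 2 := Real.sq_sqrt (by norm_num)
  rw [@norm_add_sq_real _ _ _ u v, @norm_sub_sq_real _ _ _ (Real.sqrt 2 • u) ((-(Real.sqrt 2 / 2)) • v),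
    norm_smul, norm_smul, inner_smul_left, inner_smul_right, mul_pow, mul_pow, Real.norm_eq_abs, Real.norm_eq_abs,
    sq_abs, sq_abs]
  simp only [conj_trivial]
  linear_combination (-(‖u‖ ^ 2) - inner ℝ u v - ‖v‖ ^ 2 / 4) * h2

lemma Wt_eq (A : Matrix ι ι ℝ) (σ : ι → ℝ) (lam β : ι → ℤ) : ‖Wt A σ lam β‖ =
    Real.exp (-(Real.pi * ‖em A lam‖ ^ 2 / 2)) *
      ga (em (Real.sqrt 2 • A)) (-(Real.sqrt 2 / 2) • em A lam) β := by
  rw [Wt_norm, map_add, par_id]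
  unfold ga
  rw [← Real.exp_add, em_smul]
  congr 1
  ring

/-- a linear phase -/
noncomputable def lph (A B : Matrix ι ι ℝ) (lam h : ι → ℤ) : ℂ :=
  cexp (((Real.pi * ∑ i, em A lam i * em B h i : ℝ) : ℂ) * I)

/-- the centre of the dual weight -/
noncomputable def ctr (A : Matrix ι ι ℝ) (σ : ι → ℝ) (lam : ι → ℤ) : EuclideanSpace ℝ ι :=
  WithLp.toLp 2 fun i => -((Real.sqrt 2)⁻¹ * (σ i * em A lam i))

lemma lph_ch (A B : Matrix ι ι ℝ) (lam : ι → ℤ) : IsCh (lph A B lam) := by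
  constructor
  · intro h
    unfold lph
    rw [Complex.norm_exp_ofReal_mul_I]
  · intro h h'
    unfold lph
    rw [← Complex.exp_add, ← add_mul, ← ofReal_add, ← mul_add, ← sum_add_distrib]
    congr 5
    funext i
    rw [map_add, PiLp.add_apply]
    ring

lemma ctr_normSq (A : Matrix ι ι ℝ) {σ : ι → ℝ} {S : ℝ} (hS : ∀ i, |σ i| ≤ S) (lam : ι → ℤ) :
    ‖ctr A σ lam‖ ^ 2 ≤ S ^ 2 * ‖em A lam‖ ^ 2 / 2 := by
  rw [EuclideanSpace.norm_sq_eq, EuclideanSpace.norm_sq_eq, mul_sum, sum_div]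
  refine sum_le_sum fun i _ => ?_
  unfold ctr
  simp only
  rw [Real.norm_eq_abs, Real.norm_eq_abs, sq_abs, sq_abs, neg_sq, mul_pow, inv_pow, Real.sq_sqrt (by norm_num),
    mul_pow]
  have h1 : σ i ^ 2 ≤ S ^ 2 := by
    rw [← sq_abs (σ i)]
    exact pow_le_pow_left₀ (abs_nonneg _) (hS i) 2
  have h2 := mul_le_mul_of_nonneg_right h1 (sq_nonneg (em A lam i))
  linarith

/-- the dual matrix -/
noncomputable def Mz (A : Matrix ι ι ℝ) (o : ι) (P : ℝ) : Matrix ι ι ℝ := (Real.sqrt 2)⁻¹ • dl (A * Dm o P)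

lemma half_pow : ((1 / 2 : ℂ)) ^ (1 / 2 : ℂ) = (((Real.sqrt 2)⁻¹ : ℝ) : ℂ) := by
  have h1 : ((1 / 2 : ℂ)) = ((1 / 2 : ℝ) : ℂ) := by push_cast; rfl
  rw [h1, ← ofReal_cpow (by norm_num), ← Real.sqrt_eq_rpow, one_div, Real.sqrt_inv]

lemma Wt_gc (A : Matrix ι ι ℝ) (σ : ι → ℝ) (lam β : ι → ℤ) : Wt A σ lam β =
    cexp (∑ i, -Real.pi * (1 + σ i * I) * (em A lam i : ℂ) ^ 2) *
      gc (fun _ => 2) (fun i => -(1 + σ i * I) * em A lam i) (A.mulVec (cst β)) := by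
  unfold Wt gc
  rw [← Complex.exp_add, ← sum_add_distrib]
  congr 1
  refine sum_congr rfl fun i _ => ?_
  rw [map_add, PiLp.add_apply, em_apply A β]
  push_cast
  ring

lemma cls_cst (A : Matrix ι ι ℝ) (o : ι) {P : ℕ} (hP : 0 < P) (a : ℕ) (x : ι → ℤ) :
    A.mulVec (cst (cls o (a : ℕ) P x)) =
      (A * Dm o P).mulVec ((fun i => if i = o then (a : ℝ) / P else 0) + cst x) := by
  have hP0 : (P : ℝ) ≠ 0 := by exact_mod_cast hP.ne'
  rw [← Matrix.mulVec_mulVec, Dm_mulVec]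
  congr 1
  funext i
  unfold cst cls
  simp only [Pi.add_apply]
  split_ifs
  · push_cast; field_simp
  · simp

lemma ph_sum (o : ι) (k : ι → ℤ) (c : ℝ) : ∑ i, (k i : ℝ) * (if i = o then c else 0) = k o * c := by
  simp only [mul_ite, mul_zero]
  rw [Finset.sum_ite_eq' univ o (fun i => (k i : ℝ) * c)]
  simp

lemma gh_two (σ : ι → ℝ) (lam ξ : ι → ℝ) :
    cexp (∑ i, -Real.pi * (1 + σ i * I) * (lam i : ℂ) ^ 2) *
      gh (fun _ => 2) (fun i => -(1 + σ i * I) * lam i) ξ =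
    (((Real.sqrt 2)⁻¹ ^ Fintype.card ι * Real.exp (-(Real.pi * (∑ i, lam i ^ 2) / 2)) : ℝ) : ℂ) *
      (cexp (((Real.pi * ∑ i, lam i * ξ i : ℝ) : ℂ) * I) *
      (Real.exp (-(Real.pi * ∑ i, ((Real.sqrt 2)⁻¹ * ξ i + (Real.sqrt 2)⁻¹ * (σ i * lam i)) ^ 2)) : ℂ)) := by
  unfold gh
  have e1 : ∏ _i : ι, ((1 / 2 : ℂ)) ^ (1 / 2 : ℂ) = (((Real.sqrt 2)⁻¹ ^ Fintype.card ι : ℝ) : ℂ) := by
    rw [prod_const, half_pow, card_univ]
    push_cast
    rfl
  rw [e1, ofReal_mul, ofReal_exp, ofReal_exp]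
  have key : ∀ a b c u v w : ℂ, u + v = a + b + c →
      cexp u * (w * cexp v) = w * cexp a * (cexp b * cexp c) := by
    intro a b c u v w h
    have : cexp u * (w * cexp v) = w * cexp (u + v) := by rw [Complex.exp_add]; ring
    rw [this, h, Complex.exp_add, Complex.exp_add]
    ring
  apply key
  have h2 : (((Real.sqrt 2)⁻¹ : ℝ) : ℂ) ^ 2 = 1 / 2 := by
    have : ((Real.sqrt 2)⁻¹) ^ 2 = (1 / 2 : ℝ) := by
      rw [inv_pow, Real.sq_sqrt (by norm_num)]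
      norm_num
    rw [← ofReal_pow, this]
    push_cast
    rfl
  have hI : I ^ 2 = -1 := I_sq
  rw [← sum_add_distrib]
  have e2 : ((-(Real.pi * (∑ i, lam i ^ 2) / 2) : ℝ) : ℂ) = ∑ i, -(Real.pi * (lam i : ℂ) ^ 2 / 2) := by
    push_cast
    rw [mul_sum, sum_div, sum_neg_distrib]
  have e3 : ((Real.pi * ∑ i, lam i * ξ i : ℝ) : ℂ) * I = ∑ i, (Real.pi * (lam i * ξ i) * I : ℂ) := by
    push_cast
    rw [mul_sum, sum_mul]
  have e4 : ((-(Real.pi * ∑ i, ((Real.sqrt 2)⁻¹ * ξ i + (Real.sqrt 2)⁻¹ * (σ i * lam i)) ^ 2) : ℝ) : ℂ) =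
      ∑ i, -(Real.pi * (1 / 2) * (ξ i + σ i * lam i) ^ 2 : ℂ) := by
    rw [← h2]
    push_cast
    rw [mul_sum, ← sum_neg_distrib]
    refine sum_congr rfl fun i _ => ?_
    ring
  rw [e2, e3, e4, ← sum_add_distrib, ← sum_add_distrib]
  refine sum_congr rfl fun i _ => ?_
  linear_combination (Real.pi * (ξ i + σ i * lam i : ℂ) ^ 2 / 2) * hI

theorem poisT {A : Matrix ι ι ℝ} (hA : A.det ≠ 0) (o : ι) {P : ℕ} (hP : 0 < P) {F : ℤ → ℂ}
    (hF : ∀ n k : ℤ, F (n + P * k) = F n) (hF1 : ∀ n, ‖F n‖ ≤ 1) (σ : ι → ℝ) (lam : ι → ℤ) :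
    ∑' β, F (β o) * Wt A σ lam β =
      (((|A.det| * P)⁻¹ * (Real.sqrt 2)⁻¹ ^ Fintype.card ι * Real.exp (-(Real.pi * ‖em A lam‖ ^ 2 / 2)) : ℝ) : ℂ) *
      ∑' h, FH P F (h o) * lph A (dl (A * Dm o P)) lam h * (ga (em (Mz A o P)) (ctr A σ lam) h : ℂ) := by
  have hP0 : (0 : ℝ) < P := by exact_mod_cast hP
  have hs2 : Real.sqrt 2 • A = Real.sqrt 2 • A := rfl
  have hA2 : (Real.sqrt 2 • A).det ≠ 0 := by
    rw [Matrix.det_smul]
    exact mul_ne_zero (pow_ne_zero _ (by positivity)) hA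
  have hsum : Summable fun β : ι → ℤ => F (β o) * Wt A σ lam β := by
    refine Summable.of_norm_bounded ((ga_summable hA2 (-(Real.sqrt 2 / 2) • em A lam)).mul_left
      (Real.exp (-(Real.pi * ‖em A lam‖ ^ 2 / 2)))) fun β => ?_
    rw [norm_mul, Wt_eq]
    exact mul_le_of_le_one_left (mul_nonneg (Real.exp_pos _).le (ga_nonneg _ _ _)) (hF1 _)
  rw [tsum_dec o hP hsum]
  obtain ⟨B, hB⟩ : ∃ B, B = A * Dm o (P : ℝ) := ⟨_, rfl⟩
  have hBd : B.det ≠ 0 := by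
    rw [hB, Matrix.det_mul, Dm_det]
    exact mul_ne_zero hA hP0.ne'
  have hBabs : |B.det|⁻¹ = (|A.det| * P)⁻¹ := by
    rw [hB, Matrix.det_mul, Dm_det, abs_mul, abs_of_pos hP0]
  have hper : ∀ (a : ℕ) (x : ι → ℤ), F (cls o (a : ℕ) P x o) = F a := by
    intro a x
    rw [cls_o]
    exact hF a (x o)
  obtain ⟨T, hT⟩ : ∃ T : ℝ, T = (|A.det| * P)⁻¹ * (Real.sqrt 2)⁻¹ ^ Fintype.card ι *
      Real.exp (-(Real.pi * ‖em A lam‖ ^ 2 / 2)) := ⟨_, rfl⟩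
  obtain ⟨G, hG⟩ : ∃ G : (ι → ℤ) → ℂ, G = fun h => lph A (dl B) lam h *
    (ga (em (Mz A o P)) (ctr A σ lam) h : ℂ) := ⟨_, rfl⟩
  -- one residue class
  have hcls : ∀ a : ℕ, ∑' x, Wt A σ lam (cls o (a : ℕ) P x) =
      (T : ℂ) * ∑' h, KF.e (((h o : ℤ) : ℝ) * ((a : ℝ) / P)) * G h := by
    intro a
    have e1 : ∀ x : ι → ℤ, Wt A σ lam (cls o (a : ℕ) P x) =
        cexp (∑ i, -Real.pi * (1 + σ i * I) * (em A lam i : ℂ) ^ 2) *
        gc (fun _ => 2) (fun i => -(1 + σ i * I) * em A lam i)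
          (B.mulVec ((fun i => if i = o then (a : ℝ) / P else 0) + cst x)) := by
      intro x
      rw [Wt_gc, cls_cst A o hP, hB]
    simp_rw [e1]
    rw [tsum_mul_left, pois' hBd (by intro i; simp), ← tsum_mul_left, ← tsum_mul_left, ← tsum_mul_left]
    refine tsum_congr fun h => ?_
    rw [ph_sum]
    have e2 := gh_two σ (fun i => em A lam i) ((dl B).mulVec (cst h))
    have e3 : (∑ i, em A lam i ^ 2) = ‖em A lam‖ ^ 2 := by
      rw [EuclideanSpace.norm_sq_eq]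
      refine sum_congr rfl fun i _ => ?_
      rw [Real.norm_eq_abs, sq_abs]
    have e4 : ga (em (Mz A o P)) (ctr A σ lam) h = Real.exp (-(Real.pi * ∑ i, ((Real.sqrt 2)⁻¹ *
        (dl B).mulVec (cst h) i + (Real.sqrt 2)⁻¹ * (σ i * em A lam i)) ^ 2)) := by
      unfold ga Mz
      rw [em_norm, ← hB]
      congr 3
      refine sum_congr rfl fun i _ => ?_
      rw [Matrix.smul_mulVec, Pi.smul_apply, smul_eq_mul]
      unfold ctr
      ring
    have e5 : lph A (dl B) lam h = cexp (((Real.pi * ∑ i, em A lam i * (dl B).mulVec (cst h) i : ℝ) : ℂ) * I) := rfl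
    rw [hT, hG]
    simp only
    rw [e4, e5, ← e3]
    have e6 : KF.e (((h o : ℤ) : ℝ) * ((a : ℝ) / P)) = cexp (2 * Real.pi * I * (((h o : ℝ) * ((a : ℝ) / P) : ℝ) : ℂ)) := by
      unfold KF.e
      congr 1
      push_cast
      ring
    rw [e6, hBabs]
    have e7 : ∀ (u v w x y z : ℂ), u * w = x → u * (v * (w * y)) = v * x * y := by
      intro u v w x y z h; rw [← h]; ring
    rw [e7 _ _ _ _ _ 0 e2]
    push_cast
    ring
  have e5 : ∀ a ∈ range P, ∑' x, F (cls o (a : ℕ) P x o) * Wt A σ lam (cls o (a : ℕ) P x) =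
      ∑' h, (T : ℂ) * ((F a * KF.e (((h o : ℤ) : ℝ) * ((a : ℝ) / P))) * G h) := by
    intro a _
    simp_rw [hper]
    rw [tsum_mul_left, hcls, ← tsum_mul_left, ← tsum_mul_left]
    refine tsum_congr fun h => ?_
    ring
  rw [sum_congr rfl e5]
  have hMz : (Mz A o P).det ≠ 0 := by
    unfold Mz
    rw [Matrix.det_smul, ← hB, dl_det]
    exact mul_ne_zero (pow_ne_zero _ (by positivity)) (inv_ne_zero hBd)
  have hGs : Summable fun h => ‖G h‖ := by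
    rw [hG]
    refine (ga_summable hMz (ctr A σ lam)).congr fun h => ?_
    rw [norm_mul, (lph_ch A (dl B) lam).nrm, one_mul, Complex.norm_real, Real.norm_of_nonneg (ga_nonneg _ _ _)]
  have hs : ∀ a ∈ range P, Summable fun h : ι → ℤ =>
      (T : ℂ) * ((F a * KF.e (((h o : ℤ) : ℝ) * ((a : ℝ) / P))) * G h) := by
    intro a _
    refine Summable.mul_left _ ?_
    refine Summable.of_norm_bounded hGs fun h => ?_
    rw [norm_mul, norm_mul, ← Pool.Agent.Y766.R3.eu_eq, eu_norm, mul_one]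
    exact mul_le_of_le_one_left (norm_nonneg _) (hF1 _)
  rw [← Summable.tsum_finsetSum hs, ← hB, ← hT, ← tsum_mul_left]
  refine tsum_congr fun h => ?_
  rw [← mul_sum, ← sum_mul, hG]
  simp only
  unfold FH
  ring

end Run7.h343.NF
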