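import Pool.Agent.Run7.h343.NF.WR

/-!
Short representatives of the residue classes.
-/

set_option autoImplicit false
set_option linter.unusedSectionVars false

namespace Run7.h343.NF

open Complex Finset MeasureTheory Filter

variable {ι : Type} [Fintype ι] [DecidableEq ι]

/-- a lower bound for the mass of a Gaussian weight with arbitrary centre -/
theorem ga_lower {B : Matrix ι ι ℝ} (hB : B.det ≠ 0) (z : EuclideanSpace ℝ ι) :
    |B.det|⁻¹ * (1 - nz (dl B)) ≤ ∑' x, ga (em B) z x := by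
  have hd : (dl B).det ≠ 0 := by rw [dl_det]; exact inv_ne_zero hB
  have h1 := pois' hB (c := fun _ : ι => (1 : ℂ)) (fun _ => by simp) (fun i => z i + I * (dl B).mulVec 0 i) 0
  simp only [zero_add, Pi.zero_apply, mul_zero, sum_const_zero, ofReal_zero, Complex.exp_zero, mul_one] at h1
  obtain ⟨E, hE⟩ : ∃ E : ℂ, E = cexp (-(Real.pi * ∑ i, z i ^ 2 : ℝ)) := ⟨_, rfl⟩
  have e1 : ((∑' x, ga (em B) z x : ℝ) : ℂ) = E * ((|B.det|⁻¹ : ℝ) *
      ∑' k : ι → ℤ, gh (fun _ => 1) (fun i => (z i : ℂ) + I * (dl B).mulVec 0 i) ((dl B).mulVec (cst k))) := by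
    rw [← h1, ← tsum_mul_left, ofReal_tsum]
    refine tsum_congr fun x => ?_
    rw [hE, ← ga_gc hB z 0 x]
    simp
  obtain ⟨f, hf⟩ : ∃ f : (ι → ℤ) → ℂ, f = fun k =>
    E * gh (fun _ => 1) (fun i => (z i : ℂ) + I * (dl B).mulVec 0 i) ((dl B).mulVec (cst k)) := ⟨_, rfl⟩
  have hfn : ∀ k, ‖f k‖ = ga (em (dl B)) 0 k := by
    intro k
    rw [hf]
    simp only
    rw [norm_mul, gh_one_norm (fun i => z i), hE, Complex.norm_exp, ← mul_assoc]
    have e2 : Real.exp ((-(Real.pi * ∑ i, z i ^ 2 : ℝ) : ℂ)).re * Real.exp (Real.pi * ∑ i, z i ^ 2) = 1 := by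
      rw [← ofReal_neg, ofReal_re, ← Real.exp_add, neg_add_cancel, Real.exp_zero]
    rw [e2, one_mul]
    unfold ga
    rw [em_norm, Matrix.mulVec_zero]
    rfl
  have hfs : Summable fun k => ‖f k‖ := by
    simp_rw [hfn]
    exact ga_summable hd 0
  have hf0 : f 0 = 1 := by
    rw [hf]
    simp only
    rw [hE, cst_zero, Matrix.mulVec_zero]
    unfold gh
    simp only [Pi.zero_apply, ofReal_zero, mul_zero, add_zero, sub_zero, div_one]
    have : ∏ _i : ι, ((1 : ℂ)) ^ (1 / 2 : ℂ) = 1 := by simp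
    rw [this, one_mul, ← Complex.exp_add]
    have e3 : (-(Real.pi * ∑ i, z i ^ 2 : ℝ) : ℂ) + ∑ i, (Real.pi : ℂ) * (z i : ℂ) ^ 2 = 0 := by
      push_cast
      rw [mul_sum]
      ring
    rw [e3, Complex.exp_zero]
  have e4 : ((∑' x, ga (em B) z x : ℝ) : ℂ) = (|B.det|⁻¹ : ℝ) * ∑' k, f k := by
    rw [e1, hf, tsum_mul_left]
    ring
  have e5 : ∑' k, f k = 1 + ∑' k, (if k = 0 then 0 else f k) := by
    rw [hfs.of_norm.tsum_eq_add_tsum_ite 0, hf0]
  have hs2 : Summable fun k => ‖(if k = 0 then 0 else f k)‖ := by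
    refine hfs.of_nonneg_of_le (fun _ => norm_nonneg _) fun k => ?_
    split_ifs
    · rw [norm_zero]; exact norm_nonneg _
    · exact le_rfl
  have h6 : ‖∑' k, (if k = 0 then 0 else f k)‖ ≤ nz (dl B) := by
    refine (norm_tsum_le_tsum_norm hs2).trans (le_of_eq ?_)
    unfold nz
    refine tsum_congr fun k => ?_
    split_ifs
    · rw [norm_zero]
    · exact hfn k
  have h7 : (∑' x, ga (em B) z x) = |B.det|⁻¹ * (∑' k, f k).re := by
    have := congrArg Complex.re e4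
    rwa [ofReal_re, re_ofReal_mul] at this
  rw [h7]
  refine mul_le_mul_of_nonneg_left ?_ (by positivity)
  rw [e5, add_re, one_re]
  have := (abs_le.1 (Complex.abs_re_le_norm (∑' k, (if k = 0 then 0 else f k)))).1
  linarith

/-- the covering constant -/
noncomputable def CR (n : ℕ) (CG : ℝ) : ℝ :=
  8 * (1 + CG) ^ 2 / Real.pi * Real.log (4 * (1 + CG) * 2 ^ n)

lemma CR_nonneg (n : ℕ) {CG : ℝ} (h : 0 ≤ CG) : 0 ≤ CR n CG := by
  unfold CR
  have h1 : (1 : ℝ) ≤ 2 ^ n := one_le_pow₀ (by norm_num)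
  have : 0 ≤ Real.log (4 * (1 + CG) * 2 ^ n) := Real.log_nonneg (by nlinarith)
  have := Real.pi_pos
  positivity

variable {p : ℕ} {o : ι} {CG : ℝ} {N : ℕ} {A : Matrix ι ι ℝ}

theorem cover {B : Matrix ι ι ℝ} (h : Lb CG B) (hn : 1 ≤ Fintype.card ι) (hd : |B.det| ≤ 1)
    (z : EuclideanSpace ℝ ι) : ∃ x : ι → ℤ, ‖em B x - z‖ ^ 2 ≤ CR (Fintype.card ι) CG := by
  obtain ⟨n, hnd⟩ : ∃ n, n = Fintype.card ι := ⟨_, rfl⟩
  rw [← hnd] at hn ⊢
  have hCG := h.CG_nonneg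
  have hpi := Real.pi_pos
  obtain ⟨s, hs⟩ : ∃ s : ℝ, s = 1 / (2 * (1 + CG)) := ⟨_, rfl⟩
  have hs0 : 0 < s := by rw [hs]; positivity
  have hs1 : s ≤ 1 := by
    rw [hs, div_le_one (by positivity)]
    linarith
  have hdp : 0 < |B.det| := abs_pos.2 h.det
  obtain ⟨R, hR⟩ : ∃ R : ℝ, R = CR n CG := ⟨_, rfl⟩
  rw [← hR]
  by_contra hcon
  push Not at hcon
  -- lower bound
  have hdsB : (s • B).det ≠ 0 := (h.smul hs0).det
  have h1 := ga_lower hdsB (s • z)
  have hdet : |(s • B).det| = s ^ n * |B.det| := by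
    rw [Matrix.det_smul, abs_mul, abs_of_pos (by positivity : 0 < s ^ Fintype.card ι), ← hnd]
  have h2 : nz (dl (s • B)) ≤ 1 / 2 := by
    have h3 := (h.smul hs0).dual 1 one_pos
    rw [one_smul, one_pow, div_one, hdet] at h3
    refine h3.trans ?_
    have h4 : s ^ n ≤ s := by
      calc s ^ n ≤ s ^ 1 := pow_le_pow_of_le_one hs0.le hs1 hn
        _ = s := pow_one s
    calc CG * (s ^ n * |B.det|) ≤ CG * (s * 1) := by gcongr
      _ ≤ 1 / 2 := by
          rw [hs, mul_one, mul_one_div, div_le_div_iff₀ (by positivity) (by norm_num)]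
          linarith
  have hlow : 1 / 2 / (s ^ n * |B.det|) ≤ ∑' x, ga (em (s • B)) (s • z) x := by
    refine le_trans (le_of_eq ?_) (le_trans (mul_le_mul_of_nonneg_left (by linarith : 1 / 2 ≤ 1 - nz (dl (s • B)))
      (by positivity)) h1)
    rw [hdet]
    field_simp
  -- upper bound
  obtain ⟨t, ht⟩ : ∃ t : ℝ, t = s / 2 := ⟨_, rfl⟩
  have ht0 : 0 < t := by rw [ht]; positivity
  have hemn : ∀ (u : ℝ) (x : ι → ℤ), ‖em (u • B) x - u • z‖ ^ 2 = u ^ 2 * ‖em B x - z‖ ^ 2 := by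
    intro u x
    have : em (u • B) x - u • z = u • (em B x - z) := by
      rw [smul_sub]
      congr 1
      ext i
      show (u • B).mulVec (cst x) i = u * B.mulVec (cst x) i
      rw [Matrix.smul_mulVec]
      rfl
    rw [this, norm_smul, mul_pow, Real.norm_eq_abs, sq_abs]
  have hpt : ∀ x, ga (em (s • B)) (s • z) x ≤ Real.exp (-(Real.pi * (s ^ 2 / 2) * R)) * ga (em (t • B)) (t • z) x := by
    intro x
    unfold ga
    rw [← Real.exp_add, hemn, hemn]
    apply Real.exp_le_exp.2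
    have h3 := (hcon x).le
    have e1 : t ^ 2 = s ^ 2 / 4 := by rw [ht]; ring
    rw [e1]
    have h5 : Real.pi * (s ^ 2 / 2) * R ≤ Real.pi * (s ^ 2 / 2) * ‖em B x - z‖ ^ 2 := by gcongr
    have h6 : 0 ≤ Real.pi * s ^ 2 * ‖em B x - z‖ ^ 2 := by positivity
    nlinarith
  have hdtB : (t • B).det ≠ 0 := (h.smul ht0).det
  have hup : ∑' x, ga (em (s • B)) (s • z) x ≤ Real.exp (-(Real.pi * (s ^ 2 / 2) * R)) *
      ((1 + CG) / (t ^ n * |B.det|)) := by
    calc _ ≤ ∑' x, Real.exp (-(Real.pi * (s ^ 2 / 2) * R)) * ga (em (t • B)) (t • z) x :=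
          (ga_summable hdsB _).tsum_le_tsum hpt ((ga_summable hdtB _).mul_left _)
      _ = Real.exp (-(Real.pi * (s ^ 2 / 2) * R)) * ∑' x, ga (em (t • B)) (t • z) x := tsum_mul_left
      _ ≤ _ := by
          refine mul_le_mul_of_nonneg_left ?_ (Real.exp_pos _).le
          refine ((em_GW hdtB).le _).trans ((h.smul ht0).GE_le.trans ?_)
          have hdet2 : |(t • B).det| = t ^ n * |B.det| := by
            rw [Matrix.det_smul, abs_mul, abs_of_pos (by positivity : 0 < t ^ Fintype.card ι), ← hnd]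
          rw [hdet2, add_div]
          have h7 : 1 ≤ 1 / (t ^ n * |B.det|) := by
            rw [le_div_iff₀ (by positivity), one_mul]
            have : t ^ n ≤ 1 := pow_le_one₀ ht0.le (by rw [ht]; linarith)
            nlinarith
          linarith
  have hcomb := hlow.trans hup
  -- contradiction
  have e2 : t ^ n = s ^ n / 2 ^ n := by rw [ht, div_pow]
  rw [e2] at hcomb
  have h8 : 1 / 2 ≤ Real.exp (-(Real.pi * (s ^ 2 / 2) * R)) * ((1 + CG) * 2 ^ n) := by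
    have h9 : 0 < s ^ n * |B.det| := by positivity
    have e3 : Real.exp (-(Real.pi * (s ^ 2 / 2) * R)) * ((1 + CG) / (s ^ n / 2 ^ n * |B.det|)) =
        Real.exp (-(Real.pi * (s ^ 2 / 2) * R)) * ((1 + CG) * 2 ^ n) / (s ^ n * |B.det|) := by
      field_simp
    rw [e3] at hcomb
    exact (div_le_div_iff_of_pos_right h9).1 hcomb
  have h10 : Real.pi * (s ^ 2 / 2) * R = Real.log (4 * (1 + CG) * 2 ^ n) := by
    rw [hR, hs]
    unfold CR
    field_simp
    ring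
  rw [h10, Real.exp_neg, Real.exp_log (by positivity)] at h8
  have e4 : (4 * (1 + CG) * 2 ^ n)⁻¹ * ((1 + CG) * 2 ^ n) = 1 / 4 := by
    field_simp
  rw [e4] at h8
  norm_num at h8

theorem reps (hp : 0 < p) (h : WR p o CG N A) (hn : 1 ≤ Fintype.card ι) {a b : ℕ} (hab : a + b ≤ N)
    (hd : |A.det| * (p : ℝ) ^ (a + b) ≤ 1) : ∃ w : ℕ → (ι → ℤ),
    ∀ k, ‖em A (w k)‖ ^ 2 ≤ CR (Fintype.card ι) CG ∧ (p : ℤ) ^ (a + b) ∣ w k o - (p : ℤ) ^ a * k := by
  have hex : ∀ k : ℕ, ∃ x : ι → ℤ, ‖em A x‖ ^ 2 ≤ CR (Fintype.card ι) CG ∧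
      (p : ℤ) ^ (a + b) ∣ x o - (p : ℤ) ^ a * k := by
    intro k
    have hL := h (a + b) hab
    have hdet : |(A * Dm o ((p : ℝ) ^ (a + b))).det| ≤ 1 := by
      rw [Matrix.det_mul, Dm_det, abs_mul, abs_of_nonneg (by positivity : 0 ≤ (p : ℝ) ^ (a + b))]
      exact hd
    obtain ⟨y, hy⟩ := cover hL hn hdet (-(em A (dlt o ((p : ℤ) ^ a * k))))
    refine ⟨cls o ((p : ℤ) ^ a * k) ((p : ℤ) ^ (a + b)) y, ?_, ?_⟩
    · rw [em_cls]
      rw [sub_neg_eq_add] at hy
      push_cast at hy ⊢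
      exact hy
    · rw [cls_o]
      exact ⟨y o, by ring⟩
  choose w hw using hex
  exact ⟨w, hw⟩

end Run7.h343.NF
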