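import Pool.Agent.Run7.h343.NF.Vdc3
import Pool.Agent.Y924.R7.Lin
import Pool.Agent.Y766.R7.ZA

/-!
The triple difference of the phase functions over the Gaussian integers.
-/

set_option autoImplicit false

namespace Run7.h343.NF

open Complex Finset
open Pool.Agent.Y766.R7

variable {L : Type} {Λ : Type} [AddCommGroup Λ]

/-- unitary characters of the additive group -/
structure IsCh (χ : Λ → ℂ) : Prop where
  nrm : ∀ h, ‖χ h‖ = 1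
  add : ∀ h h', χ (h + h') = χ h * χ h'

lemma IsCh.conj {χ : Λ → ℂ} (hχ : IsCh χ) (h : Λ) :
    χ h * (starRingEnd ℂ) (χ h) = 1 := by
  rw [Complex.mul_conj', hχ.nrm]; norm_num

/-- the functions to which van der Corput's method is applied -/
noncomputable def Fm (p r : ℕ) [NeZero (p ^ r)] (l0 h0 : ℤ) (Ψ : ZMod (p ^ r) → ℂ)
    (Y C : ZMod (p ^ r)) (R1 : L → ℤ) (R2 : Λ → ℤ) (χ : L → Λ → ℂ)
    (l : L) (h : Λ) : ℂ :=
  if (p : ℤ) ∣ R1 l - l0 ∧ (p : ℤ) ∣ R2 h - h0 then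
    Ψ (Y * (aa p r l0 (R1 l) * aa p r h0 (R2 h))) *
      ZMod.stdAddChar (C * (aa p r l0 (R1 l) * aa p r h0 (R2 h))) * χ l h else 0

lemma Fm_norm {p r : ℕ} [NeZero (p ^ r)] {l0 h0 : ℤ} {Ψ : ZMod (p ^ r) → ℂ} (hΨ : ∀ y, ‖Ψ y‖ = 1)
    (Y C : ZMod (p ^ r)) (R1 : L → ℤ) (R2 : Λ → ℤ) {χ : L → Λ → ℂ}
    (hχ : ∀ l, IsCh (χ l)) (l : L) (h : Λ) :
    ‖Fm p r l0 h0 Ψ Y C R1 R2 χ l h‖ ≤ 1 := by
  unfold Fm
  split_ifs
  · rw [norm_mul, norm_mul, hΨ, AddChar.norm_apply, (hχ l).nrm]; norm_num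
  · simp

lemma triple3 (hsq : S_SQ) {p r : ℕ} [NeZero (p ^ r)] (hp : p.Prime) (hp2 : p ≠ 2) (hr : 1 ≤ r) {a u : ℕ}
    (ha : 1 ≤ a) (hua : u ≤ a) {l0 h0 : ℤ} (hh0 : ¬ (p : ℤ) ∣ h0)
    {Ψ : ZMod (p ^ r) → ℂ} (hΨ : ∀ y, ‖Ψ y‖ = 1)
    (hΨ2 : ∀ y z : ZMod (p ^ r), Ψ (y + (p : ZMod (p ^ r)) ^ u * z) = Ψ y)
    (Y C : ZMod (p ^ r)) (R1 : L → ℤ) {R2 : Λ → ℤ}
    (hR2 : ∀ x y, R2 (x + y) = R2 x + R2 y) {χ : L → Λ → ℂ}
    (hχ : ∀ l, IsCh (χ l)) (d1 d2 d3 : Λ) (l : L) (h : Λ)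
    (h1 : (p : ℤ) ^ a ∣ R2 d1) (h2 : (p : ℤ) ^ a ∣ R2 d2) (h3 : (p : ℤ) ^ a ∣ R2 d3) :
    Dg d3 (Dg d2 (Dg d1 (Fm p r l0 h0 Ψ Y C R1 R2 χ l))) h =
      if (p : ℤ) ∣ R1 l - l0 ∧ (p : ℤ) ∣ R2 h - h0 then
        ZMod.stdAddChar (C * (aa p r l0 (R1 l) * dif3 p r h0 (R2 h) (R2 d1) (R2 d2) (R2 d3)))
      else 0 := by
  obtain ⟨F, hF⟩ : ∃ F, F = Fm p r l0 h0 Ψ Y C R1 R2 χ l := ⟨_, rfl⟩
  rw [← hF]
  have hpa : ∀ t : ℤ, (p : ℤ) ^ a ∣ t → (p : ℤ) ∣ t := fun t h => (dvd_pow_self _ (by omega)).trans h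
  have hDD : Dg d3 (Dg d2 (Dg d1 F)) h =
      (F (h + (d1 + d2 + d3)) * (starRingEnd ℂ) (F (h + (d2 + d3))) *
        ((starRingEnd ℂ) (F (h + (d1 + d3))) * F (h + d3))) *
      ((starRingEnd ℂ) (F (h + (d1 + d2))) * F (h + d2) *
        (F (h + d1) * (starRingEnd ℂ) (F h))) := by
    unfold Dg
    simp only [map_mul, Complex.conj_conj]
    have a1 : h + d3 + d2 + d1 = h + (d1 + d2 + d3) := by abel
    have a2 : h + d3 + d2 = h + (d2 + d3) := by abel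
    have a3 : h + d3 + d1 = h + (d1 + d3) := by abel
    have a4 : h + d2 + d1 = h + (d1 + d2) := by abel
    rw [a1, a2, a3, a4]
  rw [hDD]
  have hcls : ∀ d : Λ, (p : ℤ) ^ a ∣ R2 d → ((p : ℤ) ∣ R2 (h + d) - h0 ↔ (p : ℤ) ∣ R2 h - h0) := by
    intro d hd
    rw [hR2]
    have e : R2 h + R2 d - h0 = (R2 h - h0) + R2 d := by ring
    rw [e]
    exact dvd_add_left (hpa _ hd)
  have g12 : (p : ℤ) ^ a ∣ R2 (d1 + d2) := by rw [hR2]; exact dvd_add h1 h2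
  have g13 : (p : ℤ) ^ a ∣ R2 (d1 + d3) := by rw [hR2]; exact dvd_add h1 h3
  have g23 : (p : ℤ) ^ a ∣ R2 (d2 + d3) := by rw [hR2]; exact dvd_add h2 h3
  have g123 : (p : ℤ) ^ a ∣ R2 (d1 + d2 + d3) := by rw [hR2]; exact dvd_add g12 h3
  by_cases hc : (p : ℤ) ∣ R1 l - l0 ∧ (p : ℤ) ∣ R2 h - h0
  · rw [if_pos hc]
    obtain ⟨c1, c2⟩ := hc
    have hval : ∀ d : Λ, (p : ℤ) ^ a ∣ R2 d →
        F (h + d) = Ψ (Y * (aa p r l0 (R1 l) * aa p r h0 (R2 h))) *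
          ZMod.stdAddChar (C * (aa p r l0 (R1 l) * aa p r h0 (R2 h + R2 d))) * (χ l h * χ l d) := by
      intro d hd
      rw [hF]
      unfold Fm
      rw [if_pos ⟨c1, (hcls d hd).2 c2⟩, (hχ l).add, hR2]
      obtain ⟨z, hz⟩ := aa_shift hsq hp hp2 hr ha hh0 c2 hd
      have e1 : Ψ (Y * (aa p r l0 (R1 l) * aa p r h0 (R2 h + R2 d))) =
          Ψ (Y * (aa p r l0 (R1 l) * aa p r h0 (R2 h))) := by
        have e2 : (p : ZMod (p ^ r)) ^ a = (p : ZMod (p ^ r)) ^ u * (p : ZMod (p ^ r)) ^ (a - u) := by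
          rw [← pow_add]; congr 1; omega
        rw [hz, e2]
        have e3 : Y * (aa p r l0 (R1 l) * (aa p r h0 (R2 h) + (p : ZMod (p ^ r)) ^ u *
              (p : ZMod (p ^ r)) ^ (a - u) * z)) =
            Y * (aa p r l0 (R1 l) * aa p r h0 (R2 h)) + (p : ZMod (p ^ r)) ^ u *
              (Y * aa p r l0 (R1 l) * (p : ZMod (p ^ r)) ^ (a - u) * z) := by ring
        rw [e3, hΨ2]
      rw [e1]
    have f123 := hval (d1 + d2 + d3) g123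
    have f12 := hval (d1 + d2) g12
    have f13 := hval (d1 + d3) g13
    have f23 := hval (d2 + d3) g23
    have f1 := hval d1 h1
    have f2 := hval d2 h2
    have f3 := hval d3 h3
    have f0 : F h = Ψ (Y * (aa p r l0 (R1 l) * aa p r h0 (R2 h))) *
          ZMod.stdAddChar (C * (aa p r l0 (R1 l) * aa p r h0 (R2 h))) * χ l h := by
      rw [hF]
      unfold Fm
      rw [if_pos ⟨c1, c2⟩]
    have x12 : χ l (d1 + d2) = χ l d1 * χ l d2 := (hχ l).add _ _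
    have x13 : χ l (d1 + d3) = χ l d1 * χ l d3 := (hχ l).add _ _
    have x23 : χ l (d2 + d3) = χ l d2 * χ l d3 := (hχ l).add _ _
    have x123 : χ l (d1 + d2 + d3) = χ l d1 * χ l d2 * χ l d3 := by rw [(hχ l).add, x12]
    have k0 := (hχ l).conj h
    have k1 := (hχ l).conj d1
    have k2 := (hχ l).conj d2
    have k3 := (hχ l).conj d3
    rw [f123, f12, f13, f23, f1, f2, f3, f0, x12, x13, x23, x123]
    obtain ⟨P, hP⟩ : ∃ P, P = Ψ (Y * (aa p r l0 (R1 l) * aa p r h0 (R2 h))) := ⟨_, rfl⟩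
    have hPP : P * (starRingEnd ℂ) P = 1 := by
      rw [Complex.mul_conj', hP, hΨ]; norm_num
    rw [← hP]
    simp only [map_mul, sac_conj]
    obtain ⟨A, hA⟩ : ∃ A, A = aa p r l0 (R1 l) := ⟨_, rfl⟩
    rw [← hA]
    obtain ⟨t1, ht1⟩ : ∃ t, t = R2 d1 := ⟨_, rfl⟩
    obtain ⟨t2, ht2⟩ : ∃ t, t = R2 d2 := ⟨_, rfl⟩
    obtain ⟨t3, ht3⟩ : ∃ t, t = R2 d3 := ⟨_, rfl⟩
    obtain ⟨y, hy⟩ : ∃ t, t = R2 h := ⟨_, rfl⟩
    have r12 : R2 (d1 + d2) = t1 + t2 := by rw [hR2, ht1, ht2]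
    have r13 : R2 (d1 + d3) = t1 + t3 := by rw [hR2, ht1, ht3]
    have r23 : R2 (d2 + d3) = t2 + t3 := by rw [hR2, ht2, ht3]
    have r123 : R2 (d1 + d2 + d3) = t1 + t2 + t3 := by rw [hR2, r12, ht3]
    rw [r12, r13, r23, r123, ← ht1, ← ht2, ← ht3, ← hy]
    have e4 : (ZMod.stdAddChar (C * (A * dif3 p r h0 y t1 t2 t3)) : ℂ) =
        ZMod.stdAddChar (C * (A * aa p r h0 (y + (t1 + t2 + t3)))) *
        ZMod.stdAddChar (-(C * (A * aa p r h0 (y + (t2 + t3))))) *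
        (ZMod.stdAddChar (-(C * (A * aa p r h0 (y + (t1 + t3))))) *
        ZMod.stdAddChar (C * (A * aa p r h0 (y + t3)))) *
        (ZMod.stdAddChar (-(C * (A * aa p r h0 (y + (t1 + t2))))) *
        ZMod.stdAddChar (C * (A * aa p r h0 (y + t2))) *
        (ZMod.stdAddChar (C * (A * aa p r h0 (y + t1))) *
        ZMod.stdAddChar (-(C * (A * aa p r h0 y))))) := by
      simp only [← AddChar.map_add_eq_mul]
      congr 1
      unfold dif3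
      rw [← add_assoc, ← add_assoc, ← add_assoc, ← add_assoc, ← add_assoc]
      ring
    rw [e4]
    calc _ = (P * (starRingEnd ℂ) P) ^ 4 * (χ l h * (starRingEnd ℂ) (χ l h)) ^ 4 *
        (χ l d1 * (starRingEnd ℂ) (χ l d1)) ^ 2 * (χ l d2 * (starRingEnd ℂ) (χ l d2)) ^ 2 *
        (χ l d3 * (starRingEnd ℂ) (χ l d3)) ^ 2 *
        (ZMod.stdAddChar (C * (A * aa p r h0 (y + (t1 + t2 + t3)))) *
        ZMod.stdAddChar (-(C * (A * aa p r h0 (y + (t2 + t3))))) *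
        (ZMod.stdAddChar (-(C * (A * aa p r h0 (y + (t1 + t3))))) *
        ZMod.stdAddChar (C * (A * aa p r h0 (y + t3)))) *
        (ZMod.stdAddChar (-(C * (A * aa p r h0 (y + (t1 + t2))))) *
        ZMod.stdAddChar (C * (A * aa p r h0 (y + t2))) *
        (ZMod.stdAddChar (C * (A * aa p r h0 (y + t1))) *
        ZMod.stdAddChar (-(C * (A * aa p r h0 y)))))) := by ring
      _ = _ := by rw [hPP, k0, k1, k2, k3]; ring
  · rw [if_neg hc]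
    have hz : ∀ x : Λ, ¬ ((p : ℤ) ∣ R1 l - l0 ∧ (p : ℤ) ∣ R2 x - h0) → F x = 0 := by
      intro x hx
      rw [hF]
      unfold Fm
      rw [if_neg hx]
    rw [hz h hc]
    simp

end Run7.h343.NF
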