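import Pool.Agent.Y773.HG.Cls
import Pool.Agent.Run7.h343.NF.Ch
import Pool.Agent.H581R3.GPR.Rot

/-!
Unfolding with complex weights (adapted from the files `Unf2`, `Unf3` of helper773 and helper784).
-/

set_option autoImplicit false
set_option linter.unusedSectionVars false

open NumberField Complex Filter Topology MeasureTheory Set
open NumberField.Units NumberField.Units.dirichletUnitTheorem

namespace Run7.h343.NF

open Pool.Agent.Y773 (Idx el PP S0 PIdl gen gen_ne_zero span_gen xE unE toP unfold_P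
  isHaar_PP exists_vol_gen integral_exp_sub integrable_exp_sub integrableOn_cpow_exp place_unE)
open Pool.Agent.Y773.G (elE elE_apply av av_pos sqrt_mult_pos sum_el prod_av xE_apply toP_xE coE summable_PIdl
  norm_absNorm_cpow)

/-! ### the local integral -/

/-- the local factor of the integrand -/
noncomputable def lz (σ τ b v : ℝ) : ℂ :=
  cexp (-(Real.pi * (1 + σ * I) * ((Real.exp (v / 2) * b : ℝ) : ℂ) ^ 2)) *
    cexp (-(I * ((τ * (v / 2 + Real.log b) : ℝ) : ℂ)))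

lemma lz_norm (σ τ b v : ℝ) : (‖lz σ τ b v‖ : ℂ) = lz 0 0 b v := by
  unfold lz
  rw [norm_mul, Complex.norm_exp, Complex.norm_exp]
  have e1 : (-(Real.pi * (1 + σ * I) * ((Real.exp (v / 2) * b : ℝ) : ℂ) ^ 2)).re =
      -(Real.pi * (Real.exp (v / 2) * b) ^ 2) := by
    have : (-(Real.pi * (1 + σ * I) * ((Real.exp (v / 2) * b : ℝ) : ℂ) ^ 2)) =
        ((-(Real.pi * (Real.exp (v / 2) * b) ^ 2) : ℝ) : ℂ) +
          ((-(Real.pi * σ * (Real.exp (v / 2) * b) ^ 2) : ℝ) : ℂ) * I := by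
      push_cast
      ring
    rw [this, add_re, ofReal_re, re_ofReal_mul, I_re, mul_zero, add_zero]
  have e2 : (-(I * ((τ * (v / 2 + Real.log b) : ℝ) : ℂ))).re = 0 := by
    rw [neg_re, mul_comm, re_ofReal_mul, I_re, mul_zero, neg_zero]
  rw [e1, e2, Real.exp_zero, mul_one]
  push_cast
  simp

lemma lz_cont (σ τ b : ℝ) : Continuous (lz σ τ b) := by
  unfold lz
  fun_prop

/-- the local integral -/
lemma local_z {z : ℂ} (hz : 0 < z.re) (σ : ℝ) {b : ℝ} (hb : 0 < b) :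
    Integrable (fun v : ℝ => cexp (-(Real.pi * (1 + σ * I) * ((Real.exp (v / 2) * b : ℝ) : ℂ) ^ 2)) *
      cexp (z * v)) ∧
    ∫ v : ℝ, cexp (-(Real.pi * (1 + σ * I) * ((Real.exp (v / 2) * b : ℝ) : ℂ) ^ 2)) * cexp (z * v) =
      (b : ℂ) ^ (-(2 * z)) * ((1 + σ * I) ^ (-z) * Complex.Gammaℝ (2 * z)) := by
  have hπ := Real.pi_pos
  have hr : 0 < Real.pi * b ^ 2 := by positivity
  have hw0 : (1 + σ * I : ℂ) ≠ 0 := by
    intro h
    have := congrArg Complex.re h
    simp at this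
  obtain ⟨r, hrd⟩ : ∃ r : ℂ, r = ((Real.pi * b ^ 2 : ℝ) : ℂ) * (1 + σ * I) := ⟨_, rfl⟩
  have hrre : r.re = Real.pi * b ^ 2 := by
    rw [hrd, re_ofReal_mul]
    simp
  have hkey : ∀ (σ : ℝ) (v : ℝ), cexp (-(Real.pi * (1 + σ * I) * ((Real.exp (v / 2) * b : ℝ) : ℂ) ^ 2)) * cexp (z * v) =
      (Real.exp v : ℂ) * (((Real.exp v : ℝ) : ℂ) ^ (z - 1) *
        cexp (-((((Real.pi * b ^ 2 : ℝ) : ℂ) * (1 + σ * I)) * (Real.exp v : ℝ)))) := by
    intro σ v
    have hev : ((Real.exp v : ℝ) : ℂ) ≠ 0 := by exact_mod_cast (Real.exp_pos v).ne'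
    have h1 : ((Real.exp v : ℝ) : ℂ) ^ (z - 1) = cexp (v * (z - 1)) := by
      rw [Complex.cpow_def_of_ne_zero hev, ← Complex.ofReal_log (Real.exp_pos v).le, Real.log_exp]
    have h2 : (Real.exp (v / 2) * b) ^ 2 = b ^ 2 * Real.exp v := by
      rw [mul_pow, ← Real.exp_nat_mul]
      ring_nf
    rw [h1, ← ofReal_pow, h2, ofReal_exp, ← mul_assoc, ← Complex.exp_add, ← Complex.exp_add, ← Complex.exp_add]
    congr 1
    push_cast
    ring
  have hcont : ∀ σ : ℝ, Continuous fun v : ℝ =>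
      cexp (-(Real.pi * (1 + σ * I) * ((Real.exp (v / 2) * b : ℝ) : ℂ) ^ 2)) * cexp (z * v) := by
    intro σ
    fun_prop
  have h0 : Integrable (fun v : ℝ => cexp (-(Real.pi * (1 + ((0 : ℝ) : ℂ) * I) * ((Real.exp (v / 2) * b : ℝ) : ℂ) ^ 2)) *
      cexp (z * v)) := by
    have e1 : (fun v : ℝ => cexp (-(Real.pi * (1 + ((0 : ℝ) : ℂ) * I) * ((Real.exp (v / 2) * b : ℝ) : ℂ) ^ 2)) *
      cexp (z * v)) = fun v : ℝ => (Real.exp v : ℂ) * (fun t : ℝ => (t : ℂ) ^ (z - 1) *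
        cexp (-(((Real.pi * b ^ 2 : ℝ) : ℂ) * t))) (Real.exp v) := by
      funext v
      rw [hkey 0 v]
      simp
    rw [e1]
    exact (integrable_exp_sub (fun t : ℝ => (t : ℂ) ^ (z - 1) *
        cexp (-(((Real.pi * b ^ 2 : ℝ) : ℂ) * t)))).2 (integrableOn_cpow_exp hz hr)
  refine ⟨?_, ?_⟩
  · refine h0.mono (hcont σ).aestronglyMeasurable (Eventually.of_forall fun v => le_of_eq ?_)
    rw [norm_mul, norm_mul]
    congr 1
    rw [Complex.norm_exp, Complex.norm_exp]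
    congr 1
    have e1 : ∀ σ : ℝ, (-(Real.pi * (1 + σ * I) * ((Real.exp (v / 2) * b : ℝ) : ℂ) ^ 2)).re =
        -(Real.pi * (Real.exp (v / 2) * b) ^ 2) := by
      intro σ
      have : (-(Real.pi * (1 + σ * I) * ((Real.exp (v / 2) * b : ℝ) : ℂ) ^ 2)) =
          ((-(Real.pi * (Real.exp (v / 2) * b) ^ 2) : ℝ) : ℂ) +
            ((-(Real.pi * σ * (Real.exp (v / 2) * b) ^ 2) : ℝ) : ℂ) * I := by
        push_cast
        ring
      rw [this, add_re, ofReal_re, re_ofReal_mul, I_re, mul_zero, add_zero]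
    rw [e1, e1]
  · have e1 : (fun v : ℝ => cexp (-(Real.pi * (1 + σ * I) * ((Real.exp (v / 2) * b : ℝ) : ℂ) ^ 2)) *
      cexp (z * v)) = fun v : ℝ => (Real.exp v : ℂ) * (fun t : ℝ => (t : ℂ) ^ (z - 1) *
        cexp (-(r * t))) (Real.exp v) := by
      funext v
      rw [hkey σ v, hrd]
    rw [e1]
    refine (integral_exp_sub (fun t : ℝ => (t : ℂ) ^ (z - 1) * cexp (-(r * t)))).trans ?_
    rw [Pool.Agent.H581R3.GPR.Rot.rot_formula hz (by rw [hrre]; exact hr), Complex.Gammaℝ_def]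
    have hr0 : r ≠ 0 := by
      intro h
      rw [h, zero_re] at hrre
      exact hr.ne hrre
    have harg : r.arg ≠ Real.pi := by
      intro h
      have h2 := (Complex.arg_eq_pi_iff.1 h).1
      rw [hrre] at h2
      linarith
    have hlog : Complex.log r = ((Real.log Real.pi + 2 * Real.log b : ℝ) : ℂ) + Complex.log (1 + σ * I) := by
      rw [hrd, Complex.log_ofReal_mul hr hw0, Real.log_mul hπ.ne' (by positivity), Real.log_pow]
      push_cast
      ring
    have hπc : (Real.pi : ℂ) ≠ 0 := by exact_mod_cast hπ.ne'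
    have hbc : (b : ℂ) ≠ 0 := by exact_mod_cast hb.ne'
    rw [one_div, Complex.inv_cpow _ _ harg, ← Complex.cpow_neg, Complex.cpow_def_of_ne_zero hr0, hlog,
      Complex.cpow_def_of_ne_zero hπc, Complex.cpow_def_of_ne_zero hbc, Complex.cpow_def_of_ne_zero hw0,
      ← Complex.ofReal_log hπ.le, ← Complex.ofReal_log hb.le]
    have e2 : 2 * z / 2 = z := by ring
    rw [e2, ← mul_assoc, ← mul_assoc, ← Complex.exp_add, ← Complex.exp_add]
    congr 2
    push_cast
    ring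

/-! ### the integrand -/

variable {K : Type} [Field K] [NumberField K]

/-- the integrand -/
noncomputable def Fz (σ τ : InfinitePlace K → ℝ) (s : ℂ) (b : InfinitePlace K → ℝ) (p : PP K) : ℂ :=
  (∏ w, lz (σ w) (τ w) (b w) (el K p w)) * cexp (Module.finrank ℚ K * s * p.1 / 2)

lemma norm_Fz (σ τ : InfinitePlace K → ℝ) (s : ℂ) (b : InfinitePlace K → ℝ) (p : PP K) :
    (‖Fz σ τ s b p‖ : ℂ) = Fz (fun _ => 0) (fun _ => 0) (s.re : ℂ) b p := by
  unfold Fz
  rw [norm_mul, norm_prod, ofReal_mul, ofReal_prod]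
  simp_rw [lz_norm]
  congr 1
  rw [Complex.norm_exp]
  have : (Module.finrank ℚ K * s * p.1 / 2 : ℂ).re = Module.finrank ℚ K * s.re * p.1 / 2 := by
    simp
  rw [this]
  push_cast
  rfl

/-- the archimedean factor -/
noncomputable def Gz (σ τ : InfinitePlace K → ℝ) (s : ℂ) : ℂ :=
  ∏ w : InfinitePlace K, (((Real.sqrt (w.mult : ℝ) : ℝ) : ℂ) ^ (-((w.mult : ℂ) * s)) *
    ((1 + σ w * I) ^ (-(((w.mult : ℂ) * s - I * τ w) / 2)) * Complex.Gammaℝ ((w.mult : ℂ) * s - I * τ w)))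

/-- the total integral -/
lemma int_Fz (K : Type) [Field K] [NumberField K] : ∃ c : ℝ, 0 < c ∧
    ∀ (σ τ : InfinitePlace K → ℝ) (s : ℂ), 0 < s.re → ∀ x : 𝓞 K, x ≠ 0 →
      Integrable (Fz σ τ s (av x)) ∧
      ∫ p, Fz σ τ s (av x) p = c * (((Ideal.absNorm (Ideal.span {x}) : ℕ) : ℂ) ^ (-s) * Gz σ τ s) := by
  have := isHaar_PP K
  obtain ⟨c, hc, h1, -, h3⟩ := exists_vol_gen (volume : Measure (PP K))
    (volume : Measure (InfinitePlace K → ℝ)) (elE K)
  refine ⟨c, hc, fun σ τ s hs x hx => ?_⟩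
  obtain ⟨b, hbd⟩ : ∃ b, b = av x := ⟨_, rfl⟩
  have hb : ∀ w, 0 < b w := by rw [hbd]; exact av_pos hx
  have hs' : ∀ w : InfinitePlace K, 0 < (((w.mult : ℂ) * s - I * τ w) / 2).re := by
    intro w
    have h4 : (((w.mult : ℂ) * s - I * τ w) / 2).re = (w.mult : ℝ) * s.re / 2 := by
      have : (((w.mult : ℂ) * s - I * τ w) / 2) = (((w.mult : ℝ) / 2 : ℝ) : ℂ) * s - (((τ w) / 2 : ℝ) : ℂ) * I := by
        push_cast
        ring
      rw [this, sub_re, re_ofReal_mul, re_ofReal_mul, I_re, mul_zero, sub_zero]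
      ring
    rw [h4]
    have : (0 : ℝ) < w.mult := by exact_mod_cast w.mult_pos
    positivity
  obtain ⟨g, hg⟩ : ∃ g : InfinitePlace K → ℝ → ℂ, g = fun w v =>
      cexp (-(I * ((τ w * Real.log (b w) : ℝ) : ℂ))) *
      (cexp (-(Real.pi * (1 + σ w * I) * ((Real.exp (v / 2) * b w : ℝ) : ℂ) ^ 2)) *
        cexp ((((w.mult : ℂ) * s - I * τ w) / 2) * v)) := ⟨_, rfl⟩
  obtain ⟨f, hf⟩ : ∃ f : (InfinitePlace K → ℝ) → ℂ, f = fun y => ∏ w, g w (y w) := ⟨_, rfl⟩
  have hF : Fz σ τ s b = fun p => f (elE K p) := by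
    funext p
    rw [hf, hg, elE_apply]
    unfold Fz lz
    have h4 := sum_el K p
    have h5 : cexp (Module.finrank ℚ K * s * p.1 / 2) =
        ∏ w : InfinitePlace K, cexp ((w.mult : ℂ) * s * (el K p w : ℂ) / 2) := by
      rw [← Complex.exp_sum]
      congr 1
      have h6 : (∑ w : InfinitePlace K, (w.mult : ℂ) * s * (el K p w : ℂ) / 2) =
          s / 2 * ((Module.finrank ℚ K * p.1 : ℝ) : ℂ) := by
        rw [← h4]
        push_cast
        rw [Finset.mul_sum]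
        exact Finset.sum_congr rfl fun w _ => by ring
      rw [h6]
      push_cast
      ring
    rw [h5, ← Finset.prod_mul_distrib]
    refine Finset.prod_congr rfl fun w _ => ?_
    simp only
    rw [mul_assoc, mul_left_comm, ← Complex.exp_add, ← Complex.exp_add, ← Complex.exp_add, ← Complex.exp_add]
    congr 1
    push_cast
    ring
  have hgi : ∀ w, Integrable (g w) ∧ ∫ v, g w v = cexp (-(I * ((τ w * Real.log (b w) : ℝ) : ℂ))) *
      ((b w : ℂ) ^ (-(2 * (((w.mult : ℂ) * s - I * τ w) / 2))) *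
        ((1 + σ w * I) ^ (-(((w.mult : ℂ) * s - I * τ w) / 2)) *
          Complex.Gammaℝ (2 * (((w.mult : ℂ) * s - I * τ w) / 2)))) := by
    intro w
    obtain ⟨e1, e2⟩ := local_z (hs' w) (σ w) (hb w)
    rw [hg]
    refine ⟨e1.const_mul _, ?_⟩
    simp only
    rw [integral_const_mul, e2]
  have hint : Integrable f := by
    rw [hf]
    exact Integrable.fintype_prod (f := g) fun w => (hgi w).1
  rw [← hbd, hF]
  refine ⟨h3 f hint, ?_⟩
  rw [h1 f, hf, integral_fintype_prod_volume_eq_prod g]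
  congr 1
  unfold Gz
  rw [Finset.prod_mul_distrib, ← mul_assoc, mul_comm (((Ideal.absNorm (Ideal.span {x}) : ℕ) : ℂ) ^ (-s)),
    ← prod_av hx, ← hbd, ← Finset.prod_mul_distrib]
  refine Finset.prod_congr rfl fun w _ => ?_
  rw [(hgi w).2]
  have hbc : (b w : ℂ) ≠ 0 := by exact_mod_cast (hb w).ne'
  have e1 : 2 * (((w.mult : ℂ) * s - I * τ w) / 2) = (w.mult : ℂ) * s - I * τ w := by ring
  rw [e1, ← mul_assoc]
  congr 1
  rw [Complex.cpow_def_of_ne_zero hbc, Complex.cpow_def_of_ne_zero hbc, ← Complex.ofReal_log (hb w).le,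
    ← Complex.exp_add]
  congr 1
  push_cast
  ring

lemma Fz_unit (σ τ : InfinitePlace K → ℝ) (s : ℂ) (J : PIdl K) (ζ : torsion K) (m : Fin (rank K) → ℤ)
    (p : PP K) : Fz σ τ s (av (xE K (J, (ζ, m))).1) p = Fz σ τ s (av (gen J)) (p.1, p.2 + Pool.Agent.Y773.lp m) := by
  have h0 : ∀ w, av (xE K (J, (ζ, m))).1 w =
      Real.exp (∑ i, (m i : ℝ) * Real.log (w ((fundSystem K i : (𝓞 K)ˣ) : K))) * av (gen J) w := by
    intro w
    unfold av
    rw [xE_apply]
    have : (((unE K (ζ, m) : (𝓞 K)ˣ) * gen J : 𝓞 K) : K) =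
      ((unE K (ζ, m) : (𝓞 K)ˣ) : K) * (gen J : K) := map_mul (algebraMap (𝓞 K) K) _ _
    rw [this, map_mul, place_unE]
    ring
  have h2 : ∀ w, el K (p.1, p.2 + Pool.Agent.Y773.lp m) w = el K p w +
      2 * ∑ i, (m i : ℝ) * Real.log (w ((fundSystem K i : (𝓞 K)ˣ) : K)) := by
    intro w
    simp only [el, LinearMap.coe_mk, AddHom.coe_mk, Pi.add_apply, Pool.Agent.Y773.lp, add_mul,
      Finset.sum_add_distrib]
    have h2 : ∑ i, (m i : ℝ) * (2 * Real.log (w ((fundSystem K i : (𝓞 K)ˣ) : K))) =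
        2 * ∑ i, (m i : ℝ) * Real.log (w ((fundSystem K i : (𝓞 K)ˣ) : K)) := by
      rw [Finset.mul_sum]
      exact Finset.sum_congr rfl fun i _ => by ring
    rw [h2]
    ring
  unfold Fz
  congr 1
  refine Finset.prod_congr rfl fun w _ => ?_
  unfold lz
  have h3 : Real.exp (el K p w / 2) * av (xE K (J, (ζ, m))).1 w =
      Real.exp (el K (p.1, p.2 + Pool.Agent.Y773.lp m) w / 2) * av (gen J) w := by
    rw [h0, h2, ← mul_assoc, ← Real.exp_add]
    congr 2
    ring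
  have h4 : el K p w / 2 + Real.log (av (xE K (J, (ζ, m))).1 w) =
      el K (p.1, p.2 + Pool.Agent.Y773.lp m) w / 2 + Real.log (av (gen J) w) := by
    rw [h0, h2, Real.log_mul (Real.exp_pos _).ne' (av_pos (gen_ne_zero J) w).ne', Real.log_exp]
    ring
  rw [h3, h4]

end Run7.h343.NF
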