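import Pool.Agent.Run7.h343.NF.Un2

/-!
The theta series of the character and its Mellin transform.
-/

set_option autoImplicit false
set_option linter.unusedSectionVars false

open NumberField Complex Filter Topology MeasureTheory Set
open NumberField.Units NumberField.Units.dirichletUnitTheorem

namespace Run7.h343.NF

open Pool.Agent.Y773 (Idx el PP S0 PIdl gen gen_ne_zero span_gen xE unE toP unfold_P qt qt_spec qt_eq qt_eq_bot
  cube S0_eq integrable_exp_sub integral_exp_sub)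
open Pool.Agent.Y773.G (av av_pos sqrt_mult_pos xE_apply toP_xE coE summable_PIdl norm_absNorm_cpow rr sum_rr_sq)

attribute [local instance] decEm

variable {K : Type} [Field K] [NumberField K]

/-! ### continuity -/

lemma em_sc_norm (y : InfinitePlace K → ℝ) (B : Matrix (K →+* ℂ) (K →+* ℂ) ℝ) (x : (K →+* ℂ) → ℤ) :
    ‖em (sc y * B) x‖ ^ 2 = ∑ φ : K →+* ℂ, Real.exp (y (InfinitePlace.mk φ)) * (em B x φ) ^ 2 := by
  rw [EuclideanSpace.norm_sq_eq]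
  refine Finset.sum_congr rfl fun φ _ => ?_
  rw [em_sc, Real.norm_eq_abs, sq_abs, mul_pow, ← Real.exp_nat_mul]
  congr 2
  push_cast
  ring

lemma ga_sc_mono {y z : InfinitePlace K → ℝ} (h : ∀ w, z w ≤ y w) (B : Matrix (K →+* ℂ) (K →+* ℂ) ℝ)
    (x : (K →+* ℂ) → ℤ) : ga (em (sc y * B)) 0 x ≤ ga (em (sc z * B)) 0 x := by
  unfold ga
  rw [sub_zero, sub_zero]
  apply Real.exp_le_exp.2
  rw [em_sc_norm, em_sc_norm]
  have h1 : ∑ φ : K →+* ℂ, Real.exp (z (InfinitePlace.mk φ)) * (em B x φ) ^ 2 ≤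
      ∑ φ : K →+* ℂ, Real.exp (y (InfinitePlace.mk φ)) * (em B x φ) ^ 2 := by
    refine Finset.sum_le_sum fun φ _ => ?_
    exact mul_le_mul_of_nonneg_right (Real.exp_le_exp.2 (h _)) (sq_nonneg _)
  have := mul_le_mul_of_nonneg_left h1 Real.pi_pos.le
  linarith

lemma gz_sc_cont (B : Matrix (K →+* ℂ) (K →+* ℂ) ℝ) (σ : (K →+* ℂ) → ℝ) (x : (K →+* ℂ) → ℤ) :
    Continuous fun y : InfinitePlace K → ℝ => gz (sc y * B) σ x := by
  unfold gz
  simp_rw [em_sc]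
  fun_prop

lemma sc_mul_det_ne {B : Matrix (K →+* ℂ) (K →+* ℂ) ℝ} (hB : B.det ≠ 0) (y : InfinitePlace K → ℝ) :
    (sc y * B).det ≠ 0 := by
  rw [Matrix.det_mul, sc_det]
  exact mul_ne_zero (Real.exp_pos _).ne' hB

theorem Th_cont {q : ℕ} (χ : DirichletCharacter ℂ q) (o : K →+* ℂ) {B : Matrix (K →+* ℂ) (K →+* ℂ) ℝ}
    (hB : B.det ≠ 0) (σ : (K →+* ℂ) → ℝ) : Continuous fun y : InfinitePlace K → ℝ => Th χ o (sc y * B) σ := by
  rw [continuous_iff_continuousAt]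
  intro y0
  obtain ⟨R, hR⟩ : ∃ R, R = ‖y0‖ + 1 := ⟨_, rfl⟩
  obtain ⟨U, hUd⟩ : ∃ U : Set (InfinitePlace K → ℝ), U = {y | ∀ w, -R < y w} := ⟨_, rfl⟩
  have hU : U ∈ 𝓝 y0 := by
    have h1 : Metric.ball y0 1 ∈ 𝓝 y0 := Metric.ball_mem_nhds y0 one_pos
    refine mem_of_superset h1 fun y hy => ?_
    rw [hUd]
    intro w
    rw [Metric.mem_ball, dist_eq_norm] at hy
    have h2 : ‖y w - y0 w‖ ≤ ‖y - y0‖ := norm_le_pi_norm (y - y0) w
    have h3 : ‖y0 w‖ ≤ ‖y0‖ := norm_le_pi_norm y0 w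
    rw [Real.norm_eq_abs] at h2 h3
    have h4 := (abs_le.1 h2).1
    have h5 := (abs_le.1 h3).1
    rw [hR]
    linarith
  obtain ⟨z, hz⟩ : ∃ z : InfinitePlace K → ℝ, z = fun _ => -R := ⟨_, rfl⟩
  have hs : Summable fun x : (K →+* ℂ) → ℤ => ga (em (sc z * B)) 0 x := ga_summable (sc_mul_det_ne hB z) 0
  have hc : ∀ x : (K →+* ℂ) → ℤ, ContinuousOn (fun y : InfinitePlace K → ℝ =>
      χ ((x o : ℤ) : ZMod q) * gz (sc y * B) σ x) U := fun x =>
    (continuous_const.mul (gz_sc_cont B σ x)).continuousOn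
  have hb : ∀ (x : (K →+* ℂ) → ℤ) (y : InfinitePlace K → ℝ), y ∈ U →
      ‖χ ((x o : ℤ) : ZMod q) * gz (sc y * B) σ x‖ ≤ ga (em (sc z * B)) 0 x := by
    intro x y hy
    rw [hUd] at hy
    refine (chi_le χ o _ σ x).trans (ga_sc_mono (fun w => ?_) B x)
    rw [hz]
    exact (hy w).le
  have h1 := continuousOn_tsum hc hs hb
  exact h1.continuousAt hU

/-! ### the terms of the series -/

lemma sum_rr_sq_c (c : InfinitePlace K → ℂ) (x : K) :
    ∑ φ : K →+* ℂ, c (InfinitePlace.mk φ) * (rr φ x : ℂ) ^ 2 = ∑ w, (w.mult : ℂ) * (c w * ((w x : ℝ) : ℂ) ^ 2) := by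
  have h1 := sum_rr_sq (fun w => (c w).re) x
  have h2 := sum_rr_sq (fun w => (c w).im) x
  have e1 : ∀ φ : K →+* ℂ, c (InfinitePlace.mk φ) * (rr φ x : ℂ) ^ 2 =
      (((c (InfinitePlace.mk φ)).re * rr φ x ^ 2 : ℝ) : ℂ) + (((c (InfinitePlace.mk φ)).im * rr φ x ^ 2 : ℝ) : ℂ) * I := by
    intro φ
    nth_rewrite 1 [← Complex.re_add_im (c (InfinitePlace.mk φ))]
    push_cast
    ring
  have e2 : ∀ w : InfinitePlace K, (w.mult : ℂ) * (c w * ((w x : ℝ) : ℂ) ^ 2) =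
      (((w.mult : ℝ) * ((c w).re * (w x) ^ 2) : ℝ) : ℂ) + (((w.mult : ℝ) * ((c w).im * (w x) ^ 2) : ℝ) : ℂ) * I := by
    intro w
    nth_rewrite 1 [← Complex.re_add_im (c w)]
    push_cast
    ring
  simp_rw [e1, e2]
  rw [Finset.sum_add_distrib, Finset.sum_add_distrib, ← Finset.sum_mul, ← Finset.sum_mul, ← ofReal_sum,
    ← ofReal_sum, ← ofReal_sum, ← ofReal_sum, h1, h2]

/-- the Gaussian in terms of the absolute values -/
noncomputable def gK (σ : InfinitePlace K → ℝ) (y : InfinitePlace K → ℝ) (x : K) : ℂ :=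
  cexp (-(Real.pi * ∑ w : InfinitePlace K, (w.mult : ℂ) * (((1 + σ w * I) * (Real.exp (y w) : ℝ)) * ((w x : ℝ) : ℂ) ^ 2)))

lemma gz_LC (σ y : InfinitePlace K → ℝ) (C : Matrix (K →+* ℂ) (K →+* ℂ) ℤ) (α : (K →+* ℂ) → ℤ) :
    gz (sc y * LC C) (wσ σ) α = gK σ y ((el0 (C.mulVec α) : 𝓞 K) : K) := by
  unfold gz gK
  congr 1
  rw [← sum_rr_sq_c (fun w => (1 + σ w * I) * (Real.exp (y w) : ℝ)), Finset.mul_sum, ← Finset.sum_neg_distrib]
  refine Finset.sum_congr rfl fun φ _ => ?_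
  rw [em_sc, em_LC]
  unfold wσ
  have e1 : ((Real.exp (y (InfinitePlace.mk φ) / 2) : ℝ) : ℂ) ^ 2 = (Real.exp (y (InfinitePlace.mk φ)) : ℝ) := by
    rw [← ofReal_pow, ← Real.exp_nat_mul]
    congr 2
    push_cast
    ring
  rw [ofReal_mul, mul_pow, e1]
  ring

/-- the phase -/
noncomputable def phz (τ y : InfinitePlace K → ℝ) : ℂ := cexp (-(I * ((∑ w, τ w * (y w / 2) : ℝ) : ℂ)))

lemma norm_phz (τ y : InfinitePlace K → ℝ) : ‖phz τ y‖ = 1 := by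
  unfold phz
  rw [← mul_neg, ← ofReal_neg, mul_comm, Complex.norm_exp_ofReal_mul_I]

lemma phz_cont (τ : InfinitePlace K → ℝ) : Continuous (phz τ) := by
  unfold phz
  fun_prop

variable (K) in
/-- the constant of absolute value one -/
noncomputable def Dτ (τ : InfinitePlace K → ℝ) : ℂ :=
  cexp (-(I * ((∑ w : InfinitePlace K, τ w * Real.log (Real.sqrt (w.mult : ℝ)) : ℝ) : ℂ)))

lemma norm_Dτ (τ : InfinitePlace K → ℝ) : ‖Dτ K τ‖ = 1 := by
  unfold Dτ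
  rw [← mul_neg, ← ofReal_neg, mul_comm, Complex.norm_exp_ofReal_mul_I]

lemma prod_lz (σ τ y : InfinitePlace K → ℝ) {x : 𝓞 K} (hx : x ≠ 0) :
    ∏ w, lz (σ w) (τ w) (av x w) (y w) = Dτ K τ * phz τ y * (kp τ (x : K))⁻¹ * gK σ y (x : K) := by
  have hx0 : ∀ w : InfinitePlace K, 0 < w (x : K) := by
    intro w
    rw [InfinitePlace.pos_iff]
    exact_mod_cast hx
  have hkp : (kp τ (x : K))⁻¹ = cexp (-(I * ((∑ w : InfinitePlace K, τ w * Real.log (w (x : K)) : ℝ) : ℂ))) := by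
    unfold kp
    rw [← Finset.prod_inv_distrib]
    have e1 : -(I * ((∑ w : InfinitePlace K, τ w * Real.log (w (x : K)) : ℝ) : ℂ)) =
        ∑ w : InfinitePlace K, -(I * ((τ w * Real.log (w (x : K)) : ℝ) : ℂ)) := by
      rw [ofReal_sum, Finset.mul_sum, ← Finset.sum_neg_distrib]
    rw [e1, Complex.exp_sum]
    refine Finset.prod_congr rfl fun w _ => ?_
    rw [Complex.cpow_def_of_ne_zero (by exact_mod_cast (hx0 w).ne'), ← Complex.exp_neg, ← Complex.ofReal_log (hx0 w).le]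
    congr 1
    push_cast
    ring
  rw [hkp]
  unfold lz gK Dτ phz
  rw [Finset.prod_mul_distrib, ← Complex.exp_sum, ← Complex.exp_sum, ← Complex.exp_add, ← Complex.exp_add,
    ← Complex.exp_add, ← Complex.exp_add]
  congr 1
  have e2 : ∑ w : InfinitePlace K, -((Real.pi : ℂ) * (1 + σ w * I) * ((Real.exp (y w / 2) * av x w : ℝ) : ℂ) ^ 2) =
      -((Real.pi : ℂ) * ∑ w : InfinitePlace K, (w.mult : ℂ) * (((1 + σ w * I) * (Real.exp (y w) : ℝ)) * ((w (x : K) : ℝ) : ℂ) ^ 2)) := by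
    rw [Finset.mul_sum, ← Finset.sum_neg_distrib]
    refine Finset.sum_congr rfl fun w _ => ?_
    have e3 : (Real.exp (y w / 2) * av x w) ^ 2 = Real.exp (y w) * ((w.mult : ℝ) * (w (x : K)) ^ 2) := by
      unfold av
      rw [mul_pow, mul_pow, ← Real.exp_nat_mul, Real.sq_sqrt (Nat.cast_nonneg _)]
      congr 2
      push_cast
      ring
    rw [← ofReal_pow, e3]
    push_cast
    ring
  have e4 : ∑ w : InfinitePlace K, -(I * ((τ w * (y w / 2 + Real.log (av x w)) : ℝ) : ℂ)) =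
      -(I * ((∑ w : InfinitePlace K, τ w * Real.log (Real.sqrt (w.mult : ℝ)) : ℝ) : ℂ)) +
      -(I * ((∑ w, τ w * (y w / 2) : ℝ) : ℂ)) +
      -(I * ((∑ w : InfinitePlace K, τ w * Real.log (w (x : K)) : ℝ) : ℂ)) := by
    rw [← neg_add, ← neg_add, ← mul_add, ← mul_add, ← ofReal_add, ← ofReal_add, ← Finset.sum_add_distrib,
      ← Finset.sum_add_distrib, ofReal_sum, Finset.mul_sum, ← Finset.sum_neg_distrib]
    refine Finset.sum_congr rfl fun w _ => ?_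
    have e5 : Real.log (av x w) = Real.log (Real.sqrt (w.mult : ℝ)) + Real.log (w (x : K)) := by
      unfold av
      exact Real.log_mul (sqrt_mult_pos w).ne' (hx0 w).ne'
    rw [e5]
    congr 3
    ring
  rw [e2, e4]
  ring

/-! ### the theta series -/

lemma qt_congr {𝔟 : Ideal (𝓞 K)} {x y : 𝓞 K} (h : Ideal.span {x} = Ideal.span {y}) : qt 𝔟 x = qt 𝔟 y := by
  unfold qt
  rw [h]

lemma qt_toP (𝔟 : Ideal (𝓞 K)) (x : {x : 𝓞 K // x ≠ 0}) : qt 𝔟 (gen (toP x)) = qt 𝔟 x.1 :=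
  qt_congr (span_gen (toP x))

lemma qt_mem {𝔟 : Ideal (𝓞 K)} {x : 𝓞 K} (hx : x ∈ 𝔟) : qt 𝔟 x * 𝔟 = Ideal.span {x} := by
  apply qt_spec
  obtain ⟨𝔞, h𝔞⟩ := Ideal.dvd_span_singleton.2 hx
  exact ⟨𝔞, by rw [h𝔞, mul_comm]⟩

lemma qt_not_mem {𝔟 : Ideal (𝓞 K)} {x : 𝓞 K} (hx : x ∉ 𝔟) : qt 𝔟 x = ⊥ := by
  apply qt_eq_bot
  rintro ⟨𝔞, h𝔞⟩
  apply hx
  have h1 : Ideal.span {x} ≤ 𝔟 := by
    rw [← h𝔞]
    exact Ideal.mul_le_right
  exact h1 (Ideal.mem_span_singleton_self x)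

variable {p : ℕ} {𝔭 𝔟 : Ideal (𝓞 K)} {ν : ℕ} {τ : InfinitePlace K → ℝ} {ψ : Ideal (𝓞 K) →*₀ ℂ}

lemma HC.norm_le (h : HC 𝔭 ν τ ψ) (𝔞 : Ideal (𝓞 K)) : ‖ψ 𝔞‖ ≤ 1 := by
  by_cases h1 : 𝔞 ≤ 𝔭
  · rw [h.zero _ h1, norm_zero]
    exact zero_le_one
  · exact (h.norm_one _ h1).le

/-- all the data -/
structure Dat (p : ℕ) (𝔭 : Ideal (𝓞 K)) (ν : ℕ) (τ : InfinitePlace K → ℝ) (ψ : Ideal (𝓞 K) →*₀ ℂ)
    (𝔟 : Ideal (𝓞 K)) (χ : DirichletCharacter ℂ (p ^ ν)) (o : K →+* ℂ) (C : Matrix (K →+* ℂ) (K →+* ℂ) ℤ) : Prop where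
  hP : P1 p 𝔭
  hν : 1 ≤ ν
  hC : HC 𝔭 ν τ ψ
  prim : χ.IsPrimitive
  hχ : ∀ n : ℤ, χ (n : ZMod (p ^ ν)) = Xf τ ψ (n : 𝓞 K)
  chn : Chn p o ν C 𝔟 𝔭
  col : cl C o ∉ 𝔭
  cols : ∀ i, i ≠ o → cl C i ∈ 𝔭 ^ ν

variable {χ : DirichletCharacter ℂ (p ^ ν)} {o : K →+* ℂ} {C : Matrix (K →+* ℂ) (K →+* ℂ) ℤ}

lemma Dat.norm_b (h : Dat p 𝔭 ν τ ψ 𝔟 χ o C) : ‖ψ 𝔟‖ = 1 := by
  apply h.hC.norm_one
  intro hle
  exact h.col (hle (cl_mem h.chn.isL o))

/-- the unimodular constant -/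
noncomputable def cu (τ : InfinitePlace K → ℝ) (ψ : Ideal (𝓞 K) →*₀ ℂ) (𝔟 : Ideal (𝓞 K)) (o : K →+* ℂ)
    (C : Matrix (K →+* ℂ) (K →+* ℂ) ℤ) : ℂ := Dτ K τ * (ψ 𝔟)⁻¹ * Xf τ ψ (cl C o)

lemma Dat.norm_cu (h : Dat p 𝔭 ν τ ψ 𝔟 χ o C) : ‖cu τ ψ 𝔟 o C‖ = 1 := by
  unfold cu
  rw [norm_mul, norm_mul, norm_Dτ, norm_inv, h.norm_b, h.hC.Xf_norm h.col]
  norm_num

lemma mulVec_inj {C : Matrix (K →+* ℂ) (K →+* ℂ) ℤ} (hC : C.det ≠ 0) : Function.Injective C.mulVec := by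
  intro x y hxy
  have h1 : C.mulVec (x - y) = 0 := by rw [Matrix.mulVec_sub, hxy, sub_self]
  exact sub_eq_zero.1 (Matrix.eq_zero_of_mulVec_eq_zero hC h1)

/-- the sum over the non-zero integers -/
theorem Dat.th_eq (h : Dat p 𝔭 ν τ ψ 𝔟 χ o C) (σ : InfinitePlace K → ℝ) (s : ℂ) (P : PP K) :
    ∑' x : {x : 𝓞 K // x ≠ 0}, ψ (qt 𝔟 (gen (toP x))) * Fz σ τ s (av x.1) P =
      cu τ ψ 𝔟 o C * (Th χ o (sc (el K P) * LC C) (wσ σ) * phz τ (el K P) *
        cexp (Module.finrank ℚ K * s * P.1 / 2)) := by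
  classical
  have hL := h.chn.isL
  have hψb : ψ 𝔟 ≠ 0 := by
    intro h0
    have := h.norm_b
    rw [h0, norm_zero] at this
    exact zero_ne_one this
  obtain ⟨G, hG⟩ : ∃ G : 𝓞 K → ℂ, G = fun x => if x ∈ 𝔟 then Xf τ ψ x * gK σ (el K P) (x : K) else 0 := ⟨_, rfl⟩
  have h1 : ∀ x : {x : 𝓞 K // x ≠ 0}, ψ (qt 𝔟 (gen (toP x))) * Fz σ τ s (av x.1) P =
      (Dτ K τ * (ψ 𝔟)⁻¹ * phz τ (el K P) * cexp (Module.finrank ℚ K * s * P.1 / 2)) * G x.1 := by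
    intro x
    rw [qt_toP, hG]
    simp only
    split_ifs with hx
    · have h2 : ψ (qt 𝔟 x.1) * ψ 𝔟 = ψ (Ideal.span {x.1}) := by rw [← map_mul, qt_mem hx]
      have h3 : ψ (qt 𝔟 x.1) = ψ (Ideal.span {x.1}) * (ψ 𝔟)⁻¹ := by
        rw [← h2, mul_inv_cancel_right₀ hψb]
      unfold Fz
      rw [h3, prod_lz σ τ (el K P) x.2]
      unfold Xf
      ring
    · rw [qt_not_mem hx]
      have : ψ (⊥ : Ideal (𝓞 K)) = 0 := map_zero ψ
      rw [this]
      ring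
  have hG0 : G 0 = 0 := by
    rw [hG]
    simp only
    rw [h.hC.Xf_zero (𝔭.zero_mem)]
    simp
  simp_rw [h1]
  rw [tsum_mul_left]
  have h2 : ∑' x : {x : 𝓞 K // x ≠ 0}, G x.1 = ∑' x : 𝓞 K, G x := by
    refine tsum_subtype_eq_of_support_subset (s := {x : 𝓞 K | x ≠ 0}) ?_
    intro x hx h0
    exact hx (by rw [h0]; exact hG0)
  have hinj : Function.Injective fun α : (K →+* ℂ) → ℤ => el0 (C.mulVec α) :=
    el0_inj.comp (mulVec_inj hL.det_ne)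
  have h3 : ∑' x : 𝓞 K, G x = ∑' α : (K →+* ℂ) → ℤ, G (el0 (C.mulVec α)) := by
    refine (hinj.tsum_eq (f := G) ?_).symm
    intro x hx
    have hxb : x ∈ 𝔟 := by
      by_contra hcon
      apply hx
      rw [hG]
      simp only [if_neg hcon]
    obtain ⟨α, hα⟩ := hL.surj x hxb
    exact ⟨α, hα⟩
  have h4 : ∑' α : (K →+* ℂ) → ℤ, G (el0 (C.mulVec α)) = Xf τ ψ (cl C o) * Th χ o (sc (el K P) * LC C) (wσ σ) := by
    unfold Th
    rw [← tsum_mul_left]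
    refine tsum_congr fun α => ?_
    rw [hG]
    simp only [if_pos (hL.mem α)]
    rw [h.hC.Xf_el h.hP h.hν h.hχ h.cols, gz_LC]
    ring
  rw [h2, h3, h4]
  unfold cu
  ring

/-- the function whose Mellin transform is the completed Dirichlet series -/
noncomputable def hz (χ : DirichletCharacter ℂ (p ^ ν)) (o : K →+* ℂ) (C : Matrix (K →+* ℂ) (K →+* ℂ) ℤ)
    (σ τ : InfinitePlace K → ℝ) (t : ℝ) : ℂ :=
  ∫ θ in cube K, Th χ o (sc (el K ((2 / Module.finrank ℚ K) * Real.log t, θ)) * LC C) (wσ σ) *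
    phz τ (el K ((2 / Module.finrank ℚ K) * Real.log t, θ))

theorem mellin_hz (K : Type) [Field K] [NumberField K] : ∃ C0 : ℝ, 0 < C0 ∧
    ∀ (p : ℕ) (𝔭 : Ideal (𝓞 K)) (ν : ℕ) (τ : InfinitePlace K → ℝ) (ψ : Ideal (𝓞 K) →*₀ ℂ)
    (𝔟 : Ideal (𝓞 K)) (χ : DirichletCharacter ℂ (p ^ ν)) (o : K →+* ℂ) (C : Matrix (K →+* ℂ) (K →+* ℂ) ℤ),
      Dat p 𝔭 ν τ ψ 𝔟 χ o C → ∀ (σ : InfinitePlace K → ℝ) (s : ℂ), 1 < s.re →
      MellinConvergent (hz χ o C σ τ) s ∧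
      cu τ ψ 𝔟 o C * mellin (hz χ o C σ τ) s = C0 * (Gz σ τ s *
          ∑' J : PIdl K, ψ (qt 𝔟 (gen J)) * ((Ideal.absNorm J.1 : ℕ) : ℂ) ^ (-s)) := by
  classical
  obtain ⟨C0, hC0, hunf⟩ := unfz K
  have hn : (0 : ℝ) < Module.finrank ℚ K := by exact_mod_cast Module.finrank_pos
  set d : ℝ := ((Module.finrank ℚ K : ℕ) : ℝ) with hn'
  refine ⟨d / 2 * C0, by positivity, fun p 𝔭 ν τ ψ 𝔟 χ o C h σ s hs => ?_⟩
  obtain ⟨h1, h2, h3⟩ := hunf σ τ (fun J => ψ (qt 𝔟 (gen J))) 1 (fun J => h.hC.norm_le _) s hs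
  have hcu : cu τ ψ 𝔟 o C ≠ 0 := by
    intro h0
    have := h.norm_cu
    rw [h0, norm_zero] at this
    exact zero_ne_one this
  have hcount : Countable (𝓞 K) := (coE K).countable_iff.mpr inferInstance
  have hth := h.th_eq σ s
  have hcont : Continuous fun P : PP K => cu τ ψ 𝔟 o C * (Th χ o (sc (el K P) * LC C) (wσ σ) * phz τ (el K P) *
        cexp (Module.finrank ℚ K * s * P.1 / 2)) := by
    have h4 : Continuous (el K) := (el K).continuous_of_finiteDimensional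
    have hLne : (LC C).det ≠ 0 := by
      have := B_ne h.chn.isL (fun _ => 0)
      rw [sc_zero, one_mul] at this
      exact this
    exact continuous_const.mul ((((Th_cont χ o hLne (wσ σ)).comp h4).mul ((phz_cont τ).comp h4)).mul (by fun_prop))
  have hint : Integrable (fun P : PP K => cu τ ψ 𝔟 o C * (Th χ o (sc (el K P) * LC C) (wσ σ) * phz τ (el K P) *
        cexp (Module.finrank ℚ K * s * P.1 / 2))) (volume.restrict (S0 K)) := by
    have h5 := Pool.Agent.Y773.integrable_tsum h1 h2 (by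
      simp_rw [hth]
      exact hcont.aestronglyMeasurable)
    simp_rw [hth] at h5
    exact h5
  simp_rw [hth] at h3
  -- Fubini
  have hrestr : (volume : Measure (PP K)).restrict (S0 K) =
      (volume : Measure ℝ).prod (volume.restrict (cube K)) := by
    rw [S0_eq, Measure.volume_eq_prod, ← Measure.prod_restrict, Measure.restrict_univ]
  rw [hrestr] at hint h3
  rw [integral_prod _ hint] at h3
  have h9 := hint.integral_prod_left
  -- the substitution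
  have h6 : ∀ v : ℝ, cu τ ψ 𝔟 o C * ((Real.exp v : ℂ) * (((Real.exp v : ℝ) : ℂ) ^ (s - 1) •
      hz χ o C σ τ (Real.exp v))) =
      (fun u : ℝ => ∫ θ in cube K, cu τ ψ 𝔟 o C * (Th χ o (sc (el K (u, θ)) * LC C) (wσ σ) * phz τ (el K (u, θ)) *
        cexp (Module.finrank ℚ K * s * ((u, θ) : PP K).1 / 2))) (2 / d * v) := by
    intro v
    simp only
    rw [integral_const_mul, integral_mul_const]
    unfold hz
    rw [Real.log_exp, smul_eq_mul]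
    have hev : ((Real.exp v : ℝ) : ℂ) ≠ 0 := by exact_mod_cast (Real.exp_pos v).ne'
    have h7 : (Real.exp v : ℂ) * (((Real.exp v : ℝ) : ℂ) ^ (s - 1)) =
        cexp (Module.finrank ℚ K * s * ((2 / d * v : ℝ) : ℂ) / 2) := by
      rw [Complex.cpow_def_of_ne_zero hev, ← Complex.ofReal_log (Real.exp_pos v).le, Real.log_exp,
        Complex.ofReal_exp, ← Complex.exp_add]
      congr 1
      have hnc : (d : ℂ) ≠ 0 := by exact_mod_cast hn.ne'
      have hnn : (Module.finrank ℚ K : ℂ) = (d : ℂ) := by rw [hn']; push_cast; rfl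
      rw [hnn]
      push_cast
      field_simp
      ring
    rw [← mul_assoc (Real.exp v : ℂ), h7]
    ring
  have hconv : MellinConvergent (hz χ o C σ τ) s := by
    have h8 : MellinConvergent (fun t => cu τ ψ 𝔟 o C • hz χ o C σ τ t) s := by
      unfold MellinConvergent
      rw [← integrable_exp_sub]
      refine (h9.comp_mul_left' (R := 2 / d) (by positivity)).congr (Eventually.of_forall fun v => ?_)
      refine (h6 v).symm.trans ?_
      simp only [smul_eq_mul]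
      ring
    have h10 := h8.const_smul (cu τ ψ 𝔟 o C)⁻¹
    simp only [smul_eq_mul, inv_mul_cancel_left₀ hcu] at h10
    exact h10
  refine ⟨hconv, ?_⟩
  unfold mellin
  rw [← integral_exp_sub, ← integral_const_mul]
  rw [integral_congr_ae (Eventually.of_forall h6)]
  have h8 := Measure.integral_comp_mul_left (fun u : ℝ => ∫ θ in cube K, cu τ ψ 𝔟 o C *
    (Th χ o (sc (el K (u, θ)) * LC C) (wσ σ) * phz τ (el K (u, θ)) *
        cexp (Module.finrank ℚ K * s * ((u, θ) : PP K).1 / 2))) (2 / d)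
  refine h8.trans ?_
  rw [h3, abs_of_pos (by positivity), Complex.real_smul]
  push_cast
  have hnc : (d : ℂ) ≠ 0 := by exact_mod_cast hn.ne'
  field_simp

end Run7.h343.NF
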