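import Mathlib

/-!
Van der Corput differencing over a lattice with Gaussian weights.
-/

set_option autoImplicit false

namespace Run7.h343.NF

open Complex Finset

variable {L : Type} {Λ : Type} [AddCommGroup Λ] {E : Type} [NormedAddCommGroup E] [InnerProductSpace ℝ E]

/-- the Gaussian weight with centre `z` -/
noncomputable def ga (e : Λ →+ E) (z : E) (x : Λ) : ℝ := Real.exp (-(Real.pi * ‖e x - z‖ ^ 2))

lemma ga_pos (e : Λ →+ E) (z : E) (x : Λ) : 0 < ga e z x := Real.exp_pos _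

lemma ga_nonneg (e : Λ →+ E) (z : E) (x : Λ) : 0 ≤ ga e z x := (ga_pos e z x).le

/-- the mass -/
noncomputable def GE (e : Λ →+ E) : ℝ := ∑' x, ga e 0 x

/-- the mass of a Gaussian weight is largest for the centre `0` -/
structure GW (e : Λ →+ E) : Prop where
  summ : ∀ z, Summable (ga e z)
  le : ∀ z, ∑' x, ga e z x ≤ GE e

lemma GE_ge_one {e : Λ →+ E} (hG : GW e) : 1 ≤ GE e := by
  unfold GE
  have h := (hG.summ 0).le_tsum 0 (fun j _ => ga_nonneg _ _ _)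
  refine le_trans (le_of_eq ?_) h
  unfold ga
  simp

lemma GE_pos {e : Λ →+ E} (hG : GW e) : 0 < GE e := lt_of_lt_of_le one_pos (GE_ge_one hG)

variable {e : Λ →+ E}

/-- Cauchy-Schwarz with weights -/
theorem cs_w {T : Type} {w x : T → ℝ} (hw0 : ∀ t, 0 ≤ w t) (hw : Summable w)
    (h1 : Summable fun t => w t * x t) (h2 : Summable fun t => w t * x t ^ 2) :
    (∑' t, w t * x t) ^ 2 ≤ (∑' t, w t) * ∑' t, w t * x t ^ 2 := by
  have hW : 0 ≤ ∑' t, w t := tsum_nonneg hw0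
  have key : ∀ c : ℝ, 0 ≤ (∑' t, w t * x t ^ 2) - 2 * c * (∑' t, w t * x t) + c ^ 2 * ∑' t, w t := by
    intro c
    have e : (∑' t, w t * x t ^ 2) - 2 * c * (∑' t, w t * x t) + c ^ 2 * ∑' t, w t =
        ∑' t, w t * (x t - c) ^ 2 := by
      rw [← tsum_mul_left, ← tsum_mul_left, ← h2.tsum_sub (h1.mul_left _),
        ← (h2.sub (h1.mul_left _)).tsum_add (hw.mul_left _)]
      refine tsum_congr fun t => ?_
      ring
    rw [e]
    exact tsum_nonneg fun t => mul_nonneg (hw0 t) (sq_nonneg _)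
  rcases hW.eq_or_lt with h0 | h0
  · rw [← h0, zero_mul]
    have hw' : w = 0 := (hasSum_zero_iff_of_nonneg (fun t => hw0 t)).1 (h0 ▸ hw.hasSum)
    rw [hw']
    simp
  · have k1 := key ((∑' t, w t * x t) / ∑' t, w t)
    have e : (∑' t, w t * x t ^ 2) - 2 * ((∑' t, w t * x t) / ∑' t, w t) * (∑' t, w t * x t) +
        ((∑' t, w t * x t) / ∑' t, w t) ^ 2 * ∑' t, w t =
        (∑' t, w t * x t ^ 2) - (∑' t, w t * x t) ^ 2 / (∑' t, w t) := by
      field_simp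
      ring
    rw [e, sub_nonneg, div_le_iff₀ h0] at k1
    linarith

/-- differencing -/
noncomputable def Dg (d : Λ) (F : Λ → ℂ) (h : Λ) : ℂ :=
  F (h + d) * (starRingEnd ℂ) (F h)

lemma Dg_norm (d : Λ) {F : Λ → ℂ} (hF : ∀ h, ‖F h‖ ≤ 1) (h : Λ) :
    ‖Dg d F h‖ ≤ 1 := by
  unfold Dg
  rw [norm_mul, RCLike.norm_conj]
  calc ‖F (h + d)‖ * ‖F h‖ ≤ 1 * 1 := mul_le_mul (hF _) (hF _) (norm_nonneg _) zero_le_one
    _ = 1 := one_mul 1

/-- the correlation factor -/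
noncomputable def Ef (e : Λ →+ E) (v v' : Λ) : ℝ :=
  Real.exp (2 * Real.pi * inner ℝ (e v) (e v'))

lemma Ef_pos (e : Λ →+ E) (v v' : Λ) : 0 < Ef e v v' := Real.exp_pos _

lemma Ef_le (e : Λ →+ E) {C : ℝ} {v v' : Λ} (hv : ‖e v‖ ^ 2 ≤ C)
    (hv' : ‖e v'‖ ^ 2 ≤ C) : Ef e v v' ≤ Real.exp (2 * Real.pi * C) := by
  unfold Ef
  apply Real.exp_le_exp.2
  refine mul_le_mul_of_nonneg_left ?_ (by positivity)
  refine (real_inner_le_norm _ _).trans ?_
  nlinarith [sq_nonneg (‖e v‖ - ‖e v'‖)]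

lemma ga_trans (e : Λ →+ E) (z : E) (g v : Λ) : ga e z (g + v) = ga e (z - e v) g := by
  unfold ga
  rw [map_add]
  have h1 : e g + e v - z = e g - (z - e v) := by abel
  rw [h1]

lemma ga_corr (e : Λ →+ E) (z : E) (h v v' : Λ) :
    ga e z (h + v) * ga e z (h + v') = Ef e v v' * ga e z (h + v + v') * ga e z h := by
  unfold ga Ef
  rw [← Real.exp_add, ← Real.exp_add, ← Real.exp_add]
  congr 1
  rw [map_add, map_add, map_add, map_add]
  obtain ⟨a, ha⟩ : ∃ a : E, a = e h - z := ⟨_, rfl⟩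
  have e1 : e h + e v - z = a + e v := by rw [ha]; abel
  have e2 : e h + e v' - z = a + e v' := by rw [ha]; abel
  have e3 : e h + e v + e v' - z = a + (e v + e v') := by rw [ha]; abel
  rw [e1, e2, e3, ← ha, norm_add_sq_real, norm_add_sq_real, norm_add_sq_real, norm_add_sq_real,
    inner_add_right]
  ring

/-- summability of a bounded function against the weight -/
lemma gsum (hG : GW e) (z : E) {F : Λ → ℂ} (hF : ∀ h, ‖F h‖ ≤ 1) :
    Summable fun h => F h * (ga e z h : ℂ) := by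
  refine Summable.of_norm_bounded (hG.summ z) fun h => ?_
  rw [norm_mul, Complex.norm_real, Real.norm_of_nonneg (ga_nonneg _ _ _)]
  exact mul_le_of_le_one_left (ga_nonneg _ _ _) (hF h)

lemma gsum_norm (hG : GW e) (z : E) {F : Λ → ℂ} (hF : ∀ h, ‖F h‖ ≤ 1) :
    ‖∑' h, F h * (ga e z h : ℂ)‖ ≤ GE e := by
  refine le_trans (tsum_of_norm_bounded (hG.summ z).hasSum fun h => ?_) (hG.le z)
  rw [norm_mul, Complex.norm_real, Real.norm_of_nonneg (ga_nonneg _ _ _)]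
  exact mul_le_of_le_one_left (ga_nonneg _ _ _) (hF h)

/-- one step of differencing -/
theorem step1 (hG : GW e) (z : E) {F : Λ → ℂ} (hF : ∀ h, ‖F h‖ ≤ 1)
    (V : Finset Λ) (hV : V.Nonempty) :
    ‖∑' h, F h * (ga e z h : ℂ)‖ ^ 2 ≤ GE e / (V.card : ℝ) ^ 2 *
      (∑ v ∈ V, ∑ v' ∈ V, (Ef e v v' : ℂ) * ∑' g, Dg (v - v') F g * (ga e (z - e v) g : ℂ)).re := by
  classical
  have hn : (0 : ℝ) < V.card := by exact_mod_cast hV.card_pos
  -- the function
  obtain ⟨u, hu⟩ : ∃ u : Λ → ℂ, u = fun h =>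
    ∑ v ∈ V, F (h + v) * ((ga e z (h + v) / ga e z h : ℝ) : ℂ) := ⟨_, rfl⟩
  have hsv : ∀ v : Λ, Summable fun h => F (h + v) * (ga e z (h + v) : ℂ) := by
    intro v
    exact ((Equiv.addRight v).summable_iff (f := fun h => F h * (ga e z h : ℂ))).2 (gsum hG z hF)
  have hu1 : ∀ h, (ga e z h : ℂ) * u h = ∑ v ∈ V, F (h + v) * (ga e z (h + v) : ℂ) := by
    intro h
    rw [hu, mul_sum]
    refine sum_congr rfl fun v _ => ?_
    have h0 : (ga e z h : ℂ) ≠ 0 := by exact_mod_cast (ga_pos e z h).ne'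
    push_cast
    field_simp
  have hS : (V.card : ℂ) * ∑' h, F h * (ga e z h : ℂ) = ∑' h, (ga e z h : ℂ) * u h := by
    simp_rw [hu1]
    rw [Summable.tsum_finsetSum (fun v _ => hsv v)]
    have e : ∀ v ∈ V, ∑' h, F (h + v) * (ga e z (h + v) : ℂ) = ∑' h, F h * (ga e z h : ℂ) := by
      intro v _
      exact (Equiv.addRight v).tsum_eq (fun h => F h * (ga e z h : ℂ))
    rw [sum_congr rfl e, sum_const, nsmul_eq_mul]
  have hsu : Summable fun h => (ga e z h : ℂ) * u h := by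
    simp_rw [hu1]
    exact summable_sum fun v _ => hsv v
  have hsq : ∀ h, (((ga e z h * ‖u h‖ ^ 2 : ℝ)) : ℂ) = ∑ v ∈ V, ∑ v' ∈ V,
      (Ef e v v' : ℂ) * (F (h + v) * (starRingEnd ℂ) (F (h + v')) * (ga e z (h + v + v') : ℂ)) := by
    intro h
    have h0 : (ga e z h : ℂ) ≠ 0 := by exact_mod_cast (ga_pos e z h).ne'
    have e1 : (((ga e z h * ‖u h‖ ^ 2 : ℝ)) : ℂ) = (ga e z h : ℂ) * (u h * (starRingEnd ℂ) (u h)) := by
      rw [mul_conj, normSq_eq_norm_sq]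
      push_cast
      ring
    rw [e1, hu]
    simp only
    rw [map_sum, sum_mul_sum, mul_sum]
    refine sum_congr rfl fun v _ => ?_
    rw [mul_sum]
    refine sum_congr rfl fun v' _ => ?_
    rw [map_mul, conj_ofReal]
    have h2 := ga_corr e z h v v'
    have h3 : (ga e z (h + v) : ℂ) * ga e z (h + v') = Ef e v v' * ga e z (h + v + v') * ga e z h := by
      exact_mod_cast h2
    push_cast
    field_simp
    linear_combination (F (h + v) * (starRingEnd ℂ) (F (h + v'))) * h3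
  have hst : ∀ v v' : Λ, Summable fun h =>
      (Ef e v v' : ℂ) * (F (h + v) * (starRingEnd ℂ) (F (h + v')) * (ga e z (h + v + v') : ℂ)) := by
    intro v v'
    refine Summable.mul_left _ ?_
    refine Summable.of_norm_bounded (g := fun h => ga e z (h + (v + v')))
      (((Equiv.addRight (v + v')).summable_iff (f := ga e z)).2 (hG.summ z)) fun h => ?_
    rw [norm_mul, Complex.norm_real, Real.norm_of_nonneg (ga_nonneg _ _ _), norm_mul,
      RCLike.norm_conj, ← add_assoc]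
    refine mul_le_of_le_one_left (ga_nonneg _ _ _) ?_
    calc ‖F (h + v)‖ * ‖F (h + v')‖ ≤ 1 * 1 := mul_le_mul (hF _) (hF _) (norm_nonneg _) zero_le_one
      _ = 1 := one_mul 1
  have hssqC : Summable fun h => (((ga e z h * ‖u h‖ ^ 2 : ℝ)) : ℂ) := by
    simp_rw [hsq]
    exact summable_sum fun v _ => summable_sum fun v' _ => hst v v'
  have hssq : Summable fun h => ga e z h * ‖u h‖ ^ 2 := by
    exact_mod_cast hssqC
  have hsn : Summable fun h => ga e z h * ‖u h‖ := by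
    refine hsu.norm.congr fun h => ?_
    rw [norm_mul, Complex.norm_real, Real.norm_of_nonneg (ga_nonneg _ _ _)]
  have hcs := cs_w (w := ga e z) (x := fun h => ‖u h‖) (fun h => ga_nonneg _ _ _)
    (hG.summ z) hsn hssq
  have hT : (∑' h, ga e z h * ‖u h‖ ^ 2) =
      (∑ v ∈ V, ∑ v' ∈ V, (Ef e v v' : ℂ) * ∑' g, Dg (v - v') F g * (ga e (z - e v) g : ℂ)).re := by
    have e1 : ((∑' h, ga e z h * ‖u h‖ ^ 2 : ℝ) : ℂ) =
        ∑ v ∈ V, ∑ v' ∈ V, (Ef e v v' : ℂ) * ∑' g, Dg (v - v') F g * (ga e (z - e v) g : ℂ) := by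
      rw [ofReal_tsum]
      simp_rw [hsq]
      rw [Summable.tsum_finsetSum (fun v _ => summable_sum fun v' _ => hst v v')]
      refine sum_congr rfl fun v _ => ?_
      rw [Summable.tsum_finsetSum (fun v' _ => hst v v')]
      refine sum_congr rfl fun v' _ => ?_
      rw [tsum_mul_left]
      congr 1
      rw [← (Equiv.addRight v').tsum_eq (fun g => Dg (v - v') F g * (ga e (z - e v) g : ℂ))]
      refine tsum_congr fun h => ?_
      rw [Equiv.coe_addRight, ← ga_trans]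
      unfold Dg
      have e2 : h + v' + (v - v') = h + v := by abel
      have e3 : h + v' + v = h + v + v' := by abel
      rw [e2, e3]
    rw [← e1, ofReal_re]
  have hG : ∑' h, ga e z h ≤ GE e := hG.le z
  have h5 : ‖(V.card : ℂ) * ∑' h, F h * (ga e z h : ℂ)‖ ≤ ∑' h, ga e z h * ‖u h‖ := by
    rw [hS]
    refine tsum_of_norm_bounded hsn.hasSum fun h => ?_
    rw [norm_mul, Complex.norm_real, Real.norm_of_nonneg (ga_nonneg _ _ _)]
  have hTnn : 0 ≤ ∑' h, ga e z h * ‖u h‖ ^ 2 :=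
    tsum_nonneg fun h => mul_nonneg (ga_nonneg _ _ _) (sq_nonneg _)
  have h6 : ((V.card : ℝ) * ‖∑' h, F h * (ga e z h : ℂ)‖) ^ 2 ≤ GE e * ∑' h, ga e z h * ‖u h‖ ^ 2 := by
    rw [norm_mul, Complex.norm_natCast] at h5
    calc ((V.card : ℝ) * ‖∑' h, F h * (ga e z h : ℂ)‖) ^ 2 ≤ (∑' h, ga e z h * ‖u h‖) ^ 2 :=
          pow_le_pow_left₀ (by positivity) h5 2
      _ ≤ _ := hcs
      _ ≤ _ := mul_le_mul_of_nonneg_right hG hTnn
  rw [← hT, div_mul_eq_mul_div, le_div_iff₀ (by positivity)]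
  linarith [h6]

/-- the averaged sums -/
noncomputable def Bf (ω : L → ℝ) (e : Λ →+ E) (z : E) (F : L → Λ → ℂ) : ℝ :=
  ‖∑' l, (ω l : ℂ) * ∑' h, F l h * (ga e z h : ℂ)‖

noncomputable def Af (ω : L → ℝ) (e : Λ →+ E) (z : E) (F : L → Λ → ℂ) : ℝ :=
  ∑' l, ω l * ‖∑' h, F l h * (ga e z h : ℂ)‖ ^ 2

section

variable {ω : L → ℝ} (hω : Summable ω) (hω0 : ∀ l, 0 ≤ ω l) (hG : GW e)
  {F : L → Λ → ℂ} (hF : ∀ l h, ‖F l h‖ ≤ 1)

include hω hω0 hG hF

lemma B_summ (z : E) : Summable fun l => (ω l : ℂ) * ∑' h, F l h * (ga e z h : ℂ) := by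
  refine Summable.of_norm_bounded (hω.mul_right (GE e)) fun l => ?_
  rw [norm_mul, Complex.norm_real, Real.norm_of_nonneg (hω0 l)]
  exact mul_le_mul_of_nonneg_left (gsum_norm hG z (hF l)) (hω0 l)

lemma B_triv (z : E) : Bf ω e z F ≤ (∑' l, ω l) * GE e := by
  unfold Bf
  rw [← tsum_mul_right]
  refine tsum_of_norm_bounded (hω.mul_right (GE e)).hasSum fun l => ?_
  rw [norm_mul, Complex.norm_real, Real.norm_of_nonneg (hω0 l)]
  exact mul_le_mul_of_nonneg_left (gsum_norm hG z (hF l)) (hω0 l)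

lemma A_summ (z : E) : Summable fun l => ω l * ‖∑' h, F l h * (ga e z h : ℂ)‖ ^ 2 := by
  refine Summable.of_nonneg_of_le (fun l => mul_nonneg (hω0 l) (sq_nonneg _)) (fun l => ?_)
    (hω.mul_right (GE e ^ 2))
  exact mul_le_mul_of_nonneg_left (pow_le_pow_left₀ (norm_nonneg _) (gsum_norm hG z (hF l)) 2) (hω0 l)

lemma B_sq (z : E) : Bf ω e z F ^ 2 ≤ (∑' l, ω l) * Af ω e z F := by
  have h1 : Summable fun l => ω l * ‖∑' h, F l h * (ga e z h : ℂ)‖ := by
    refine (B_summ hω hω0 hG hF z).norm.congr fun l => ?_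
    rw [norm_mul, Complex.norm_real, Real.norm_of_nonneg (hω0 l)]
  refine le_trans ?_ (cs_w hω0 hω h1 (A_summ hω hω0 hG hF z))
  unfold Bf
  refine pow_le_pow_left₀ (norm_nonneg _) ?_ 2
  refine tsum_of_norm_bounded h1.hasSum fun l => ?_
  rw [norm_mul, Complex.norm_real, Real.norm_of_nonneg (hω0 l)]

theorem A_step (z : E) (V : Finset Λ) (hV : V.Nonempty) {C : ℝ} (hVK : ∀ v ∈ V, ‖e v‖ ^ 2 ≤ C) :
    Af ω e z F ≤ GE e * Real.exp (2 * Real.pi * C) / (V.card : ℝ) ^ 2 *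
      ∑ v ∈ V, ∑ v' ∈ V, Bf ω e (z - e v) (fun l => Dg (v - v') (F l)) := by
  classical
  have hG0 := GE_pos hG
  have hn : (0 : ℝ) < V.card := by exact_mod_cast hV.card_pos
  obtain ⟨Q, hQ⟩ : ∃ Q : L → ℂ, Q = fun l =>
    ∑ v ∈ V, ∑ v' ∈ V, (Ef e v v' : ℂ) * ∑' g, Dg (v - v') (F l) g * (ga e (z - e v) g : ℂ) := ⟨_, rfl⟩
  have hD : ∀ d : Λ, ∀ l h, ‖(fun l => Dg d (F l)) l h‖ ≤ 1 := fun d l h => Dg_norm d (hF l) h
  have hBs : ∀ v v' : Λ, Summable fun l => (Ef e v v' : ℂ) * ((ω l : ℂ) *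
      ∑' g, Dg (v - v') (F l) g * (ga e (z - e v) g : ℂ)) := by
    intro v v'
    exact (B_summ hω hω0 hG (hD (v - v')) (z - e v)).mul_left _
  have hωQ : ∀ l, (ω l : ℂ) * Q l = ∑ v ∈ V, ∑ v' ∈ V, (Ef e v v' : ℂ) * ((ω l : ℂ) *
      ∑' g, Dg (v - v') (F l) g * (ga e (z - e v) g : ℂ)) := by
    intro l
    rw [hQ]
    simp only
    rw [mul_sum]
    refine sum_congr rfl fun v _ => ?_
    rw [mul_sum]
    refine sum_congr rfl fun v' _ => ?_
    ring
  have hQs : Summable fun l => (ω l : ℂ) * Q l := by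
    simp_rw [hωQ]
    exact summable_sum fun v _ => summable_sum fun v' _ => hBs v v'
  have hQre : Summable fun l => ω l * (Q l).re := by
    refine (hasSum_re hQs.hasSum).summable.congr fun l => ?_
    rw [re_ofReal_mul]
  have h1 : Af ω e z F ≤ ∑' l, GE e / (V.card : ℝ) ^ 2 * (ω l * (Q l).re) := by
    unfold Af
    refine (A_summ hω hω0 hG hF z).tsum_le_tsum (fun l => ?_) (hQre.mul_left _)
    have := step1 hG z (hF l) V hV
    have eQ : (Q l).re = (∑ v ∈ V, ∑ v' ∈ V, (Ef e v v' : ℂ) *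
      ∑' g, Dg (v - v') (F l) g * (ga e (z - e v) g : ℂ)).re := by rw [hQ]
    rw [← eQ] at this
    calc ω l * ‖∑' h, F l h * (ga e z h : ℂ)‖ ^ 2 ≤ ω l * (GE e / (V.card : ℝ) ^ 2 * (Q l).re) :=
          mul_le_mul_of_nonneg_left this (hω0 l)
      _ = _ := by ring
  rw [tsum_mul_left] at h1
  have h2 : ∑' l, ω l * (Q l).re ≤ ‖∑' l, (ω l : ℂ) * Q l‖ := by
    have e : ∑' l, ω l * (Q l).re = (∑' l, (ω l : ℂ) * Q l).re := by
      rw [← (hasSum_re hQs.hasSum).tsum_eq]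
      refine tsum_congr fun l => ?_
      rw [re_ofReal_mul]
    rw [e]
    exact re_le_norm _
  have h3 : ‖∑' l, (ω l : ℂ) * Q l‖ ≤ Real.exp (2 * Real.pi * C) *
      ∑ v ∈ V, ∑ v' ∈ V, Bf ω e (z - e v) (fun l => Dg (v - v') (F l)) := by
    simp_rw [hωQ]
    rw [Summable.tsum_finsetSum (fun v _ => summable_sum fun v' _ => hBs v v'), mul_sum]
    refine (norm_sum_le _ _).trans (sum_le_sum fun v hv => ?_)
    rw [Summable.tsum_finsetSum (fun v' _ => hBs v v'), mul_sum]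
    refine (norm_sum_le _ _).trans (sum_le_sum fun v' hv' => ?_)
    rw [tsum_mul_left, norm_mul, Complex.norm_real, Real.norm_of_nonneg (Ef_pos _ _ _).le]
    exact mul_le_mul_of_nonneg_right (Ef_le e (hVK v hv) (hVK v' hv')) (norm_nonneg _)
  calc Af ω e z F ≤ GE e / (V.card : ℝ) ^ 2 * ∑' l, ω l * (Q l).re := h1
    _ ≤ GE e / (V.card : ℝ) ^ 2 * (Real.exp (2 * Real.pi * C) *
      ∑ v ∈ V, ∑ v' ∈ V, Bf ω e (z - e v) (fun l => Dg (v - v') (F l))) :=
        mul_le_mul_of_nonneg_left (h2.trans h3) (by positivity)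
    _ = _ := by ring

end

end Run7.h343.NF
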