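import Pool.Agent.Run7.h343.NF.Vdc

/-!
Three steps of differencing.
-/

set_option autoImplicit false

namespace Run7.h343.NF

open Complex Finset

variable {L : Type} {Λ : Type} [AddCommGroup Λ] {E : Type} [NormedAddCommGroup E] [InnerProductSpace ℝ E]
  {e : Λ →+ E}

/-- the differenced family -/
noncomputable def Dx (x : Λ × Λ) (F : L → Λ → ℂ) :
    L → Λ → ℂ := fun l => Dg (x.1 - x.2) (F l)

lemma Dx_norm (x : Λ × Λ) {F : L → Λ → ℂ}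
    (hF : ∀ l h, ‖F l h‖ ≤ 1) : ∀ l h, ‖Dx x F l h‖ ≤ 1 := fun l h => Dg_norm _ (hF l) h

lemma Af_nonneg (ω : L → ℝ) (hω0 : ∀ l, 0 ≤ ω l) (e : Λ →+ E) (z : E)
    (F : L → Λ → ℂ) : 0 ≤ Af ω e z F :=
  tsum_nonneg fun l => mul_nonneg (hω0 l) (sq_nonneg _)

lemma Bf_nonneg (ω : L → ℝ) (e : Λ →+ E) (z : E)
    (F : L → Λ → ℂ) : 0 ≤ Bf ω e z F := norm_nonneg _

lemma split_diag {T : Type} [DecidableEq T] (V : Finset T) (b : T → T → ℝ) {B : ℝ}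
    (hb : ∀ v ∈ V, b v v ≤ B) : ∑ v ∈ V, ∑ v' ∈ V, b v v' ≤
      V.card * B + ∑ x ∈ V.offDiag, b x.1 x.2 := by
  classical
  rw [← sum_product', ← Finset.diag_union_offDiag, sum_union (Finset.disjoint_diag_offDiag V)]
  refine add_le_add ?_ le_rfl
  rw [← nsmul_eq_mul]
  have h1 := Finset.sum_le_card_nsmul V.diag (fun x => b x.1 x.2) B (by
    intro x hx
    rw [Finset.mem_diag] at hx
    rw [← hx.2]
    exact hb _ hx.1)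
  rwa [Finset.diag_card] at h1

lemma offDiag_card_le {T : Type} [DecidableEq T] (V : Finset T) :
    ((V.offDiag.card : ℕ) : ℝ) ≤ (V.card : ℝ) ^ 2 := by
  rw [Finset.offDiag_card]
  have : ((V.card * V.card - V.card : ℕ) : ℝ) ≤ ((V.card * V.card : ℕ) : ℝ) := by
    exact_mod_cast Nat.sub_le _ _
  refine this.trans (le_of_eq ?_)
  push_cast
  ring

section

variable {ω : L → ℝ} (hω : Summable ω) (hω0 : ∀ l, 0 ≤ ω l) (hG : GW e)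
  {F : L → Λ → ℂ} (hF : ∀ l h, ‖F l h‖ ≤ 1)

include hω hω0 hG hF

theorem A_one (z : E) (V : Finset Λ) (hV : V.Nonempty) {C : ℝ} (hVK : ∀ v ∈ V, ‖e v‖ ^ 2 ≤ C) :
    Af ω e z F ≤ GE e * Real.exp (2 * Real.pi * C) * ((∑' l, ω l) * GE e / V.card +
      1 / (V.card : ℝ) ^ 2 * ∑ x ∈ V.offDiag, Bf ω e (z - e x.1) (Dx x F)) := by
  classical
  have hG0 := GE_pos hG
  have hn : (0 : ℝ) < V.card := by exact_mod_cast hV.card_pos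
  have h1 := A_step hω hω0 hG hF z V hV hVK
  have h2 := split_diag V (fun v v' => Bf ω e (z - e v) (fun l => Dg (v - v') (F l)))
    (B := (∑' l, ω l) * GE e) (fun v _ => B_triv hω hω0 hG (fun l h => Dg_norm _ (hF l) h) _)
  calc Af ω e z F ≤ _ := h1
    _ ≤ GE e * Real.exp (2 * Real.pi * C) / (V.card : ℝ) ^ 2 * (V.card * ((∑' l, ω l) * GE e) +
        ∑ x ∈ V.offDiag, Bf ω e (z - e x.1) (fun l => Dg (x.1 - x.2) (F l))) :=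
      mul_le_mul_of_nonneg_left h2 (by positivity)
    _ = _ := by
      unfold Dx
      field_simp

theorem A_sq (z : E) (V : Finset Λ) (hV : V.Nonempty) {C : ℝ} (hVK : ∀ v ∈ V, ‖e v‖ ^ 2 ≤ C) :
    Af ω e z F ^ 2 ≤ 2 * (GE e * Real.exp (2 * Real.pi * C)) ^ 2 * ((∑' l, ω l) ^ 2 * GE e ^ 2 / (V.card : ℝ) ^ 2 +
      (∑' l, ω l) / (V.card : ℝ) ^ 2 * ∑ x ∈ V.offDiag, Af ω e (z - e x.1) (Dx x F)) := by
  classical
  have hG0 := GE_pos hG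
  have hn : (0 : ℝ) < V.card := by exact_mod_cast hV.card_pos
  have hM : 0 ≤ ∑' l, ω l := tsum_nonneg hω0
  have h1 := A_one hω hω0 hG hF z V hV hVK
  have h2 : (∑ x ∈ V.offDiag, Bf ω e (z - e x.1) (Dx x F)) ^ 2 ≤ (V.card : ℝ) ^ 2 *
      ((∑' l, ω l) * ∑ x ∈ V.offDiag, Af ω e (z - e x.1) (Dx x F)) := by
    have h3 := sq_sum_le_card_mul_sum_sq (s := V.offDiag) (f := fun x => Bf ω e (z - e x.1) (Dx x F))
    have h4 : ∑ x ∈ V.offDiag, Bf ω e (z - e x.1) (Dx x F) ^ 2 ≤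
        (∑' l, ω l) * ∑ x ∈ V.offDiag, Af ω e (z - e x.1) (Dx x F) := by
      rw [mul_sum]
      exact sum_le_sum fun x _ => B_sq hω hω0 hG (Dx_norm x hF) _
    calc _ ≤ (V.offDiag.card : ℝ) * ∑ x ∈ V.offDiag, Bf ω e (z - e x.1) (Dx x F) ^ 2 := h3
      _ ≤ (V.card : ℝ) ^ 2 * ((∑' l, ω l) * ∑ x ∈ V.offDiag, Af ω e (z - e x.1) (Dx x F)) :=
        mul_le_mul (offDiag_card_le V) h4 (sum_nonneg fun x _ => sq_nonneg _) (by positivity)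
  obtain ⟨a, ha⟩ : ∃ a, a = (∑' l, ω l) * GE e / V.card := ⟨_, rfl⟩
  obtain ⟨b, hb⟩ : ∃ b, b = ∑ x ∈ V.offDiag, Bf ω e (z - e x.1) (Dx x F) := ⟨_, rfl⟩
  rw [← ha, ← hb] at h1
  rw [← hb] at h2
  have hb0 : 0 ≤ b := by rw [hb]; exact sum_nonneg fun x _ => Bf_nonneg _ _ _ _
  have ha0 : 0 ≤ a := by rw [ha]; positivity
  calc Af ω e z F ^ 2 ≤ (GE e * Real.exp (2 * Real.pi * C) * (a + 1 / (V.card : ℝ) ^ 2 * b)) ^ 2 :=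
        pow_le_pow_left₀ (Af_nonneg _ hω0 _ _ _) h1 2
    _ = (GE e * Real.exp (2 * Real.pi * C)) ^ 2 * (a + 1 / (V.card : ℝ) ^ 2 * b) ^ 2 := by ring
    _ ≤ (GE e * Real.exp (2 * Real.pi * C)) ^ 2 * (2 * (a ^ 2 + (1 / (V.card : ℝ) ^ 2 * b) ^ 2)) :=
        mul_le_mul_of_nonneg_left add_sq_le (by positivity)
    _ = 2 * (GE e * Real.exp (2 * Real.pi * C)) ^ 2 * (a ^ 2 + 1 / (V.card : ℝ) ^ 4 * b ^ 2) := by ring
    _ ≤ 2 * (GE e * Real.exp (2 * Real.pi * C)) ^ 2 * (a ^ 2 + 1 / (V.card : ℝ) ^ 4 * ((V.card : ℝ) ^ 2 *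
      ((∑' l, ω l) * ∑ x ∈ V.offDiag, Af ω e (z - e x.1) (Dx x F)))) := by
        refine mul_le_mul_of_nonneg_left (add_le_add le_rfl ?_) (by positivity)
        exact mul_le_mul_of_nonneg_left h2 (by positivity)
    _ = _ := by
        rw [ha]
        field_simp

theorem A_four (z : E) (V : Finset Λ) (hV : V.Nonempty) {C : ℝ} (hVK : ∀ v ∈ V, ‖e v‖ ^ 2 ≤ C) :
    Af ω e z F ^ 4 ≤ 8 * (GE e * Real.exp (2 * Real.pi * C)) ^ 4 * ((∑' l, ω l) ^ 4 * GE e ^ 4 / (V.card : ℝ) ^ 4 +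
      (∑' l, ω l) ^ 2 / (V.card : ℝ) ^ 2 * ∑ x ∈ V.offDiag, Af ω e (z - e x.1) (Dx x F) ^ 2) := by
  classical
  have hG0 := GE_pos hG
  have hn : (0 : ℝ) < V.card := by exact_mod_cast hV.card_pos
  have hM : 0 ≤ ∑' l, ω l := tsum_nonneg hω0
  have h1 := A_sq hω hω0 hG hF z V hV hVK
  have h2 : (∑ x ∈ V.offDiag, Af ω e (z - e x.1) (Dx x F)) ^ 2 ≤ (V.card : ℝ) ^ 2 *
      ∑ x ∈ V.offDiag, Af ω e (z - e x.1) (Dx x F) ^ 2 := by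
    have h3 := sq_sum_le_card_mul_sum_sq (s := V.offDiag) (f := fun x => Af ω e (z - e x.1) (Dx x F))
    exact h3.trans (mul_le_mul_of_nonneg_right (offDiag_card_le V) (sum_nonneg fun x _ => sq_nonneg _))
  obtain ⟨a, ha⟩ : ∃ a, a = (∑' l, ω l) ^ 2 * GE e ^ 2 / (V.card : ℝ) ^ 2 := ⟨_, rfl⟩
  obtain ⟨b, hb⟩ : ∃ b, b = ∑ x ∈ V.offDiag, Af ω e (z - e x.1) (Dx x F) := ⟨_, rfl⟩
  rw [← ha, ← hb] at h1
  rw [← hb] at h2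
  have hb0 : 0 ≤ b := by rw [hb]; exact sum_nonneg fun x _ => Af_nonneg _ hω0 _ _ _
  have ha0 : 0 ≤ a := by rw [ha]; positivity
  calc Af ω e z F ^ 4 = (Af ω e z F ^ 2) ^ 2 := by ring
    _ ≤ (2 * (GE e * Real.exp (2 * Real.pi * C)) ^ 2 * (a + (∑' l, ω l) / (V.card : ℝ) ^ 2 * b)) ^ 2 :=
        pow_le_pow_left₀ (sq_nonneg _) h1 2
    _ = 4 * (GE e * Real.exp (2 * Real.pi * C)) ^ 4 * (a + (∑' l, ω l) / (V.card : ℝ) ^ 2 * b) ^ 2 := by ring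
    _ ≤ 4 * (GE e * Real.exp (2 * Real.pi * C)) ^ 4 * (2 * (a ^ 2 + ((∑' l, ω l) / (V.card : ℝ) ^ 2 * b) ^ 2)) :=
        mul_le_mul_of_nonneg_left add_sq_le (by positivity)
    _ = 8 * (GE e * Real.exp (2 * Real.pi * C)) ^ 4 * (a ^ 2 + (∑' l, ω l) ^ 2 / (V.card : ℝ) ^ 4 * b ^ 2) := by
        ring
    _ ≤ 8 * (GE e * Real.exp (2 * Real.pi * C)) ^ 4 * (a ^ 2 + (∑' l, ω l) ^ 2 / (V.card : ℝ) ^ 4 * ((V.card : ℝ) ^ 2 *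
      ∑ x ∈ V.offDiag, Af ω e (z - e x.1) (Dx x F) ^ 2)) := by
        refine mul_le_mul_of_nonneg_left (add_le_add le_rfl ?_) (by positivity)
        exact mul_le_mul_of_nonneg_left h2 (by positivity)
    _ = _ := by
        rw [ha]
        field_simp

theorem vdc3 (z : E) (V1 V2 V3 : Finset Λ) (hV1 : V1.Nonempty) (hV2 : V2.Nonempty)
    (hV3 : V3.Nonempty) {C : ℝ} (hC : 0 ≤ C) (h1 : ∀ v ∈ V1, ‖e v‖ ^ 2 ≤ C) (h2 : ∀ v ∈ V2, ‖e v‖ ^ 2 ≤ C)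
    (h3 : ∀ v ∈ V3, ‖e v‖ ^ 2 ≤ C) :
    Af ω e z F ^ 4 ≤ 16 * Real.exp (2 * Real.pi * C) ^ 7 * ((∑' l, ω l) ^ 4 * GE e ^ 8 *
      (1 / (V1.card : ℝ) ^ 4 + 1 / (V2.card : ℝ) ^ 2 + 1 / (V3.card : ℝ)) +
      (∑' l, ω l) ^ 3 * GE e ^ 7 / ((V1.card : ℝ) * V2.card * V3.card) ^ 2 *
        ∑ x1 ∈ V1.offDiag, ∑ x2 ∈ V2.offDiag, ∑ x3 ∈ V3.offDiag,
          Bf ω e (z - e x1.1 - e x2.1 - e x3.1) (Dx x3 (Dx x2 (Dx x1 F)))) := by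
  classical
  have hG0 := GE_pos hG
  have hn1 : (0 : ℝ) < V1.card := by exact_mod_cast hV1.card_pos
  have hn2 : (0 : ℝ) < V2.card := by exact_mod_cast hV2.card_pos
  have hn3 : (0 : ℝ) < V3.card := by exact_mod_cast hV3.card_pos
  have hM : 0 ≤ ∑' l, ω l := tsum_nonneg hω0
  obtain ⟨M, hMd⟩ : ∃ M, M = ∑' l, ω l := ⟨_, rfl⟩
  obtain ⟨G, hGd⟩ : ∃ G, G = GE e := ⟨_, rfl⟩
  obtain ⟨Ee, hEd⟩ : ∃ Ee, Ee = Real.exp (2 * Real.pi * C) := ⟨_, rfl⟩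
  have hE1 : 1 ≤ Ee := by
    rw [hEd]
    exact Real.one_le_exp (by positivity)
  have hE0 : 0 < Ee := by linarith
  have k1 := A_four hω hω0 hG hF z V1 hV1 h1
  have k2 : ∀ x1 : Λ × Λ, Af ω e (z - e x1.1) (Dx x1 F) ^ 2 ≤
      2 * (G * Ee) ^ 2 * (M ^ 2 * G ^ 2 / (V2.card : ℝ) ^ 2 +
      M / (V2.card : ℝ) ^ 2 * ∑ x ∈ V2.offDiag, Af ω e (z - e x1.1 - e x.1) (Dx x (Dx x1 F))) := by
    intro x1
    rw [hGd, hMd, hEd]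
    exact A_sq hω hω0 hG (Dx_norm x1 hF) _ V2 hV2 h2
  have k3 : ∀ x1 x2 : Λ × Λ, Af ω e (z - e x1.1 - e x2.1) (Dx x2 (Dx x1 F)) ≤
      G * Ee * (M * G / V3.card +
      1 / (V3.card : ℝ) ^ 2 * ∑ x ∈ V3.offDiag, Bf ω e (z - e x1.1 - e x2.1 - e x.1) (Dx x (Dx x2 (Dx x1 F)))) := by
    intro x1 x2
    rw [hGd, hMd, hEd]
    exact A_one hω hω0 hG (Dx_norm x2 (Dx_norm x1 hF)) _ V3 hV3 h3
  rw [← hMd, ← hGd, ← hEd] at k1 ⊢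
  have hG0 : 0 < G := by rw [hGd]; exact hG0
  have hM0 : 0 ≤ M := by rw [hMd]; exact hM
  obtain ⟨S3, hS3⟩ : ∃ S3 : Λ × Λ → Λ × Λ → ℝ,
    S3 = fun x1 x2 => ∑ x ∈ V3.offDiag, Bf ω e (z - e x1.1 - e x2.1 - e x.1) (Dx x (Dx x2 (Dx x1 F))) := ⟨_, rfl⟩
  have hS3n : ∀ x1 x2, 0 ≤ S3 x1 x2 := by
    intro x1 x2
    rw [hS3]
    exact sum_nonneg fun x _ => Bf_nonneg _ _ _ _
  have k3' : ∀ x1 : Λ × Λ,
      ∑ x2 ∈ V2.offDiag, Af ω e (z - e x1.1 - e x2.1) (Dx x2 (Dx x1 F)) ≤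
      G * Ee * ((V2.card : ℝ) ^ 2 * (M * G / V3.card) +
        1 / (V3.card : ℝ) ^ 2 * ∑ x2 ∈ V2.offDiag, S3 x1 x2) := by
    intro x1
    have := sum_le_sum fun x2 (_ : x2 ∈ V2.offDiag) => k3 x1 x2
    refine this.trans ?_
    rw [← mul_sum, sum_add_distrib, sum_const, nsmul_eq_mul, ← mul_sum]
    refine mul_le_mul_of_nonneg_left (add_le_add ?_ ?_) (by positivity)
    · exact mul_le_mul_of_nonneg_right (offDiag_card_le V2) (by positivity)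
    · rw [hS3]
  have k2' : ∑ x1 ∈ V1.offDiag, Af ω e (z - e x1.1) (Dx x1 F) ^ 2 ≤
      2 * (G * Ee) ^ 2 * ((V1.card : ℝ) ^ 2 * (M ^ 2 * G ^ 2 / (V2.card : ℝ) ^ 2) +
      M / (V2.card : ℝ) ^ 2 * (G * Ee * ((V1.card : ℝ) ^ 2 * ((V2.card : ℝ) ^ 2 * (M * G / V3.card)) +
        1 / (V3.card : ℝ) ^ 2 * ∑ x1 ∈ V1.offDiag, ∑ x2 ∈ V2.offDiag, S3 x1 x2))) := by
    have := sum_le_sum fun x1 (_ : x1 ∈ V1.offDiag) => k2 x1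
    refine this.trans ?_
    rw [← mul_sum, sum_add_distrib, sum_const, nsmul_eq_mul, ← mul_sum]
    refine mul_le_mul_of_nonneg_left (add_le_add ?_ ?_) (by positivity)
    · exact mul_le_mul_of_nonneg_right (offDiag_card_le V1) (by positivity)
    · refine mul_le_mul_of_nonneg_left ?_ (by positivity)
      refine (sum_le_sum fun x1 _ => k3' x1).trans ?_
      rw [← mul_sum, sum_add_distrib, sum_const, nsmul_eq_mul, ← mul_sum]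
      refine mul_le_mul_of_nonneg_left (add_le_add ?_ le_rfl) (by positivity)
      exact mul_le_mul_of_nonneg_right (offDiag_card_le V1) (by positivity)
  obtain ⟨SS, hSS⟩ : ∃ SS, SS = ∑ x1 ∈ V1.offDiag, ∑ x2 ∈ V2.offDiag, S3 x1 x2 := ⟨_, rfl⟩
  have hSSn : 0 ≤ SS := by
    rw [hSS]
    exact sum_nonneg fun x1 _ => sum_nonneg fun x2 _ => hS3n x1 x2
  have hgoal : ∑ x1 ∈ V1.offDiag, ∑ x2 ∈ V2.offDiag, ∑ x3 ∈ V3.offDiag,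
          Bf ω e (z - e x1.1 - e x2.1 - e x3.1) (Dx x3 (Dx x2 (Dx x1 F))) = SS := by
    rw [hSS, hS3]
  rw [hgoal]
  rw [← hSS] at k2'
  obtain ⟨n1, hn1d⟩ : ∃ n1 : ℝ, n1 = V1.card := ⟨_, rfl⟩
  obtain ⟨n2, hn2d⟩ : ∃ n2 : ℝ, n2 = V2.card := ⟨_, rfl⟩
  obtain ⟨n3, hn3d⟩ : ∃ n3 : ℝ, n3 = V3.card := ⟨_, rfl⟩
  rw [← hn1d, ← hn2d, ← hn3d] at k2' ⊢
  rw [← hn1d] at k1
  rw [← hn1d] at hn1
  rw [← hn2d] at hn2
  rw [← hn3d] at hn3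
  calc Af ω e z F ^ 4 ≤ _ := k1
    _ ≤ 8 * (G * Ee) ^ 4 * (M ^ 4 * G ^ 4 / n1 ^ 4 + M ^ 2 / n1 ^ 2 *
        (2 * (G * Ee) ^ 2 * (n1 ^ 2 * (M ^ 2 * G ^ 2 / n2 ^ 2) +
      M / n2 ^ 2 * (G * Ee * (n1 ^ 2 * (n2 ^ 2 * (M * G / n3)) + 1 / n3 ^ 2 * SS))))) := by
        refine mul_le_mul_of_nonneg_left (add_le_add le_rfl ?_) (by positivity)
        exact mul_le_mul_of_nonneg_left k2' (by positivity)
    _ = 8 * Ee ^ 4 * (M ^ 4 * G ^ 8 * (1 / n1 ^ 4)) + 16 * Ee ^ 6 * (M ^ 4 * G ^ 8 * (1 / n2 ^ 2)) +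
        16 * Ee ^ 7 * (M ^ 4 * G ^ 8 * (1 / n3)) + 16 * Ee ^ 7 * (M ^ 3 * G ^ 7 / (n1 * n2 * n3) ^ 2 * SS) := by
        field_simp
        ring
    _ ≤ 16 * Ee ^ 7 * (M ^ 4 * G ^ 8 * (1 / n1 ^ 4)) + 16 * Ee ^ 7 * (M ^ 4 * G ^ 8 * (1 / n2 ^ 2)) +
        16 * Ee ^ 7 * (M ^ 4 * G ^ 8 * (1 / n3)) + 16 * Ee ^ 7 * (M ^ 3 * G ^ 7 / (n1 * n2 * n3) ^ 2 * SS) := by
        have e4 : Ee ^ 4 ≤ Ee ^ 7 := pow_le_pow_right₀ hE1 (by norm_num)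
        have e6 : Ee ^ 6 ≤ Ee ^ 7 := pow_le_pow_right₀ hE1 (by norm_num)
        have e8 : 8 * Ee ^ 4 ≤ 16 * Ee ^ 7 := by nlinarith [pow_pos hE0 7]
        have e9 : 16 * Ee ^ 6 ≤ 16 * Ee ^ 7 := by linarith
        refine add_le_add (add_le_add (add_le_add ?_ ?_) le_rfl) le_rfl
        · exact mul_le_mul_of_nonneg_right e8 (by positivity)
        · exact mul_le_mul_of_nonneg_right e9 (by positivity)
    _ = _ := by ring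

end

end Run7.h343.NF
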